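import Mathlib

/-!
# MP_cb27ba_nt, project PG: lemmas on 2 x 2 matrices (centralisers, normalisers, unipotents)
-/

set_option autoImplicit false

namespace MPcb27.PG

namespace MAT

variable {F : Type} [Field F]

/-- discriminant -/
def disc (y : Matrix (Fin 2) (Fin 2) F) : F := y.trace ^ 2 - 4 * y.det

omit [Field F] in
theorem entries (m : Matrix (Fin 2) (Fin 2) F) : m = !![m 0 0, m 0 1; m 1 0, m 1 1] := by
  ext i j
  fin_cases i <;> fin_cases j <;> rfl

/-- a matrix is scalar -/
def IsScalar (y : Matrix (Fin 2) (Fin 2) F) : Prop := y 0 1 = 0 ∧ y 1 0 = 0 ∧ y 0 0 = y 1 1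

theorem isScalar_iff (y : Matrix (Fin 2) (Fin 2) F) :
    IsScalar y ↔ ∃ c : F, y = c • (1 : Matrix (Fin 2) (Fin 2) F) := by
  constructor
  · rintro ⟨h1, h2, h3⟩
    refine ⟨y 0 0, ?_⟩
    ext i j
    fin_cases i <;> fin_cases j <;> simp [h1, h2, h3]
  · rintro ⟨c, rfl⟩
    simp [IsScalar]

/-- the centraliser of a matrix which is not scalar -/
theorem centralizer {y g : Matrix (Fin 2) (Fin 2) F} (hy : ¬IsScalar y) (h : g * y = y * g) :
    ∃ a b : F, g = a • (1 : Matrix (Fin 2) (Fin 2) F) + b • y := by
  have h00 := congrFun (congrFun h 0) 0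
  have h01 := congrFun (congrFun h 0) 1
  have h10 := congrFun (congrFun h 1) 0
  have h11 := congrFun (congrFun h 1) 1
  simp only [Matrix.mul_apply, Fin.sum_univ_two] at h00 h01 h10 h11
  -- `g01 y10 = y01 g10`, `g00 y01 + g01 y11 = y00 g01 + y01 g11`, ...
  by_cases h1 : y 0 1 = 0
  · by_cases h2 : y 1 0 = 0
    · have h3 : y 0 0 - y 1 1 ≠ 0 := fun h3 => hy ⟨h1, h2, sub_eq_zero.1 h3⟩
      have e1 : g 0 1 = 0 := by
        have : (y 0 0 - y 1 1) * g 0 1 = 0 := by linear_combination -h01 + (g 0 0 - g 1 1) * h1
        exact (mul_eq_zero.1 this).resolve_left h3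
      have e2 : g 1 0 = 0 := by
        have : (y 0 0 - y 1 1) * g 1 0 = 0 := by linear_combination h10 + (g 0 0 - g 1 1) * h2
        exact (mul_eq_zero.1 this).resolve_left h3
      refine ⟨g 0 0 - (g 0 0 - g 1 1) / (y 0 0 - y 1 1) * y 0 0,
        (g 0 0 - g 1 1) / (y 0 0 - y 1 1), ?_⟩
      ext i j
      fin_cases i <;> fin_cases j <;> simp [h1, h2, e1, e2]
      field_simp
      ring
    · refine ⟨g 0 0 - g 1 0 / y 1 0 * y 0 0, g 1 0 / y 1 0, ?_⟩
      ext i j
      fin_cases i <;> fin_cases j <;> simp [h1]
      · have : y 1 0 * g 0 1 = 0 := by linear_combination h00 + g 1 0 * h1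
        exact (mul_eq_zero.1 this).resolve_left h2
      · field_simp
      · field_simp
        linear_combination h10
  · refine ⟨g 0 0 - g 0 1 / y 0 1 * y 0 0, g 0 1 / y 0 1, ?_⟩
    ext i j
    fin_cases i <;> fin_cases j <;> simp
    · field_simp
    · field_simp
      linear_combination -h00
    · field_simp
      linear_combination -h01

/-- the normaliser of the algebra generated by a matrix with discriminant `≠ 0` -/
theorem normalizer {y g : Matrix (Fin 2) (Fin 2) F} (h2 : (2 : F) ≠ 0) (hg : g.det ≠ 0)
    (hd : disc y ≠ 0) {α β : F}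
    (h : g * y = (α • y + β • (1 : Matrix (Fin 2) (Fin 2) F)) * g) :
    α = 1 ∧ β = 0 ∨ α = -1 ∧ β = y.trace := by
  have h3 : g * y * g.adjugate =
      g.det • (α • y + β • (1 : Matrix (Fin 2) (Fin 2) F)) := by
    rw [h, mul_assoc, Matrix.mul_adjugate]
    simp
  have htr : g.det * y.trace = g.det * (α * y.trace + 2 * β) := by
    have h4 : (g * y * g.adjugate).trace = g.det * y.trace := by
      rw [Matrix.trace_mul_cycle, Matrix.adjugate_mul]
      simp
    rw [← h4, h3]
    simp [Matrix.trace_fin_two]
    ring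
  have htr' := mul_left_cancel₀ hg htr
  have hdet : g.det * y.det = g.det * (α ^ 2 * y.det + α * β * y.trace + β ^ 2) := by
    rw [← Matrix.det_mul, h, Matrix.det_mul]
    rw [mul_comm _ g.det]
    congr 1
    simp [Matrix.det_fin_two, Matrix.trace_fin_two]
    ring
  have hdet' := mul_left_cancel₀ hg hdet
  have h5 : (α ^ 2 - 1) * disc y = 0 := by
    rw [disc]
    linear_combination (-(y.trace + α * y.trace + 2 * β)) * htr' + 4 * hdet'
  have h6 : α ^ 2 - 1 = 0 := (mul_eq_zero.1 h5).resolve_right hd
  have h7 : (α - 1) * (α + 1) = 0 := by linear_combination h6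
  rcases mul_eq_zero.1 h7 with h8 | h8
  · left
    have h9 : α = 1 := by linear_combination h8
    refine ⟨h9, ?_⟩
    rw [h9] at htr'
    have : 2 * β = 0 := by linear_combination -htr'
    exact (mul_eq_zero.1 this).resolve_left h2
  · right
    have h9 : α = -1 := by linear_combination h8
    refine ⟨h9, ?_⟩
    rw [h9] at htr'
    have : 2 * (β - y.trace) = 0 := by linear_combination -htr'
    linear_combination (mul_eq_zero.1 this).resolve_left h2

/-- Cayley-Hamilton -/
theorem cayley (y : Matrix (Fin 2) (Fin 2) F) :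
    y * y = y.trace • y - y.det • (1 : Matrix (Fin 2) (Fin 2) F) := by
  ext i j
  fin_cases i <;> fin_cases j <;>
    simp [Matrix.mul_apply, Fin.sum_univ_two, Matrix.trace_fin_two, Matrix.det_fin_two] <;> ring

/-- the nilpotent part of a matrix with discriminant `0` -/
def nil (y : Matrix (Fin 2) (Fin 2) F) : Matrix (Fin 2) (Fin 2) F :=
  y - (y.trace / 2) • (1 : Matrix (Fin 2) (Fin 2) F)

theorem nil_sq {y : Matrix (Fin 2) (Fin 2) F} (h2 : (2 : F) ≠ 0) (hd : disc y = 0) :
    nil y * nil y = 0 := by
  have h4 : y.det = (y.trace / 2) ^ 2 := by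
    have h5 : (4 : F) ≠ 0 := by
      have : (4 : F) = 2 * 2 := by norm_num
      rw [this]
      exact mul_ne_zero h2 h2
    rw [disc] at hd
    field_simp
    linear_combination -hd
  have h5 := cayley y
  rw [nil, sub_mul, mul_sub, mul_sub, h5, h4]
  ext i j
  fin_cases i <;> fin_cases j <;> simp <;> field_simp <;> ring

theorem nil_eq_zero {y : Matrix (Fin 2) (Fin 2) F} : nil y = 0 → IsScalar y := by
  intro h
  rw [isScalar_iff]
  exact ⟨y.trace / 2, sub_eq_zero.1 h⟩

/-- the big cell -/
theorem cell {N N' : Matrix (Fin 2) (Fin 2) F} {κ : F} (hN : N * N = 0) (hN0 : N ≠ 0)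
    (hk : N * N' * N = κ • N) (hκ : κ ≠ 0) {s t r s' t' r' l : F}
    (h : (1 + s • N) * (1 + t • N') * (1 + r • N) =
      l • ((1 + s' • N) * (1 + t' • N') * (1 + r' • N))) :
    t = l * t' ∧ (s - s') * (t * κ) = l - 1 ∧ (r - r') * (t * κ) = l - 1 := by
  have hex : ∀ s t r : F, N * ((1 + s • N) * (1 + t • N') * (1 + r • N)) * N =
      (t * κ) • N := by
    intro s t r
    have : N * ((1 + s • N) * (1 + t • N') * (1 + r • N)) * N =
        N * N + (s • (N * N) * N) + t • (N * N' * N) + (s * t) • (N * N * N' * N) +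
        (r • (N * (N * N))) + (s * r) • (N * N * (N * N)) + (t * r) • (N * N' * (N * N)) +
          (s * t * r) • (N * N * N' * (N * N)) := by
      simp only [mul_add, add_mul, mul_one, one_mul, smul_mul_assoc, mul_smul_comm, mul_assoc,
        smul_smul, smul_add]
      module
    rw [this, hN, hk]
    simp [smul_smul]
  have hexl : ∀ s t r : F, N * ((1 + s • N) * (1 + t • N') * (1 + r • N)) =
      (1 + t * r * κ) • N + t • (N * N') := by
    intro s t r
    have : N * ((1 + s • N) * (1 + t • N') * (1 + r • N)) =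
        N + (s • (N * N)) + t • (N * N') + (s * t) • (N * N * N') +
        (r • (N * N)) + (s * r) • (N * N * N) + (t * r) • (N * N' * N) +
          (s * t * r) • (N * N * N' * N) := by
      simp only [mul_add, add_mul, mul_one, one_mul, smul_mul_assoc, mul_smul_comm, mul_assoc,
        smul_smul, smul_add]
      module
    rw [this, hN, hk]
    simp only [smul_zero, zero_mul, add_zero, smul_smul]
    module
  have hexr : ∀ s t r : F, ((1 + s • N) * (1 + t • N') * (1 + r • N)) * N =
      (1 + s * t * κ) • N + t • (N' * N) := by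
    intro s t r
    have : ((1 + s • N) * (1 + t • N') * (1 + r • N)) * N =
        N + (s • (N * N)) + t • (N' * N) + (s * t) • (N * N' * N) +
        (r • (N * N)) + (s * r) • (N * (N * N)) + (t * r) • (N' * (N * N)) +
          (s * t * r) • (N * N' * (N * N)) := by
      simp only [mul_add, add_mul, mul_one, one_mul, smul_mul_assoc, mul_smul_comm, mul_assoc,
        smul_smul, smul_add]
      module
    rw [this, hN, hk]
    simp only [smul_zero, mul_zero, add_zero, smul_smul]
    module
  have hinj : ∀ a b : F, a • N = b • N → a = b := by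
    intro a b hab
    have : (a - b) • N = 0 := by rw [sub_smul, hab, sub_self]
    exact sub_eq_zero.1 ((smul_eq_zero.1 this).resolve_right hN0)
  have e1 : t = l * t' := by
    have := congrArg (fun m => N * m * N) h
    simp only [mul_smul_comm, smul_mul_assoc] at this
    rw [hex, hex, smul_smul] at this
    have := hinj _ _ this
    have : κ * (t - l * t') = 0 := by linear_combination this
    exact sub_eq_zero.1 ((mul_eq_zero.1 this).resolve_left hκ)
  refine ⟨e1, ?_, ?_⟩
  · have := congrArg (fun m => m * N) h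
    simp only [smul_mul_assoc] at this
    rw [hexr, hexr, smul_add, smul_smul, smul_smul, ← e1] at this
    have := hinj _ _ (add_right_cancel this)
    linear_combination this - s' * κ * e1
  · have := congrArg (fun m => N * m) h
    simp only [mul_smul_comm] at this
    rw [hexl, hexl, smul_add, smul_smul, smul_smul, ← e1] at this
    have := hinj _ _ (add_right_cancel this)
    linear_combination this - r' * κ * e1

end MAT

end MPcb27.PG
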