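import Pool.Agent.Lib.MP_cb27ba_nt.PG.Spec
import Pool.Agent.Lib.MP_cb27ba_nt.PG.MAT

/-!
# MP_cb27ba_nt, project PG: GEN, subgroups which fix no point and lie in no torus
-/

set_option autoImplicit false

namespace MPcb27.PG

open Finset Matrix
open scoped Pointwise

namespace GEN

variable {G : Type} [Group G] {p : ℕ} [Fact p.Prime] {m : G → M2 p}

theorem two_ne (hp : p ≠ 2) : (2 : ZMod p) ≠ 0 := by
  intro h
  have h1 : ((2 : ℕ) : ZMod p) = 0 := by exact_mod_cast h
  rw [ZMod.natCast_eq_zero_iff] at h1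
  have h2 := Nat.le_of_dvd (by norm_num) h1
  have h3 := (Fact.out : p.Prime).two_le
  omega

/-- matrices of powers -/
theorem m_pow (hm : IsPRep m) (g : G) (n : ℕ) : ∃ c : ZMod p, c ≠ 0 ∧ m (g ^ n) = c • m g ^ n := by
  induction n with
  | zero =>
    obtain ⟨c, hc, h⟩ := hm.one
    exact ⟨c, hc, by rw [pow_zero, pow_zero]; exact h⟩
  | succ n ih =>
    obtain ⟨c, hc, h⟩ := ih
    obtain ⟨d, hd, h'⟩ := hm.mul (g ^ n) g
    refine ⟨d * c, mul_ne_zero hd hc, ?_⟩
    rw [pow_succ, h', h, pow_succ, smul_mul_assoc, smul_smul]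

theorem nil_pow (t : ZMod p) (N : M2 p) (hN : N * N = 0) (k : ℕ) :
    (t • (1 : M2 p) + N) ^ (k + 1) = t ^ (k + 1) • (1 : M2 p) + ((k + 1 : ℕ) * t ^ k) • N := by
  induction k with
  | zero => simp
  | succ k ih =>
    rw [pow_succ, ih]
    simp only [add_mul, mul_add, smul_mul_assoc, mul_smul_comm, one_mul, mul_one, hN, smul_zero,
      add_zero]
    push_cast
    module

/-- `m g = t + N` -/
theorem eq_add_nil (y : M2 p) : y = (y.trace / 2) • (1 : M2 p) + MAT.nil y := by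
  rw [MAT.nil]
  abel

theorem half_trace_ne {y : M2 p} (h2 : (2 : ZMod p) ≠ 0) (hd : MAT.disc y = 0) (hdet : y.det ≠ 0) :
    y.trace / 2 ≠ 0 := by
  intro h
  have h1 : y.trace = 0 := by
    have := div_eq_zero_iff.1 h
    exact this.resolve_right h2
  rw [MAT.disc, h1] at hd
  have h4 : (4 : ZMod p) ≠ 0 := by
    have : (4 : ZMod p) = 2 * 2 := by norm_num
    rw [this]
    exact mul_ne_zero h2 h2
  have h5 : 4 * y.det = 0 := by linear_combination -hd
  exact (mul_ne_zero h4 hdet) h5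

/-- all `1 + a N` -/
theorem exists_one_add (hm : IsPRep m) (h2 : (2 : ZMod p) ≠ 0) {g : G}
    (hd : MAT.disc (m g) = 0) (a : ZMod p) :
    ∃ (n : ℕ) (c : ZMod p), c ≠ 0 ∧ m (g ^ n) = c • ((1 : M2 p) + a • MAT.nil (m g)) := by
  have hN := MAT.nil_sq h2 hd
  have ht := half_trace_ne h2 hd (hm.det_ne g)
  obtain ⟨t, rfl⟩ : ∃ t, t = (m g).trace / 2 := ⟨_, rfl⟩
  -- `k = a t`, positive representative
  obtain ⟨k, hk⟩ : ∃ k : ℕ, ((k + 1 : ℕ) : ZMod p) = a * ((m g).trace / 2) := by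
    refine ⟨(a * ((m g).trace / 2)).val + (p - 1), ?_⟩
    have hp1 : 1 ≤ p := (Fact.out : p.Prime).one_lt.le
    rw [add_assoc, Nat.sub_add_cancel hp1]
    push_cast
    rw [ZMod.natCast_zmod_val, ZMod.natCast_self, add_zero]
  obtain ⟨c, hc, h⟩ := m_pow hm g (k + 1)
  refine ⟨k + 1, c * ((m g).trace / 2) ^ (k + 1), mul_ne_zero hc (pow_ne_zero _ ht), ?_⟩
  rw [h]
  conv_lhs => rw [eq_add_nil (m g)]
  rw [nil_pow _ _ hN, hk, smul_add, smul_add, smul_smul, smul_smul, smul_smul]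
  congr 2
  ring

/-- discriminant zero gives order `p` -/
theorem pow_eq_one (hm : IsPRep m) (h2 : (2 : ZMod p) ≠ 0) {g : G}
    (hd : MAT.disc (m g) = 0) : g ^ p = 1 := by
  have hN := MAT.nil_sq h2 hd
  obtain ⟨c, hc, h⟩ := m_pow hm g p
  obtain ⟨k, hk⟩ : ∃ k, p = k + 1 := ⟨p - 1, (Nat.sub_add_cancel (Fact.out : p.Prime).one_lt.le).symm⟩
  have h3 : m g ^ p = ((m g).trace / 2) ^ p • (1 : M2 p) := by
    conv_lhs => rw [eq_add_nil (m g)]
    have h4 : ((k + 1 : ℕ) : ZMod p) = 0 := by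
      rw [← hk]
      exact ZMod.natCast_self p
    have h5 := nil_pow ((m g).trace / 2) (MAT.nil (m g)) hN k
    rw [← hk] at h5
    rw [h5, ZMod.natCast_self, zero_mul, zero_smul, add_zero]
  refine hm.eq_one (c := c * ((m g).trace / 2) ^ p) ?_
  rw [h, h3, smul_smul]

/-- order `p` gives discriminant zero -/
theorem disc_eq_zero (hm : IsPRep m) {g : G} (hg : g ^ p = 1) : MAT.disc (m g) = 0 := by
  have hp0 : p ≠ 0 := (Fact.out : p.Prime).ne_zero
  obtain ⟨c, hc, h⟩ := m_pow hm g p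
  obtain ⟨d, hd, h1⟩ := hm.one
  rw [hg, h1] at h
  obtain ⟨e, he⟩ : ∃ e : ZMod p, m g ^ p = e • (1 : M2 p) := by
    refine ⟨c⁻¹ * d, ?_⟩
    rw [mul_smul, h, smul_smul, inv_mul_cancel₀ hc, one_smul]
  obtain ⟨X, hX⟩ : ∃ X, X = m g - e • (1 : M2 p) := ⟨_, rfl⟩
  have hXp : X ^ p = 0 := by
    have hcomm : Commute (m g) (e • (1 : M2 p)) := (Commute.one_right _).smul_right e
    rw [hX, sub_pow_char_of_commute p hcomm, he, smul_pow, one_pow, ZMod.pow_card, sub_self]
  have hdet : X.det = 0 := by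
    have : X.det ^ p = 0 := by
      rw [← Matrix.det_pow, hXp, Matrix.det_zero]
    exact pow_eq_zero_iff hp0 |>.1 this
  have htr : X.trace = 0 := by
    have h3 : IsNilpotent X.trace := Matrix.isNilpotent_trace_of_isNilpotent ⟨p, hXp⟩
    exact h3.eq_zero
  rw [hX, Matrix.det_fin_two] at hdet
  rw [hX, Matrix.trace_fin_two] at htr
  simp only [Matrix.sub_apply, Matrix.smul_apply, Matrix.one_apply_eq, smul_eq_mul, mul_one,
    Matrix.one_apply, Fin.isValue, zero_ne_one, one_ne_zero, if_false, mul_zero, sub_zero] at hdet htr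
  rw [MAT.disc, Matrix.trace_fin_two, Matrix.det_fin_two]
  linear_combination (m g 0 0 + m g 1 1 - 2 * e) * htr - 4 * hdet

/-! ### the centralisers -/

theorem mul_smul_iff {c : ZMod p} (hc : c ≠ 0) {a b r : M2 p} (h : a = c • b) :
    a * r = r * a ↔ b * r = r * b := by
  rw [h, smul_mul_assoc, mul_smul_comm]
  exact ⟨fun e => smul_right_injective _ hc e, fun e => by rw [e]⟩

theorem adj_comm {a r : M2 p} (h : a * r = r * a) : a.adjugate * r = r * a.adjugate := by
  have e : a.adjugate = a.trace • (1 : M2 p) - a := by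
    rw [Matrix.adjugate_fin_two]
    ext i j
    fin_cases i <;> fin_cases j <;> simp [Matrix.trace_fin_two]
  rw [e, sub_mul, mul_sub, h]
  simp

/-- the elements whose matrix commutes with `r` -/
def T (hm : IsPRep m) (K : Subgroup G) (r : M2 p) : Subgroup K where
  carrier := {h | m h * r = r * m h}
  one_mem' := by
    obtain ⟨c, _, h⟩ := hm.one
    change m 1 * r = r * m 1
    rw [h]
    simp
  mul_mem' := by
    intro a b ha hb
    obtain ⟨c, hc, h⟩ := hm.mul a b
    change m (a * b) * r = r * m (a * b)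
    change m a * r = r * m a at ha
    change m b * r = r * m b at hb
    rw [h, smul_mul_assoc, mul_smul_comm, mul_assoc, hb, ← mul_assoc, ha, mul_assoc]
  inv_mem' := by
    intro a ha
    change m a * r = r * m a at ha
    change m ((a⁻¹ : K) : G) * r = r * m ((a⁻¹ : K) : G)
    obtain ⟨c, hc, h⟩ := hm.inv (a : G)
    rw [Subgroup.coe_inv, h, smul_mul_assoc, mul_smul_comm, adj_comm ha]

theorem mem_T {hm : IsPRep m} {K : Subgroup G} {r : M2 p} {h : K} :
    h ∈ T hm K r ↔ m h * r = r * m h := Iff.rfl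

/-- conjugation of the centralisers -/
theorem smul_T (hm : IsPRep m) (K : Subgroup G) (g : K) (c : ConjAct K) :
    c • T hm K (m g) = T hm K (m ((ConjAct.ofConjAct c * g * (ConjAct.ofConjAct c)⁻¹ : K) : G)) := by
  have key : ∀ (c : ConjAct K) (g x : K), m x * m g = m g * m x →
      m ((ConjAct.ofConjAct c * x * (ConjAct.ofConjAct c)⁻¹ : K) : G) *
        m ((ConjAct.ofConjAct c * g * (ConjAct.ofConjAct c)⁻¹ : K) : G) =
      m ((ConjAct.ofConjAct c * g * (ConjAct.ofConjAct c)⁻¹ : K) : G) *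
        m ((ConjAct.ofConjAct c * x * (ConjAct.ofConjAct c)⁻¹ : K) : G) := by
    intro c g x h
    obtain ⟨d, _, e⟩ := hm.conj (ConjAct.ofConjAct c : K) (x : G)
    obtain ⟨d', _, e'⟩ := hm.conj (ConjAct.ofConjAct c : K) (g : G)
    simp only [Subgroup.coe_mul, Subgroup.coe_inv]
    rw [e, e']
    obtain ⟨y, hy⟩ : ∃ y, y = m ((ConjAct.ofConjAct c : K) : G) := ⟨_, rfl⟩
    rw [← hy]
    have e1 : ∀ a b : M2 p, y * a * y.adjugate * (y * b * y.adjugate) =
        y.det • (y * (a * b) * y.adjugate) := by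
      intro a b
      have e2 : y * a * y.adjugate * (y * b * y.adjugate) =
          y * a * (y.adjugate * y) * b * y.adjugate := by
        simp only [mul_assoc]
      rw [e2, Matrix.adjugate_mul]
      simp only [mul_smul_comm, smul_mul_assoc, mul_one, mul_assoc]
    rw [smul_mul_assoc, mul_smul_comm, smul_mul_assoc, mul_smul_comm, e1, e1, h,
      smul_comm d d']
  ext x
  rw [Subgroup.mem_pointwise_smul_iff_inv_smul_mem, ConjAct.smul_def]
  constructor
  · intro h
    have h1 := key c g _ h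
    simp only [ConjAct.ofConjAct_inv] at h1
    have h2 : ConjAct.ofConjAct c * ((ConjAct.ofConjAct c)⁻¹ * x * (ConjAct.ofConjAct c)⁻¹⁻¹) *
        (ConjAct.ofConjAct c)⁻¹ = x := by group
    rw [h2] at h1
    exact h1
  · intro h
    have h1 := key c⁻¹ _ _ h
    simp only [ConjAct.ofConjAct_inv] at h1 ⊢
    have h2 : (ConjAct.ofConjAct c)⁻¹ * (ConjAct.ofConjAct c * g * (ConjAct.ofConjAct c)⁻¹) *
        (ConjAct.ofConjAct c)⁻¹⁻¹ = g := by group
    rw [h2] at h1
    exact h1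

theorem T_eq (hm : IsPRep m) (K : Subgroup G) {g h : K} (hg : g ≠ 1) (hh : h ≠ 1)
    (hgh : h ∈ T hm K (m g)) : T hm K (m h) = T hm K (m g) := by
  have hg' : NonSc (m g) := hm.nonSc (fun e => hg (Subtype.ext e))
  have hh' : NonSc (m h) := hm.nonSc (fun e => hh (Subtype.ext e))
  rw [mem_T] at hgh
  ext x
  rw [mem_T, mem_T]
  exact ⟨fun h1 => comm_comm hh' h1 hgh.symm, fun h1 => comm_comm hg' h1 hgh⟩

theorem pow_or (hm : IsPRep m) (h2 : (2 : ZMod p) ≠ 0) (K : Subgroup G) {g : K}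
    (hd : MAT.disc (m g) ≠ 0) (hg : g ≠ 1) {c : ConjAct K}
    (hc : c ∈ MulAction.stabilizer (ConjAct K) (T hm K (m g))) :
    (ConjAct.ofConjAct c : K) ∈ T hm K (m g) ∨
      m (ConjAct.ofConjAct c : K) * m g =
        ((m g).trace • (1 : M2 p) - m g) * m (ConjAct.ofConjAct c : K) := by
  rw [MulAction.mem_stabilizer_iff, smul_T] at hc
  have h1 : (ConjAct.ofConjAct c * g * (ConjAct.ofConjAct c)⁻¹ : K) ∈ T hm K (m g) := by
    rw [← hc, mem_T]
  rw [mem_T] at h1
  have hg' : NonSc (m g) := hm.nonSc (fun e => hg (Subtype.ext e))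
  obtain ⟨d, hd0, e⟩ := hm.conj (ConjAct.ofConjAct c : K) (g : G)
  simp only [Subgroup.coe_mul, Subgroup.coe_inv] at h1
  rw [mul_smul_iff hd0 e] at h1
  obtain ⟨x, y, hxy⟩ := comm_span hg' h1
  obtain ⟨w, hw⟩ : ∃ w, w = m ((ConjAct.ofConjAct c : K) : G) := ⟨_, rfl⟩
  rw [← hw] at hxy
  have hwd : w.det ≠ 0 := by
    rw [hw]
    exact hm.det_ne _
  have h3 : w * m g = ((w.det⁻¹ * y) • m g + (w.det⁻¹ * x) • (1 : M2 p)) * w := by
    have h4 : w * m g * w.adjugate * w = w.det • (w * m g) := by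
      rw [mul_assoc, Matrix.adjugate_mul]
      simp
    rw [hxy] at h4
    have h5 : w * m g = w.det⁻¹ • ((x • (1 : M2 p) + y • m g) * w) := by
      rw [h4, smul_smul, inv_mul_cancel₀ hwd, one_smul]
    rw [h5, ← smul_mul_assoc, smul_add, smul_smul, smul_smul, add_comm]
  rw [mem_T, ← hw]
  rcases MAT.normalizer h2 hwd hd h3 with ⟨h6, h7⟩ | ⟨h6, h7⟩
  · left
    rw [h3, h6, h7]
    simp
  · right
    rw [h3, h6, h7]
    congr 1
    rw [neg_smul, one_smul]
    abel

theorem stab_le [Finite G] (hm : IsPRep m) (h2 : (2 : ZMod p) ≠ 0) (K : Subgroup G) {g : K}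
    (hd : MAT.disc (m g) ≠ 0) (hg : g ≠ 1) :
    Nat.card (MulAction.stabilizer (ConjAct K) (T hm K (m g))) ≤ 2 * Nat.card (T hm K (m g)) := by
  classical
  obtain ⟨B, hB⟩ : ∃ B : Set K, ∀ x : K, x ∈ B ↔
      m x * m g = ((m g).trace • (1 : M2 p) - m g) * m x :=
    ⟨{x : K | m x * m g = ((m g).trace • (1 : M2 p) - m g) * m x}, fun _ => Iff.rfl⟩
  have hsub : (MulAction.stabilizer (ConjAct K) (T hm K (m g)) : Set (ConjAct K)) ⊆
      ConjAct.ofConjAct ⁻¹' ((T hm K (m g) : Set K) ∪ B) := by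
    intro c hc
    rw [Set.mem_preimage, Set.mem_union, hB]
    exact pow_or hm h2 K hd hg hc
  have hfin : Finite K := inferInstance
  have hBcard : B.ncard ≤ Nat.card (T hm K (m g)) := by
    rcases B.eq_empty_or_nonempty with h | ⟨b₀, hb₀⟩
    · rw [h, Set.ncard_empty]
      exact Nat.zero_le _
    · rw [← Nat.card_coe_set_eq]
      refine Nat.card_le_card_of_injective (fun b : B => (⟨b₀⁻¹ * b, ?_⟩ : T hm K (m g))) ?_
      · have hb := (hB _).1 b.2
        rw [hB] at hb₀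
        rw [mem_T]
        obtain ⟨c, hc, e⟩ := hm.inv (b₀ : G)
        obtain ⟨d, hd', e'⟩ := hm.mul ((b₀ : G)⁻¹) ((b : K) : G)
        simp only [Subgroup.coe_mul, Subgroup.coe_inv]
        have e2 : m ((b₀ : G)⁻¹ * ((b : K) : G)) = (d * c) • ((m b₀).adjugate * m (b : K)) := by
          rw [e', e, smul_mul_assoc, smul_smul]
        rw [mul_smul_iff (mul_ne_zero hd' hc) e2]
        -- `adj(b₀) b g = adj(b₀) (tr - g) b = g adj(b₀) b`
        have e3 : (m b₀).adjugate * ((m g).trace • (1 : M2 p) - m g) = m g * (m b₀).adjugate := by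
          have hdet : (m b₀).det ≠ 0 := hm.det_ne _
          have h5 : (m b₀).adjugate * (m b₀ * m g) * (m b₀).adjugate =
              (m b₀).adjugate * (((m g).trace • (1 : M2 p) - m g) * m b₀) * (m b₀).adjugate := by
            rw [hb₀]
          have h6 : (m b₀).adjugate * (m b₀ * m g) * (m b₀).adjugate =
              (m b₀).det • (m g * (m b₀).adjugate) := by
            rw [← mul_assoc, Matrix.adjugate_mul]
            simp
          have h7 : (m b₀).adjugate * (((m g).trace • (1 : M2 p) - m g) * m b₀) *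
              (m b₀).adjugate =
              (m b₀).det • ((m b₀).adjugate * ((m g).trace • (1 : M2 p) - m g)) := by
            rw [← mul_assoc, mul_assoc _ (m b₀), Matrix.mul_adjugate]
            simp
          rw [h6, h7] at h5
          exact (smul_right_injective _ hdet h5).symm
        rw [mul_assoc, hb, ← mul_assoc, e3, mul_assoc]
      · intro b b' h
        simp only [Subtype.mk.injEq, mul_right_inj] at h
        exact Subtype.ext h
  have h1 : Nat.card (MulAction.stabilizer (ConjAct K) (T hm K (m g))) =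
      (MulAction.stabilizer (ConjAct K) (T hm K (m g)) : Set (ConjAct K)).ncard :=
    Nat.card_coe_set_eq _
  have hfinC : Finite (ConjAct K) := Finite.of_equiv K ConjAct.toConjAct.toEquiv
  rw [h1]
  calc (MulAction.stabilizer (ConjAct K) (T hm K (m g)) : Set (ConjAct K)).ncard
      ≤ (ConjAct.ofConjAct ⁻¹' ((T hm K (m g) : Set K) ∪ B)).ncard :=
        Set.ncard_le_ncard hsub (Set.toFinite _)
    _ = ((T hm K (m g) : Set K) ∪ B).ncard :=
        Set.ncard_preimage_of_injective_subset_range (ConjAct.ofConjAct.injective)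
          (fun x _ => ConjAct.ofConjAct.surjective x)
    _ ≤ (T hm K (m g) : Set K).ncard + B.ncard := Set.ncard_union_le _ _
    _ ≤ _ := by
        rw [two_mul]
        refine Nat.add_le_add (le_of_eq ?_) hBcard
        exact (Nat.card_coe_set_eq _).symm

/-- `p` divides the order -/
theorem dvd_card [Finite G] (hm : IsPRep m) (h2 : (2 : ZMod p) ≠ 0) (K : Subgroup G)
    (hy : ∀ y : M2 p, NonSc y → ∃ h ∈ K, m h * y ≠ y * m h)
    (h4 : ∀ g : K, g ≠ 1 → 4 ≤ Nat.card (T hm K (m g))) (hK : ∃ g : K, g ≠ 1) :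
    ∃ g : K, g ≠ 1 ∧ g ^ p = 1 := by
  classical
  by_contra hno
  push Not at hno
  have hdisc : ∀ g : K, g ≠ 1 → MAT.disc (m g) ≠ 0 := by
    intro g hg hd
    refine hno g hg ?_
    apply Subtype.ext
    rw [Subgroup.coe_pow, Subgroup.coe_one]
    exact pow_eq_one hm h2 hd
  have : Fintype K := Fintype.ofFinite K
  obtain ⟨T', ⟨g, hg, rfl⟩, hT'⟩ := CEQ.classEq
    {T' : Subgroup K | ∃ g : K, g ≠ 1 ∧ T' = T hm K (m g)} (by
      rintro _ ⟨g, hg, rfl⟩ c
      refine ⟨_, ?_, smul_T hm K g c⟩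
      intro h
      apply hg
      have := congrArg (fun x => (ConjAct.ofConjAct c)⁻¹ * x * ConjAct.ofConjAct c) h
      simpa [mul_assoc] using this) (by
      rintro _ ⟨g, hg, rfl⟩
      exact h4 g hg) (by
      rintro _ ⟨g, hg, rfl⟩ _ ⟨g', hg', rfl⟩ hne
      rw [Subgroup.eq_bot_iff_forall]
      rintro x ⟨hx, hx'⟩
      by_contra hx1
      exact hne ((T_eq hm K hg hx1 hx).symm.trans (T_eq hm K hg' hx1 hx'))) (by
      intro h hh
      exact ⟨_, ⟨h, hh, rfl⟩, by rw [mem_T]⟩) (by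
      rintro _ ⟨g, hg, rfl⟩
      exact stab_le hm h2 K (hdisc g hg) hg) hK
  obtain ⟨h, hhK, hh⟩ := hy (m g) (hm.nonSc fun e => hg (Subtype.ext e))
  have h5 : (⟨h, hhK⟩ : K) ∈ T hm K (m g) := by
    rw [hT']
    exact Subgroup.mem_top _
  rw [mem_T] at h5
  exact hh h5

/-! ### the big cell -/

/-- polarised Cayley-Hamilton -/
theorem polar (N M : M2 p) : N * M * N = (N * M).trace • N - N.det • M.adjugate := by
  rw [Matrix.adjugate_fin_two]
  ext i j
  fin_cases i <;> fin_cases j <;>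
    simp [Matrix.mul_apply, Fin.sum_univ_two, Matrix.trace_fin_two, Matrix.det_fin_two] <;> ring

theorem nil_trace (h2 : (2 : ZMod p) ≠ 0) (y : M2 p) : (MAT.nil y).trace = 0 := by
  simp only [MAT.nil, Matrix.trace_fin_two, Matrix.sub_apply, Matrix.smul_apply, smul_eq_mul,
    Matrix.one_apply_eq, mul_one]
  field_simp
  ring

theorem nil_det {y : M2 p} (h2 : (2 : ZMod p) ≠ 0) (hd : MAT.disc y = 0) :
    (MAT.nil y).det = 0 := by
  rw [MAT.disc, Matrix.trace_fin_two, Matrix.det_fin_two] at hd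
  rw [Matrix.det_fin_two]
  simp only [MAT.nil, Matrix.trace_fin_two, Matrix.sub_apply, Matrix.smul_apply, smul_eq_mul,
    Matrix.one_apply_eq, mul_one, Matrix.one_apply, Fin.isValue, zero_ne_one, one_ne_zero, if_false,
    mul_zero, sub_zero]
  have h4 : (4 : ZMod p) ≠ 0 := by
    have : (4 : ZMod p) = 2 * 2 := by norm_num
    rw [this]
    exact mul_ne_zero h2 h2
  field_simp
  linear_combination -hd

theorem det_one_add {N : M2 p} (ht : N.trace = 0) (hd : N.det = 0) (a : ZMod p) :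
    ((1 : M2 p) + a • N).det = 1 := by
  rw [Matrix.trace_fin_two] at ht
  rw [Matrix.det_fin_two] at hd ⊢
  simp only [Matrix.add_apply, Matrix.smul_apply, smul_eq_mul, Matrix.one_apply_eq,
    Matrix.one_apply, Fin.isValue, zero_ne_one, one_ne_zero, if_false, zero_add]
  linear_combination a * ht + a ^ 2 * hd

theorem par_ker {N : M2 p} (hN0 : N ≠ 0) {x v : Fin 2 → ZMod p} (hx : N *ᵥ x = 0)
    (hv : N *ᵥ v = 0) : par x v := by
  have hx0 := congrFun hx 0
  have hx1 := congrFun hx 1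
  have hv0 := congrFun hv 0
  have hv1 := congrFun hv 1
  simp only [Matrix.mulVec, dotProduct, Fin.sum_univ_two, Pi.zero_apply] at hx0 hx1 hv0 hv1
  rw [par]
  by_contra hne
  have hne' : x 0 * v 1 - x 1 * v 0 ≠ 0 := sub_ne_zero.2 hne
  apply hN0
  have e : ∀ r : ZMod p, r * (x 0 * v 1 - x 1 * v 0) = 0 → r = 0 := fun r hr =>
    (mul_eq_zero.1 hr).resolve_right hne'
  have e00 : N 0 0 = 0 := e _ (by linear_combination v 1 * hx0 - x 1 * hv0)
  have e01 : N 0 1 = 0 := e _ (by linear_combination x 0 * hv0 - v 0 * hx0)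
  have e10 : N 1 0 = 0 := e _ (by linear_combination v 1 * hx1 - x 1 * hv1)
  have e11 : N 1 1 = 0 := e _ (by linear_combination x 0 * hv1 - v 0 * hx1)
  ext i j
  fin_cases i <;> fin_cases j <;> simp [e00, e01, e10, e11]

/-- an element which moves the kernel -/
theorem kappa_ne {N w : M2 p} (hN : N * N = 0) (hd : N.det = 0) (ht : N.trace = 0) (j : Fin 2)
    (hv : N *ᵥ Pi.single j 1 ≠ 0) (hw : ¬ par (w *ᵥ (N *ᵥ Pi.single j 1)) (N *ᵥ Pi.single j 1)) :
    N * (w * N * w.adjugate) * N = (-(N * w).trace ^ 2) • N ∧ -(N * w).trace ^ 2 ≠ 0 := by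
  have hN0 : N ≠ 0 := by
    rintro rfl
    exact hv (Matrix.zero_mulVec _)
  have h1 : N * w * N = (N * w).trace • N := by
    rw [polar, hd, zero_smul, sub_zero]
  have h2 : N * w.adjugate * N = (N * w.adjugate).trace • N := by
    rw [polar, hd, zero_smul, sub_zero]
  have h3 : (N * w.adjugate).trace = -(N * w).trace := by
    rw [Matrix.trace_fin_two] at ht
    rw [Matrix.adjugate_fin_two]
    simp [Matrix.mul_apply, Fin.sum_univ_two, Matrix.trace_fin_two]
    linear_combination (w 0 0 + w 1 1) * ht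
  refine ⟨?_, ?_⟩
  · have h4 : N * (w * N * w.adjugate) * N = N * w * N * w.adjugate * N := by
      simp only [mul_assoc]
    rw [h4, h1, smul_mul_assoc, smul_mul_assoc, h2, h3, smul_smul]
    congr 1
    ring
  · intro h5
    have h6 : (N * w).trace = 0 := by
      have : (N * w).trace ^ 2 = 0 := by linear_combination -h5
      exact pow_eq_zero_iff (two_ne_zero) |>.1 this
    apply hw
    refine par_ker hN0 ?_ ?_
    · rw [Matrix.mulVec_mulVec, Matrix.mulVec_mulVec, h1, h6, zero_smul,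
        Matrix.zero_mulVec]
    · rw [Matrix.mulVec_mulVec, hN, Matrix.zero_mulVec]

/-- a fibre with at most two points -/
theorem fibre {N N' : M2 p} {κ : ZMod p} (hN : N * N = 0) (hN0 : N ≠ 0)
    (hk : N * N' * N = κ • N) (hκ : κ ≠ 0)
    (ht : N.trace = 0) (hd : N.det = 0) (ht' : N'.trace = 0) (hd' : N'.det = 0)
    {s t r s' t' r' l : ZMod p} (htne : t ≠ 0)
    (h : ((1 : M2 p) + s • N) * (1 + t • N') * (1 + r • N) =
      l • (((1 : M2 p) + s' • N) * (1 + t' • N') * (1 + r' • N))) :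
    (s', t', r') = (s, t, r) ∨
      (s', t', r') = (s + 2 / (t * κ), -t, r + 2 / (t * κ)) := by
  have hl : l ^ 2 = 1 := by
    have h3 := congrArg Matrix.det h
    rw [Matrix.det_smul, Matrix.det_mul, Matrix.det_mul, Matrix.det_mul, Matrix.det_mul,
      det_one_add ht hd, det_one_add ht' hd', det_one_add ht hd, det_one_add ht hd,
      det_one_add ht' hd', det_one_add ht hd, Fintype.card_fin] at h3
    linear_combination -h3
  obtain ⟨e1, e2, e3⟩ := MAT.cell hN hN0 hk hκ h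
  have htk : t * κ ≠ 0 := mul_ne_zero htne hκ
  have h4 : (l - 1) * (l + 1) = 0 := by linear_combination hl
  rcases mul_eq_zero.1 h4 with h5 | h5
  · left
    rw [h5] at e2 e3
    have e4 : s - s' = 0 := (mul_eq_zero.1 e2).resolve_right htk
    have e5 : r - r' = 0 := (mul_eq_zero.1 e3).resolve_right htk
    have e6 : l = 1 := sub_eq_zero.1 h5
    rw [e6, one_mul] at e1
    rw [← e1, sub_eq_zero.1 e4, sub_eq_zero.1 e5]
  · right
    have e6 : l = -1 := by linear_combination h5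
    rw [e6] at e1 e2 e3
    refine Prod.ext ?_ (Prod.ext ?_ ?_)
    · simp only
      field_simp
      linear_combination -e2
    · simp only
      linear_combination e1
    · simp only
      field_simp
      linear_combination -e3

theorem main [Fintype G] [DecidableEq G] (hm : IsPRep m) (h2 : (2 : ZMod p) ≠ 0) (H : Finset G)
    (hmul : ∀ a ∈ H, ∀ b ∈ H, a * b ∈ H) (hinv : ∀ a ∈ H, a⁻¹ ∈ H)
    (hv : ∀ v : Fin 2 → ZMod p, v ≠ 0 → ∃ h ∈ H, ¬ par (m h *ᵥ v) v)
    {g : G} (hgH : g ∈ H) (hg : g ≠ 1) (hgp : g ^ p = 1) :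
    p ^ 2 * (p - 1) ≤ 2 * #H := by
  classical
  have hpow : ∀ n : ℕ, g ^ n ∈ H := by
    intro n
    induction n with
    | zero =>
      rw [pow_zero, ← mul_inv_cancel g]
      exact hmul _ hgH _ (hinv _ hgH)
    | succ n ih =>
      rw [pow_succ]
      exact hmul _ ih _ hgH
  have hd := disc_eq_zero hm hgp
  obtain ⟨N, hNdef⟩ : ∃ N, N = MAT.nil (m g) := ⟨_, rfl⟩
  have hN : N * N = 0 := by rw [hNdef]; exact MAT.nil_sq h2 hd
  have hNt : N.trace = 0 := by rw [hNdef]; exact nil_trace h2 _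
  have hNd : N.det = 0 := by rw [hNdef]; exact nil_det h2 hd
  have hN0 : N ≠ 0 := by
    rw [hNdef]
    intro h
    obtain ⟨c, hc⟩ := (MAT.isScalar_iff _).1 (MAT.nil_eq_zero h)
    exact hm.nonSc hg c hc
  obtain ⟨j, hj⟩ : ∃ j : Fin 2, N *ᵥ Pi.single j 1 ≠ 0 := by
    by_contra hno
    push Not at hno
    apply hN0
    ext i j
    have := congrFun (hno j) i
    simpa using this
  obtain ⟨w, hwH, hw⟩ := hv _ hj
  obtain ⟨hk, hκ⟩ := kappa_ne hN hNd hNt j hj hw
  obtain ⟨κ, hκdef⟩ : ∃ κ, κ = -(N * m w).trace ^ 2 := ⟨_, rfl⟩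
  rw [← hκdef] at hk hκ
  obtain ⟨N', hN'def⟩ : ∃ N', N' = m w * N * (m w).adjugate := ⟨_, rfl⟩
  rw [← hN'def] at hk
  have hwd : (m w).det ≠ 0 := hm.det_ne w
  have hN't : N'.trace = 0 := by
    rw [hN'def, Matrix.trace_mul_cycle, Matrix.adjugate_mul]
    simp [hNt]
  have hN'd : N'.det = 0 := by
    rw [hN'def, Matrix.det_mul, Matrix.det_mul, hNd]
    ring
  -- the elements
  have hE : ∀ a : ZMod p, ∃ x ∈ H, ∃ c : ZMod p, c ≠ 0 ∧ m x = c • ((1 : M2 p) + a • N) := by
    intro a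
    obtain ⟨n, c, hc, h⟩ := exists_one_add hm h2 hd a
    rw [← hNdef] at h
    exact ⟨_, hpow n, c, hc, h⟩
  choose E hEH hE' using hE
  choose c hc hEc using hE'
  have hE2 : ∀ b : ZMod p, ∃ x ∈ H, ∃ c : ZMod p, c ≠ 0 ∧ m x = c • ((1 : M2 p) + b • N') := by
    intro b
    obtain ⟨d, hd', e⟩ := hm.conj w (E (b * (m w).det))
    refine ⟨w * E (b * (m w).det) * w⁻¹, hmul _ (hmul _ hwH _ (hEH _)) _ (hinv _ hwH),
      d * (c (b * (m w).det) * (m w).det), mul_ne_zero hd' (mul_ne_zero (hc _) hwd), ?_⟩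
    rw [e, hEc, mul_smul_comm, smul_mul_assoc, mul_add, add_mul, mul_one, Matrix.mul_adjugate,
      mul_smul_comm, smul_mul_assoc, ← hN'def]
    module
  choose E' hEH' hE' using hE2
  choose c' hc' hEc' using hE'
  have hm3 : ∀ q : ZMod p × ZMod p × ZMod p, ∃ l : ZMod p, l ≠ 0 ∧
      m (E q.1 * E' q.2.1 * E q.2.2) =
        l • (((1 : M2 p) + q.1 • N) * (1 + q.2.1 • N') * (1 + q.2.2 • N)) := by
    intro q
    obtain ⟨x, hx, h1⟩ := hm.mul (E q.1 * E' q.2.1) (E q.2.2)
    obtain ⟨y, hy, h3⟩ := hm.mul (E q.1) (E' q.2.1)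
    refine ⟨x * y * c q.1 * c' q.2.1 * c q.2.2, mul_ne_zero (mul_ne_zero (mul_ne_zero
      (mul_ne_zero hx hy) (hc _)) (hc' _)) (hc _), ?_⟩
    rw [h1, h3, hEc, hEc', hEc]
    simp only [smul_mul_assoc, mul_smul_comm, smul_smul]
    congr 1
    ring
  -- counting
  obtain ⟨D, hD⟩ : ∃ D : Finset (ZMod p × ZMod p × ZMod p),
      D = univ ×ˢ (univ.erase 0) ×ˢ univ := ⟨_, rfl⟩
  have hDcard : #D = p ^ 2 * (p - 1) := by
    rw [hD, card_product, card_product, card_erase_of_mem (mem_univ _), card_univ, ZMod.card]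
    ring
  rw [← hDcard]
  refine (card_le_mul_card_image (f := fun q : ZMod p × ZMod p × ZMod p =>
    E q.1 * E' q.2.1 * E q.2.2) D 2 ?_).trans ?_
  · intro x hx
    obtain ⟨q, hq, hqx⟩ := mem_image.1 hx
    have hq0 : q.2.1 ≠ 0 := by
      rw [hD] at hq
      simp only [mem_product, mem_univ, mem_erase, ne_eq, and_true, true_and] at hq
      exact hq
    have hsub : (D.filter fun q' => E q'.1 * E' q'.2.1 * E q'.2.2 = x) ⊆
        {(q.1, q.2.1, q.2.2),
          (q.1 + 2 / (q.2.1 * κ), -q.2.1, q.2.2 + 2 / (q.2.1 * κ))} := by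
      intro q' hq'
      rw [mem_filter] at hq'
      obtain ⟨l, hl, h3⟩ := hm3 q
      obtain ⟨l', hl', h4⟩ := hm3 q'
      have h5 : E q.1 * E' q.2.1 * E q.2.2 = E q'.1 * E' q'.2.1 * E q'.2.2 := by
        rw [hq'.2]
        exact hqx
      rw [h5, h4] at h3
      have h6 : ((1 : M2 p) + q.1 • N) * (1 + q.2.1 • N') * (1 + q.2.2 • N) =
          (l⁻¹ * l') • (((1 : M2 p) + q'.1 • N) * (1 + q'.2.1 • N') * (1 + q'.2.2 • N)) := by
        rw [mul_smul, h3, smul_smul, inv_mul_cancel₀ hl, one_smul]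
      rw [mem_insert, mem_singleton]
      exact fibre hN hN0 hk hκ hNt hNd hN't hN'd hq0 h6
    exact (card_le_card hsub).trans card_le_two
  · refine Nat.mul_le_mul_left _ (card_le_card ?_)
    intro x hx
    obtain ⟨q, _, rfl⟩ := mem_image.1 hx
    exact hmul _ (hmul _ (hEH _) _ (hEH' _)) _ (hEH _)

end GEN

theorem specGEN : SpecGEN := by
  classical
  intro p _ hp G _ _ _ m H hm h1 hHinv hHmul hv hy h4
  have h2 := GEN.two_ne hp
  have hmul : ∀ a ∈ H, ∀ b ∈ H, a * b ∈ H := by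
    intro a ha b hb
    rw [← hHmul]
    exact mul_mem_mul ha hb
  have hinv : ∀ a ∈ H, a⁻¹ ∈ H := by
    intro a ha
    rw [← hHinv]
    exact inv_mem_inv ha
  let K : Subgroup G :=
    { carrier := H
      one_mem' := h1
      mul_mem' := fun {a b} ha hb => hmul a ha b hb
      inv_mem' := fun {a} ha => hinv a ha }
  have hK : ∀ g, g ∈ K ↔ g ∈ H := fun g => Iff.rfl
  obtain ⟨g, hg, hgp⟩ := GEN.dvd_card hm h2 K (by
      intro y hy'
      obtain ⟨h, hh, hh'⟩ := hy y hy'
      exact ⟨h, hh, hh'⟩) (by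
      intro g hg
      have h5 := h4 g g.2 (fun e => hg (Subtype.ext e))
      refine h5.trans ?_
      rw [Nat.card_eq_fintype_card, ← Fintype.card_coe]
      refine Fintype.card_le_of_injective (fun x : (H.filter fun s => m s * m g = m g * m s) =>
        (⟨⟨x, (mem_filter.1 x.2).1⟩, (mem_filter.1 x.2).2⟩ : GEN.T hm K (m g))) ?_
      intro x y hxy
      exact Subtype.ext (congrArg (fun z : GEN.T hm K (m g) => ((z : K) : G)) hxy)) (by
      obtain ⟨h, hh, hh'⟩ := hv (Pi.single 0 1) (by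
        intro h
        have := congrFun h 0
        simp at this)
      refine ⟨⟨h, hh⟩, ?_⟩
      intro e
      apply hh'
      have e' : h = 1 := congrArg Subtype.val e
      obtain ⟨c, _, hc⟩ := hm.one
      rw [e', hc, par]
      simp)
  exact GEN.main hm h2 H hmul hinv hv g.2 (fun e => hg (Subtype.ext e)) (by
    have := congrArg Subtype.val hgp
    rwa [Subgroup.coe_pow, Subgroup.coe_one] at this)

end MPcb27.PG
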