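import Pool.Agent.Lib.MP_cb27ba_nt.PG.QDR

/-!
# MP_cb27ba_nt, project PG: the group `PGL_2(F_p)` and its action on the projective line

`PGL_2(F_p)` is Mathlib's `Matrix.ProjGenLinGroup (Fin 2) (ZMod p)`, the projective line is
`OnePoint (ZMod p)` with Mathlib's action of `GL (Fin 2) (ZMod p)`.
-/

set_option autoImplicit false

namespace MPcb27.PG

open Matrix Finset MPcb27.LN

variable {p : ℕ} [Fact p.Prime]

theorem scalar_smul (u : (ZMod p)ˣ) (x : OnePoint (ZMod p)) :
    GeneralLinearGroup.scalar (Fin 2) u • x = x := by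
  cases x with
  | infty => simp [OnePoint.smul_infty_eq_ite]
  | coe x => simp [OnePoint.smul_some_eq_ite]

/-- the action of `PGL_2(F_p)` on the projective line -/
noncomputable instance : MulAction (ProjGenLinGroup (Fin 2) (ZMod p)) (OnePoint (ZMod p)) :=
  ProjGenLinGroup.mulActionOfGL scalar_smul

theorem mk_smul (g : GL (Fin 2) (ZMod p)) (x : OnePoint (ZMod p)) :
    (ProjGenLinGroup.mk g : ProjGenLinGroup (Fin 2) (ZMod p)) • x = g • x := rfl

/-- the action at a finite point which is not the pole -/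
theorem mk_smul_coe (g : GL (Fin 2) (ZMod p)) (x : ZMod p)
    (h : MB.den (g : Matrix (Fin 2) (Fin 2) (ZMod p)) x ≠ 0) :
    (ProjGenLinGroup.mk g : ProjGenLinGroup (Fin 2) (ZMod p)) • (x : OnePoint (ZMod p)) =
      ((MB.mob (g : Matrix (Fin 2) (Fin 2) (ZMod p)) x : ZMod p) : OnePoint (ZMod p)) := by
  unfold MB.den at h
  rw [mk_smul, OnePoint.smul_some_eq_ite, if_neg h, div_eq_mul_inv]
  rfl

theorem mk_smul_coe_pole (g : GL (Fin 2) (ZMod p)) (x : ZMod p)
    (h : MB.den (g : Matrix (Fin 2) (Fin 2) (ZMod p)) x = 0) :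
    (ProjGenLinGroup.mk g : ProjGenLinGroup (Fin 2) (ZMod p)) • (x : OnePoint (ZMod p)) =
      OnePoint.infty := by
  unfold MB.den at h
  rw [mk_smul, OnePoint.smul_some_eq_ite, if_pos h]

theorem card_line : Fintype.card (OnePoint (ZMod p)) = p + 1 := by
  have h : Fintype.card (OnePoint (ZMod p)) = Fintype.card (Option (ZMod p)) := rfl
  rw [h, Fintype.card_option, ZMod.card]

theorem two_trans (x y x' y' : OnePoint (ZMod p)) (h : x ≠ y) (h' : x' ≠ y') :
    ∃ g : ProjGenLinGroup (Fin 2) (ZMod p), g • x = x' ∧ g • y = y' := by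
  have h2 : MulAction.IsMultiplyPretransitive (SpecialLinearGroup (Fin 2) (ZMod p))
    (Projectivization (ZMod p) (Fin 2 → ZMod p)) 2 := inferInstance
  rw [MulAction.is_two_pretransitive_iff] at h2
  let e := OnePoint.equivProjectivization (ZMod p)
  obtain ⟨g, hx, hy⟩ := h2 (a := e x) (b := e y) (c := e x') (d := e y')
    (fun H => h (e.injective H)) (fun H => h' (e.injective H))
  have key : ∀ z : OnePoint (ZMod p),
      e ((ProjGenLinGroup.mk (g : GL (Fin 2) (ZMod p)) :
        ProjGenLinGroup (Fin 2) (ZMod p)) • z) = g • e z := by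
    intro z
    rw [mk_smul, OnePoint.equivProjectivization_smul]
    induction e z using Projectivization.ind with
    | h v hv => rfl
  refine ⟨ProjGenLinGroup.mk (g : GL (Fin 2) (ZMod p)), e.injective ?_, e.injective ?_⟩
  · rw [key, hx]
  · rw [key, hy]

theorem card_PGL : Fintype.card (ProjGenLinGroup (Fin 2) (ZMod p)) = p * (p ^ 2 - 1) := by
  have h1 := Subgroup.card_eq_card_quotient_mul_card_subgroup
    (Subgroup.center (GL (Fin 2) (ZMod p)))
  have h2 : Nat.card (GL (Fin 2) (ZMod p)) = (p ^ 2 - 1) * (p ^ 2 - p) := by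
    rw [Matrix.card_GL_field, ZMod.card]
    simp [Fin.prod_univ_two]
  have h3 : Nat.card (Subgroup.center (GL (Fin 2) (ZMod p))) = p - 1 := by
    rw [GeneralLinearGroup.center_eq_range_scalar]
    have h4 : Function.Injective (GeneralLinearGroup.scalar (Fin 2) :
        (ZMod p)ˣ →* GL (Fin 2) (ZMod p)) := by
      intro u v huv
      have h5 := congrArg (fun g : GL (Fin 2) (ZMod p) => g 0 0) huv
      simpa [Units.ext_iff] using h5
    rw [Nat.card_congr (MonoidHom.ofInjective h4).symm.toEquiv, Nat.card_eq_fintype_card,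
      ZMod.card_units]
  have h4 : Nat.card (GL (Fin 2) (ZMod p) ⧸ Subgroup.center (GL (Fin 2) (ZMod p))) =
      Fintype.card (ProjGenLinGroup (Fin 2) (ZMod p)) := by
    rw [← Nat.card_eq_fintype_card]
    rfl
  rw [h2, h3, h4] at h1
  have hp : 2 ≤ p := (Fact.out : p.Prime).two_le
  have h5 : 0 < p - 1 := by omega
  have h6 : p ^ 2 - p = p * (p - 1) := by
    rw [Nat.mul_sub, mul_one, sq]
  rw [h6, ← mul_assoc, mul_comm (p ^ 2 - 1) p] at h1
  exact (Nat.eq_of_mul_eq_mul_right h5 h1).symm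

/-- `⟨T_μ f, f⟩² ≤ (p² - 1) ‖μ‖₂² ‖f‖⁴` for `∑ f = 0` -/
theorem opl (μ : ProjGenLinGroup (Fin 2) (ZMod p) → ℝ) (f : OnePoint (ZMod p) → ℝ)
    (h0 : ∑ x, f x = 0) :
    QX μ f ^ 2 ≤ ((p : ℝ) ^ 2 - 1) * l2 μ * (∑ x, f x ^ 2) ^ 2 := by
  classical
  have hp : 2 ≤ p := (Fact.out : p.Prime).two_le
  have h1 := opg (fun x y x' y' h h' => two_trans x y x' y' h h')
    (by rw [card_line]; omega) μ f h0
  have h2 : 1 ≤ p ^ 2 := Nat.one_le_pow _ _ (by omega)
  rw [card_line, card_PGL] at h1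
  push_cast [Nat.cast_sub h2] at h1
  have h3 : (0 : ℝ) < p := by exact_mod_cast (by omega : 0 < p)
  refine le_of_mul_le_mul_right ?_ h3
  linarith

end MPcb27.PG
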