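import Pool.Agent.Lib.MP_cb27ba_nt.PG.Spec
import Pool.Agent.Lib.MP_cb27ba_nt.LN.OPL
import Mathlib.LinearAlgebra.Projectivization.Cardinality
import Pool.Agent.Lib.MP_cb27ba_nt.PG.TWO

section
/-!
# MP_cb27ba_nt, project PG: module FLM, flattening
-/
set_option autoImplicit false

namespace MPcb27.PG

open Finset Matrix
open scoped Pointwise
open MPcb27.TU MPcb27.TW MPcb27.LN

namespace FLM

section

variable {p : ℕ} [Fact p.Prime]

theorem par_smul {c : ZMod p} (hc : c ≠ 0) (v w : Fin 2 → ZMod p) : par (c • v) w ↔ par v w := by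
  unfold par
  simp only [Pi.smul_apply, smul_eq_mul]
  constructor
  · intro h
    exact mul_left_cancel₀ hc (by linear_combination h)
  · intro h
    linear_combination c * h

theorem par_adj (A : M2 p) (x w : Fin 2 → ZMod p) :
    par (A *ᵥ x) w ↔ par x (A.adjugate *ᵥ w) := by
  rw [adj_eq]
  unfold par
  simp only [Matrix.mulVec, dotProduct, Fin.sum_univ_two, Matrix.of_apply, Matrix.cons_val',
    Matrix.cons_val_zero, Matrix.cons_val_one, Matrix.cons_val_fin_one]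
  constructor
  · intro h
    linear_combination h
  · intro h
    linear_combination h

theorem adj_ne {A : M2 p} (hA : A.det ≠ 0) {w : Fin 2 → ZMod p} (hw : w ≠ 0) :
    A.adjugate *ᵥ w ≠ 0 := by
  intro h
  have h1 : A *ᵥ (A.adjugate *ᵥ w) = A.det • w := by
    rw [Matrix.mulVec_mulVec, Matrix.mul_adjugate, Matrix.smul_mulVec, Matrix.one_mulVec]
  rw [h, Matrix.mulVec_zero] at h1
  exact (smul_ne_zero hA hw) h1.symm

theorem mul_ne {A : M2 p} (hA : A.det ≠ 0) {w : Fin 2 → ZMod p} (hw : w ≠ 0) :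
    A *ᵥ w ≠ 0 := by
  intro h
  have h1 : A.adjugate *ᵥ (A *ᵥ w) = A.det • w := by
    rw [Matrix.mulVec_mulVec, Matrix.adjugate_mul, Matrix.smul_mulVec, Matrix.one_mulVec]
  rw [h, Matrix.mulVec_zero] at h1
  exact (smul_ne_zero hA hw) h1.symm

end

section

variable {p : ℕ} [Fact p.Prime] {G : Type} [Group G] {m : G → M2 p}

theorem line_iff (hm : IsPRep m) (k g : G) (r₀ r₁ : M2 p) :
    m (k * g) * r₀ = r₁ * m (k * g) ↔ m g * r₀ = (m k)⁻¹ * r₁ * m k * m g := by
  obtain ⟨c, hc, h⟩ := hm.mul k g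
  have hu : IsUnit (m k).det := (hm.det_ne k).isUnit
  rw [h, smul_mul_assoc, mul_smul_comm]
  constructor
  · intro h1
    have h2 : m k * m g * r₀ = r₁ * (m k * m g) := by
      have := congrArg (fun x => c⁻¹ • x) h1
      simpa only [smul_smul, inv_mul_cancel₀ hc, one_smul] using this
    calc m g * r₀ = (m k)⁻¹ * (m k * m g * r₀) := by
          rw [mul_assoc (m k), ← mul_assoc (m k)⁻¹, Matrix.nonsing_inv_mul _ hu, one_mul]
      _ = (m k)⁻¹ * r₁ * m k * m g := by rw [h2]; simp only [mul_assoc]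
  · intro h1
    congr 1
    calc m k * m g * r₀ = m k * (m g * r₀) := by rw [mul_assoc]
      _ = (m k * (m k)⁻¹) * r₁ * m k * m g := by rw [h1]; simp only [mul_assoc]
      _ = r₁ * (m k * m g) := by rw [Matrix.mul_nonsing_inv _ hu, one_mul, mul_assoc]

theorem point_iff (hm : IsPRep m) (k g : G) (v w : Fin 2 → ZMod p) :
    par (m (k * g) *ᵥ v) w ↔ par (m g *ᵥ v) ((m k).adjugate *ᵥ w) := by
  obtain ⟨c, hc, h⟩ := hm.mul k g
  rw [h, Matrix.smul_mulVec, par_smul hc, ← Matrix.mulVec_mulVec, par_adj]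

variable [Fintype G]

theorem line_dbl (hm : IsPRep m) {ν : G → ℝ} (hν : IsProb ν) (c : ℝ)
    (h : ∀ r₀ r₁ : M2 p, NonSc r₀ →
      ∑ g ∈ univ.filter (fun g => m g * r₀ = r₁ * m g), ν g ≤ c) :
    ∀ j, ∀ r₀ r₁ : M2 p, NonSc r₀ →
      ∑ g ∈ univ.filter (fun g => m g * r₀ = r₁ * m g), dbl ν j g ≤ c
  | 0 => h
  | j + 1 => by
    intro r₀ r₁ h0
    refine FLG.mass_conv (FLG.prob_dbl hν j) _ c fun k => ?_
    have e : (univ.filter fun g => m (k * g) * r₀ = r₁ * m (k * g)) =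
        univ.filter fun g => m g * r₀ = (m k)⁻¹ * r₁ * m k * m g := by
      ext g
      simp only [mem_filter, mem_univ, true_and]
      exact line_iff hm k g r₀ r₁
    rw [e]
    exact line_dbl hm hν c h j _ _ h0

theorem point_dbl (hm : IsPRep m) {ν : G → ℝ} (hν : IsProb ν) (c : ℝ)
    (h : ∀ v w : Fin 2 → ZMod p, v ≠ 0 → w ≠ 0 →
      ∑ g ∈ univ.filter (fun g => par (m g *ᵥ v) w), ν g ≤ c) :
    ∀ j, ∀ v w : Fin 2 → ZMod p, v ≠ 0 → w ≠ 0 →
      ∑ g ∈ univ.filter (fun g => par (m g *ᵥ v) w), dbl ν j g ≤ c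
  | 0 => h
  | j + 1 => by
    intro v w hv hw
    refine FLG.mass_conv (FLG.prob_dbl hν j) _ c fun k => ?_
    have e : (univ.filter fun g => par (m (k * g) *ᵥ v) w) =
        univ.filter fun g => par (m g *ᵥ v) ((m k).adjugate *ᵥ w) := by
      ext g
      simp only [mem_filter, mem_univ, true_and]
      exact point_iff hm k g v w
    rw [e]
    exact point_dbl hm hν c h j _ _ hv (adj_ne (hm.det_ne k) hw)

omit [Group G] [Fintype G] in
theorem sum_union_le [DecidableEq G] {μ : G → ℝ} (h : ∀ g, 0 ≤ μ g) (A B : Finset G) :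
    ∑ g ∈ A ∪ B, μ g ≤ ∑ g ∈ A, μ g + ∑ g ∈ B, μ g := by
  have h1 := Finset.sum_union_inter (s₁ := A) (s₂ := B) (f := μ)
  have h2 : 0 ≤ ∑ g ∈ A ∩ B, μ g := sum_nonneg fun g _ => h g
  linarith

theorem nonSc_of {p : ℕ} [Fact p.Prime] {r : M2 p} (h2 : p ≠ 2) (ht : r.trace = 0) (hd : r.det ≠ 0) : NonSc r := by
  intro c hc
  rw [hc, Matrix.trace_fin_two] at ht
  simp only [Matrix.smul_apply, Matrix.one_apply_eq, smul_eq_mul, mul_one] at ht
  have h3 : (2 : ZMod p) ≠ 0 := by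
    intro h4
    have h5 : ((2 : ℕ) : ZMod p) = 0 := by exact_mod_cast h4
    rw [ZMod.natCast_eq_zero_iff] at h5
    exact h2 ((Nat.prime_dvd_prime_iff_eq Fact.out Nat.prime_two).mp h5)
  have h4 : c = 0 := by
    rcases mul_eq_zero.mp (show (2 : ZMod p) * c = 0 by linear_combination ht) with h | h
    · exact absurd h h3
    · exact h
  apply hd
  rw [hc, h4, zero_smul]
  exact Matrix.det_zero

end

end FLM

open FLM in
/-- **FLM** -/
theorem specFLM (hTR : LN.SpecTRG) (hBS : LN.SpecBSGG) (hAP : LN.SpecAPX) (hCL : SpecCLM) :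
    SpecFLM := by
  classical
  intro δ δ₁ hδ hδ₁
  obtain ⟨C₁, hBS⟩ := hBS
  obtain ⟨C₂, hCL⟩ := hCL
  -- the exponent
  obtain ⟨ε, hε0, hεδ, hεδ₁, hε1⟩ : ∃ ε : ℝ, 0 < ε ∧ ε ≤ δ ∧ ε ≤ δ₁ ∧ ε ≤ 1 :=
    ⟨min δ (min δ₁ 1), lt_min hδ (lt_min hδ₁ one_pos), min_le_left _ _,
      (min_le_right _ _).trans (min_le_left _ _), (min_le_right _ _).trans (min_le_right _ _)⟩
  -- constants
  obtain ⟨c₀, hc₀⟩ : ∃ c₀ : ℝ, c₀ = C₁ * (2 ^ 36) ^ C₁ := ⟨_, rfl⟩
  have hc₀0 : 0 ≤ c₀ := by rw [hc₀]; positivity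
  obtain ⟨c₂, hc₂⟩ : ∃ c₂ : ℝ, c₂ = 2 ^ 28 * 64 ^ 7 * (1 + C₂) * 2 ^ C₂ * c₀ ^ (16 + 2 * C₂) :=
    ⟨_, rfl⟩
  have hc₂0 : 0 ≤ c₂ := by rw [hc₂]; positivity
  set E : ℕ := 13 + 8 * C₁ * (16 + 2 * C₂) with hE
  obtain ⟨J, hJ⟩ := exists_nat_gt (12 * (E : ℝ) / ε)
  have hJ0 : (0 : ℝ) < J := lt_of_le_of_lt (by positivity) hJ
  have hJE : 3 * (E : ℝ) / J ≤ ε / 4 := by
    rw [div_lt_iff₀ hε0] at hJ
    rw [div_le_iff₀ hJ0]
    nlinarith
  have ev : ∀ᶠ x : ℝ in Filter.atTop, c₂ ≤ x ^ (ε / 4) :=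
    (tendsto_rpow_atTop (by positivity)).eventually_ge_atTop _
  obtain ⟨P, hP⟩ := Filter.eventually_atTop.1 (tendsto_natCast_atTop_atTop.eventually ev)
  refine ⟨J, max P 3, ?_⟩
  intro p _ hp G _ _ _ m ν hm hν hνl hνp
  have hp3 : 3 ≤ p := (le_max_right _ _).trans hp
  have hp2 : p ≠ 2 := by omega
  have hpp : p.Prime := Fact.out
  have hp1 : (1 : ℝ) < p := by exact_mod_cast hpp.one_lt
  have hp0 : (0 : ℝ) < p := by linarith
  have hQp := hP p ((le_max_left _ _).trans hp)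
  have hrp : ∀ e : ℝ, (0 : ℝ) < (p : ℝ) ^ e := fun e => Real.rpow_pos_of_pos hp0 _
  have hpp4 : (p : ℝ) ^ (ε / 4) * (p : ℝ) ^ (ε / 4) = (p : ℝ) ^ (ε / 2) := by
    rw [← Real.rpow_add hp0]
    congr 1
    ring
  have hpδ : (p : ℝ) ^ (-δ) ≤ (p : ℝ) ^ (-ε) :=
    Real.rpow_le_rpow_of_exponent_le hp1.le (by linarith)
  have hpδ₁ : (p : ℝ) ^ (-δ₁) ≤ (p : ℝ) ^ (-ε) :=
    Real.rpow_le_rpow_of_exponent_le hp1.le (by linarith)
  have hneg : (p : ℝ) ^ (ε / 2) * (p : ℝ) ^ (-ε) < 1 := by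
    rw [← Real.rpow_add hp0]
    exact Real.rpow_lt_one_of_one_lt_of_neg hp1 (by linarith)
  by_contra hcon
  push Not at hcon
  -- the parameter K
  set K : ℝ := (p : ℝ) ^ (3 / (J : ℝ)) with hK
  have hK1 : 1 ≤ K := Real.one_le_rpow hp1.le (by positivity)
  have hK0 : 0 < K := by linarith
  have hKJ : K ^ J = (p : ℝ) ^ (3 : ℝ) := by
    rw [hK, ← Real.rpow_natCast, ← Real.rpow_mul hp0.le, div_mul_cancel₀ _ hJ0.ne']
  have hKpow : K ^ E ≤ (p : ℝ) ^ (ε / 4) := by
    rw [hK, ← Real.rpow_natCast, ← Real.rpow_mul hp0.le]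
    apply Real.rpow_le_rpow_of_exponent_le hp1.le
    rw [div_mul_eq_mul_div]
    exact hJE
  obtain ⟨j, hjJ, hj⟩ := FLG.pig (fun j => l2 (dbl ν j)) J K hK0 (FLG.l2_le_one hν) (by
    rw [hKJ]
    calc (1 : ℝ) = (p : ℝ) ^ (3 : ℝ) * (p : ℝ) ^ (-3 : ℝ) := by
          rw [← Real.rpow_add hp0, add_neg_cancel, Real.rpow_zero]
      _ < (p : ℝ) ^ (3 : ℝ) * l2 (dbl ν J) := by
          apply mul_lt_mul_of_pos_left _ (hrp _)
          refine lt_of_le_of_lt ?_ hcon
          apply Real.rpow_le_rpow_of_exponent_le hp1.le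
          norm_num)
  have hWbig : (p : ℝ) ^ (-(2 + 1 / 8 : ℝ)) < l2 (dbl ν j) :=
    lt_of_lt_of_le hcon (FLG.l2_dbl_anti hν hjJ.le)
  have hμ := FLG.prob_dbl hν j
  have hμl := line_dbl hm hν _ hνl j
  have hμp := point_dbl hm hν _ hνp j
  set μ : G → ℝ := dbl ν j with hμdef
  set W : ℝ := l2 μ with hW
  have hW0 : 0 < W := lt_trans (hrp _) hWbig
  -- the level set
  obtain ⟨X, hX1, hX2, hX3⟩ := hTR G μ K hK1 hμ hj
  rw [← hW] at hX1 hX3
  have hXn : X.Nonempty := by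
    rw [nonempty_iff_ne_empty]
    intro h
    rw [h, card_empty, Nat.cast_zero, zero_mul] at hX3
    norm_num at hX3
  have hXc : (0 : ℝ) < #X := by exact_mod_cast hXn.card_pos
  have hXW : (#X : ℝ) * W ≤ 32 * K := by
    calc (#X : ℝ) * W = ∑ x ∈ X, W := by rw [sum_const, nsmul_eq_mul]
      _ ≤ ∑ x ∈ X, 32 * K * μ x := sum_le_sum hX1
      _ = 32 * K * ∑ x ∈ X, μ x := (mul_sum ..).symm
      _ ≤ 32 * K * 1 := by
          apply mul_le_mul_of_nonneg_left _ (by positivity)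
          rw [← hμ.2]
          exact sum_le_sum_of_subset_of_nonneg (subset_univ _) fun g _ _ => hμ.1 g
      _ = 32 * K := mul_one _
  have hXW1 : (1 : ℝ) ≤ 2 ^ 21 * K ^ 5 * (#X * W) := by
    have hKK : (1 : ℝ) ≤ 2 ^ 21 * K ^ 5 := by
      have : (1 : ℝ) ≤ K ^ 5 := one_le_pow₀ hK1
      linarith
    have ht0 : (0 : ℝ) < #X * W := by positivity
    rcases le_total (#X * W : ℝ) 1 with h | h
    · refine hX3.trans (mul_le_mul_of_nonneg_left ?_ (by positivity))
      calc (#X * W : ℝ) ^ 3 ≤ (#X * W) ^ 1 := pow_le_pow_of_le_one ht0.le h (by norm_num)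
        _ = #X * W := pow_one _
    · exact one_le_mul_of_one_le_of_one_le hKK h
  -- Balog-Szemerédi-Gowers
  have hK8 : (1 : ℝ) ≤ 2 ^ 36 * K ^ 8 := by
    have : (1 : ℝ) ≤ K ^ 8 := one_le_pow₀ hK1
    linarith
  obtain ⟨X', hX'X, hXX', hXX⟩ := hBS G X (2 ^ 36 * K ^ 8) hK8 hXn hX2
  set K₂ : ℝ := C₁ * (2 ^ 36 * K ^ 8) ^ C₁ with hK₂
  have hK₂0 : 0 ≤ K₂ := by positivity
  have hX'c : (0 : ℝ) < #X' := by
    rcases Nat.eq_zero_or_pos (#X') with h | h
    · rw [h, Nat.cast_zero, mul_zero] at hXX'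
      linarith
    · exact_mod_cast h
  have hX'n : X'.Nonempty := card_pos.mp (by exact_mod_cast hX'c)
  have hX'le : (#X' : ℝ) ≤ #X := by exact_mod_cast card_le_card hX'X
  have hK₂1 : 1 ≤ K₂ := by
    by_contra h
    push Not at h
    have : K₂ * #X' < 1 * #X' := mul_lt_mul_of_pos_right h hX'c
    linarith
  have hK₂e : K₂ = c₀ * K ^ (8 * C₁) := by
    rw [hK₂, hc₀, mul_pow, pow_mul K 8 C₁, mul_assoc]
  -- the approximate subgroup
  obtain ⟨S, hS1, hSi, hSX, hSn, u, -, hu⟩ := hAP G X' K₂ hK₂1 hX'n hXX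
  set Y := X'.filter (fun v => u⁻¹ * v ∈ S) with hY
  set M : ℝ := ∑ v ∈ Y, μ v with hM
  have hYM : (#Y : ℝ) * W ≤ 32 * K * M := by
    calc (#Y : ℝ) * W = ∑ x ∈ Y, W := by rw [sum_const, nsmul_eq_mul]
      _ ≤ ∑ x ∈ Y, 32 * K * μ x :=
          sum_le_sum fun x hx => hX1 x (hX'X (mem_filter.mp hx).1)
      _ = 32 * K * M := (mul_sum ..).symm
  set E₁ : ℝ := 2 ^ 27 * K ^ 6 * K₂ ^ 2 with hE₁
  have hE₁0 : 0 < E₁ := by positivity
  have hM1 : 1 ≤ E₁ * M := by
    calc (1 : ℝ) ≤ 2 ^ 21 * K ^ 5 * (#X * W) := hXW1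
      _ ≤ 2 ^ 21 * K ^ 5 * ((K₂ * #X') * W) := by
          apply mul_le_mul_of_nonneg_left _ (by positivity)
          exact mul_le_mul_of_nonneg_right hXX' hW0.le
      _ ≤ 2 ^ 21 * K ^ 5 * ((K₂ * (2 * K₂ * #Y)) * W) := by
          apply mul_le_mul_of_nonneg_left _ (by positivity)
          apply mul_le_mul_of_nonneg_right _ hW0.le
          exact mul_le_mul_of_nonneg_left hu hK₂0
      _ = 2 ^ 22 * K ^ 5 * K₂ ^ 2 * (#Y * W) := by ring
      _ ≤ 2 ^ 22 * K ^ 5 * K₂ ^ 2 * (32 * K * M) :=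
          mul_le_mul_of_nonneg_left hYM (by positivity)
      _ = E₁ * M := by rw [hE₁]; ring
  -- sizes
  set K₄ : ℝ := 2 * K₂ ^ 2 with hK₄
  have hK₂2 : (1 : ℝ) ≤ K₂ ^ 2 := one_le_pow₀ hK₂1
  have hK₄1 : 1 ≤ K₄ := by rw [hK₄]; linarith
  have hK₄0 : 0 < K₄ := by linarith
  set R : ℝ := 2 ^ 28 * 64 ^ 7 * (1 + C₂) * 2 ^ C₂ * K ^ 13 * K₂ ^ (16 + 2 * C₂) with hR
  have hRp : R ≤ (p : ℝ) ^ (ε / 2) := by
    have e : R = c₂ * K ^ E := by
      rw [hR, hK₂e, mul_pow, ← pow_mul K, hc₂, hE, pow_add K 13]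
      ring
    rw [e, ← hpp4]
    exact mul_le_mul hQp hKpow (by positivity) (hrp _).le
  have hReq : R = (2 * E₁) * (64 * K * K₂ ^ 2) ^ 7 * ((1 + C₂) * K₄ ^ C₂) := by
    rw [hR, hE₁, hK₄, mul_pow (2 : ℝ), ← pow_mul, pow_add K₂]
    ring
  have h64 : (1 : ℝ) ≤ (64 * K * K₂ ^ 2) ^ 7 := by
    apply one_le_pow₀
    have h1 : (1 : ℝ) ≤ K * K₂ ^ 2 := one_le_mul_of_one_le_of_one_le hK1 hK₂2
    calc (1 : ℝ) ≤ 64 * (K * K₂ ^ 2) := by linarith
      _ = 64 * K * K₂ ^ 2 := by ring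
  have hCK : (1 : ℝ) ≤ (1 + C₂) * K₄ ^ C₂ := by
    have h1 : (1 : ℝ) ≤ K₄ ^ C₂ := one_le_pow₀ hK₄1
    have h2 : (1 : ℝ) ≤ 1 + C₂ := by
      have : (0 : ℝ) ≤ C₂ := Nat.cast_nonneg _
      linarith
    exact one_le_mul_of_one_le_of_one_le h2 h1
  have hCK2 : C₂ * K₄ ^ C₂ ≤ (1 + C₂) * K₄ ^ C₂ := by
    have h1 : (0 : ℝ) ≤ K₄ ^ C₂ := by positivity
    rw [add_mul, one_mul]
    linarith
  have hE₁1 : (1 : ℝ) ≤ 2 * E₁ := by
    have h1 : (1 : ℝ) ≤ K ^ 6 := one_le_pow₀ hK1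
    have h2 : (1 : ℝ) ≤ K ^ 6 * K₂ ^ 2 := one_le_mul_of_one_le_of_one_le h1 hK₂2
    rw [hE₁]
    linarith
  have hR1 : 2 * E₁ ≤ R := by
    rw [hReq, mul_assoc]
    exact le_mul_of_one_le_right (by positivity) (one_le_mul_of_one_le_of_one_le h64 hCK)
  have hR2 : E₁ * (C₂ * K₄ ^ C₂) ≤ R := by
    calc E₁ * (C₂ * K₄ ^ C₂) ≤ (2 * E₁) * 1 * ((1 + C₂) * K₄ ^ C₂) := by
          rw [mul_one]
          exact mul_le_mul (by linarith) hCK2 (by positivity) (by positivity)
      _ ≤ (2 * E₁) * (64 * K * K₂ ^ 2) ^ 7 * ((1 + C₂) * K₄ ^ C₂) := by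
          apply mul_le_mul_of_nonneg_right _ (by positivity)
          exact mul_le_mul_of_nonneg_left h64 (by positivity)
      _ = R := hReq.symm
  have hR3 : (64 * K * K₂ ^ 2) ^ 7 * (C₂ * K₄ ^ C₂) ≤ R := by
    calc (64 * K * K₂ ^ 2) ^ 7 * (C₂ * K₄ ^ C₂)
        ≤ 1 * (64 * K * K₂ ^ 2) ^ 7 * ((1 + C₂) * K₄ ^ C₂) := by
          rw [one_mul]
          exact mul_le_mul_of_nonneg_left hCK2 (by positivity)
      _ ≤ (2 * E₁) * (64 * K * K₂ ^ 2) ^ 7 * ((1 + C₂) * K₄ ^ C₂) := by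
          apply mul_le_mul_of_nonneg_right _ (by positivity)
          exact mul_le_mul_of_nonneg_right hE₁1 (by positivity)
      _ = R := hReq.symm
  -- small mass of `u S` is impossible
  have hsmall : ∀ c : ℝ, M ≤ c → c ≤ 2 * (p : ℝ) ^ (-ε) → False := by
    intro c h1 h2
    have h3 : (1 : ℝ) ≤ E₁ * (2 * (p : ℝ) ^ (-ε)) :=
      hM1.trans (mul_le_mul_of_nonneg_left (h1.trans h2) hE₁0.le)
    have h4 : E₁ * (2 * (p : ℝ) ^ (-ε)) ≤ (p : ℝ) ^ (ε / 2) * (p : ℝ) ^ (-ε) := by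
      calc E₁ * (2 * (p : ℝ) ^ (-ε)) = (2 * E₁) * (p : ℝ) ^ (-ε) := by ring
        _ ≤ (p : ℝ) ^ (ε / 2) * (p : ℝ) ^ (-ε) :=
            mul_le_mul_of_nonneg_right (hR1.trans hRp) (hrp _).le
    linarith
  -- nondegeneracy
  have hND : ND m S := by
    refine ⟨fun v hv => ?_, fun r hrt hrd => ?_⟩
    · by_contra h
      push Not at h
      refine hsmall _ ?_ (show (p : ℝ) ^ (-δ₁) ≤ 2 * (p : ℝ) ^ (-ε) by
        have := hrp (-ε)
        linarith)
      refine le_trans ?_ (hμp v (m u *ᵥ v) hv (mul_ne (hm.det_ne u) hv))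
      refine sum_le_sum_of_subset_of_nonneg (fun g hg => ?_) fun g _ _ => hμ.1 g
      have h1 := h _ (mem_filter.mp hg).2
      rw [mem_filter]
      refine ⟨mem_univ _, ?_⟩
      have h2 : par (m (u * (u⁻¹ * g)) *ᵥ v) (m u *ᵥ v) := by
        rw [point_iff hm, Matrix.mulVec_mulVec, Matrix.adjugate_mul, Matrix.smul_mulVec,
          Matrix.one_mulVec]
        have h3 := (par_smul (hm.det_ne u) (m (u⁻¹ * g) *ᵥ v) v).mpr h1
        unfold par at h3 ⊢
        simp only [Pi.smul_apply, smul_eq_mul] at h3 ⊢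
        linear_combination h3
      rwa [mul_inv_cancel_left] at h2
    · by_contra h
      push Not at h
      have hns := nonSc_of hp2 hrt hrd
      set q : M2 p := m u * r * (m u)⁻¹ with hq
      have hu' : IsUnit (m u).det := (hm.det_ne u).isUnit
      refine hsmall _ ?_ (show (p : ℝ) ^ (-δ) + (p : ℝ) ^ (-δ) ≤ 2 * (p : ℝ) ^ (-ε) by linarith)
      refine le_trans ?_ (add_le_add (hμl r q hns) (hμl r (-q) hns))
      refine le_trans ?_ (sum_union_le (fun g => hμ.1 g) _ _)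
      refine sum_le_sum_of_subset_of_nonneg (fun g hg => ?_) fun g _ _ => hμ.1 g
      have h1 := h _ (mem_filter.mp hg).2
      have hqi : (m u)⁻¹ * q * m u = r := by
        rw [hq]
        calc (m u)⁻¹ * (m u * r * (m u)⁻¹) * m u
            = ((m u)⁻¹ * m u) * r * ((m u)⁻¹ * m u) := by simp only [mul_assoc]
          _ = r := by rw [Matrix.nonsing_inv_mul _ hu', one_mul, mul_one]
      rw [mem_union, mem_filter, mem_filter]
      by_cases h2 : m (u⁻¹ * g) * r = r * m (u⁻¹ * g)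
      · left
        refine ⟨mem_univ _, ?_⟩
        have h3 : m (u * (u⁻¹ * g)) * r = q * m (u * (u⁻¹ * g)) := by
          rw [line_iff hm, hqi]
          exact h2
        rwa [mul_inv_cancel_left] at h3
      · right
        refine ⟨mem_univ _, ?_⟩
        have h3 : m (u * (u⁻¹ * g)) * r = (-q) * m (u * (u⁻¹ * g)) := by
          rw [line_iff hm, mul_neg, neg_mul, hqi, neg_mul]
          exact h1 h2
        rwa [mul_inv_cancel_left] at h3
  -- many elements
  have hpt : ∀ g : G, μ g ≤ (p : ℝ) ^ (-ε) := by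
    intro g
    have hu' : IsUnit (m g).det := (hm.det_ne g).isUnit
    have hns : NonSc (!![0, 1; 0, 0] : M2 p) := by
      intro c hc
      have h1 := congrFun (congrFun hc 0) 1
      simp at h1
    refine le_trans ?_ ((hμl !![0, 1; 0, 0] (m g * !![0, 1; 0, 0] * (m g)⁻¹) hns).trans hpδ)
    refine single_le_sum (f := μ) (fun g _ => hμ.1 g) ?_
    rw [mem_filter]
    refine ⟨mem_univ _, ?_⟩
    rw [mul_assoc _ _ (m g), Matrix.nonsing_inv_mul _ hu', mul_one]
  have hMS : M ≤ #S * (p : ℝ) ^ (-ε) := by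
    refine FLG.mass_cover μ hμ.1 Y S (fun v => u⁻¹ * v) (fun v hv => (mem_filter.mp hv).2) _
      fun z _ => ?_
    have e : (univ.filter fun g : G => u⁻¹ * g = z) = {u * z} := by
      ext g
      simp [inv_mul_eq_iff_eq_mul]
    rw [e, sum_singleton]
    exact hpt _
  have hSbig : C₂ * K₄ ^ C₂ ≤ (#S : ℝ) := by
    have h1 : (1 : ℝ) ≤ E₁ * (#S * (p : ℝ) ^ (-ε)) :=
      hM1.trans (mul_le_mul_of_nonneg_left hMS hE₁0.le)
    have h2 : E₁ * (C₂ * K₄ ^ C₂) * (p : ℝ) ^ (-ε) ≤ E₁ * (#S * (p : ℝ) ^ (-ε)) := by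
      refine le_trans ?_ h1
      refine le_trans ?_ hneg.le
      exact mul_le_mul_of_nonneg_right (hR2.trans hRp) (hrp _).le
    have h3 : (E₁ * (p : ℝ) ^ (-ε)) * (C₂ * K₄ ^ C₂) ≤ (E₁ * (p : ℝ) ^ (-ε)) * #S := by
      calc (E₁ * (p : ℝ) ^ (-ε)) * (C₂ * K₄ ^ C₂) = E₁ * (C₂ * K₄ ^ C₂) * (p : ℝ) ^ (-ε) := by
            ring
        _ ≤ E₁ * (#S * (p : ℝ) ^ (-ε)) := h2
        _ = (E₁ * (p : ℝ) ^ (-ε)) * #S := by ring
    exact le_of_mul_le_mul_left h3 (mul_pos hE₁0 (hrp _))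
  have hSpow : ∀ n : ℕ, (#(S ^ n) : ℝ) ≤ K₄ ^ (n + 1) * #S := by
    intro n
    calc (#(S ^ n) : ℝ) ≤ (2 * K₂ ^ 2) ^ n * #X' := hSn n
      _ ≤ (2 * K₂ ^ 2) ^ n * (2 * K₂ * #S) := mul_le_mul_of_nonneg_left hSX (by positivity)
      _ ≤ (2 * K₂ ^ 2) ^ n * (2 * K₂ ^ 2 * #S) := by
          apply mul_le_mul_of_nonneg_left _ (by positivity)
          apply mul_le_mul_of_nonneg_right _ (Nat.cast_nonneg _)
          rw [pow_two]
          linarith [mul_le_mul_of_nonneg_left hK₂1 hK₂0]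
      _ = K₄ ^ (n + 1) * #S := by rw [hK₄]; ring
  have hS1' : (#S : ℝ) ≤ 2 * K₂ ^ 2 * #X' := by
    have := hSn 1
    simpa using this
  have hfin := hCL p hp2 G m S K₄ hK₄1 hm hS1 hSi hND hSpow hSbig
  -- the contradiction
  have h1 : (#S : ℝ) * W ≤ 64 * K * K₂ ^ 2 := by
    calc (#S : ℝ) * W ≤ (2 * K₂ ^ 2 * #X) * W := by
          apply mul_le_mul_of_nonneg_right _ hW0.le
          exact hS1'.trans (mul_le_mul_of_nonneg_left hX'le (by positivity))
      _ = 2 * K₂ ^ 2 * (#X * W) := by ring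
      _ ≤ 2 * K₂ ^ 2 * (32 * K) := mul_le_mul_of_nonneg_left hXW (by positivity)
      _ = 64 * K * K₂ ^ 2 := by ring
  have h2 : (p : ℝ) ^ 16 * W ^ 7 ≤ (p : ℝ) ^ (ε / 2) := by
    calc (p : ℝ) ^ 16 * W ^ 7 ≤ (C₂ * K₄ ^ C₂ * (#S : ℝ) ^ 7) * W ^ 7 :=
          mul_le_mul_of_nonneg_right hfin (by positivity)
      _ = C₂ * K₄ ^ C₂ * ((#S : ℝ) * W) ^ 7 := by ring
      _ ≤ C₂ * K₄ ^ C₂ * (64 * K * K₂ ^ 2) ^ 7 := by
          apply mul_le_mul_of_nonneg_left _ (by positivity)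
          exact pow_le_pow_left₀ (by positivity) h1 7
      _ = (64 * K * K₂ ^ 2) ^ 7 * (C₂ * K₄ ^ C₂) := by ring
      _ ≤ R := hR3
      _ ≤ (p : ℝ) ^ (ε / 2) := hRp
  have h3 : ((p : ℝ) ^ (-(2 + 1 / 8 : ℝ))) ^ 7 < W ^ 7 :=
    pow_lt_pow_left₀ hWbig (hrp _).le (by norm_num)
  have h4 : (p : ℝ) ^ 16 * ((p : ℝ) ^ (-(2 + 1 / 8 : ℝ))) ^ 7 = (p : ℝ) ^ (9 / 8 : ℝ) := by
    rw [← Real.rpow_natCast, ← Real.rpow_natCast, ← Real.rpow_mul hp0.le, ← Real.rpow_add hp0]
    congr 1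
    norm_num
  have h5 : (p : ℝ) ^ (9 / 8 : ℝ) < (p : ℝ) ^ (ε / 2) := by
    rw [← h4]
    exact lt_of_lt_of_le (mul_lt_mul_of_pos_left h3 (by positivity)) h2
  have h6 := (Real.rpow_lt_rpow_left_iff hp1).mp h5
  linarith

end MPcb27.PG
end

section
/-!
# MP_cb27ba_nt, project PG: LCD, a line has at most `p + 1` points (helper44)
-/
set_option autoImplicit false

namespace MPcb27.PG

open Finset Matrix
open scoped Pointwise

theorem specLCD : SpecLCD := by
  classical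
  intro p _ G _ m T W hm hW hTW
  by_cases hT1 : #T ≤ 1
  · omega
  push Not at hT1
  obtain ⟨z0, hz0, z1, hz1, hne⟩ := Finset.one_lt_card.1 hT1
  have hD : (m z0).det ≠ 0 := hm.det_ne z0
  have hli : ∀ c : ZMod p, m z1 ≠ c • m z0 := fun c h => hne (hm.inj z1 z0 c h).symm
  have hspan : ∀ z ∈ T, ∃ x y : ZMod p, m z = x • m z0 + y • m z1 := by
    intro z hz
    have hlin : LinearIndependent (ZMod p) ![m z0, m z1] := by
      rw [LinearIndependent.pair_iff]
      intro s t hst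
      have ht0 : t = 0 := by
        by_contra ht
        apply hli (-(t⁻¹ * s))
        have h2 : t • m z1 = -(s • m z0) := eq_neg_of_add_eq_zero_right hst
        have h3 : m z1 = t⁻¹ • (t • m z1) := by rw [smul_smul, inv_mul_cancel₀ ht, one_smul]
        rw [h3, h2, smul_neg, smul_smul, neg_smul]
      rw [ht0, zero_smul, add_zero] at hst
      refine ⟨?_, ht0⟩
      rcases smul_eq_zero.1 hst with h | h
      · exact h
      · exfalso
        apply hD
        rw [h]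
        simp
    have hle : Submodule.span (ZMod p) (Set.range ![m z0, m z1]) ≤ W := by
      rw [Submodule.span_le]
      rintro _ ⟨i, rfl⟩
      fin_cases i
      · exact hTW z0 hz0
      · exact hTW z1 hz1
    have hfr : Module.finrank (ZMod p) (Submodule.span (ZMod p) (Set.range ![m z0, m z1])) = 2 := by
      rw [finrank_span_eq_card hlin, Fintype.card_fin]
    have heq := Submodule.eq_of_le_of_finrank_le hle (by rw [hfr]; exact hW)
    have hzW := hTW z hz
    rw [← heq, Matrix.range_cons, Matrix.range_cons, Matrix.range_empty, Set.union_empty,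
      Set.singleton_union, Submodule.mem_span_pair] at hzW
    obtain ⟨x, y, hxy⟩ := hzW
    exact ⟨x, y, hxy.symm⟩
  choose! X Y hXY using hspan
  have hm0 : ∀ z, m z ≠ 0 := by
    intro z h
    apply hm.det_ne z
    rw [h]
    simp
  have hcard : Fintype.card (Option (ZMod p)) = p + 1 := by
    rw [Fintype.card_option, ZMod.card]
  rw [← hcard, ← Finset.card_univ]
  refine Finset.card_le_card_of_injOn
    (fun z => if X z = 0 then (none : Option (ZMod p)) else some (Y z / X z))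
    (fun _ _ => Finset.mem_coe.2 (Finset.mem_univ _)) ?_
  intro z hz z' hz' heq
  have hz2 := Finset.mem_coe.1 hz
  have hz2' := Finset.mem_coe.1 hz'
  simp only at heq
  have e := hXY z hz2
  have e' := hXY z' hz2'
  by_cases h : X z = 0
  · by_cases h' : X z' = 0
    · rw [h, zero_smul, zero_add] at e
      rw [h', zero_smul, zero_add] at e'
      have hy' : Y z' ≠ 0 := by
        intro hy
        rw [hy, zero_smul] at e'
        exact hm0 z' e'
      refine hm.inj z z' (Y z / Y z') ?_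
      rw [e, e', smul_smul, div_mul_cancel₀ _ hy']
    · rw [if_pos h, if_neg h'] at heq
      exact absurd heq (by simp)
  · by_cases h' : X z' = 0
    · rw [if_neg h, if_pos h'] at heq
      exact absurd heq (by simp)
    · rw [if_neg h, if_neg h'] at heq
      have h3 : Y z / X z = Y z' / X z' := Option.some.inj heq
      refine hm.inj z z' (X z / X z') ?_
      have h4 : Y z = X z / X z' * Y z' := by
        field_simp at h3
        field_simp
        linear_combination h3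
      rw [e, e', smul_add, smul_smul, smul_smul, div_mul_cancel₀ _ h', h4]

end MPcb27.PG
end

section
/-!
# MP_cb27ba_nt, project PG: LIN, approximate groups and lines (helper44)
-/
set_option autoImplicit false

namespace MPcb27.PG

open Finset Matrix
open scoped Pointwise

namespace LIN

variable {p : ℕ} [Fact p.Prime]

theorem adj_tr (A : M2 p) : A.adjugate = A.trace • (1 : M2 p) - A := by
  rw [Matrix.adjugate_fin_two, Matrix.trace_fin_two]
  ext i j
  fin_cases i <;> fin_cases j <;> simp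

theorem adj_comm {A r : M2 p} (h : A * r = r * A) : A.adjugate * r = r * A.adjugate := by
  rw [adj_tr, sub_mul, mul_sub, h, smul_mul_assoc, mul_smul_comm, one_mul, mul_one]

/-- the kernel of a nonzero matrix is at most a line -/
theorem par_of_ker {r : M2 p} (hr : r ≠ 0) {v w : Fin 2 → ZMod p} (hv : r *ᵥ v = 0) (hw : r *ᵥ w = 0) :
    par v w := by
  have v0 := congrFun hv 0
  have v1 := congrFun hv 1
  have w0 := congrFun hw 0
  have w1 := congrFun hw 1
  simp only [Matrix.mulVec, dotProduct, Fin.sum_univ_two, Pi.zero_apply] at v0 v1 w0 w1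
  unfold par
  by_contra hcon
  have hne : v 0 * w 1 - v 1 * w 0 ≠ 0 := sub_ne_zero.2 hcon
  apply hr
  have key : ∀ a : ZMod p, a * (v 0 * w 1 - v 1 * w 0) = 0 → a = 0 := fun a ha =>
    (mul_eq_zero.1 ha).resolve_right hne
  ext i j
  fin_cases i <;> fin_cases j
  · exact key _ (by show r 0 0 * _ = 0; linear_combination w 1 * v0 - v 1 * w0)
  · exact key _ (by show r 0 1 * _ = 0; linear_combination v 0 * w0 - w 0 * v0)
  · exact key _ (by show r 1 0 * _ = 0; linear_combination w 1 * v1 - v 1 * w1)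
  · exact key _ (by show r 1 1 * _ = 0; linear_combination v 0 * w1 - w 0 * v1)

/-- `2 ≠ 0` -/
theorem two_ne (hp : p ≠ 2) : (2 : ZMod p) ≠ 0 := by
  have hpp : p.Prime := Fact.out
  intro h
  have h2 : ((2 : ℕ) : ZMod p) = 0 := by exact_mod_cast h
  rw [ZMod.natCast_eq_zero_iff] at h2
  exact hp ((Nat.prime_dvd_prime_iff_eq hpp Nat.prime_two).1 h2)

variable {G : Type} [Group G] {m : G → M2 p}

theorem comm_mul (hm : IsPRep m) {r : M2 p} {g h : G} (hg : m g * r = r * m g) (hh : m h * r = r * m h) :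
    m (g * h) * r = r * m (g * h) := by
  obtain ⟨c, _, hc⟩ := hm.mul g h
  rw [hc, smul_mul_assoc, mul_smul_comm, mul_assoc, hh, ← mul_assoc, hg, mul_assoc]

theorem comm_inv (hm : IsPRep m) {r : M2 p} {g : G} (hg : m g * r = r * m g) :
    m g⁻¹ * r = r * m g⁻¹ := by
  obtain ⟨c, _, hc⟩ := hm.inv g
  rw [hc, smul_mul_assoc, mul_smul_comm, adj_comm hg]

/-- the traceless part of `r` is multiplied by a scalar -/
theorem scal (hp : p ≠ 2) (hm : IsPRep m) {r : M2 p} (hr : NonSc r) {h t : G} (ht : t ≠ 1)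
    (h1 : m t * r = r * m t) (h2 : m (h⁻¹ * t * h) * r = r * m (h⁻¹ * t * h)) :
    ∃ y : ZMod p, (r - (r.trace / 2) • (1 : M2 p)) * m h =
      y • (m h * (r - (r.trace / 2) • (1 : M2 p))) := by
  obtain ⟨x, y, hxy⟩ := comm_span hr h1
  have hy : y ≠ 0 := by
    rintro rfl
    rw [zero_smul, add_zero] at hxy
    exact hm.nonSc ht x hxy
  have hD : (m h).det ≠ 0 := hm.det_ne h
  -- the conjugate
  obtain ⟨c1, hc1, e1⟩ := hm.mul (h⁻¹ * t) h
  obtain ⟨c2, hc2, e2⟩ := hm.mul h⁻¹ t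
  obtain ⟨c3, hc3, e3⟩ := hm.inv h
  have e4 : m (h⁻¹ * t * h) = (c1 * (c2 * c3)) • ((m h).adjugate * m t * m h) := by
    rw [e1, e2, e3, smul_mul_assoc, smul_mul_assoc, smul_mul_assoc, smul_smul, smul_smul]
    ring_nf
  set u : M2 p := (m h).adjugate * r * m h with hu
  have e5 : (m h).adjugate * m t * m h = (x * (m h).det) • (1 : M2 p) + y • u := by
    rw [hxy, mul_add, add_mul, mul_smul_comm, mul_one, smul_mul_assoc, Matrix.adjugate_mul, smul_smul,
      mul_smul_comm, smul_mul_assoc]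
  rw [e4, e5] at h2
  have hc : c1 * (c2 * c3) ≠ 0 := mul_ne_zero hc1 (mul_ne_zero hc2 hc3)
  have h3 : u * r = r * u := by
    rw [smul_mul_assoc, mul_smul_comm, add_mul, mul_add, smul_mul_assoc, one_mul, mul_smul_comm, mul_one,
      smul_mul_assoc, mul_smul_comm] at h2
    have h4 := smul_right_injective (M2 p) hc h2
    have h5 := add_left_cancel h4
    exact smul_right_injective (M2 p) hy h5
  obtain ⟨x1, y1, hx1⟩ := comm_span hr h3
  -- trace
  have t1 : u.trace = (m h).det * r.trace := by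
    rw [hu, mul_assoc, Matrix.trace_mul_comm, mul_assoc, Matrix.mul_adjugate, mul_smul_comm, mul_one,
      Matrix.trace_smul, smul_eq_mul]
  have t2 : u.trace = 2 * x1 + y1 * r.trace := by
    rw [hx1, Matrix.trace_add, Matrix.trace_smul, Matrix.trace_smul, Matrix.trace_one]
    simp
    ring
  have h22 := two_ne (p := p) hp
  have h6 : x1 = ((m h).det - y1) * (r.trace / 2) := by
    field_simp
    linear_combination t1 - t2
  -- multiply by m h
  have h7 : m h * u = (m h).det • (r * m h) := by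
    rw [hu, ← mul_assoc, ← mul_assoc, Matrix.mul_adjugate, smul_mul_assoc, smul_mul_assoc, one_mul]
  rw [hx1, mul_add, mul_smul_comm, mul_smul_comm, mul_one] at h7
  refine ⟨y1 / (m h).det, ?_⟩
  have h8 : (m h).det • ((r - (r.trace / 2) • (1 : M2 p)) * m h) =
      y1 • (m h * (r - (r.trace / 2) • (1 : M2 p))) := by
    rw [sub_mul, mul_sub, smul_mul_assoc, one_mul, mul_smul_comm, mul_one, smul_sub, smul_sub, ← h7, h6,
      smul_smul, smul_smul]
    module
  have h9 : (r - (r.trace / 2) • (1 : M2 p)) * m h =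
      (m h).det⁻¹ • ((m h).det • ((r - (r.trace / 2) • (1 : M2 p)) * m h)) := by
    rw [smul_smul, inv_mul_cancel₀ hD, one_smul]
  rw [h9, h8, smul_smul]
  congr 1
  field_simp

theorem exists_h (hp : p ≠ 2) (hm : IsPRep m) {S : Finset G} (hS : ND m S) {r : M2 p} (hr : NonSc r) :
    ∃ h ∈ S, ∀ t : G, t ≠ 1 → m t * r = r * m t → ¬ (m (h⁻¹ * t * h) * r = r * m (h⁻¹ * t * h)) := by
  have h22 := two_ne (p := p) hp
  set r' : M2 p := r - (r.trace / 2) • (1 : M2 p) with hr'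
  have htr : r'.trace = 0 := by
    rw [hr', Matrix.trace_sub, Matrix.trace_smul, Matrix.trace_one]
    simp
    field_simp
    ring
  have hne : r' ≠ 0 := by
    intro h
    exact hr _ (sub_eq_zero.1 h)
  by_cases hd : r'.det = 0
  · obtain ⟨v, hv, hv0⟩ := Matrix.exists_mulVec_eq_zero_iff.2 hd
    obtain ⟨h, hh, hpar⟩ := hS.1 v hv
    refine ⟨h, hh, fun t ht h1 h2 => hpar ?_⟩
    obtain ⟨y, hy⟩ := scal hp hm hr ht h1 h2
    refine par_of_ker hne ?_ hv0
    rw [Matrix.mulVec_mulVec, hy, Matrix.smul_mulVec, ← Matrix.mulVec_mulVec, hv0, Matrix.mulVec_zero,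
      smul_zero]
  · obtain ⟨h, hh, hn1, hn2⟩ := hS.2 r' htr hd
    refine ⟨h, hh, fun t ht h1 h2 => ?_⟩
    obtain ⟨y, hy⟩ := scal hp hm hr ht h1 h2
    have h3 : r' * m h = y • (m h * r') := hy
    have h4 : (r' * m h).det = (y • (m h * r')).det := by rw [h3]
    rw [Matrix.det_smul, Matrix.det_mul, Matrix.det_mul, Fintype.card_fin] at h4
    have h5 : (y ^ 2 - 1) * ((m h).det * r'.det) = 0 := by linear_combination -h4
    have h6 : (m h).det * r'.det ≠ 0 := mul_ne_zero (hm.det_ne h) hd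
    have h7 : (y - 1) * (y + 1) = 0 := by
      have := (mul_eq_zero.1 h5).resolve_right h6
      linear_combination this
    rcases mul_eq_zero.1 h7 with h8 | h8
    · rw [sub_eq_zero.1 h8, one_smul] at h3
      exact hn1 h3.symm
    · rw [eq_neg_of_add_eq_zero_left h8, neg_smul, one_smul] at h3
      apply hn2
      rw [h3, neg_neg]

end LIN

open LIN

theorem specLIN : SpecLIN := by
  intro p _ hp G _ _ m S T k W hm h1S hSi hND hT hW hTW
  have h1n : ∀ n : ℕ, (1 : G) ∈ S ^ n := fun n => Finset.one_mem_pow h1S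
  by_cases hT1 : #T ≤ 1
  · have h1 : 1 ≤ #(S ^ (4 * k + 1)) := Finset.card_pos.2 ⟨1, h1n _⟩
    calc #T ^ 2 ≤ 1 ^ 2 := Nat.pow_le_pow_left hT1 2
      _ ≤ _ := by simpa using h1
  push Not at hT1
  obtain ⟨z0, hz0, z1, hz1, hne⟩ := Finset.one_lt_card.1 hT1
  set r : M2 p := (m z0).adjugate * m z1 with hr
  have hD : (m z0).det ≠ 0 := hm.det_ne z0
  have hli : ∀ c : ZMod p, m z1 ≠ c • m z0 := fun c h => hne (hm.inj z1 z0 c h).symm
  have hns : NonSc r := by
    intro c hc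
    have h1 : m z0 * r = c • m z0 := by rw [hc, mul_smul_comm, mul_one]
    rw [hr, ← mul_assoc, Matrix.mul_adjugate, smul_mul_assoc, one_mul] at h1
    apply hli ((m z0).det⁻¹ * c)
    rw [mul_smul, ← h1, smul_smul, inv_mul_cancel₀ hD, one_smul]
  -- every element of T
  have hspan : ∀ z ∈ T, ∃ x y : ZMod p, m z = x • m z0 + y • m z1 := by
    intro z hz
    have hlin : LinearIndependent (ZMod p) ![m z0, m z1] := by
      rw [LinearIndependent.pair_iff]
      intro s t hst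
      have ht0 : t = 0 := by
        by_contra ht
        apply hli (-(t⁻¹ * s))
        have h2 : t • m z1 = -(s • m z0) := eq_neg_of_add_eq_zero_right hst
        have h3 : m z1 = t⁻¹ • (t • m z1) := by rw [smul_smul, inv_mul_cancel₀ ht, one_smul]
        rw [h3, h2, smul_neg, smul_smul, neg_smul]
      rw [ht0, zero_smul, add_zero] at hst
      refine ⟨?_, ht0⟩
      rcases smul_eq_zero.1 hst with h | h
      · exact h
      · exfalso
        apply hD
        rw [h]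
        simp
    have hle : Submodule.span (ZMod p) (Set.range ![m z0, m z1]) ≤ W := by
      rw [Submodule.span_le]
      rintro _ ⟨i, rfl⟩
      fin_cases i
      · exact hTW z0 hz0
      · exact hTW z1 hz1
    have hfr : Module.finrank (ZMod p) (Submodule.span (ZMod p) (Set.range ![m z0, m z1])) = 2 := by
      rw [finrank_span_eq_card hlin, Fintype.card_fin]
    have heq := Submodule.eq_of_le_of_finrank_le hle (by rw [hfr]; exact hW)
    have hzW := hTW z hz
    rw [← heq, Matrix.range_cons, Matrix.range_cons, Matrix.range_empty, Set.union_empty,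
      Set.singleton_union, Submodule.mem_span_pair] at hzW
    obtain ⟨x, y, hxy⟩ := hzW
    exact ⟨x, y, hxy.symm⟩
  have hcom : ∀ z ∈ T, m (z0⁻¹ * z) * r = r * m (z0⁻¹ * z) := by
    intro z hz
    obtain ⟨x, y, hxy⟩ := hspan z hz
    obtain ⟨c, _, e1⟩ := hm.mul z0⁻¹ z
    obtain ⟨d, _, e2⟩ := hm.inv z0
    have h1 : m (z0⁻¹ * z) = (c * d) • ((x * (m z0).det) • (1 : M2 p) + y • r) := by
      rw [e1, e2, hxy, smul_mul_assoc, smul_smul, mul_add, mul_smul_comm, mul_smul_comm,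
        Matrix.adjugate_mul, smul_smul]
    rw [h1, smul_mul_assoc, mul_smul_comm, add_mul, mul_add, smul_mul_assoc, one_mul, mul_smul_comm,
      mul_one, smul_mul_assoc, mul_smul_comm]
  obtain ⟨h, hh, hbad⟩ := exists_h hp hm hND hns
  have hSk : (S ^ k)⁻¹ = S ^ k := by rw [← inv_pow, hSi]
  have hz0' : z0⁻¹ ∈ S ^ k := by
    rw [← hSk]
    exact Finset.inv_mem_inv (hT hz0)
  have hmem : ∀ z ∈ T, z0⁻¹ * z ∈ S ^ (2 * k) := by
    intro z hz
    rw [two_mul, pow_add]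
    exact Finset.mul_mem_mul hz0' (hT hz)
  rw [sq, ← Finset.card_product]
  refine Finset.card_le_card_of_injOn (fun q => z0⁻¹ * q.1 * h * (z0⁻¹ * q.2)) ?_ ?_
  · rintro ⟨a, b⟩ hab
    have hab' := Finset.mem_product.1 (Finset.mem_coe.1 hab)
    have e : 4 * k + 1 = 2 * k + 1 + 2 * k := by ring
    rw [e, pow_add, pow_add, pow_one]
    exact Finset.mem_coe.2 (Finset.mul_mem_mul (Finset.mul_mem_mul (hmem a hab'.1) hh) (hmem b hab'.2))
  · rintro ⟨a, b⟩ hab ⟨a', b'⟩ hab' heq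
    have hA := Finset.mem_product.1 (Finset.mem_coe.1 hab)
    have hA' := Finset.mem_product.1 (Finset.mem_coe.1 hab')
    simp only at heq
    have h1 : h⁻¹ * ((z0⁻¹ * a')⁻¹ * (z0⁻¹ * a)) * h = (z0⁻¹ * b') * (z0⁻¹ * b)⁻¹ := by
      have h2 : z0⁻¹ * a * h = z0⁻¹ * a' * h * (z0⁻¹ * b') * (z0⁻¹ * b)⁻¹ := by
        rw [← heq, mul_inv_cancel_right]
      calc h⁻¹ * ((z0⁻¹ * a')⁻¹ * (z0⁻¹ * a)) * h
          = h⁻¹ * (z0⁻¹ * a')⁻¹ * (z0⁻¹ * a * h) := by group
        _ = (z0⁻¹ * b') * (z0⁻¹ * b)⁻¹ := by rw [h2]; group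
    by_cases ht : (z0⁻¹ * a')⁻¹ * (z0⁻¹ * a) = 1
    · have h3 : z0⁻¹ * a = z0⁻¹ * a' := (inv_mul_eq_one.1 ht).symm
      have h4 : a = a' := mul_left_cancel h3
      subst h4
      have h5 : b = b' := mul_left_cancel (mul_left_cancel heq)
      rw [h5]
    · exfalso
      refine hbad _ ht (comm_mul hm (comm_inv hm (hcom _ hA'.1)) (hcom _ hA.1)) ?_
      rw [h1]
      exact comm_mul hm (hcom _ hA'.2) (comm_inv hm (hcom _ hA.2))

end MPcb27.PG
end

section
/-!
# MP_cb27ba_nt, project PG: `{z : z r₀ = r₁ z}` has dimension at most 2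
-/
set_option autoImplicit false

namespace MPcb27.PG

open Finset Matrix

/-- a subspace of dimension at most `n` is contained in one of dimension `n` -/
theorem exists_ge_finrank {K V : Type*} [Field K] [AddCommGroup V] [Module K V]
    [FiniteDimensional K V] (W : Submodule K V) (n : ℕ) (h : Module.finrank K W ≤ n)
    (hn : n ≤ Module.finrank K V) : ∃ W' : Submodule K V, W ≤ W' ∧ Module.finrank K W' = n := by
  obtain ⟨C, hC⟩ := Submodule.exists_isCompl W
  have h1 := Submodule.finrank_add_eq_of_isCompl hC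
  obtain ⟨b, hb⟩ := exists_linearIndependent_of_le_finrank (R := K) (M := C)
    (n := n - Module.finrank K W) (by omega)
  have hb' : LinearIndependent K (fun i => (b i : V)) := hb.map' C.subtype (by simp)
  refine ⟨W ⊔ Submodule.span K (Set.range fun i => (b i : V)), le_sup_left, ?_⟩
  have h2 := finrank_span_eq_card hb'
  rw [Fintype.card_fin] at h2
  have h3 := Submodule.finrank_sup_add_finrank_inf_eq W
    (Submodule.span K (Set.range fun i => (b i : V)))
  have h4 : W ⊓ Submodule.span K (Set.range fun i => (b i : V)) = ⊥ := by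
    rw [eq_bot_iff]
    refine (inf_le_inf_left W ?_).trans hC.disjoint.le_bot
    rw [Submodule.span_le]
    rintro _ ⟨i, rfl⟩
    exact (b i).2
  rw [h4, finrank_bot, h2] at h3
  omega

/-- a nonscalar matrix has a cyclic vector -/
theorem exists_cyclic {p : ℕ} [Fact p.Prime] {r : M2 p} (hr : NonSc r) :
    ∃ v : Fin 2 → ZMod p, v 0 * (r *ᵥ v) 1 - v 1 * (r *ᵥ v) 0 ≠ 0 := by
  by_contra hne
  push Not at hne
  have h1 := hne ![1, 0]
  have h2 := hne ![0, 1]
  have h3 := hne ![1, 1]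
  simp only [Matrix.mulVec, dotProduct, Fin.sum_univ_two, Matrix.cons_val_zero,
    Matrix.cons_val_one] at h1 h2 h3
  have e10 : r 1 0 = 0 := by linear_combination h1
  have e01 : r 0 1 = 0 := by linear_combination -h2
  apply hr (r 0 0)
  ext i j
  fin_cases i <;> fin_cases j <;> simp [e10, e01]
  linear_combination h3 - e10 + e01

/-- the subspace `{z : z r₀ = r₁ z}` -/
def twl {p : ℕ} (r₀ r₁ : M2 p) : Submodule (ZMod p) (M2 p) where
  carrier := {z | z * r₀ = r₁ * z}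
  add_mem' := by
    intro a b ha hb
    change (a + b) * r₀ = r₁ * (a + b)
    rw [add_mul, mul_add, show a * r₀ = r₁ * a from ha, show b * r₀ = r₁ * b from hb]
  zero_mem' := by simp
  smul_mem' := by
    intro c a ha
    change (c • a) * r₀ = r₁ * (c • a)
    rw [smul_mul_assoc, mul_smul_comm, show a * r₀ = r₁ * a from ha]

theorem finrank_twl {p : ℕ} [Fact p.Prime] {r₀ r₁ : M2 p} (hr : NonSc r₀) :
    Module.finrank (ZMod p) (twl r₀ r₁) ≤ 2 := by
  obtain ⟨v, hv⟩ := exists_cyclic hr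
  let L : twl r₀ r₁ →ₗ[ZMod p] (Fin 2 → ZMod p) :=
    { toFun := fun z => (z : M2 p) *ᵥ v
      map_add' := fun a b => by simp [Matrix.add_mulVec]
      map_smul' := fun c a => by simp [Matrix.smul_mulVec] }
  have hinj : Function.Injective L := by
    rw [injective_iff_map_eq_zero]
    rintro ⟨z, hz⟩ h0
    have h1 : z *ᵥ v = 0 := h0
    have h2 : z *ᵥ (r₀ *ᵥ v) = 0 := by
      have hz' : z * r₀ = r₁ * z := hz
      rw [Matrix.mulVec_mulVec, hz', ← Matrix.mulVec_mulVec, h1, Matrix.mulVec_zero]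
    have a0 := congrFun h1 0
    have a1 := congrFun h1 1
    have b0 := congrFun h2 0
    have b1 := congrFun h2 1
    set u := r₀ *ᵥ v with hu
    simp only [Matrix.mulVec, dotProduct, Fin.sum_univ_two, Pi.zero_apply] at a0 a1 b0 b1
    have key : ∀ x y : ZMod p, x * v 0 + y * v 1 = 0 → x * u 0 + y * u 1 = 0 → x = 0 ∧ y = 0 := by
      intro x y hx hy
      constructor
      · rcases mul_eq_zero.mp (show (v 0 * u 1 - v 1 * u 0) * x = 0 by
          linear_combination u 1 * hx - v 1 * hy) with h | h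
        · exact absurd h hv
        · exact h
      · rcases mul_eq_zero.mp (show (v 0 * u 1 - v 1 * u 0) * y = 0 by
          linear_combination v 0 * hy - u 0 * hx) with h | h
        · exact absurd h hv
        · exact h
    obtain ⟨c0, c1⟩ := key _ _ a0 b0
    obtain ⟨c2, c3⟩ := key _ _ a1 b1
    apply Subtype.ext
    change z = 0
    ext i j
    fin_cases i <;> fin_cases j <;> simp [c0, c1, c2, c3]
  have h := LinearMap.finrank_le_finrank_of_injective hinj
  rwa [Module.finrank_fintype_fun_eq_card, Fintype.card_fin] at h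

theorem specLNM : SpecLNM := by
  classical
  intro p _ δ Φ h r₀ r₁ hr
  have h4 : 2 ≤ Module.finrank (ZMod p) (M2 p) := by
    rw [Module.finrank_matrix]
    simp
  obtain ⟨W, hW, hW2⟩ := exists_ge_finrank (twl r₀ r₁) 2 (finrank_twl hr) h4
  refine le_trans ?_ (h W hW2)
  have : #(Φ.filter fun φ => φ * r₀ = r₁ * φ) ≤ #(Φ.filter fun φ => φ ∈ W) := by
    apply Finset.card_le_card
    intro φ hφ
    rw [mem_filter] at hφ ⊢
    exact ⟨hφ.1, hW hφ.2⟩
  exact_mod_cast this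

end MPcb27.PG
end

section
/-!
# MP_cb27ba_nt, project PG: module REP, the representatives of `PGL(2, p)`
-/
set_option autoImplicit false

namespace MPcb27.PG

open Finset Matrix

variable {p : ℕ} [Fact p.Prime]

/-- the chosen representative in `GL(2, p)` -/
noncomputable def repGL (g : PGL2 p) : GL (Fin 2) (ZMod p) :=
  Function.surjInv (Matrix.ProjGenLinGroup.mk_surjective (n := Fin 2) (R := ZMod p)) g

theorem mk_repGL (g : PGL2 p) : ProjGenLinGroup.mk (repGL g) = g :=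
  Function.surjInv_eq (Matrix.ProjGenLinGroup.mk_surjective (n := Fin 2) (R := ZMod p)) g

theorem rep_eq (g : PGL2 p) : rep g = (repGL g : M2 p) := rfl

theorem mk_eq_mk_iff_smul (a b : GL (Fin 2) (ZMod p)) :
    (ProjGenLinGroup.mk a : PGL2 p) = ProjGenLinGroup.mk b ↔
      ∃ c : ZMod p, c ≠ 0 ∧ (a : M2 p) = c • (b : M2 p) := by
  rw [eq_comm, ProjGenLinGroup.mk_eq_mk_iff]
  constructor
  · rintro ⟨u, hu⟩
    refine ⟨u, u.ne_zero, ?_⟩
    rw [← hu]
    ext i j
    fin_cases j <;> simp [Matrix.mul_apply, mul_comm]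
  · rintro ⟨c, hc, h⟩
    refine ⟨Units.mk0 c hc, ?_⟩
    apply Units.ext
    rw [h]
    ext i j
    fin_cases j <;> simp [Matrix.mul_apply, mul_comm]

theorem det_rep_ne (g : PGL2 p) : (rep g).det ≠ 0 :=
  ((Matrix.isUnit_iff_isUnit_det _).1 (repGL g).isUnit).ne_zero

theorem isPRep_rep : IsPRep (rep : PGL2 p → M2 p) where
  det_ne := det_rep_ne
  mul g h := by
    have h1 : (ProjGenLinGroup.mk (repGL (g * h)) : PGL2 p) =
        ProjGenLinGroup.mk (repGL g * repGL h) := by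
      rw [map_mul, mk_repGL, mk_repGL, mk_repGL]
    obtain ⟨c, hc, h2⟩ := (mk_eq_mk_iff_smul _ _).1 h1
    exact ⟨c, hc, h2⟩
  inj g h c hc := by
    have h0 : c ≠ 0 := by
      rintro rfl
      apply det_rep_ne g
      rw [hc, zero_smul, Matrix.det_zero]
    rw [← mk_repGL g, ← mk_repGL h]
    exact (mk_eq_mk_iff_smul _ _).2 ⟨c, h0, hc⟩

theorem exists_rep (M : M2 p) (hM : M.det ≠ 0) : ∃ g : PGL2 p, ∃ c : ZMod p, c ≠ 0 ∧ rep g = c • M := by
  refine ⟨ProjGenLinGroup.mk (GeneralLinearGroup.mkOfDetNeZero M hM), ?_⟩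
  obtain ⟨c, hc, h⟩ := (mk_eq_mk_iff_smul (repGL (ProjGenLinGroup.mk (GeneralLinearGroup.mkOfDetNeZero M hM)))
    (GeneralLinearGroup.mkOfDetNeZero M hM)).1 (mk_repGL _)
  exact ⟨c, hc, h⟩

theorem par_iff {v w : Fin 2 → ZMod p} (hv : v ≠ 0) (hw : w ≠ 0) : (∃ a : ZMod p, a • w = v) ↔ par v w := by
  unfold par
  constructor
  · rintro ⟨a, rfl⟩
    simp only [Pi.smul_apply, smul_eq_mul]
    ring
  · intro h
    by_cases h0 : w 0 = 0
    · have h1 : w 1 ≠ 0 := by
        intro h1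
        apply hw
        ext i
        fin_cases i
        · exact h0
        · exact h1
      refine ⟨v 1 / w 1, ?_⟩
      ext i
      fin_cases i
      · simp only [Fin.zero_eta, Pi.smul_apply, smul_eq_mul, h0, mul_zero]
        rw [h0, mul_zero] at h
        exact ((mul_eq_zero.1 h).resolve_right h1).symm
      · simp [h1]
    · refine ⟨v 0 / w 0, ?_⟩
      ext i
      fin_cases i
      · simp [h0]
      · simp only [Fin.mk_one, Pi.smul_apply, smul_eq_mul]
        field_simp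
        linear_combination h

theorem smul_mk_iff (g : PGL2 p) (v w : Fin 2 → ZMod p) (hv : v ≠ 0) (hw : w ≠ 0) :
    g • Projectivization.mk (ZMod p) v hv = Projectivization.mk (ZMod p) w hw ↔
      par (rep g *ᵥ v) w := by
  have h1 : g • Projectivization.mk (ZMod p) v hv =
      (ProjGenLinGroup.mk (repGL g) : PGL2 p) • Projectivization.mk (ZMod p) v hv := by
    rw [mk_repGL]
  rw [h1, Projectivization.PGL.mk_smul_mk, Projectivization.mk_eq_mk_iff']
  exact par_iff ((smul_ne_zero_iff_ne (repGL g)).2 hv) hw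

theorem card_P1 : Fintype.card (P1 p) = p + 1 := by
  rw [← Nat.card_eq_fintype_card, Projectivization.card_of_finrank_two, Nat.card_zmod]
  simp

theorem specREP : SpecREP := fun _ _ =>
  ⟨isPRep_rep, exists_rep, smul_mk_iff, card_P1⟩

end MPcb27.PG
end

section
/-!
# MP_cb27ba_nt, project PG: module OPM, `⟨T_μ f, f⟩² ≤ p² ‖μ‖₂² ‖f‖⁴` for `∑ f = 0`
-/
set_option autoImplicit false

namespace MPcb27.PG

open Finset Matrix MPcb27.LN

variable {p : ℕ} [Fact p.Prime]

theorem two_trans_P1 (x y x' y' : P1 p) (h : x ≠ y) (h' : x' ≠ y') :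
    ∃ g : PGL2 p, g • x = x' ∧ g • y = y' := by
  have h2 : MulAction.IsMultiplyPretransitive (SpecialLinearGroup (Fin 2) (ZMod p))
    (Projectivization (ZMod p) (Fin 2 → ZMod p)) 2 := inferInstance
  rw [MulAction.is_two_pretransitive_iff] at h2
  obtain ⟨g, hx, hy⟩ := h2 h h'
  have key : ∀ z : P1 p, (ProjGenLinGroup.mk (g : GL (Fin 2) (ZMod p)) : PGL2 p) • z = g • z := by
    intro z
    induction z using Projectivization.ind with
    | h v hv => rfl
  exact ⟨ProjGenLinGroup.mk (g : GL (Fin 2) (ZMod p)), by rw [key, hx], by rw [key, hy]⟩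

theorem specOPM : SpecOPM := by
  intro p _ μ f h0
  classical
  have hp : 2 ≤ p := (Fact.out : p.Prime).two_le
  have h1 := opg (fun x y x' y' h h' => two_trans_P1 x y x' y' h h')
    (by rw [card_P1]; omega) μ f h0
  have h2 : 1 ≤ p ^ 2 := Nat.one_le_pow _ _ (by omega)
  have h4 : Fintype.card (PGL2 p) = p * (p ^ 2 - 1) := card_PGL
  rw [card_P1, h4] at h1
  push_cast [Nat.cast_sub h2] at h1
  have h3 : (0 : ℝ) < p := by exact_mod_cast (by omega : 0 < p)
  have h5 : QX μ f ^ 2 ≤ ((p : ℝ) ^ 2 - 1) * l2 μ * (∑ x, f x ^ 2) ^ 2 := by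
    refine le_of_mul_le_mul_right ?_ h3
    linarith
  have h6 : 0 ≤ l2 μ * (∑ x, f x ^ 2) ^ 2 := by
    have : 0 ≤ l2 μ := sum_nonneg fun g _ => sq_nonneg _
    positivity
  nlinarith

end MPcb27.PG
end
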