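import Pool.Agent.Lib.MP_cb27ba_nt.PG.Spec

/-!
# MP_cb27ba_nt, project PG: the pivot (`SpecPVT`), from `SpecCEN`
-/

set_option autoImplicit false
set_option linter.unusedSectionVars false
set_option linter.unusedVariables false

namespace MPcb27.PG

open Finset Matrix
open scoped Pointwise
open MPcb27.TU MPcb27.TW MPcb27.LN MPcb27.MB

namespace PVT

variable {G : Type} [Group G] [DecidableEq G] {p : ℕ} [Fact p.Prime]

/-- involved matrices -/
def Inv (m : G → M2 p) (S : Finset G) (r : M2 p) : Prop :=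
  r.trace = 0 ∧ r.det ≠ 0 ∧ ∃ g ∈ S ^ 2, g ≠ 1 ∧ (m g).trace ≠ 0 ∧ m g * r = r * m g

/-- the elements of `S²` whose matrix commutes with `r` -/
def F (m : G → M2 p) (S : Finset G) (r : M2 p) : Finset G :=
  (S ^ 2).filter fun s => m s * r = r * m s

theorem two_ne (hp : p ≠ 2) : (2 : ZMod p) ≠ 0 := by
  intro h
  have h1 : ((2 : ℕ) : ZMod p) = 0 := by exact_mod_cast h
  rw [ZMod.natCast_eq_zero_iff] at h1
  exact hp ((Nat.prime_dvd_prime_iff_eq (Fact.out : p.Prime) Nat.prime_two).mp h1)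

theorem Inv.smul {m : G → M2 p} {S : Finset G} {r : M2 p} (h : Inv m S r) {c : ZMod p}
    (hc : c ≠ 0) : Inv m S (c • r) := by
  obtain ⟨h1, h2, g, hg, hg1, hg2, hg3⟩ := h
  refine ⟨?_, ?_, g, hg, hg1, hg2, ?_⟩
  · rw [Matrix.trace_smul, h1, smul_zero]
  · rw [Matrix.det_smul]
    exact mul_ne_zero (pow_ne_zero _ hc) h2
  · rw [mul_smul_comm, hg3, smul_mul_assoc]

/-- anticommuting with an invertible matrix forces trace zero -/
theorem trace_zero_of_anti (hp : p ≠ 2) {a b : M2 p} (ha : a.det ≠ 0) (h : a * b = -(b * a)) :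
    b.trace = 0 := by
  have hu : IsUnit a.det := ha.isUnit
  have h1 : a * b * a⁻¹ = -b := by
    rw [h, neg_mul, mul_assoc, Matrix.mul_nonsing_inv _ hu, mul_one]
  have h2 : (a * b * a⁻¹).trace = b.trace := by
    rw [Matrix.trace_mul_comm, ← mul_assoc, Matrix.nonsing_inv_mul _ hu, one_mul]
  rw [h1, Matrix.trace_neg] at h2
  have h3 : (2 : ZMod p) * b.trace = 0 := by linear_combination -h2
  rcases mul_eq_zero.mp h3 with h4 | h4
  · exact absurd h4 (two_ne hp)
  · exact h4

/-- the centralizer of `g` in `S²` commutes with an involved matrix -/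
theorem filter_subset {m : G → M2 p} {S : Finset G} (hp : p ≠ 2) (hm : IsPRep m) {r : M2 p}
    {g : G} (hg1 : g ≠ 1) (hg2 : (m g).trace ≠ 0) (hg3 : m g * r = r * m g) :
    ((S ^ 2).filter fun s => s * g = g * s) ⊆ F m S r := by
  intro s hs
  rw [F, Finset.mem_filter]
  rw [Finset.mem_filter] at hs
  refine ⟨hs.1, ?_⟩
  rcases hm.comm_iff hs.2 with h | h
  · exact comm_comm (hm.nonSc hg1) h hg3.symm
  · exact absurd (trace_zero_of_anti hp (hm.det_ne s) h) hg2

/-- conjugation preserves commuting -/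
theorem conj_comm {a t r : M2 p} (h : t * r = r * t) :
    (a * t * a.adjugate) * (a * r * a.adjugate) = (a * r * a.adjugate) * (a * t * a.adjugate) := by
  have h1 : ∀ x y : M2 p, (a * x * a.adjugate) * (a * y * a.adjugate) =
      a.det • (a * (x * y) * a.adjugate) := by
    intro x y
    calc (a * x * a.adjugate) * (a * y * a.adjugate)
        = a * x * (a.adjugate * a) * y * a.adjugate := by simp only [mul_assoc]
      _ = a.det • (a * (x * y) * a.adjugate) := by
        rw [Matrix.adjugate_mul]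
        simp only [mul_smul_comm, smul_mul_assoc, mul_one, mul_assoc]
  rw [h1, h1, h]

/-- two elements with trace zero which commute with `r` are equal -/
theorem eq_of_trace_zero {m : G → M2 p} (hp : p ≠ 2) (hm : IsPRep m) {r : M2 p}
    (hr : r.trace = 0) (hd : r.det ≠ 0) {g h : G} (hg : m g * r = r * m g) (hh : m h * r = r * m h)
    (tg : (m g).trace = 0) (th : (m h).trace = 0) : g = h := by
  have hns : NonSc r := by
    intro c hc
    rw [hc, Matrix.trace_smul, Matrix.trace_one, Fintype.card_fin, smul_eq_mul] at hr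
    have : c = 0 := by
      rcases mul_eq_zero.mp hr with h1 | h1
      · exact h1
      · exact absurd (by exact_mod_cast h1) (two_ne hp)
    rw [hc, this, zero_smul] at hd
    exact hd Matrix.det_zero
  have key : ∀ g : G, m g * r = r * m g → (m g).trace = 0 → ∃ y : ZMod p, y ≠ 0 ∧ m g = y • r := by
    intro g hg tg
    obtain ⟨x, y, e⟩ := comm_span hns hg
    have hx : x = 0 := by
      rw [e, Matrix.trace_add, Matrix.trace_smul, Matrix.trace_smul, hr, Matrix.trace_one,
        Fintype.card_fin, smul_zero, add_zero, smul_eq_mul] at tg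
      rcases mul_eq_zero.mp tg with h1 | h1
      · exact h1
      · exact absurd (by exact_mod_cast h1) (two_ne hp)
    rw [hx, zero_smul, zero_add] at e
    refine ⟨y, ?_, e⟩
    rintro rfl
    rw [zero_smul] at e
    apply hm.det_ne g
    rw [e]
    exact Matrix.det_zero
  obtain ⟨y, hy, e⟩ := key g hg tg
  obtain ⟨z, hz, e'⟩ := key h hh th
  refine hm.inj g h (y * z⁻¹) ?_
  rw [e, e', smul_smul, mul_assoc, inv_mul_cancel₀ hz, mul_one]

/-- the identity commutes -/
theorem one_comm {m : G → M2 p} (hm : IsPRep m) (r : M2 p) : m 1 * r = r * m 1 := by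
  obtain ⟨c, -, h⟩ := hm.one
  rw [h, smul_mul_assoc, one_mul, mul_smul_comm, mul_one]

/-- the centralizer is closed under `t⁻¹ t'` -/
theorem inv_mul_comm {m : G → M2 p} (hm : IsPRep m) {r : M2 p} {t t' : G}
    (h : m t * r = r * m t) (h' : m t' * r = r * m t') : m (t⁻¹ * t') * r = r * m (t⁻¹ * t') := by
  obtain ⟨c, hc, e⟩ := hm.mul t⁻¹ t'
  obtain ⟨d, hd, e'⟩ := hm.inv t
  have h1 : (m t).adjugate * r = r * (m t).adjugate := by
    have h2 : (m t).adjugate * (m t * r) * (m t).adjugate =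
        (m t).adjugate * (r * m t) * (m t).adjugate := by rw [h]
    have h3 : (m t).adjugate * (m t * r) * (m t).adjugate =
        (m t).det • (r * (m t).adjugate) := by
      rw [← mul_assoc, Matrix.adjugate_mul, smul_mul_assoc, one_mul, smul_mul_assoc]
    have h4 : (m t).adjugate * (r * m t) * (m t).adjugate =
        (m t).det • ((m t).adjugate * r) := by
      rw [mul_assoc, mul_assoc, Matrix.mul_adjugate, mul_smul_comm, mul_one, mul_smul_comm]
    rw [h3, h4] at h2
    have h5 := congrArg (fun x => (m t).det⁻¹ • x) h2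
    simp only [smul_smul] at h5
    rw [inv_mul_cancel₀ (hm.det_ne t), one_smul, one_smul] at h5
    exact h5.symm
  rw [e, e', smul_mul_assoc, smul_mul_assoc, smul_mul_assoc, mul_smul_comm, mul_smul_comm]
  congr 1
  congr 1
  rw [mul_assoc, h', ← mul_assoc, h1, mul_assoc]

/-- the step -/
theorem step {m : G → M2 p} {S : Finset G} (hp : p ≠ 2) (hm : IsPRep m) (h1 : 1 ∈ S)
    (hinv : S⁻¹ = S) {r : M2 p} (hr : r.trace = 0) (hd : r.det ≠ 0) {s : G} (hs : s ∈ S)
    (hbig : 2 * #(S ^ 5) < #(F m S r) * #S) : Inv m S (m s * r * (m s).adjugate) := by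
  set r' : M2 p := m s * r * (m s).adjugate with hr'
  have hdet : (m s).det ≠ 0 := hm.det_ne s
  have htr' : r'.trace = 0 := by
    rw [hr', Matrix.trace_mul_comm, ← mul_assoc, Matrix.adjugate_mul, smul_mul_assoc, one_mul,
      Matrix.trace_smul, hr, smul_zero]
  have hdet' : r'.det ≠ 0 := by
    rw [hr', Matrix.det_mul, Matrix.det_mul]
    refine mul_ne_zero (mul_ne_zero hdet hd) ?_
    rw [Matrix.det_adjugate]
    exact pow_ne_zero _ hdet
  refine ⟨htr', hdet', ?_⟩
  set T : Finset G := (F m S r).image fun t => s * t * s⁻¹ with hT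
  have hTcard : #T = #(F m S r) := by
    rw [hT]
    apply Finset.card_image_of_injective
    intro a b hab
    simpa using hab
  have hTcomm : ∀ t ∈ T, m t * r' = r' * m t := by
    intro t ht
    rw [hT, Finset.mem_image] at ht
    obtain ⟨u, hu, rfl⟩ := ht
    rw [F, Finset.mem_filter] at hu
    obtain ⟨c, hc, e⟩ := hm.conj s u
    rw [e, smul_mul_assoc, hr', conj_comm hu.2, mul_smul_comm]
  have hTS : ∀ t ∈ T, ∀ y ∈ S, t * y ∈ S ^ 5 := by
    intro t ht y hy
    rw [hT, Finset.mem_image] at ht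
    obtain ⟨u, hu, rfl⟩ := ht
    rw [F, Finset.mem_filter] at hu
    have e : S ^ 5 = S * S ^ 2 * S⁻¹ * S := by
      rw [hinv, ← pow_succ', ← pow_succ, ← pow_succ]
    rw [e]
    exact Finset.mul_mem_mul (Finset.mul_mem_mul (Finset.mul_mem_mul hs hu.1)
      (Finset.inv_mem_inv hs)) hy
  -- pigeonhole
  have hmaps : ∀ x ∈ T ×ˢ S, x.1 * x.2 ∈ S ^ 5 := by
    intro x hx
    rw [Finset.mem_product] at hx
    exact hTS _ hx.1 _ hx.2
  have hlt : #(S ^ 5) * 2 < #(T ×ˢ S) := by
    rw [Finset.card_product, hTcard, mul_comm]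
    exact hbig
  obtain ⟨x, hx, hfib⟩ := Finset.exists_lt_card_fiber_of_mul_lt_card_of_maps_to hmaps hlt
  obtain ⟨a, b, c, ha, hb, hc, hab, hac, hbc⟩ := Finset.two_lt_card_iff.mp hfib
  simp only [Finset.mem_filter, Finset.mem_product] at ha hb hc
  -- differences
  have hdiff : ∀ u v : G × G, u.1 * u.2 = x → v.1 * v.2 = x → u.2 ∈ S → v.2 ∈ S →
      u.1⁻¹ * v.1 ∈ S ^ 2 := by
    intro u v hu hv hu2 hv2
    have e : u.1⁻¹ * v.1 = u.2 * v.2⁻¹ := by
      rw [← hv] at hu
      rw [inv_mul_eq_iff_eq_mul, ← mul_assoc, hu, mul_inv_cancel_right]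
    rw [e, pow_two]
    refine Finset.mul_mem_mul hu2 ?_
    have := Finset.inv_mem_inv hv2
    rwa [hinv] at this
  have hne : ∀ u v : G × G, u.1 * u.2 = x → v.1 * v.2 = x → u ≠ v → u.1 ≠ v.1 := by
    intro u v hu hv huv h
    apply huv
    refine Prod.ext h ?_
    rw [← hv, h] at hu
    exact mul_left_cancel hu
  have h1b : a.1⁻¹ * b.1 ∈ S ^ 2 := hdiff a b ha.2 hb.2 ha.1.2 hb.1.2
  have h1c : a.1⁻¹ * c.1 ∈ S ^ 2 := hdiff a c ha.2 hc.2 ha.1.2 hc.1.2
  have hcb : m (a.1⁻¹ * b.1) * r' = r' * m (a.1⁻¹ * b.1) :=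
    inv_mul_comm hm (hTcomm _ ha.1.1) (hTcomm _ hb.1.1)
  have hcc : m (a.1⁻¹ * c.1) * r' = r' * m (a.1⁻¹ * c.1) :=
    inv_mul_comm hm (hTcomm _ ha.1.1) (hTcomm _ hc.1.1)
  have hb1 : a.1⁻¹ * b.1 ≠ 1 := by
    intro h
    exact hne a b ha.2 hb.2 hab (inv_mul_eq_one.mp h)
  have hc1 : a.1⁻¹ * c.1 ≠ 1 := by
    intro h
    exact hne a c ha.2 hc.2 hac (inv_mul_eq_one.mp h)
  by_cases tb : (m (a.1⁻¹ * b.1)).trace = 0
  · by_cases tc : (m (a.1⁻¹ * c.1)).trace = 0
    · exfalso
      have := eq_of_trace_zero hp hm htr' hdet' hcb hcc tb tc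
      exact hne b c hb.2 hc.2 hbc (mul_left_cancel this)
    · exact ⟨_, h1c, hc1, tc, hcc⟩
  · exact ⟨_, h1b, hb1, tb, hcb⟩

end PVT

open PVT

theorem specPVT (h : SpecCEN) : SpecPVT := by
  obtain ⟨C₀, hC₀⟩ := h
  refine ⟨6561 * C₀ + C₀ + 49, ?_⟩
  intro p _ hp G _ _ m S K hK hm h1 hinv hND hgr hS
  set C : ℕ := 6561 * C₀ + C₀ + 49 with hC
  obtain ⟨hcen, hcen2⟩ := hC₀ p hp G m S K hK hm h1 hinv hND hgr
  have hSpos : (0 : ℝ) < #S := by
    exact_mod_cast Finset.card_pos.mpr ⟨1, h1⟩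
  have hKpow : ∀ {a b : ℕ}, a ≤ b → K ^ a ≤ K ^ b := fun hab => pow_le_pow_right₀ hK hab
  have hK0 : (0 : ℝ) < K := lt_of_lt_of_le one_pos hK
  have hCC : (C₀ : ℝ) * K ^ C₀ ≤ C * K ^ C := by
    have : (C₀ : ℝ) ≤ C := by
      exact_mod_cast (by omega : C₀ ≤ C)
    exact mul_le_mul this (hKpow (by omega)) (by positivity) (by positivity)
  -- the bound for involved matrices
  have hF : ∀ r : M2 p, Inv m S r → (#S : ℝ) ≤ C₀ * K ^ C₀ * (#(F m S r) : ℝ) ^ 8 := by
    intro r ⟨hr1, hr2, g, hg, hg1, hg2, hg3⟩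
    refine (hcen g hg hg1).trans ?_
    have hle : #((S ^ 2).filter fun s => s * g = g * s) ≤ #(F m S r) :=
      Finset.card_le_card (filter_subset hp hm hg1 hg2 hg3)
    have hle' : (#((S ^ 2).filter fun s => s * g = g * s) : ℝ) ≤ #(F m S r) := by
      exact_mod_cast hle
    gcongr
  -- involved matrices have large centralizers
  have hbig : ∀ r : M2 p, Inv m S r → 2 * #(S ^ 5) < #(F m S r) * #S := by
    intro r hr
    have h5 : (#(S ^ 5) : ℝ) ≤ K ^ 6 * #S := hgr 5
    have hM : 3 * K ^ 6 < (#(F m S r) : ℝ) := by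
      by_contra hcon
      push Not at hcon
      have e1 := hF r hr
      have e2 : (#(F m S r) : ℝ) ^ 8 ≤ (3 * K ^ 6) ^ 8 := by gcongr
      have e3 : (#S : ℝ) ≤ C₀ * K ^ C₀ * (3 * K ^ 6) ^ 8 := by
        refine e1.trans ?_
        gcongr
      have e4 : (C₀ : ℝ) * K ^ C₀ * (3 * K ^ 6) ^ 8 = 6561 * C₀ * K ^ (C₀ + 48) := by
        rw [pow_add]
        ring
      have e5 : (6561 * C₀ : ℝ) * K ^ (C₀ + 48) < C * K ^ C := by
        have : (6561 * C₀ : ℝ) < C := by
          exact_mod_cast (by omega : 6561 * C₀ < C)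
        exact mul_lt_mul this (hKpow (by omega)) (by positivity) (by positivity)
      linarith [hS]
    have : (2 * #(S ^ 5) : ℝ) < #(F m S r) * #S := by
      have hpos : (0 : ℝ) < K ^ 6 * #S := by positivity
      nlinarith [mul_lt_mul_of_pos_right hM hSpos]
    exact_mod_cast this
  -- the base matrix
  obtain ⟨g, hg, hg1, hg2, hg3⟩ := hcen2 (hCC.trans hS)
  have h2 : (2 : ZMod p) ≠ 0 := two_ne hp
  set r : M2 p := m g - ((m g).trace / 2) • (1 : M2 p) with hr
  have htr : r.trace = 0 := by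
    rw [hr, Matrix.trace_sub, Matrix.trace_smul, Matrix.trace_one, Fintype.card_fin, smul_eq_mul]
    push_cast
    field_simp
    ring
  have hdet : r.det ≠ 0 := by
    intro h0
    apply hg3
    rw [hr, Matrix.det_fin_two] at h0
    rw [Matrix.trace_fin_two] at h0 ⊢
    rw [Matrix.det_fin_two]
    simp at h0
    field_simp at h0
    linear_combination -h0
  have hbase : Inv m S r := by
    refine ⟨htr, hdet, g, ?_, hg1, hg2, ?_⟩
    · rw [pow_two]
      exact Finset.mem_mul.mpr ⟨g, hg, 1, h1, mul_one g⟩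
    · rw [hr, mul_sub, sub_mul, mul_smul_comm, smul_mul_assoc, mul_one, one_mul]
  have hall : ∀ h ∈ Subgroup.closure (S : Set G), Inv m S (m h * r * (m h).adjugate) := by
    intro h hh
    induction hh using Subgroup.closure_induction_left with
    | one =>
      obtain ⟨c, hc, e⟩ := hm.one
      have : m 1 * r * (m 1).adjugate = (c * c) • r := by
        rw [e, Matrix.adjugate_smul, Matrix.adjugate_one, Fintype.card_fin]
        simp only [smul_mul_assoc, mul_smul_comm, one_mul, mul_one, smul_smul]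
        norm_num
      rw [this]
      exact hbase.smul (mul_ne_zero hc hc)
    | mul_left x hx y hy ih =>
      obtain ⟨c, hc, e⟩ := hm.mul x y
      have : m (x * y) * r * (m (x * y)).adjugate =
          (c * c) • (m x * (m y * r * (m y).adjugate) * (m x).adjugate) := by
        rw [e, Matrix.adjugate_smul, Matrix.adjugate_mul_distrib, Fintype.card_fin]
        simp only [smul_mul_assoc, mul_smul_comm, smul_smul, mul_assoc]
        norm_num
      rw [this]
      refine Inv.smul ?_ (mul_ne_zero hc hc)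
      exact step hp hm h1 hinv ih.1 ih.2.1 (by simpa using hx) (hbig _ ih)
    | inv_mul_cancel x hx y hy ih =>
      have hx' : x⁻¹ ∈ S := by
        have := Finset.inv_mem_inv (show x ∈ S by simpa using hx)
        rwa [hinv] at this
      obtain ⟨c, hc, e⟩ := hm.mul x⁻¹ y
      have : m (x⁻¹ * y) * r * (m (x⁻¹ * y)).adjugate =
          (c * c) • (m x⁻¹ * (m y * r * (m y).adjugate) * (m x⁻¹).adjugate) := by
        rw [e, Matrix.adjugate_smul, Matrix.adjugate_mul_distrib, Fintype.card_fin]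
        simp only [smul_mul_assoc, mul_smul_comm, smul_smul, mul_assoc]
        norm_num
      rw [this]
      refine Inv.smul ?_ (mul_ne_zero hc hc)
      exact step hp hm h1 hinv ih.1 ih.2.1 hx' (hbig _ ih)
  refine ⟨r, htr, hdet, ?_⟩
  intro h hh
  have hf := hF _ (hall h hh)
  refine hf.trans ?_
  rw [F]
  gcongr

end MPcb27.PG
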