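import Mathlib

/-!
# MP_cb27ba_nt, project PG: the class equation for a group partitioned by a conjugation invariant
family of subgroups with `[N(T) : T] ≤ 2`

If all members have at least `4` elements, the group itself is a member.
-/

set_option autoImplicit false

namespace MPcb27.PG

open scoped Pointwise

namespace CEQ

variable {H : Type} [Group H] [Fintype H]

instance : Fintype (ConjAct H) := Fintype.ofEquiv H ConjAct.toConjAct.toEquiv

theorem card_conjAct : Fintype.card (ConjAct H) = Fintype.card H := by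
  rw [Fintype.card_congr (ConjAct.ofConjAct (G := H)).toEquiv]

theorem stab_card (T : Subgroup H) (h : Nat.card (MulAction.stabilizer (ConjAct H) T) ≤
    2 * Nat.card T) : Nat.card (MulAction.stabilizer (ConjAct H) T) = Nat.card T ∨
      Nat.card (MulAction.stabilizer (ConjAct H) T) = 2 * Nat.card T := by
  -- `T` is a subgroup of the stabilizer
  have h1 : Nat.card T ∣ Nat.card (MulAction.stabilizer (ConjAct H) T) := by
    have h2 : T.map (ConjAct.toConjAct (G := H)).toMonoidHom ≤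
        MulAction.stabilizer (ConjAct H) T := by
      rintro _ ⟨t, ht, rfl⟩
      rw [MulAction.mem_stabilizer_iff]
      ext x
      rw [Subgroup.mem_pointwise_smul_iff_inv_smul_mem]
      change ((ConjAct.toConjAct t)⁻¹ • x) ∈ T ↔ x ∈ T
      rw [← map_inv, ConjAct.toConjAct_smul, inv_inv]
      constructor
      · intro hx
        have := T.mul_mem (T.mul_mem ht hx) (T.inv_mem ht)
        simpa [mul_assoc] using this
      · intro hx
        exact T.mul_mem (T.mul_mem (T.inv_mem ht) hx) ht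
    have h3 := Subgroup.card_dvd_of_le h2
    rwa [Subgroup.card_map_of_injective (ConjAct.toConjAct (G := H)).injective] at h3
  have h0 : 0 < Nat.card T := Nat.card_pos
  have h0' : 0 < Nat.card (MulAction.stabilizer (ConjAct H) T) := Nat.card_pos
  obtain ⟨k, hk⟩ := h1
  rw [hk] at h h0' ⊢
  have hk2 : k ≤ 2 := by
    by_contra hk3
    push Not at hk3
    nlinarith
  have hk0 : k ≠ 0 := by
    rintro rfl
    simp at h0'
  interval_cases k
  · exact absurd rfl hk0
  · left; ring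
  · right; ring

/-- the elements `≠ 1` of the conjugates of `T` -/
noncomputable def A (T : Subgroup H) : Finset H := by
  classical
  exact Finset.univ.filter fun x => x ≠ 1 ∧ ∃ g : ConjAct H, x ∈ g • T

theorem mem_A {T : Subgroup H} {x : H} : x ∈ A T ↔ x ≠ 1 ∧ ∃ g : ConjAct H, x ∈ g • T := by
  classical
  simp [A]

/-- double counting of the pairs `(g, x)`, `x ∈ g T`, `x ≠ 1` -/
theorem card_A (T : Subgroup H)
    (hdis : ∀ g g' : ConjAct H, g • T ≠ g' • T → g • T ⊓ g' • T = ⊥) :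
    (A T).card * Nat.card (MulAction.stabilizer (ConjAct H) T) =
      Fintype.card H * (Nat.card T - 1) := by
  classical
  have h1 : ∑ x ∈ A T, (Finset.univ.filter fun g : ConjAct H => x ∈ g • T).card =
      ∑ g : ConjAct H, ((A T).filter fun x => x ∈ g • T).card := by
    simp only [Finset.card_filter]
    exact Finset.sum_comm
  have h2 : ∀ x ∈ A T, (Finset.univ.filter fun g : ConjAct H => x ∈ g • T).card =
      Nat.card (MulAction.stabilizer (ConjAct H) T) := by
    intro x hx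
    obtain ⟨hx1, g₀, hg₀⟩ := mem_A.1 hx
    rw [Nat.card_eq_fintype_card, Fintype.card_subtype]
    refine Finset.card_bij (fun g _ => g₀⁻¹ * g) ?_ ?_ ?_
    · intro g hg
      simp only [Finset.mem_filter, Finset.mem_univ, true_and] at hg ⊢
      rw [MulAction.mem_stabilizer_iff]
      by_contra hne
      have hne' : g • T ≠ g₀ • T := by
        intro h
        apply hne
        rw [mul_smul, h, inv_smul_smul]
      have h3 := hdis g g₀ hne'
      have h4 : x ∈ g • T ⊓ g₀ • T := ⟨hg, hg₀⟩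
      rw [h3, Subgroup.mem_bot] at h4
      exact hx1 h4
    · intro g _ g' _ h
      exact mul_left_cancel h
    · intro g hg
      simp only [Finset.mem_filter, Finset.mem_univ, true_and] at hg
      rw [MulAction.mem_stabilizer_iff] at hg
      refine ⟨g₀ * g, ?_, by simp⟩
      simp only [Finset.mem_filter, Finset.mem_univ, true_and]
      rw [mul_smul, hg]
      exact hg₀
  have h3 : ∀ g : ConjAct H, ((A T).filter fun x => x ∈ g • T).card = Nat.card T - 1 := by
    intro g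
    have h4 : ((A T).filter fun x => x ∈ g • T) =
        (Finset.univ.filter fun x => x ∈ g • T).erase 1 := by
      ext x
      simp only [Finset.mem_filter, Finset.mem_erase, Finset.mem_univ, true_and, mem_A]
      constructor
      · rintro ⟨⟨h1, _⟩, h2⟩
        exact ⟨h1, h2⟩
      · rintro ⟨h1, h2⟩
        exact ⟨⟨h1, g, h2⟩, h2⟩
    rw [h4, Finset.card_erase_of_mem (by simp)]
    congr 1
    have h5 : (Finset.univ.filter fun x => x ∈ g • T).card = Nat.card (g • T : Subgroup H) := by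
      rw [Nat.card_eq_fintype_card, Fintype.card_subtype]
    rw [h5]
    exact Nat.card_congr (Subgroup.equivSMul g T).toEquiv.symm
  rw [Finset.sum_congr rfl h2, Finset.sum_congr rfl fun g _ => h3 g] at h1
  simp only [Finset.sum_const, smul_eq_mul, Finset.card_univ, card_conjAct] at h1
  exact h1

theorem classEq (P : Set (Subgroup H)) (hconj : ∀ T ∈ P, ∀ g : ConjAct H, g • T ∈ P)
    (h4 : ∀ T ∈ P, 4 ≤ Nat.card T) (hdis : ∀ T ∈ P, ∀ T' ∈ P, T ≠ T' → T ⊓ T' = ⊥)
    (hcov : ∀ h : H, h ≠ 1 → ∃ T ∈ P, h ∈ T)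
    (hN : ∀ T ∈ P, Nat.card (MulAction.stabilizer (ConjAct H) T) ≤ 2 * Nat.card T)
    (hne : ∃ h : H, h ≠ 1) : ∃ T ∈ P, T = ⊤ := by
  classical
  by_contra hno
  push Not at hno
  obtain ⟨n, hn⟩ : ∃ n, n = Fintype.card H := ⟨_, rfl⟩
  -- the facts for one member
  have key : ∀ T ∈ P, ∃ t : ℕ, 4 ≤ t ∧ t < n ∧
      ((A T).card * t = n * (t - 1) ∨ (A T).card * (2 * t) = n * (t - 1) ∧ 2 * t ≤ n) := by
    intro T hT
    refine ⟨Nat.card T, h4 T hT, ?_, ?_⟩
    · rw [hn, ← Nat.card_eq_fintype_card]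
      refine lt_of_le_of_ne (Subgroup.card_le_card_group T) fun h => ?_
      exact hno T hT (Subgroup.eq_top_of_card_eq T h)
    · have h1 := card_A T fun g g' h => hdis _ (hconj T hT g) _ (hconj T hT g') h
      rcases stab_card T (hN T hT) with h | h
      · left
        rw [h, ← hn] at h1
        exact h1
      · right
        rw [h, ← hn] at h1
        refine ⟨h1, ?_⟩
        rw [← h, hn, ← card_conjAct, ← Nat.card_eq_fintype_card]
        exact Subgroup.card_le_card_group _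
  have hsub : ∀ T : Subgroup H, A T ⊆ Finset.univ.erase (1 : H) := fun T x hx => by
    simpa using (mem_A.1 hx).1
  have hU : (Finset.univ.erase (1 : H)).card = n - 1 := by
    rw [Finset.card_erase_of_mem (Finset.mem_univ _), Finset.card_univ, hn]
  -- disjointness
  have hdisA : ∀ T ∈ P, ∀ T' ∈ P, (∃ x ∈ T', x ≠ 1 ∧ x ∉ A T) → Disjoint (A T) (A T') := by
    intro T hT T' hT' ⟨x, hx, hx1, hxA⟩
    rw [Finset.disjoint_left]
    intro y hy hy'
    obtain ⟨hy1, g, hg⟩ := mem_A.1 hy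
    obtain ⟨_, g', hg'⟩ := mem_A.1 hy'
    have h1 : g • T = g' • T' := by
      by_contra hne
      have h2 := hdis _ (hconj T hT g) _ (hconj T' hT' g') hne
      have h3 : y ∈ g • T ⊓ g' • T' := ⟨hg, hg'⟩
      rw [h2, Subgroup.mem_bot] at h3
      exact hy1 h3
    apply hxA
    refine mem_A.2 ⟨hx1, g'⁻¹ * g, ?_⟩
    rw [mul_smul, h1, inv_smul_smul]
    exact hx
  obtain ⟨x₁, hx₁⟩ := hne
  obtain ⟨T₁, hT₁, hxT₁⟩ := hcov x₁ hx₁
  obtain ⟨t₁, ht₁, htn₁, hc₁⟩ := key T₁ hT₁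
  have hn1 : 4 ≤ n := by omega
  obtain ⟨m₁, rfl⟩ : ∃ m, t₁ = m + 1 := ⟨t₁ - 1, by omega⟩
  simp only [Nat.add_sub_cancel] at hc₁
  have hA₁ : (A T₁).card < n - 1 := by
    rcases hc₁ with h | ⟨h, h'⟩
    · by_contra hge
      push Not at hge
      obtain ⟨k, rfl⟩ : ∃ k, n = k + 1 := ⟨n - 1, by omega⟩
      simp only [Nat.add_sub_cancel] at hge
      nlinarith
    · by_contra hge
      push Not at hge
      obtain ⟨k, rfl⟩ : ∃ k, n = k + 1 := ⟨n - 1, by omega⟩
      simp only [Nat.add_sub_cancel] at hge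
      nlinarith
  obtain ⟨x₂, hx₂, hx₂A⟩ := Finset.exists_mem_notMem_of_card_lt_card (s := A T₁)
    (t := Finset.univ.erase (1 : H)) (by rw [hU]; exact hA₁)
  have hx₂1 : x₂ ≠ 1 := by simpa using hx₂
  obtain ⟨T₂, hT₂, hxT₂⟩ := hcov x₂ hx₂1
  obtain ⟨t₂, ht₂, htn₂, hc₂⟩ := key T₂ hT₂
  obtain ⟨m₂, rfl⟩ : ∃ m, t₂ = m + 1 := ⟨t₂ - 1, by omega⟩
  simp only [Nat.add_sub_cancel] at hc₂
  have hd₁₂ := hdisA T₁ hT₁ T₂ hT₂ ⟨x₂, hxT₂, hx₂1, hx₂A⟩
  have hs₁₂ : (A T₁).card + (A T₂).card ≤ n - 1 := by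
    rw [← Finset.card_union_of_disjoint hd₁₂, ← hU]
    exact Finset.card_le_card (Finset.union_subset (hsub _) (hsub _))
  have hlow : ∀ (a t : ℕ), 4 ≤ t + 1 → (a * (2 * (t + 1)) = n * t) → 3 * n ≤ 8 * a := by
    intro a t ht h
    nlinarith
  have hlow' : ∀ (a t : ℕ), 4 ≤ t + 1 → (a * (t + 1) = n * t) → 3 * n ≤ 4 * a := by
    intro a t ht h
    nlinarith
  have hup : ∀ (a t : ℕ), (a * (2 * (t + 1)) = n * t) → 2 * (t + 1) ≤ n → 2 * a + 2 ≤ n := by
    intro a t h h'
    nlinarith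
  rcases hc₁ with h₁ | ⟨h₁, h₁'⟩
  · have e1 := hlow' _ _ ht₁ h₁
    have e2 : 3 * n ≤ 8 * (A T₂).card := by
      rcases hc₂ with h₂ | ⟨h₂, _⟩
      · have := hlow' _ _ ht₂ h₂
        omega
      · exact hlow _ _ ht₂ h₂
    omega
  rcases hc₂ with h₂ | ⟨h₂, h₂'⟩
  · have e1 := hlow' _ _ ht₂ h₂
    have e2 := hlow _ _ ht₁ h₁
    omega
  have e1 := hup _ _ h₁ h₁'
  have e2 := hup _ _ h₂ h₂'
  obtain ⟨x₃, hx₃, hx₃A⟩ := Finset.exists_mem_notMem_of_card_lt_card (s := A T₁ ∪ A T₂)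
    (t := Finset.univ.erase (1 : H)) (by
      rw [hU, Finset.card_union_of_disjoint hd₁₂]
      omega)
  have hx₃1 : x₃ ≠ 1 := by simpa using hx₃
  obtain ⟨T₃, hT₃, hxT₃⟩ := hcov x₃ hx₃1
  obtain ⟨t₃, ht₃, htn₃, hc₃⟩ := key T₃ hT₃
  obtain ⟨m₃, rfl⟩ : ∃ m, t₃ = m + 1 := ⟨t₃ - 1, by omega⟩
  simp only [Nat.add_sub_cancel] at hc₃
  rw [Finset.mem_union, not_or] at hx₃A
  have hd₁₃ := hdisA T₁ hT₁ T₃ hT₃ ⟨x₃, hxT₃, hx₃1, hx₃A.1⟩
  have hd₂₃ := hdisA T₂ hT₂ T₃ hT₃ ⟨x₃, hxT₃, hx₃1, hx₃A.2⟩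
  have hs : (A T₁).card + (A T₂).card + (A T₃).card ≤ n - 1 := by
    rw [← Finset.card_union_of_disjoint hd₁₂, ← Finset.card_union_of_disjoint
      (Finset.disjoint_union_left.2 ⟨hd₁₃, hd₂₃⟩), ← hU]
    exact Finset.card_le_card (Finset.union_subset (Finset.union_subset (hsub _) (hsub _)) (hsub _))
  have e3 : 3 * n ≤ 8 * (A T₃).card := by
    rcases hc₃ with h₃ | ⟨h₃, _⟩
    · have := hlow' _ _ ht₃ h₃
      omega
    · exact hlow _ _ ht₃ h₃
  have e4 := hlow _ _ ht₁ h₁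
  have e5 := hlow _ _ ht₂ h₂
  omega

end CEQ

end MPcb27.PG
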