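import Pool.Agent.Lib.MP_cb27ba_nt.PG.Bas
import Pool.Agent.Lib.MP_cb27ba_nt.PG.CEQ
import Pool.Agent.Lib.MP_cb27ba_nt.MB.MOB
import Mathlib.LinearAlgebra.Projectivization.Action

/-!
# MP_cb27ba_nt, project PG (families of Moebius maps): exact statements

THEOREM PG (`FinalPG`): theorem A for every set `Φ` of Moebius maps (invertible 2x2 matrices up to
scalars, i.e. points of `P³` off the quadric `det = 0`) such that no projective LINE contains more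
than `p ^ (-δ) #Φ` points of `Φ`. Contains LN (`Φ` in the plane of the affine maps).

All statements about groups: `G` a finite group with an injective projective representation
`m : G → M2 p` (`IsPRep m`); line = `{g : m g * r₀ = r₁ * m g}`, `r₀` nonscalar (such a line through
`1` is a torus or unipotent group with the centre); point coset = `{g : m g v ∥ w}`.
`PG/Bas.lean` has: `comm_span` (centralizer of a nonscalar `r` is `⟨1, r⟩`), `comm_comm`,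
`IsPRep.one`, `.inv`, `.eq_one`, `.nonSc`, `.comm`, `.conj`, `.comm_iff`.
-/

set_option autoImplicit false

namespace MPcb27.PG

open Finset Matrix
open scoped Pointwise
open MPcb27.TU MPcb27.TW MPcb27.LN MPcb27.MB

instance {p : ℕ} (v w : Fin 2 → ZMod p) : Decidable (par v w) :=
  inferInstanceAs (Decidable (_ = _))

/-! ## the classification -/

/-- LIN. Lines: `#T ^ 2 ≤ #(S ^ (4k+1))`. Let `z₀ ≠ z₁` in `T` (else trivial: `1 ∈ S ^ (4k+1)`),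
`r = adj (m z₀) * m z₁`, nonscalar. `W = ⟨m z₀, m z₁⟩`, so for `z ∈ T` the matrix of `z₀⁻¹ z` commutes
with `r`. Let `T₀ = z₀⁻¹ T ⊆ S ^ (2k)`. There is `h ∈ S` which does not normalize the centralizer of
`r`: `r' = r - (tr r / 2) 1`; if `det r' ≠ 0`: second part of ND for `r'` (`h r' h⁻¹ = x + y r'` has
trace `2 x = 0` and `y² = 1`); if `det r' = 0`: `r' ^ 2 = 0`, kernel `v`, first part of ND for `v`.
The map `(t, t') ↦ t h t'` is injective on `T₀ × T₀`: `t₁ h t₁' = t₂ h t₂'` gives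
`h⁻¹ (t₂⁻¹ t₁) h = t₂' t₁'⁻¹`, both `t₂⁻¹ t₁` and `t₂' t₁'⁻¹` commute with `r`; if `t₂⁻¹ t₁ ≠ 1` its
matrix is nonscalar and `h` would normalize the centralizer of `r`. -/
def SpecLIN : Prop :=
  ∀ (p : ℕ) [Fact p.Prime], p ≠ 2 → ∀ (G : Type) [Group G] [DecidableEq G] (m : G → M2 p)
    (S T : Finset G) (k : ℕ) (W : Submodule (ZMod p) (M2 p)), IsPRep m → 1 ∈ S → S⁻¹ = S →
    ND m S → T ⊆ S ^ k → Module.finrank (ZMod p) W ≤ 2 → (∀ z ∈ T, m z ∈ W) →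
    #T ^ 2 ≤ #(S ^ (4 * k + 1))

/-- PLN. Planes. `(z, z') ↦ x = z h z' ∈ S ^ (2k+1)` on `T × T`, `h ∈ S` fixed. For fixed `x`:
`m z' ∼ adj (m h) adj (m z) (m x)`, and `tr (a adj (m h) adj (m z) (m x)) = tr (m z * a')`,
`a' = m h * adj a * adj (m x)` (trace of the adjugate). If `a'` is not a multiple of `a`, then the
`z` of the fibre are in a subspace of dimension 2: at most `l` (LIN). If `det a ≠ 0` (`h = 1`) there
is at most one `x` with `a' = c a`. If `det a = 0`, `a v = 0`, `a ≠ 0` has image `⟨w⟩`, the image of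
`adj a` is `⟨v⟩`: choose `h ∈ S` with `m h v` not parallel to `w` (`h = 1` or ND); then never. -/
def SpecPLN : Prop :=
  ∀ (p : ℕ) [Fact p.Prime], p ≠ 2 → ∀ (G : Type) [Group G] [DecidableEq G] (m : G → M2 p)
    (S T : Finset G) (k l : ℕ) (a : M2 p), IsPRep m → 1 ∈ S → S⁻¹ = S → ND m S → T ⊆ S ^ k →
    a ≠ 0 → (∀ z ∈ T, (a * m z).trace = 0) → #(S ^ (4 * k + 1)) ≤ l ^ 2 →
    #T ^ 2 ≤ #(S ^ (2 * k + 1)) * l + #T

/-- QDR. The quadric `tr² = τ det`. `(v, v') ↦ x = v v'` on `T × T`. `m v' ∼ adj (m v) (m x)`, so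
`tr (adj (m x) (m v))² = det (m x) tr (m v)²` (`τ det (m v) = tr (m v)²`, twice; the two scalars
cancel). `x ≠ 1`: if `det (m x) = s²`, then `v` is in one of the two planes
`tr ((adj (m x) ∓ s) (m v)) = 0`, `adj (m x) ∓ s ≠ 0`; if it is not a square, `tr (m v) = 0`.
`x = 1`: at most `#T`. -/
def SpecQDR : Prop :=
  ∀ (p : ℕ) [Fact p.Prime] (G : Type) [Group G] [DecidableEq G] (m : G → M2 p)
    (S T : Finset G) (k q : ℕ) (τ : ZMod p), IsPRep m → T ⊆ S ^ k →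
    (∀ z ∈ T, (m z).trace ^ 2 = τ * (m z).det) →
    (∀ a : M2 p, a ≠ 0 → ∀ T' : Finset G, T' ⊆ S ^ k → (∀ z ∈ T', (a * m z).trace = 0) →
      #T' ≤ q) →
    #T ^ 2 ≤ #(S ^ (2 * k)) * (2 * q) + #T

/-- CEN. From LIN, PLN, QDR with `k = 4`. `N = #S`. Lines `≤ l ≤ 2 K⁹ √N`, planes `≤ 3 K¹⁰ N^(3/4)`,
quadrics `≤ 4 K¹⁰ N^(7/8)`. (i) `g ∈ S²`, `g ≠ 1`: the conjugates `s g s⁻¹`, `s ∈ S`, are in `S⁴` and
in the quadric `τ = tr² / det` of `g`: some conjugate has `≥ N / (4 K¹⁰ N^(7/8))` elements `s`,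
`s₀⁻¹ s` commutes with `g`. (ii) `S ⊆ S⁴` is not covered by the quadrics `τ = 0`, `τ = 4`. -/
def SpecCEN : Prop :=
  ∃ C : ℕ, ∀ (p : ℕ) [Fact p.Prime], p ≠ 2 → ∀ (G : Type) [Group G] [DecidableEq G]
    (m : G → M2 p) (S : Finset G) (K : ℝ), 1 ≤ K → IsPRep m → 1 ∈ S → S⁻¹ = S → ND m S →
    (∀ n : ℕ, (#(S ^ n) : ℝ) ≤ K ^ (n + 1) * #S) →
    (∀ g ∈ S ^ 2, g ≠ 1 →
      (#S : ℝ) ≤ C * K ^ C * (#((S ^ 2).filter fun s => s * g = g * s) : ℝ) ^ 8) ∧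
    (C * K ^ C ≤ (#S : ℝ) →
      ∃ g ∈ S, g ≠ 1 ∧ (m g).trace ≠ 0 ∧ (m g).trace ^ 2 ≠ 4 * (m g).det)

/-- PVT (pivot). From CEN. `r` = traceless part of `m g`, `g` from CEN (ii). Call `r'` (trace `0`,
`det ≠ 0`) involved if some `g ∈ S²`, `g ≠ 1`, `tr (m g) ≠ 0`, commutes (as a matrix) with `r'`.
Then the elements of `S²` commuting with `g` are (`IsPRep.comm_iff`; `tr ≠ 0` excludes the sign:
`m s * m g = - m g * m s` gives `tr (m g) = 0`) those whose matrix commutes with `m g`, i.e. with `r'`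
(`comm_span`): `≥ M` of them, `#S ≤ C K^C M^8`. `r'` involved and `s ∈ S` implies
`m s * r' * adj (m s)` involved: `M` elements `t_i` of `S⁴` commute with it; the `M #S` pairs
`(t_i, y)`, `y ∈ S`, have products in `S⁵`; if `M > 3 K⁶`, some product has more than `3` pairs,
`t_1⁻¹ t_i = y_1 y_i⁻¹ ∈ S²`, at least `3` nontrivial elements; only one class of the centralizer of
`r'` has trace `0`. Induction over the closure of `S`. -/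
def SpecPVT : Prop :=
  ∃ C : ℕ, ∀ (p : ℕ) [Fact p.Prime], p ≠ 2 → ∀ (G : Type) [Group G] [DecidableEq G]
    (m : G → M2 p) (S : Finset G) (K : ℝ), 1 ≤ K → IsPRep m → 1 ∈ S → S⁻¹ = S → ND m S →
    (∀ n : ℕ, (#(S ^ n) : ℝ) ≤ K ^ (n + 1) * #S) → C * K ^ C ≤ (#S : ℝ) →
    ∃ r : M2 p, r.trace = 0 ∧ r.det ≠ 0 ∧ ∀ h ∈ Subgroup.closure (S : Set G),
      (#S : ℝ) ≤ C * K ^ C * (#((S ^ 2).filter fun s =>
        m s * (m h * r * (m h).adjugate) = m h * r * (m h).adjugate * m s) : ℝ) ^ 8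

/-- LCD. A line has at most `p + 1` points. -/
def SpecLCD : Prop :=
  ∀ (p : ℕ) [Fact p.Prime] (G : Type) [Group G] (m : G → M2 p) (T : Finset G)
    (W : Submodule (ZMod p) (M2 p)), IsPRep m → Module.finrank (ZMod p) W ≤ 2 →
    (∀ z ∈ T, m z ∈ W) → #T ≤ p + 1

/-- ORB. From LCD. Count pairs `(h, s)`, `h ∈ H`, `1 ≠ s ∈ S²`, `m s` commutes with
`m h * r * adj (m h)`: at least `#H (M - 1)`. For fixed `s ≠ 1` and two such `h₀`, `h` the traceless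
matrices `m h * r * adj (m h)` are in `⟨1, m s⟩`, so proportional, so `h₀⁻¹ h` conjugates `r` to
`c r`, `c² = 1`: `m (h₀⁻¹ h)` is in `{z : z r = r z}` or in `{z : z r = - r z}`, two subspaces of
dimension `≤ 2`: at most `2 (p + 1)` elements `h`. -/
def SpecORB : Prop :=
  ∀ (p : ℕ) [Fact p.Prime], p ≠ 2 → ∀ (G : Type) [Group G] [Fintype G] [DecidableEq G]
    (m : G → M2 p) (U H : Finset G) (M : ℕ) (r : M2 p), IsPRep m → r.trace = 0 → r.det ≠ 0 →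
    (∀ h ∈ H, M ≤ #(U.filter fun s =>
      m s * (m h * r * (m h).adjugate) = m h * r * (m h).adjugate * m s)) →
    #H * (M - 1) ≤ 2 * (p + 1) * #U

/-- GEN. (helper11) `p ∤ #H`: `CEQ.classEq` for the family `{h ∈ H : m h * m g = m g * m h}`,
`1 ≠ g ∈ H` (`disc (m g) ≠ 0`, else order `p`; normalizer: `m h * r = ± r * m h`, `r` the traceless
part of `m g`). So `p ∣ #H`, and Cauchy: `u ∈ H` of order `p`, `m u ^ p = c 1`, so `(m u - c) ^ p = 0`,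
`m u = c (1 + n)`, `n² = 0`, `n ≠ 0`; `H` contains elements with matrices `∼ 1 + k n` for all
`k ∈ ZMod p`. A conjugate by `h ∈ H` that moves the kernel of `n`: `n' = m h * n * (m h)⁻¹`. In a basis
of the two kernels `n`, `n'` are upper resp. lower triangular, and the `p² (p - 1)` matrices
`(1 + a n) (1 + b n') (1 + c n)`, `b ≠ 0`, are distinct; they have determinant `1`, so at most two of
them are proportional. -/
def SpecGEN : Prop :=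
  ∀ (p : ℕ) [Fact p.Prime], p ≠ 2 → ∀ (G : Type) [Group G] [Fintype G] [DecidableEq G]
    (m : G → M2 p) (H : Finset G), IsPRep m → 1 ∈ H → H⁻¹ = H → H * H = H →
    (∀ v : Fin 2 → ZMod p, v ≠ 0 → ∃ h ∈ H, ¬ par (m h *ᵥ v) v) →
    (∀ y : M2 p, NonSc y → ∃ h ∈ H, m h * y ≠ y * m h) →
    (∀ g ∈ H, g ≠ 1 → 4 ≤ #(H.filter fun s => m s * m g = m g * m s)) →
    p ^ 2 * (p - 1) ≤ 2 * #H

/-- CLM. Classification. From CEN, PVT, ORB, GEN. `H` = closure of `S`. CEN (i) for `S := H`, `K = 1`: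
`#H ≤ C (2 t)^8` (`IsPRep.comm_iff`: of the elements commuting with `g` at least half have a matrix
which commutes with `m g`), `t ≥ 4` for `#H` large, so GEN: `#H ≥ p² (p - 1) / 2`. (For `y` nonscalar,
`S` is not in the centralizer of `y`: ND for the traceless part of `y`, resp. for its kernel.) ORB with
`U = S²` and `M` = the minimum in PVT: `p² M ≤ 32 K³ #S`, `#S ≤ C K^C M^8`. -/
def SpecCLM : Prop :=
  ∃ C : ℕ, ∀ (p : ℕ) [Fact p.Prime], p ≠ 2 → ∀ (G : Type) [Group G] [Fintype G] [DecidableEq G]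
    (m : G → M2 p) (S : Finset G) (K : ℝ), 1 ≤ K → IsPRep m → 1 ∈ S → S⁻¹ = S → ND m S →
    (∀ n : ℕ, (#(S ^ n) : ℝ) ≤ K ^ (n + 1) * #S) → C * K ^ C ≤ (#S : ℝ) →
    (p : ℝ) ^ 16 ≤ C * K ^ C * (#S : ℝ) ^ 7

/-! ## flattening -/

/-- FLM. Flattening, as `LN/FLG.lean` (`LN.SpecTRG`, `SpecBSGG`, `SpecAPX` and CLM instead of
`SpecCLS`). ND for `S`: if it fails, `u S` is in a point coset or in two lines. -/
def SpecFLM : Prop :=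
  ∀ δ δ₁ : ℝ, 0 < δ → 0 < δ₁ → ∃ J P : ℕ, ∀ (p : ℕ) [Fact p.Prime], P ≤ p →
    ∀ (G : Type) [Group G] [Fintype G] [DecidableEq G] (m : G → M2 p) (ν : G → ℝ), IsPRep m →
      IsProb ν →
      (∀ r₀ r₁ : M2 p, NonSc r₀ →
        ∑ g ∈ univ.filter (fun g => m g * r₀ = r₁ * m g), ν g ≤ (p : ℝ) ^ (-δ)) →
      (∀ v w : Fin 2 → ZMod p, v ≠ 0 → w ≠ 0 →
        ∑ g ∈ univ.filter (fun g => par (m g *ᵥ v) w), ν g ≤ (p : ℝ) ^ (-δ₁)) →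
      l2 (dbl ν J) ≤ (p : ℝ) ^ (-(2 + 1 / 8 : ℝ))

/-- the quadratic form `⟨T_μ f, f⟩` -/
def QX {G X : Type} [Group G] [Fintype G] [Fintype X] [MulAction G X] (μ : G → ℝ) (f : X → ℝ) :
    ℝ :=
  ∑ g, μ g * ∑ x, f (g⁻¹ • x) * f x

/-- ITM: as `LN.specITR`, for every action. -/
def SpecITM : Prop :=
  ∀ (G X : Type) [Group G] [Fintype G] [Fintype X] [MulAction G X] (ν : G → ℝ) (f : X → ℝ),
    IsSymm ν → ∀ j : ℕ,
    QX ν f ^ 2 ^ j ≤ QX (dbl ν j) f * (∑ x, f x ^ 2) ^ (2 ^ j - 1)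

/-- the group `PGL(2, p)` -/
abbrev PGL2 (p : ℕ) := Matrix.ProjGenLinGroup (Fin 2) (ZMod p)

/-- the projective line -/
abbrev P1 (p : ℕ) [Fact p.Prime] := Projectivization (ZMod p) (Fin 2 → ZMod p)

instance (p : ℕ) [Fact p.Prime] : Finite (PGL2 p) :=
  Finite.of_surjective _ (Matrix.ProjGenLinGroup.mk_surjective (n := Fin 2) (R := ZMod p))

noncomputable instance (p : ℕ) [Fact p.Prime] : Fintype (PGL2 p) := Fintype.ofFinite _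

noncomputable instance (p : ℕ) [Fact p.Prime] : DecidableEq (PGL2 p) := Classical.decEq _

instance (p : ℕ) [Fact p.Prime] : Finite (P1 p) := Quotient.finite _

noncomputable instance (p : ℕ) [Fact p.Prime] : Fintype (P1 p) := Fintype.ofFinite _

/-- a representative -/
noncomputable def rep {p : ℕ} (g : PGL2 p) : M2 p :=
  ((Function.surjInv (Matrix.ProjGenLinGroup.mk_surjective (n := Fin 2) (R := ZMod p)) g :
    GL (Fin 2) (ZMod p)) : M2 p)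

/-- REP. -/
def SpecREP : Prop :=
  ∀ (p : ℕ) [Fact p.Prime], IsPRep (rep : PGL2 p → M2 p) ∧
    (∀ M : M2 p, M.det ≠ 0 → ∃ g : PGL2 p, ∃ c : ZMod p, c ≠ 0 ∧ rep g = c • M) ∧
    (∀ (g : PGL2 p) (v w : Fin 2 → ZMod p) (hv : v ≠ 0) (hw : w ≠ 0),
      g • Projectivization.mk (ZMod p) v hv = Projectivization.mk (ZMod p) w hw ↔
        par (rep g *ᵥ v) w) ∧
    Fintype.card (P1 p) = p + 1

/-- OPM: as `LN.specOPL`: Cauchy-Schwarz and `∑_g ⟨g f, f⟩² = (#G / p) (∑ f²)²`, `#G = p (p² - 1)`.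
For `x ≠ y` every ordered pair of distinct points is `(g⁻¹ x, g⁻¹ y)` for exactly `p - 1` elements
`g` (`PGL(2, p)` is sharply 3-transitive), and `g⁻¹ x = x'` for `p (p - 1)` elements. -/
def SpecOPM : Prop :=
  ∀ (p : ℕ) [Fact p.Prime] (μ : PGL2 p → ℝ) (f : P1 p → ℝ), ∑ x, f x = 0 →
    QX μ f ^ 2 ≤ (p : ℝ) ^ 2 * l2 μ * (∑ x, f x ^ 2) ^ 2

/-! ## counting -/

/-- sum of `|φ⁻¹ B ∩ ψ⁻¹ B|²` over `φ`, `ψ` in `Φ` (finite points only) -/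
def NAM {p : ℕ} [Fact p.Prime] (Φ : Finset (M2 p)) (B : Finset (ZMod p)) : ℕ :=
  ∑ φ ∈ Φ, ∑ ψ ∈ Φ,
    #(univ.filter fun z : ZMod p => den φ z ≠ 0 ∧ mob φ z ∈ B ∧ den ψ z ≠ 0 ∧ mob ψ z ∈ B) ^ 2

/-- CNM: the count for families with no rich point coset. From FLM, OPM, ITM, REP, as
`LN/NAL.lean`: `NAM Φ B ≤ #B #{(φ, ψ, b, b₁) : b₁ = ψ φ⁻¹ b}`, `ρ` the law of `φ ψ⁻¹` on `PGL2 p`
(`REP`), `f = 1_B - #B / (p + 1)` on `P1 p`. -/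
def SpecCNM : Prop :=
  ∀ δ δ₁ : ℝ, 0 < δ → 0 < δ₁ → ∃ κ : ℝ, 0 < κ ∧ ∃ P : ℕ, ∀ (p : ℕ) [Fact p.Prime], P ≤ p →
    ∀ (Φ : Finset (M2 p)) (B : Finset (ZMod p)), (∀ φ ∈ Φ, φ.det ≠ 0) →
      (∀ r₀ r₁ : M2 p, NonSc r₀ →
        (#(Φ.filter fun φ => φ * r₀ = r₁ * φ) : ℝ) ≤ (p : ℝ) ^ (-δ) * #Φ) →
      (∀ v w : Fin 2 → ZMod p, v ≠ 0 → w ≠ 0 →
        (#(Φ.filter fun φ => par (φ *ᵥ v) w) : ℝ) ≤ (p : ℝ) ^ (-δ₁) * #Φ) →
      (#B : ℝ) ≤ (p : ℝ) ^ (1 - δ) →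
      (NAM Φ B : ℝ) ≤ (p : ℝ) ^ (-κ) * ((#Φ : ℝ) ^ 2 * (#B : ℝ) ^ 2)

/-- BOR: the count for a point coset. From `LN.SpecNAL`. `g₁ e = v`, `g₂ w = e`, `e = (1, 0)`:
`φ' = g₂ φ g₁` fixes the point `e`, an affine map (pairwise different, since the `φ` are not
proportional); `B'` = the finite points of `g₂ B`. The lines `{φ : φ' = (d, *)}` and
`{φ : φ' x = y}` are lines (conjugates). For fixed `φ`, `ψ` the number of `z` with `φ z, ψ z ∈ B` is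
at most `1 +` the number of `z'` with `φ' z', ψ' z' ∈ B'`, so `NAM Φ B ≤ 2 NA Φ' B' + 2 #Φ²`. -/
def SpecBOR : Prop :=
  ∀ δ : ℝ, 0 < δ → ∃ κ : ℝ, 0 < κ ∧ ∃ P : ℕ, ∀ (p : ℕ) [Fact p.Prime], P ≤ p →
    ∀ (Φ : Finset (M2 p)) (B : Finset (ZMod p)) (v w : Fin 2 → ZMod p), (∀ φ ∈ Φ, φ.det ≠ 0) →
      (∀ φ ∈ Φ, ∀ ψ ∈ Φ, ∀ c : ZMod p, ψ = c • φ → ψ = φ) → v ≠ 0 → w ≠ 0 →
      (∀ φ ∈ Φ, par (φ *ᵥ v) w) →
      (∀ r₀ r₁ : M2 p, NonSc r₀ →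
        (#(Φ.filter fun φ => φ * r₀ = r₁ * φ) : ℝ) ≤ (p : ℝ) ^ (-δ) * #Φ) →
      (#B : ℝ) ≤ (p : ℝ) ^ (1 - δ) → (p : ℝ) ^ δ ≤ #B →
      (NAM Φ B : ℝ) ≤ (p : ℝ) ^ (-κ) * ((#Φ : ℝ) ^ 2 * (#B : ℝ) ^ 2)

/-! ## theorem A for Moebius maps -/

/-- theorem A for Moebius maps (helper71, `PG/TAM.lean`), as `TW.FinalA`. -/
def FinalAM : Prop :=
  ∀ δ : ℝ, 0 < δ → ∃ τ : ℝ, 0 < τ ∧ ∃ P : ℕ, ∀ (p : ℕ) [Fact p.Prime], P ≤ p →
    ∀ (B : Finset (ZMod p)) (F : Finset (Finset (M2 p) × Finset (ZMod p) × ℕ)),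
      (p : ℝ) ^ δ ≤ #B →
      (∀ q ∈ F, (∀ φ ∈ q.1, φ.det ≠ 0) ∧ (p : ℝ) ^ δ ≤ #q.2.1 ∧ 1 ≤ q.2.2 ∧
        (p : ℝ) ^ (1 + δ) * NAM q.1 B ≤ (#q.1 : ℝ) ^ 2 * (#B : ℝ) ^ 4) →
      ∀ A : Finset (ZMod p),
        (∀ a ∈ A, ∃ q ∈ F, q.2.2 ≤ #((q.1 ×ˢ q.2.1).filter fun x =>
          den x.1 x.2 ≠ 0 ∧ mob x.1 x.2 = a)) →
        ∀ χ : MulChar (ZMod p) ℂ, χ ≠ 1 →
          NB χ A B ((p : ℝ) ^ (-τ) *
            Real.sqrt ((∑ q ∈ F, (#q.1 : ℝ) * #q.2.1 / q.2.2) * #B))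

/-! ## the theorem -/

/-- PRT: partition of `Φ` into one part `Φ₀` without rich point cosets and few parts in point
cosets. Induction on `n` with `(1 - ε) ^ n #Φ < 1`, `ε = p ^ (-δ₁)`: a point coset with more than
`ε #Φ` elements is cut off; `#Φ ≤ p⁴`, `n ≤ 5 p^δ₁ log p`. -/
def SpecPRT : Prop :=
  ∀ δ₁ : ℝ, 0 < δ₁ → ∃ P : ℕ, ∀ (p : ℕ) [Fact p.Prime], P ≤ p → ∀ Φ : Finset (M2 p),
    ∃ (Φ₀ : Finset (M2 p)) (Q : Finset (Finset (M2 p))), Φ₀ ⊆ Φ ∧ (∀ Ψ ∈ Q, Ψ ⊆ Φ) ∧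
      (∀ φ ∈ Φ, φ ∈ Φ₀ ∨ ∃ Ψ ∈ Q, φ ∈ Ψ) ∧ ((#Q : ℕ) : ℝ) ≤ (p : ℝ) ^ (2 * δ₁) ∧
      (∑ Ψ ∈ Q, #Ψ ≤ #Φ) ∧
      (∀ v w : Fin 2 → ZMod p, v ≠ 0 → w ≠ 0 →
        (#(Φ₀.filter fun φ => par (φ *ᵥ v) w) : ℝ) ≤ (p : ℝ) ^ (-δ₁) * #Φ₀) ∧
      ∀ Ψ ∈ Q, ∃ v w : Fin 2 → ZMod p, v ≠ 0 ∧ w ≠ 0 ∧ ∀ φ ∈ Ψ, par (φ *ᵥ v) w

open scoped Classical in
/-- no projective line contains more than `p ^ (-δ) #Φ` points of `Φ` -/
def OffLinesM {p : ℕ} [Fact p.Prime] (δ : ℝ) (Φ : Finset (M2 p)) : Prop :=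
  ∀ W : Submodule (ZMod p) (M2 p), Module.finrank (ZMod p) W = 2 →
    (#(Φ.filter fun φ => φ ∈ W) : ℝ) ≤ (p : ℝ) ^ (-δ) * #Φ

/-- LNM: `{z : z r₀ = r₁ z}`, `r₀` nonscalar, has dimension at most 2, so it is contained in a
subspace of dimension 2. -/
def SpecLNM : Prop :=
  ∀ (p : ℕ) [Fact p.Prime] (δ : ℝ) (Φ : Finset (M2 p)), OffLinesM δ Φ →
    ∀ r₀ r₁ : M2 p, NonSc r₀ →
      (#(Φ.filter fun φ => φ * r₀ = r₁ * φ) : ℝ) ≤ (p : ℝ) ^ (-δ) * #Φ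

/-- THEOREM PG. From FinalAM, CNM, BOR, PRT, LNM. For `(Φ, C, m)` partition `Φ` (PRT with `δ₁` small
compared with the saving of FinalAM for BOR): `a` has `≥ m / 2` representations from `Φ₀` or
`≥ m / (2 #Q)` from one `Ψ ∈ Q`. Parts with fewer than `p^(-δ/2) #Φ` elements: trivial bound
`#A' ≤ #Ψ #C / m'`. The others: lines `≤ p^(-δ/2) #Ψ`, FinalAM with CNM resp. BOR. `#B > p^(1-δ/2)`:
`√p` and `m ≤ #Φ` (one `c` for every `φ`). -/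
def FinalPG : Prop :=
  ∀ δ : ℝ, 0 < δ → ∃ τ : ℝ, 0 < τ ∧ ∃ P : ℕ, ∀ (p : ℕ) [Fact p.Prime], P ≤ p →
    ∀ (B : Finset (ZMod p)) (F : Finset (Finset (M2 p) × Finset (ZMod p) × ℕ)),
      (p : ℝ) ^ (1 / 2 - τ) ≤ #B →
      (∀ q ∈ F, (∀ φ ∈ q.1, φ.det ≠ 0) ∧
        (∀ φ ∈ q.1, ∀ ψ ∈ q.1, ∀ c : ZMod p, ψ = c • φ → ψ = φ) ∧ OffLinesM δ q.1 ∧
        (p : ℝ) ^ δ ≤ #q.2.1 ∧ 1 ≤ q.2.2) →
      ∀ A : Finset (ZMod p),
        (∀ a ∈ A, ∃ q ∈ F, q.2.2 ≤ #((q.1 ×ˢ q.2.1).filter fun x =>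
          den x.1 x.2 ≠ 0 ∧ mob x.1 x.2 = a)) →
        ∀ χ : MulChar (ZMod p) ℂ, χ ≠ 1 →
          NB χ A B ((p : ℝ) ^ (-τ) *
            Real.sqrt ((∑ q ∈ F, (#q.1 : ℝ) * #q.2.1 / q.2.2) * #B))

end MPcb27.PG
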