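import Pool.Agent.Lib.MP_cb27ba_nt.LN.OPL
import Pool.Agent.Lib.MP_cb27ba_nt.PG.Spec

section
/-!
# MP_cb27ba_nt, project PG: quadratic forms of measures on a group acting on a finite set

`QX μ f = ⟨T_μ f, f⟩`, `T_μ f = ∑_g μ(g) (g f)`; for a 2-transitive action of `G` on a set of `n`
elements and `∑ f = 0`: `∑_g ⟨g f, f⟩² = (#G / (n - 1)) ‖f‖⁴`.
-/
set_option autoImplicit false

namespace MPcb27.PG

open Finset MPcb27.LN

variable {G X : Type} [Group G] [Fintype G] [Fintype X] [MulAction G X]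

/-! ## 2-transitivity -/

omit [Fintype G] in
theorem sum_smul (g : G) (F : X → ℝ) : ∑ x, F (g • x) = ∑ x, F x :=
  Fintype.sum_equiv (MulAction.toPerm g) _ _ fun _ => rfl

theorem pair_diag (h1 : ∀ x x' : X, ∃ g : G, g • x = x') (F : X → ℝ) (x : X) :
    (Fintype.card X : ℝ) * ∑ g : G, F (g • x) = Fintype.card G * ∑ z, F z := by
  have h2 : ∀ y : X, ∑ g : G, F (g • y) = ∑ g : G, F (g • x) := by
    intro y
    obtain ⟨h, rfl⟩ := h1 x y
    exact Fintype.sum_equiv (Equiv.mulRight h) _ _ fun g => by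
      rw [Equiv.coe_mulRight, mul_smul]
  have h3 : ∑ y : X, ∑ g : G, F (g • y) = (Fintype.card X : ℝ) * ∑ g : G, F (g • x) := by
    rw [sum_congr rfl fun y _ => h2 y, sum_const, nsmul_eq_mul, card_univ]
  rw [← h3, sum_comm, sum_congr rfl fun g _ => sum_smul g F, sum_const, nsmul_eq_mul, card_univ]

theorem pair_off [DecidableEq X]
    (h2 : ∀ x y x' y' : X, x ≠ y → x' ≠ y' → ∃ g : G, g • x = x' ∧ g • y = y')
    (f : X → ℝ) {x y : X} (hxy : x ≠ y) :
    (Fintype.card X : ℝ) * ((Fintype.card X : ℝ) - 1) * ∑ g : G, f (g • x) * f (g • y) =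
      Fintype.card G * ((∑ z, f z) ^ 2 - ∑ z, f z ^ 2) := by
  set s : Finset (X × X) := univ.filter fun q : X × X => q.1 ≠ q.2 with hs
  have hc : (#s : ℝ) = (Fintype.card X : ℝ) * ((Fintype.card X : ℝ) - 1) := by
    have h3 : s = (univ : Finset X).offDiag := by
      ext q
      simp [hs]
    rw [h3, offDiag_card, card_univ]
    have h4 : Fintype.card X ≤ Fintype.card X * Fintype.card X := Nat.le_mul_self _
    push_cast [Nat.cast_sub h4]
    ring
  have h3 : ∀ q ∈ s, ∑ g : G, f (g • q.1) * f (g • q.2) = ∑ g : G, f (g • x) * f (g • y) := by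
    intro q hq
    rw [hs, mem_filter] at hq
    obtain ⟨h, hx, hy⟩ := h2 x y q.1 q.2 hxy hq.2
    rw [← hx, ← hy]
    exact Fintype.sum_equiv (Equiv.mulRight h) _ _ fun g => by
      rw [Equiv.coe_mulRight, mul_smul, mul_smul]
  have h4 : ∑ q ∈ s, ∑ g : G, f (g • q.1) * f (g • q.2) =
      (Fintype.card X : ℝ) * ((Fintype.card X : ℝ) - 1) * ∑ g : G, f (g • x) * f (g • y) := by
    rw [sum_congr rfl h3, sum_const, nsmul_eq_mul, hc]
  have h5 : ∀ g : G, ∑ q ∈ s, f (g • q.1) * f (g • q.2) = (∑ z, f z) ^ 2 - ∑ z, f z ^ 2 := by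
    intro g
    have h6 : ∑ q : X × X, f (g • q.1) * f (g • q.2) = (∑ z, f z) ^ 2 := by
      rw [Fintype.sum_prod_type, sq, ← sum_smul g f, sum_mul_sum]
    have h7 : ∑ q ∈ univ.filter (fun q : X × X => ¬ q.1 ≠ q.2), f (g • q.1) * f (g • q.2) =
        ∑ z, f z ^ 2 := by
      rw [← sum_smul g fun z => f z ^ 2]
      refine sum_bij' (fun q _ => q.1) (fun z _ => (z, z)) ?_ ?_ ?_ ?_ ?_
      · intro q _
        exact mem_univ _
      · intro z _
        simp
      · intro q hq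
        rw [mem_filter, not_not] at hq
        exact Prod.ext rfl hq.2
      · intro z _
        rfl
      · intro q hq
        rw [mem_filter, not_not] at hq
        rw [← hq.2]
        ring
    have h8 := sum_filter_add_sum_filter_not (univ : Finset (X × X)) (fun q => q.1 ≠ q.2)
      (fun q => f (g • q.1) * f (g • q.2))
    rw [h6, h7] at h8
    linarith
  rw [← h4, sum_comm, sum_congr rfl fun g _ => h5 g, sum_const, nsmul_eq_mul, card_univ]

theorem sum_corr [DecidableEq X]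
    (h2 : ∀ x y x' y' : X, x ≠ y → x' ≠ y' → ∃ g : G, g • x = x' ∧ g • y = y')
    (hX : 2 ≤ Fintype.card X) (f : X → ℝ) (h0 : ∑ x, f x = 0) :
    (∑ g : G, (∑ x, f (g⁻¹ • x) * f x) ^ 2) * ((Fintype.card X : ℝ) - 1) =
      Fintype.card G * (∑ x, f x ^ 2) ^ 2 := by
  set N : ℝ := ∑ x, f x ^ 2 with hN
  set n : ℝ := (Fintype.card X : ℝ) with hn
  have hn0 : n ≠ 0 := by
    rw [hn]
    have : (0 : ℝ) < Fintype.card X := by exact_mod_cast (by omega : 0 < Fintype.card X)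
    exact this.ne'
  have ht : ∀ x x' : X, ∃ g : G, g • x = x' := by
    intro x x'
    have : Nontrivial X := Fintype.one_lt_card_iff_nontrivial.1 hX
    obtain ⟨y, hy⟩ := exists_ne x
    obtain ⟨y', hy'⟩ := exists_ne x'
    obtain ⟨g, hg, _⟩ := h2 x y x' y' hy.symm hy'.symm
    exact ⟨g, hg⟩
  have h1 : ∑ g : G, (∑ x, f (g⁻¹ • x) * f x) ^ 2 =
      ∑ x, ∑ y, f x * f y * ∑ g : G, f (g • x) * f (g • y) := by
    have h2 : ∑ g : G, (∑ x, f (g⁻¹ • x) * f x) ^ 2 = ∑ g : G, (∑ x, f (g • x) * f x) ^ 2 :=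
      Fintype.sum_equiv (Equiv.inv G) _ _ fun g => by simp
    rw [h2]
    have h3 : ∀ g : G, (∑ x, f (g • x) * f x) ^ 2 =
        ∑ x, ∑ y, f x * f y * (f (g • x) * f (g • y)) := by
      intro g
      rw [sq, sum_mul_sum]
      refine sum_congr rfl fun x _ => sum_congr rfl fun y _ => ?_
      ring
    rw [sum_congr rfl fun g _ => h3 g, sum_comm]
    refine sum_congr rfl fun x _ => ?_
    rw [sum_comm]
    refine sum_congr rfl fun y _ => ?_
    rw [mul_sum]
  have h4 : ∀ x y : X, n * (n - 1) * ∑ g : G, f (g • x) * f (g • y) =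
      Fintype.card G * (-N + if y = x then n * N else 0) := by
    intro x y
    split_ifs with h
    · subst h
      have h5 := pair_diag ht (fun z => f z ^ 2) y
      simp only [← hn, ← hN] at h5
      have h6 : ∑ g : G, f (g • y) * f (g • y) = ∑ g : G, f (g • y) ^ 2 :=
        sum_congr rfl fun g _ => by ring
      rw [h6]
      linear_combination (n - 1) * h5
    · have h5 := pair_off h2 f (Ne.symm h)
      rw [h0, ← hn, ← hN] at h5
      rw [h5]
      ring
  have h5 : n * (n - 1) * ∑ g : G, (∑ x, f (g⁻¹ • x) * f x) ^ 2 =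
      Fintype.card G * (n * N ^ 2) := by
    rw [h1, mul_sum]
    have h6 : ∀ x, n * (n - 1) * ∑ y, f x * f y * ∑ g : G, f (g • x) * f (g • y) =
        Fintype.card G * (f x * (-N * ∑ y, f y + n * N * f x)) := by
      intro x
      have h7 : n * (n - 1) * ∑ y, f x * f y * ∑ g : G, f (g • x) * f (g • y) =
          ∑ y, f x * f y * (n * (n - 1) * ∑ g : G, f (g • x) * f (g • y)) := by
        rw [mul_sum]
        exact sum_congr rfl fun y _ => by ring
      rw [h7]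
      simp only [h4]
      have h8 : ∀ y, f x * f y * ((Fintype.card G : ℝ) * (-N + if y = x then n * N else 0)) =
          (Fintype.card G : ℝ) * f x * (-N) * f y +
            if y = x then (Fintype.card G : ℝ) * f x * (n * N) * f y else 0 := by
        intro y
        split_ifs <;> ring
      rw [sum_congr rfl fun y _ => h8 y, sum_add_distrib, sum_ite_eq', if_pos (mem_univ _),
        ← mul_sum]
      ring
    rw [sum_congr rfl fun x _ => h6 x, h0]
    have h9 : ∀ x, (Fintype.card G : ℝ) * (f x * (-N * 0 + n * N * f x)) =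
        (Fintype.card G : ℝ) * (n * N) * f x ^ 2 := fun x => by ring
    rw [sum_congr rfl fun x _ => h9 x, ← mul_sum, ← hN]
    ring
  have h6 : n * ((∑ g : G, (∑ x, f (g⁻¹ • x) * f x) ^ 2) * (n - 1)) =
      n * (Fintype.card G * N ^ 2) := by
    linear_combination h5
  exact mul_left_cancel₀ hn0 h6

theorem opg [DecidableEq X]
    (h2 : ∀ x y x' y' : X, x ≠ y → x' ≠ y' → ∃ g : G, g • x = x' ∧ g • y = y')
    (hX : 2 ≤ Fintype.card X) (μ : G → ℝ) (f : X → ℝ) (h0 : ∑ x, f x = 0) :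
    QX μ f ^ 2 * ((Fintype.card X : ℝ) - 1) ≤ Fintype.card G * l2 μ * (∑ x, f x ^ 2) ^ 2 := by
  unfold QX l2
  have hn : (0 : ℝ) ≤ (Fintype.card X : ℝ) - 1 := by
    have : (2 : ℝ) ≤ Fintype.card X := by exact_mod_cast hX
    linarith
  calc (∑ g, μ g * ∑ x, f (g⁻¹ • x) * f x) ^ 2 * ((Fintype.card X : ℝ) - 1)
      ≤ (∑ g, μ g ^ 2) * (∑ g : G, (∑ x, f (g⁻¹ • x) * f x) ^ 2) *
          ((Fintype.card X : ℝ) - 1) :=
        mul_le_mul_of_nonneg_right (sum_mul_sq_le_sq_mul_sq _ _ _) hn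
    _ = _ := by
        rw [mul_assoc, sum_corr h2 hX f h0]
        ring

/-! ## iteration of Cauchy-Schwarz -/

/-- `T_μ f` -/
noncomputable def TX (μ : G → ℝ) (f : X → ℝ) (x : X) : ℝ :=
  ∑ g, μ g * f (g⁻¹ • x)

theorem QX_eq (μ : G → ℝ) (f : X → ℝ) : QX μ f = ∑ x, TX μ f x * f x := by
  unfold QX TX
  simp only [Finset.mul_sum, Finset.sum_mul]
  rw [Finset.sum_comm]
  refine Finset.sum_congr rfl fun x _ => Finset.sum_congr rfl fun g _ => ?_
  ring

theorem sum_TX_sq {μ : G → ℝ} (hμ : IsSymm μ) (f : X → ℝ) :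
    ∑ x, TX μ f x ^ 2 = QX (conv μ μ) f := by
  have h1 : ∑ x, TX μ f x ^ 2
      = ∑ h, ∑ g, μ h * μ g * ∑ y, f (g⁻¹ • h • y) * f y := by
    have : ∀ x, TX μ f x ^ 2 = ∑ h, ∑ g, μ h * μ g * (f (g⁻¹ • x) * f (h⁻¹ • x)) := by
      intro x
      unfold TX
      rw [sq, Finset.sum_mul_sum]
      refine Finset.sum_congr rfl fun h _ => Finset.sum_congr rfl fun g _ => ?_
      ring
    simp only [this]
    rw [Finset.sum_comm]
    refine Finset.sum_congr rfl fun h _ => ?_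
    rw [Finset.sum_comm]
    refine Finset.sum_congr rfl fun g _ => ?_
    rw [← Finset.mul_sum]
    congr 1
    refine (Fintype.sum_equiv (MulAction.toPerm h) _ _ fun y => ?_).symm
    rw [MulAction.toPerm_apply, inv_smul_smul]
  have h2 : QX (conv μ μ) f
      = ∑ h, ∑ g, μ h * μ g * ∑ y, f (g⁻¹ • h • y) * f y := by
    unfold QX conv
    simp only [Finset.sum_mul]
    rw [Finset.sum_comm]
    refine Fintype.sum_equiv (Equiv.inv G) _ _ fun h => ?_
    refine Fintype.sum_equiv (Equiv.mulLeft h⁻¹) _ _ fun g => ?_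
    rw [Equiv.coe_mulLeft, Equiv.inv_apply, hμ h]
    congr 1
    refine Finset.sum_congr rfl fun y _ => ?_
    rw [mul_inv_rev, inv_inv, mul_smul, smul_inv_smul]
  rw [h1, h2]

theorem QX_sq_le {μ : G → ℝ} (hμ : IsSymm μ) (f : X → ℝ) :
    QX μ f ^ 2 ≤ QX (conv μ μ) f * ∑ x, f x ^ 2 := by
  rw [← sum_TX_sq hμ, QX_eq]
  exact Finset.sum_mul_sq_le_sq_mul_sq _ _ _

theorem itg {ν : G → ℝ} (hν : IsSymm ν) (f : X → ℝ) (j : ℕ) :
    QX ν f ^ 2 ^ j ≤ QX (dbl ν j) f * (∑ x, f x ^ 2) ^ (2 ^ j - 1) := by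
  induction j generalizing ν with
  | zero => simp [dbl]
  | succ j ih =>
    rw [dbl_succ']
    have hN : (0 : ℝ) ≤ ∑ x, f x ^ 2 := Finset.sum_nonneg fun x _ => sq_nonneg _
    calc QX ν f ^ 2 ^ (j + 1) = (QX ν f ^ 2) ^ 2 ^ j := by rw [← pow_mul, pow_succ' 2 j]
      _ ≤ (QX (conv ν ν) f * ∑ x, f x ^ 2) ^ 2 ^ j :=
          pow_le_pow_left₀ (sq_nonneg _) (QX_sq_le hν f) _
      _ = QX (conv ν ν) f ^ 2 ^ j * (∑ x, f x ^ 2) ^ 2 ^ j := mul_pow _ _ _
      _ ≤ QX (dbl (conv ν ν) j) f * (∑ x, f x ^ 2) ^ (2 ^ j - 1) * (∑ x, f x ^ 2) ^ 2 ^ j :=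
          mul_le_mul_of_nonneg_right (ih (isSymm_conv hν)) (pow_nonneg hN _)
      _ = QX (dbl (conv ν ν) j) f * (∑ x, f x ^ 2) ^ (2 ^ (j + 1) - 1) := by
          rw [mul_assoc, ← pow_add]
          congr 2
          have : 1 ≤ 2 ^ j := Nat.one_le_two_pow
          rw [pow_succ]
          omega

theorem specITM : SpecITM := fun _ _ _ _ _ _ _ f hν j => itg hν f j

end MPcb27.PG
end

section
/-!
# MP_cb27ba_nt, project PG: BOR, point cosets are reduced to families of affine maps (helper44)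
-/
set_option autoImplicit false

namespace MPcb27.PG

open Finset Matrix
open scoped Pointwise
open MPcb27.TU MPcb27.TW MPcb27.LN MPcb27.MB

namespace BOR

variable {p : ℕ} [Fact p.Prime]

/-- a matrix of determinant `1` with given first column -/
theorem exists_col {v : Fin 2 → ZMod p} (hv : v ≠ 0) :
    ∃ a : M2 p, a.det = 1 ∧ a 0 0 = v 0 ∧ a 1 0 = v 1 := by
  by_cases h0 : v 0 = 0
  · have h1 : v 1 ≠ 0 := by
      intro h1
      apply hv
      ext i
      fin_cases i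
      · exact h0
      · exact h1
    refine ⟨!![v 0, -(v 1)⁻¹; v 1, 0], ?_, rfl, rfl⟩
    rw [Matrix.det_fin_two]
    simp [h1]
  · refine ⟨!![v 0, 0; v 1, (v 0)⁻¹], ?_, rfl, rfl⟩
    rw [Matrix.det_fin_two]
    simp [h0]

/-- the conjugated matrix -/
def cj (a₁ a₂ φ : M2 p) : M2 p := a₂.adjugate * φ * a₁

theorem mul_cj {a₁ a₂ : M2 p} (h2 : a₂.det = 1) (φ : M2 p) : a₂ * cj a₁ a₂ φ = φ * a₁ := by
  unfold cj
  rw [← mul_assoc, ← mul_assoc, Matrix.mul_adjugate, h2, one_smul, one_mul]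

theorem det_cj {a₁ a₂ : M2 p} (h1 : a₁.det = 1) (h2 : a₂.det = 1) (φ : M2 p) :
    (cj a₁ a₂ φ).det = φ.det := by
  have h := congrArg Matrix.det (mul_cj (a₁ := a₁) h2 φ)
  rw [Matrix.det_mul, Matrix.det_mul, h1, h2, one_mul, mul_one] at h
  exact h

/-- the affine map -/
def af (φ : M2 p) : ZMod p × ZMod p := (φ 0 0 / φ 1 1, φ 0 1 / φ 1 1)

theorem cj_zero {a₁ a₂ φ : M2 p} {v w : Fin 2 → ZMod p} (h1 : a₁ 0 0 = v 0) (h2 : a₁ 1 0 = v 1)
    (h3 : a₂ 0 0 = w 0) (h4 : a₂ 1 0 = w 1) (h : par (φ *ᵥ v) w) : cj a₁ a₂ φ 1 0 = 0 := by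
  unfold par at h
  simp only [Matrix.mulVec, dotProduct, Fin.sum_univ_two] at h
  unfold cj
  rw [adj_eq]
  simp only [Matrix.mul_apply, Fin.sum_univ_two, h1, h2]
  simp [h3, h4]
  linear_combination -h

/-- a line in the conjugated picture is a line -/
theorem line_cj {a₁ a₂ φ n₀ n₁ : M2 p} (h1 : a₁.det = 1) (h2 : a₂.det = 1)
    (h : cj a₁ a₂ φ * n₀ = n₁ * cj a₁ a₂ φ) :
    φ * (a₁ * n₀ * a₁.adjugate) = a₂ * n₁ * a₂.adjugate * φ := by
  calc φ * (a₁ * n₀ * a₁.adjugate) = φ * a₁ * n₀ * a₁.adjugate := by simp only [mul_assoc]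
    _ = a₂ * (cj a₁ a₂ φ * n₀) * a₁.adjugate := by rw [← mul_cj (a₁ := a₁) h2 φ]; simp only [mul_assoc]
    _ = a₂ * n₁ * (cj a₁ a₂ φ * a₁.adjugate) := by rw [h]; simp only [mul_assoc]
    _ = a₂ * n₁ * (a₂.adjugate * φ) := by
        congr 1
        unfold cj
        rw [mul_assoc, Matrix.mul_adjugate, h1, one_smul, mul_one]
    _ = a₂ * n₁ * a₂.adjugate * φ := by simp only [mul_assoc]

theorem nonSc_conj {a n : M2 p} (h1 : a.det = 1) (hn : NonSc n) : NonSc (a * n * a.adjugate) := by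
  intro c hc
  apply hn c
  have h2 : a.adjugate * (a * n * a.adjugate) * a = a.adjugate * (c • (1 : M2 p)) * a := by rw [hc]
  have h3 : a.adjugate * (a * n * a.adjugate) * a = (a.adjugate * a) * n * (a.adjugate * a) := by
    simp only [mul_assoc]
  rw [h3, Matrix.adjugate_mul, h1, one_smul, one_mul, mul_one, mul_smul_comm, mul_one, smul_mul_assoc,
    Matrix.adjugate_mul, h1, one_smul] at h2
  exact h2

/-- the points -/
theorem point_cj {a₁ a₂ φ : M2 p} (h1 : a₁.det = 1) (h2 : a₂.det = 1) (h0 : cj a₁ a₂ φ 1 0 = 0)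
    (hd : φ.det ≠ 0) {z : ZMod p} (hz : den a₁.adjugate z ≠ 0) (hden : den φ z ≠ 0) :
    den a₂ ((af (cj a₁ a₂ φ)).1 * mob a₁.adjugate z + (af (cj a₁ a₂ φ)).2) ≠ 0 ∧
      mob a₂ ((af (cj a₁ a₂ φ)).1 * mob a₁.adjugate z + (af (cj a₁ a₂ φ)).2) = mob φ z := by
  have hH := mul_cj (a₁ := a₁) h2 φ
  have hdc := det_cj h1 h2 φ
  obtain ⟨f, hf⟩ : ∃ f, f = cj a₁ a₂ φ := ⟨_, rfl⟩
  rw [← hf] at hH hdc h0 ⊢
  rw [Matrix.det_fin_two, h0, mul_zero, sub_zero] at hdc
  have he : f 1 1 ≠ 0 := by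
    intro h
    rw [h, mul_zero] at hdc
    exact hd hdc.symm
  have e00 := congrFun (congrFun hH 0) 0
  have e01 := congrFun (congrFun hH 0) 1
  have e10 := congrFun (congrFun hH 1) 0
  have e11 := congrFun (congrFun hH 1) 1
  simp only [Matrix.mul_apply, Fin.sum_univ_two, h0, mul_zero, add_zero] at e00 e01 e10 e11
  have hz1 : den a₁.adjugate z = -a₁ 1 0 * z + a₁ 0 0 := by
    unfold den
    rw [adj_eq]
    simp
  have hmz : mob a₁.adjugate z * (-a₁ 1 0 * z + a₁ 0 0) = a₁ 1 1 * z - a₁ 0 1 := by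
    have e1 : mob a₁.adjugate z = (a₁.adjugate 0 0 * z + a₁.adjugate 0 1) * (den a₁.adjugate z)⁻¹ := rfl
    rw [e1, ← hz1, mul_assoc, inv_mul_cancel₀ hz, mul_one, adj_eq]
    simp
    ring
  rw [hz1] at hz
  rw [Matrix.det_fin_two] at h1
  obtain ⟨D, hD⟩ : ∃ D, D = -a₁ 1 0 * z + a₁ 0 0 := ⟨_, rfl⟩
  obtain ⟨y, hy⟩ : ∃ y, y = mob a₁.adjugate z := ⟨_, rfl⟩
  rw [← hy, ← hD] at hmz
  rw [← hD] at hz
  rw [← hy]
  obtain ⟨x, hx⟩ : ∃ x, x = (af f).1 * y + (af f).2 := ⟨_, rfl⟩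
  rw [← hx]
  have hxe : x * f 1 1 = f 0 0 * y + f 0 1 := by
    rw [hx]
    show (f 0 0 / f 1 1 * y + f 0 1 / f 1 1) * f 1 1 = _
    field_simp
  have hN0 : a₁ 0 0 * (a₁ 1 1 * z - a₁ 0 1) + a₁ 0 1 * D = z := by
    rw [hD]
    linear_combination z * h1
  have hN1 : a₁ 1 0 * (a₁ 1 1 * z - a₁ 0 1) + a₁ 1 1 * D = 1 := by
    rw [hD]
    linear_combination h1
  have k1 : (a₂ 1 0 * x + a₂ 1 1) * (D * f 1 1) = φ 1 0 * z + φ 1 1 := by
    linear_combination a₂ 1 0 * D * hxe + a₂ 1 0 * f 0 0 * hmz + (a₁ 1 1 * z - a₁ 0 1) * e10 + D * e11 +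
      φ 1 0 * hN0 + φ 1 1 * hN1
  have k0 : (a₂ 0 0 * x + a₂ 0 1) * (D * f 1 1) = φ 0 0 * z + φ 0 1 := by
    linear_combination a₂ 0 0 * D * hxe + a₂ 0 0 * f 0 0 * hmz + (a₁ 1 1 * z - a₁ 0 1) * e00 + D * e01 +
      φ 0 0 * hN0 + φ 0 1 * hN1
  have hden2 : den a₂ x ≠ 0 := by
    intro h
    have h' : a₂ 1 0 * x + a₂ 1 1 = 0 := h
    rw [h', zero_mul] at k1
    exact hden k1.symm
  refine ⟨hden2, ?_⟩
  have hDe : D * f 1 1 ≠ 0 := mul_ne_zero hz he
  show (a₂ 0 0 * x + a₂ 0 1) * (a₂ 1 0 * x + a₂ 1 1)⁻¹ = (φ 0 0 * z + φ 0 1) * (φ 1 0 * z + φ 1 1)⁻¹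
  have hden2' : a₂ 1 0 * x + a₂ 1 1 ≠ 0 := hden2
  rw [← k0, ← k1]
  field_simp

/-- number of the common points -/
def nc (Φ : ZMod p × ZMod p) (Ψ : ZMod p × ZMod p) (B : Finset (ZMod p)) : ℕ :=
  #(univ.filter fun z : ZMod p => Φ.1 * z + Φ.2 ∈ B ∧ Ψ.1 * z + Ψ.2 ∈ B)

theorem sum_nc_le (Φ : Finset (ZMod p × ZMod p)) (hΦ : ∀ φ ∈ Φ, φ.1 ≠ 0) (B : Finset (ZMod p)) :
    ∑ φ ∈ Φ, ∑ ψ ∈ Φ, nc φ ψ B ^ 2 ≤ NA Φ B := by
  classical
  have h1 : ∀ φ ψ : ZMod p × ZMod p, nc φ ψ B ^ 2 =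
      #((univ ×ˢ univ : Finset (ZMod p × ZMod p)).filter fun z =>
        (φ.1 * z.1 + φ.2 ∈ B ∧ ψ.1 * z.1 + ψ.2 ∈ B) ∧ (φ.1 * z.2 + φ.2 ∈ B ∧ ψ.1 * z.2 + ψ.2 ∈ B)) := by
    intro φ ψ
    rw [Finset.filter_product (s := univ) (t := univ) (fun z => φ.1 * z + φ.2 ∈ B ∧ ψ.1 * z + ψ.2 ∈ B)
      (fun z => φ.1 * z + φ.2 ∈ B ∧ ψ.1 * z + ψ.2 ∈ B), Finset.card_product, sq]
    rfl
  have h2 : ∑ φ ∈ Φ, ∑ ψ ∈ Φ, nc φ ψ B ^ 2 =
      #((Φ ×ˢ Φ ×ˢ (univ ×ˢ univ : Finset (ZMod p × ZMod p))).filter fun q =>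
        (q.1.1 * q.2.2.1 + q.1.2 ∈ B ∧ q.2.1.1 * q.2.2.1 + q.2.1.2 ∈ B) ∧
        (q.1.1 * q.2.2.2 + q.1.2 ∈ B ∧ q.2.1.1 * q.2.2.2 + q.2.1.2 ∈ B)) := by
    rw [Finset.card_filter, Finset.sum_product]
    refine Finset.sum_congr rfl fun φ _ => ?_
    rw [Finset.sum_product]
    refine Finset.sum_congr rfl fun ψ _ => ?_
    rw [h1, Finset.card_filter]
  rw [h2]
  unfold NA
  refine Finset.card_le_card_of_injOn (fun q =>
    ((q.1, (q.1.1 * q.2.2.1 + q.1.2, q.1.1 * q.2.2.2 + q.1.2)),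
      (q.2.1, (q.2.1.1 * q.2.2.1 + q.2.1.2, q.2.1.1 * q.2.2.2 + q.2.1.2)))) ?_ ?_
  · rintro ⟨φ, ψ, z, z'⟩ hq
    have hq' := Finset.mem_filter.1 (Finset.mem_coe.1 hq)
    obtain ⟨hq1, ⟨hb1, hb2⟩, hb3, hb4⟩ := hq'
    have hφ : φ ∈ Φ := (Finset.mem_product.1 hq1).1
    have hψ : ψ ∈ Φ := (Finset.mem_product.1 (Finset.mem_product.1 hq1).2).1
    refine Finset.mem_coe.2 (Finset.mem_filter.2 ⟨?_, ?_, ?_⟩)
    · simp only [Finset.mem_product]
      exact ⟨⟨hφ, hb1, hb3⟩, hψ, hb2, hb4⟩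
    · show ψ.1 * (φ.1 * z + φ.2 - φ.2) = φ.1 * (ψ.1 * z + ψ.2 - ψ.2)
      ring
    · show ψ.1 * (φ.1 * z' + φ.2 - φ.2) = φ.1 * (ψ.1 * z' + ψ.2 - ψ.2)
      ring
  · rintro ⟨φ, ψ, z, z'⟩ hq ⟨φ₁, ψ₁, z₁, z₁'⟩ hq₁ heq
    have hq' := Finset.mem_filter.1 (Finset.mem_coe.1 hq)
    have hφ : φ ∈ Φ := (Finset.mem_product.1 hq'.1).1
    simp only [Prod.mk.injEq] at heq
    obtain ⟨⟨e1, e2, e3⟩, e4, _, _⟩ := heq
    subst e1
    subst e4
    have e5 : z = z₁ := mul_left_cancel₀ (hΦ φ hφ) (add_right_cancel e2)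
    have e6 : z' = z₁' := mul_left_cancel₀ (hΦ φ hφ) (add_right_cancel e3)
    rw [e5, e6]

end BOR

open BOR

theorem specBOR (hNAL : LN.SpecNAL) : SpecBOR := by
  classical
  intro δ hδ
  obtain ⟨κ₀, hκ₀, P₀, hP₀⟩ := hNAL δ hδ
  set κ : ℝ := min κ₀ (2 * δ) / 2 with hκ
  have hκpos : 0 < κ := by
    have : 0 < min κ₀ (2 * δ) := lt_min hκ₀ (by linarith)
    positivity
  refine ⟨κ, hκpos, max P₀ (⌈(4 : ℝ) ^ (1 / κ)⌉₊ + 1), ?_⟩
  intro p _ hP Φ B v w hdet hprop hv hw hpar hline hBu hBl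
  have hP1 : P₀ ≤ p := le_trans (le_max_left _ _) hP
  have hP2 : ⌈(4 : ℝ) ^ (1 / κ)⌉₊ + 1 ≤ p := le_trans (le_max_right _ _) hP
  have hp0 : (0 : ℝ) < p := by
    have : 0 < p := by omega
    exact_mod_cast this
  have hp1 : (1 : ℝ) ≤ p := by
    have : 1 ≤ p := by omega
    exact_mod_cast this
  have hp4 : (4 : ℝ) ≤ (p : ℝ) ^ κ := by
    have h1 : (4 : ℝ) ^ (1 / κ) ≤ p := by
      refine (Nat.le_ceil _).trans ?_
      have : ⌈(4 : ℝ) ^ (1 / κ)⌉₊ ≤ p := by omega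
      exact_mod_cast this
    calc (4 : ℝ) = ((4 : ℝ) ^ (1 / κ)) ^ κ := by
          rw [← Real.rpow_mul (by norm_num), one_div, inv_mul_cancel₀ hκpos.ne', Real.rpow_one]
      _ ≤ (p : ℝ) ^ κ := Real.rpow_le_rpow (by positivity) h1 hκpos.le
  obtain ⟨a₁, d1, v1, v2⟩ := exists_col hv
  obtain ⟨a₂, d2, w1, w2⟩ := exists_col hw
  have hz0 : ∀ φ ∈ Φ, cj a₁ a₂ φ 1 0 = 0 := fun φ hφ => cj_zero v1 v2 w1 w2 (hpar φ hφ)
  have hdd : ∀ φ ∈ Φ, cj a₁ a₂ φ 0 0 ≠ 0 ∧ cj a₁ a₂ φ 1 1 ≠ 0 := by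
    intro φ hφ
    have h1 := det_cj d1 d2 φ
    rw [Matrix.det_fin_two, hz0 φ hφ, mul_zero, sub_zero] at h1
    constructor
    · intro h
      rw [h, zero_mul] at h1
      exact hdet φ hφ h1.symm
    · intro h
      rw [h, mul_zero] at h1
      exact hdet φ hφ h1.symm
  set Φ' : Finset (ZMod p × ZMod p) := Φ.image fun φ => af (cj a₁ a₂ φ) with hΦ'
  have hinj : Set.InjOn (fun φ => af (cj a₁ a₂ φ)) (Φ : Set (M2 p)) := by
    intro φ hφ ψ hψ heq
    have hφ' := Finset.mem_coe.1 hφ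
    have hψ' := Finset.mem_coe.1 hψ
    have e1 : cj a₁ a₂ φ 0 0 / cj a₁ a₂ φ 1 1 = cj a₁ a₂ ψ 0 0 / cj a₁ a₂ ψ 1 1 :=
      congrArg Prod.fst heq
    have e2 : cj a₁ a₂ φ 0 1 / cj a₁ a₂ φ 1 1 = cj a₁ a₂ ψ 0 1 / cj a₁ a₂ ψ 1 1 :=
      congrArg Prod.snd heq
    have f1 := (hdd φ hφ').2
    have f2 := (hdd ψ hψ').2
    have hc : cj a₁ a₂ ψ = (cj a₁ a₂ ψ 1 1 / cj a₁ a₂ φ 1 1) • cj a₁ a₂ φ := by
      ext i j
      rw [Matrix.smul_apply, smul_eq_mul]
      fin_cases i <;> fin_cases j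
      · show cj a₁ a₂ ψ 0 0 = cj a₁ a₂ ψ 1 1 / cj a₁ a₂ φ 1 1 * cj a₁ a₂ φ 0 0
        field_simp at e1 ⊢
        linear_combination -e1
      · show cj a₁ a₂ ψ 0 1 = cj a₁ a₂ ψ 1 1 / cj a₁ a₂ φ 1 1 * cj a₁ a₂ φ 0 1
        field_simp at e2 ⊢
        linear_combination -e2
      · show cj a₁ a₂ ψ 1 0 = cj a₁ a₂ ψ 1 1 / cj a₁ a₂ φ 1 1 * cj a₁ a₂ φ 1 0
        rw [hz0 φ hφ', hz0 ψ hψ', mul_zero]
      · show cj a₁ a₂ ψ 1 1 = cj a₁ a₂ ψ 1 1 / cj a₁ a₂ φ 1 1 * cj a₁ a₂ φ 1 1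
        field_simp
    have h3 : ψ = (cj a₁ a₂ ψ 1 1 / cj a₁ a₂ φ 1 1) • φ := by
      have g1 : ψ * a₁ = (cj a₁ a₂ ψ 1 1 / cj a₁ a₂ φ 1 1) • (φ * a₁) := by
        rw [← mul_cj d2 ψ, ← mul_cj d2 φ, ← mul_smul_comm]
        exact congrArg (a₂ * ·) hc
      have g2 := congrArg (· * a₁.adjugate) g1
      simp only [mul_assoc, smul_mul_assoc, Matrix.mul_adjugate, d1, one_smul, mul_one] at g2
      exact g2
    exact (hprop φ hφ' ψ hψ' _ h3).symm
  have hcard : #Φ' = #Φ := Finset.card_image_of_injOn hinj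
  have hΦ'ne : ∀ φ ∈ Φ', φ.1 ≠ 0 := by
    intro x hx
    obtain ⟨φ, hφ, rfl⟩ := Finset.mem_image.1 hx
    exact div_ne_zero (hdd φ hφ).1 (hdd φ hφ).2
  -- lines
  have hoff : OffLines δ Φ' := by
    constructor
    · intro d
      have hn : NonSc (!![0, 1; 0, 0] : M2 p) := by
        intro c hc
        have h := congrFun (congrFun hc 0) 1
        simp at h
      refine le_trans ?_ ((hline (a₁ * !![0, 1; 0, 0] * a₁.adjugate)
        (a₂ * (d • !![0, 1; 0, 0]) * a₂.adjugate) (nonSc_conj d1 hn)).trans (le_of_eq (by rw [hcard])))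
      have hsub : Φ'.filter (fun φ => φ.1 = d) ⊆
          (Φ.filter fun φ => φ * (a₁ * !![0, 1; 0, 0] * a₁.adjugate) =
            a₂ * (d • !![0, 1; 0, 0]) * a₂.adjugate * φ).image (fun φ => af (cj a₁ a₂ φ)) := by
        intro x hx
        obtain ⟨hx1, hx2⟩ := Finset.mem_filter.1 hx
        obtain ⟨φ, hφ, rfl⟩ := Finset.mem_image.1 hx1
        refine Finset.mem_image.2 ⟨φ, Finset.mem_filter.2 ⟨hφ, line_cj d1 d2 ?_⟩, rfl⟩
        have hx3 : cj a₁ a₂ φ 0 0 / cj a₁ a₂ φ 1 1 = d := hx2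
        have f1 := (hdd φ hφ).2
        have hx4 : cj a₁ a₂ φ 0 0 = d * cj a₁ a₂ φ 1 1 := by rw [← hx3]; field_simp
        ext i j
        simp only [Matrix.mul_apply, Fin.sum_univ_two, Matrix.smul_apply, smul_eq_mul]
        fin_cases i <;> fin_cases j <;> simp [hz0 φ hφ, hx4]
      have := (Finset.card_le_card hsub).trans Finset.card_image_le
      exact_mod_cast this
    · intro x y
      have hn : NonSc (!![1, -x; 0, 0] : M2 p) := by
        intro c hc
        have h1 := congrFun (congrFun hc 0) 0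
        have h2 := congrFun (congrFun hc 1) 1
        simp at h1 h2
        rw [← h2] at h1
        exact one_ne_zero h1
      refine le_trans ?_ ((hline (a₁ * !![1, -x; 0, 0] * a₁.adjugate)
        (a₂ * !![1, -y; 0, 0] * a₂.adjugate) (nonSc_conj d1 hn)).trans (le_of_eq (by rw [hcard])))
      have hsub : Φ'.filter (fun φ => φ.1 * x + φ.2 = y) ⊆
          (Φ.filter fun φ => φ * (a₁ * !![1, -x; 0, 0] * a₁.adjugate) =
            a₂ * !![1, -y; 0, 0] * a₂.adjugate * φ).image (fun φ => af (cj a₁ a₂ φ)) := by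
        intro q hq
        obtain ⟨hq1, hq2⟩ := Finset.mem_filter.1 hq
        obtain ⟨φ, hφ, rfl⟩ := Finset.mem_image.1 hq1
        refine Finset.mem_image.2 ⟨φ, Finset.mem_filter.2 ⟨hφ, line_cj d1 d2 ?_⟩, rfl⟩
        have hq3 : cj a₁ a₂ φ 0 0 / cj a₁ a₂ φ 1 1 * x + cj a₁ a₂ φ 0 1 / cj a₁ a₂ φ 1 1 = y := hq2
        have f1 := (hdd φ hφ).2
        have hq4 : cj a₁ a₂ φ 0 1 = y * cj a₁ a₂ φ 1 1 - cj a₁ a₂ φ 0 0 * x := by
          rw [← hq3]
          field_simp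
          ring
        ext i j
        simp only [Matrix.mul_apply, Fin.sum_univ_two]
        fin_cases i <;> fin_cases j <;> simp [hz0 φ hφ, hq4]
        ring
      have := (Finset.card_le_card hsub).trans Finset.card_image_le
      exact_mod_cast this
  -- the set
  have hB' := (card_pre (θ := a₂) (by rw [d2]; exact one_ne_zero) B).2
  have hB'r : (#(pre a₂ B) : ℝ) ≤ #B := by exact_mod_cast hB'
  have hNA := hP₀ p hP1 Φ' (pre a₂ B) hΦ'ne hoff (hB'r.trans hBu)
  -- comparison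
  have hcmp : ∀ φ ∈ Φ, ∀ ψ ∈ Φ,
      #(univ.filter fun z : ZMod p => den φ z ≠ 0 ∧ mob φ z ∈ B ∧ den ψ z ≠ 0 ∧ mob ψ z ∈ B) ≤
        nc (af (cj a₁ a₂ φ)) (af (cj a₁ a₂ ψ)) (pre a₂ B) + 1 := by
    intro φ hφ ψ hψ
    set Z := univ.filter fun z : ZMod p => den φ z ≠ 0 ∧ mob φ z ∈ B ∧ den ψ z ≠ 0 ∧ mob ψ z ∈ B with hZ
    have hadj : a₁.adjugate.det ≠ 0 := by
      rw [Matrix.det_adjugate, d1, one_pow]
      exact one_ne_zero
    have h1 : #(Z.filter fun z => ¬ den a₁.adjugate z ≠ 0) ≤ 1 := by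
      rw [Finset.card_le_one]
      intro z hz z' hz'
      have e1 := (Finset.mem_filter.1 hz).2
      have e2 := (Finset.mem_filter.1 hz').2
      push Not at e1 e2
      unfold den at e1 e2
      by_cases hc : a₁.adjugate 1 0 = 0
      · exfalso
        rw [hc, zero_mul, zero_add] at e1
        apply hadj
        rw [Matrix.det_fin_two, hc, e1]
        ring
      · have e3 : a₁.adjugate 1 0 * (z - z') = 0 := by linear_combination e1 - e2
        exact sub_eq_zero.1 ((mul_eq_zero.1 e3).resolve_left hc)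
    have h2 : #(Z.filter fun z => den a₁.adjugate z ≠ 0) ≤
        nc (af (cj a₁ a₂ φ)) (af (cj a₁ a₂ ψ)) (pre a₂ B) := by
      unfold nc
      refine Finset.card_le_card_of_injOn (mob a₁.adjugate) ?_ ?_
      · intro z hz
        obtain ⟨hz1, hz2⟩ := Finset.mem_filter.1 (Finset.mem_coe.1 hz)
        obtain ⟨_, hz3, hz4, hz5, hz6⟩ := Finset.mem_filter.1 hz1
        have k1 := point_cj d1 d2 (hz0 φ hφ) (hdet φ hφ) hz2 hz3
        have k2 := point_cj d1 d2 (hz0 ψ hψ) (hdet ψ hψ) hz2 hz5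
        refine Finset.mem_coe.2 (Finset.mem_filter.2 ⟨Finset.mem_univ _, ?_, ?_⟩)
        · rw [pre, Finset.mem_filter]
          exact ⟨Finset.mem_univ _, k1.1, by rw [k1.2]; exact hz4⟩
        · rw [pre, Finset.mem_filter]
          exact ⟨Finset.mem_univ _, k2.1, by rw [k2.2]; exact hz6⟩
      · intro z hz z' hz' heq
        have e1 := (Finset.mem_filter.1 (Finset.mem_coe.1 hz)).2
        have e2 := (Finset.mem_filter.1 (Finset.mem_coe.1 hz')).2
        exact mob_inj hadj e1 e2 heq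
    rw [← Finset.card_filter_add_card_filter_not (s := Z) (fun z => den a₁.adjugate z ≠ 0)]
    exact Nat.add_le_add h2 h1
  have hsum : NAM Φ B ≤ 2 * NA Φ' (pre a₂ B) + 2 * #Φ ^ 2 := by
    have h3 : ∀ φ ∈ Φ, ∀ ψ ∈ Φ,
        #(univ.filter fun z : ZMod p => den φ z ≠ 0 ∧ mob φ z ∈ B ∧ den ψ z ≠ 0 ∧ mob ψ z ∈ B) ^ 2 ≤
        2 * nc (af (cj a₁ a₂ φ)) (af (cj a₁ a₂ ψ)) (pre a₂ B) ^ 2 + 2 := by
      intro φ hφ ψ hψ
      have h4 := Nat.pow_le_pow_left (hcmp φ hφ ψ hψ) 2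
      have h5 : (nc (af (cj a₁ a₂ φ)) (af (cj a₁ a₂ ψ)) (pre a₂ B) + 1) ^ 2 ≤
          2 * nc (af (cj a₁ a₂ φ)) (af (cj a₁ a₂ ψ)) (pre a₂ B) ^ 2 + 2 := by
        zify
        nlinarith [sq_nonneg ((nc (af (cj a₁ a₂ φ)) (af (cj a₁ a₂ ψ)) (pre a₂ B) : ℤ) - 1)]
      exact h4.trans h5
    unfold NAM
    calc _ ≤ ∑ φ ∈ Φ, ∑ ψ ∈ Φ, (2 * nc (af (cj a₁ a₂ φ)) (af (cj a₁ a₂ ψ)) (pre a₂ B) ^ 2 + 2) :=
          Finset.sum_le_sum fun φ hφ => Finset.sum_le_sum fun ψ hψ => h3 φ hφ ψ hψ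
      _ = 2 * (∑ φ ∈ Φ, ∑ ψ ∈ Φ, nc (af (cj a₁ a₂ φ)) (af (cj a₁ a₂ ψ)) (pre a₂ B) ^ 2) + 2 * #Φ ^ 2 := by
          simp only [Finset.sum_add_distrib, ← Finset.mul_sum, Finset.sum_const, smul_eq_mul]
          ring
      _ = 2 * (∑ φ ∈ Φ', ∑ ψ ∈ Φ', nc φ ψ (pre a₂ B) ^ 2) + 2 * #Φ ^ 2 := by
          rw [hΦ', Finset.sum_image hinj]
          congr 2
          refine Finset.sum_congr rfl fun φ _ => ?_
          rw [Finset.sum_image hinj]
      _ ≤ _ := Nat.add_le_add_right (Nat.mul_le_mul_left 2 (sum_nc_le Φ' hΦ'ne _)) _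
  have hsumR : (NAM Φ B : ℝ) ≤ 2 * NA Φ' (pre a₂ B) + 2 * (#Φ : ℝ) ^ 2 := by exact_mod_cast hsum
  rw [hcard] at hNA
  have hmin1 : (p : ℝ) ^ (-κ₀) ≤ (p : ℝ) ^ (-(2 * κ)) := by
    apply Real.rpow_le_rpow_of_exponent_le hp1
    have : min κ₀ (2 * δ) ≤ κ₀ := min_le_left _ _
    rw [hκ]
    linarith
  have hmin2 : (p : ℝ) ^ (-(2 * δ)) ≤ (p : ℝ) ^ (-(2 * κ)) := by
    apply Real.rpow_le_rpow_of_exponent_le hp1
    have : min κ₀ (2 * δ) ≤ 2 * δ := min_le_right _ _
    rw [hκ]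
    linarith
  have hB2 : (1 : ℝ) ≤ (p : ℝ) ^ (-(2 * δ)) * (#B : ℝ) ^ 2 := by
    have h1 : ((p : ℝ) ^ δ) ^ 2 ≤ (#B : ℝ) ^ 2 := pow_le_pow_left₀ (by positivity) hBl 2
    have h2 : ((p : ℝ) ^ δ) ^ 2 = (p : ℝ) ^ (2 * δ) := by
      rw [← Real.rpow_natCast, ← Real.rpow_mul hp0.le]
      congr 1
      push_cast
      ring
    rw [h2] at h1
    calc (1 : ℝ) = (p : ℝ) ^ (-(2 * δ)) * (p : ℝ) ^ (2 * δ) := by
          rw [← Real.rpow_add hp0]
          simp
      _ ≤ _ := mul_le_mul_of_nonneg_left h1 (by positivity)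
  have hfin : (p : ℝ) ^ (-(2 * κ)) * 4 ≤ (p : ℝ) ^ (-κ) := by
    have h1 : (p : ℝ) ^ (-(2 * κ)) = (p : ℝ) ^ (-κ) * (p : ℝ) ^ (-κ) := by
      rw [← Real.rpow_add hp0]
      congr 1
      ring
    have h2 : (p : ℝ) ^ (-κ) * (p : ℝ) ^ κ = 1 := by
      rw [← Real.rpow_add hp0]
      simp
    have h3 : (0 : ℝ) < (p : ℝ) ^ (-κ) := by positivity
    rw [h1]
    nlinarith
  have hΦ2 : (0 : ℝ) ≤ (#Φ : ℝ) ^ 2 := by positivity
  have hBB : (#(pre a₂ B) : ℝ) ^ 2 ≤ (#B : ℝ) ^ 2 := pow_le_pow_left₀ (by positivity) hB'r 2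
  have hX : (0 : ℝ) ≤ (#Φ : ℝ) ^ 2 * (#B : ℝ) ^ 2 := by positivity
  calc (NAM Φ B : ℝ) ≤ 2 * NA Φ' (pre a₂ B) + 2 * (#Φ : ℝ) ^ 2 := hsumR
    _ ≤ 2 * ((p : ℝ) ^ (-κ₀) * ((#Φ : ℝ) ^ 2 * (#B : ℝ) ^ 2)) +
        2 * ((p : ℝ) ^ (-(2 * δ)) * ((#Φ : ℝ) ^ 2 * (#B : ℝ) ^ 2)) := by
        apply add_le_add
        · apply mul_le_mul_of_nonneg_left _ (by norm_num)
          refine hNA.trans (mul_le_mul_of_nonneg_left ?_ (by positivity))
          exact mul_le_mul_of_nonneg_left hBB hΦ2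
        · apply mul_le_mul_of_nonneg_left _ (by norm_num)
          calc (#Φ : ℝ) ^ 2 = (#Φ : ℝ) ^ 2 * 1 := by ring
            _ ≤ (#Φ : ℝ) ^ 2 * ((p : ℝ) ^ (-(2 * δ)) * (#B : ℝ) ^ 2) := mul_le_mul_of_nonneg_left hB2 hΦ2
            _ = _ := by ring
    _ ≤ 2 * ((p : ℝ) ^ (-(2 * κ)) * ((#Φ : ℝ) ^ 2 * (#B : ℝ) ^ 2)) +
        2 * ((p : ℝ) ^ (-(2 * κ)) * ((#Φ : ℝ) ^ 2 * (#B : ℝ) ^ 2)) := by
        apply add_le_add
        · exact mul_le_mul_of_nonneg_left (mul_le_mul_of_nonneg_right hmin1 hX) (by norm_num)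
        · exact mul_le_mul_of_nonneg_left (mul_le_mul_of_nonneg_right hmin2 hX) (by norm_num)
    _ = ((p : ℝ) ^ (-(2 * κ)) * 4) * ((#Φ : ℝ) ^ 2 * (#B : ℝ) ^ 2) := by ring
    _ ≤ (p : ℝ) ^ (-κ) * ((#Φ : ℝ) ^ 2 * (#B : ℝ) ^ 2) := mul_le_mul_of_nonneg_right hfin hX

end MPcb27.PG
end

section
/-!
# MP_cb27ba_nt, project PG, module CEN: rich centralizers
-/
set_option autoImplicit false

namespace MPcb27.PG

open Finset Matrix
open scoped Pointwise

namespace CEN

variable {p : ℕ} [Fact p.Prime] {G : Type} [Group G] [DecidableEq G] {m : G → M2 p}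

omit [DecidableEq G] in
/-- the conjugates of `g` are on the quadric of `g` -/
theorem conj_quadric (hm : IsPRep m) (g s : G) :
    (m (s * g * s⁻¹)).trace ^ 2 =
      ((m g).trace ^ 2 * ((m g).det)⁻¹) * (m (s * g * s⁻¹)).det := by
  obtain ⟨c, hc, h⟩ := hm.conj s g
  have h1 : (m s * m g * (m s).adjugate).trace = (m s).det * (m g).trace := by
    rw [Matrix.trace_mul_comm, ← Matrix.mul_assoc, Matrix.adjugate_mul, smul_mul_assoc, one_mul,
      Matrix.trace_smul, smul_eq_mul]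
  have h2 : (m s * m g * (m s).adjugate).det = (m s).det ^ 2 * (m g).det := by
    rw [Matrix.det_mul, Matrix.det_mul, Matrix.det_adjugate, Fintype.card_fin]
    ring
  have h3 := hm.det_ne g
  rw [h, Matrix.trace_smul, Matrix.det_smul, h1, h2, Fintype.card_fin, smul_eq_mul]
  field_simp

theorem quad_bound {t A Y : ℝ} (h : t ^ 2 ≤ A + t) (hY : 2 ≤ Y) (hA : 2 * A ≤ Y ^ 2) : t ≤ Y := by
  by_contra hlt
  push Not at hlt
  nlinarith

/-- planes -/
theorem plane_bound (hP : SpecPLN) (hp : p ≠ 2) {S : Finset G} {K x : ℝ} (hK : 1 ≤ K)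
    (hx : 1 ≤ x) (hxS : x ^ 8 = #S) (hm : IsPRep m) (h1 : 1 ∈ S) (hS : S⁻¹ = S) (hND : ND m S)
    (hg : ∀ n : ℕ, (#(S ^ n) : ℝ) ≤ K ^ (n + 1) * #S) (a : M2 p) (ha : a ≠ 0) (T : Finset G)
    (hT : T ⊆ S ^ 4) (hz : ∀ z ∈ T, (a * m z).trace = 0) :
    (#T : ℝ) ≤ 3 * K ^ 10 * x ^ 6 := by
  set l := Nat.sqrt #(S ^ 17) + 1 with hl
  have hl2 : #(S ^ (4 * 4 + 1)) ≤ l ^ 2 := by
    have := Nat.lt_succ_sqrt #(S ^ 17)
    rw [sq]
    exact this.le
  have hl3 : (l : ℝ) ≤ 2 * K ^ 9 * x ^ 4 := by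
    have h2 : ((Nat.sqrt #(S ^ 17) : ℕ) : ℝ) ^ 2 ≤ (K ^ 9 * x ^ 4) ^ 2 := by
      have h3 : ((Nat.sqrt #(S ^ 17) : ℕ) : ℝ) ^ 2 ≤ #(S ^ 17) := by
        exact_mod_cast Nat.sqrt_le' _
      have h4 := hg 17
      rw [← hxS] at h4
      calc _ ≤ _ := h3
        _ ≤ _ := h4
        _ = _ := by ring
    have h5 : 0 ≤ K ^ 9 * x ^ 4 := by positivity
    have h6 := abs_le_of_sq_le_sq h2 h5
    have h7 : 1 ≤ K ^ 9 * x ^ 4 := by
      have := one_le_pow₀ hK (n := 9)
      have := one_le_pow₀ hx (n := 4)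
      nlinarith
    rw [hl]
    push_cast
    linarith [le_abs_self ((Nat.sqrt #(S ^ 17) : ℕ) : ℝ)]
  have h2 := hP p hp G m S T 4 l a hm h1 hS hND hT ha hz hl2
  have h3 : (#T : ℝ) ^ 2 ≤ #(S ^ 9) * l + #T := by exact_mod_cast h2
  have h4 : (#(S ^ 9) : ℝ) ≤ K ^ 10 * x ^ 8 := by
    rw [hxS]
    exact hg 9
  have hK10 : 1 ≤ K ^ 10 := one_le_pow₀ hK
  have hx6 : 1 ≤ x ^ 6 := one_le_pow₀ hx
  refine quad_bound h3 ?_ ?_
  · nlinarith
  · have h5 : (#(S ^ 9) : ℝ) * l ≤ K ^ 10 * x ^ 8 * (2 * K ^ 9 * x ^ 4) := by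
      gcongr
    have h6 : K ^ 19 * x ^ 12 ≤ K ^ 20 * x ^ 12 := by
      gcongr
      norm_num
    have h7 : 0 ≤ K ^ 20 * x ^ 12 := by positivity
    calc 2 * ((#(S ^ 9) : ℝ) * l) ≤ 2 * (K ^ 10 * x ^ 8 * (2 * K ^ 9 * x ^ 4)) := by linarith
      _ = 4 * (K ^ 19 * x ^ 12) := by ring
      _ ≤ 9 * (K ^ 20 * x ^ 12) := by linarith
      _ = _ := by ring

/-- quadrics -/
theorem quadric_bound (hP : SpecPLN) (hQ : SpecQDR) (hp : p ≠ 2) {S : Finset G} {K x : ℝ}
    (hK : 1 ≤ K) (hx : 1 ≤ x) (hxS : x ^ 8 = #S) (hm : IsPRep m) (h1 : 1 ∈ S) (hS : S⁻¹ = S)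
    (hND : ND m S) (hg : ∀ n : ℕ, (#(S ^ n) : ℝ) ≤ K ^ (n + 1) * #S) (τ : ZMod p)
    (T : Finset G) (hT : T ⊆ S ^ 4) (hz : ∀ z ∈ T, (m z).trace ^ 2 = τ * (m z).det) :
    (#T : ℝ) ≤ 4 * K ^ 10 * x ^ 7 := by
  set q := ⌊3 * K ^ 10 * x ^ 6⌋₊ with hq
  have hq0 : 0 ≤ 3 * K ^ 10 * x ^ 6 := by positivity
  have h2 := hQ p G m S T 4 q τ hm hT hz fun a ha T' hT' hz' =>
    Nat.le_floor (plane_bound hP hp hK hx hxS hm h1 hS hND hg a ha T' hT' hz')
  have h3 : (#T : ℝ) ^ 2 ≤ #(S ^ 8) * (2 * q) + #T := by exact_mod_cast h2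
  have h4 : (#(S ^ 8) : ℝ) ≤ K ^ 9 * x ^ 8 := by
    rw [hxS]
    exact hg 8
  have h5 : (q : ℝ) ≤ 3 * K ^ 10 * x ^ 6 := Nat.floor_le hq0
  have hK10 : 1 ≤ K ^ 10 := one_le_pow₀ hK
  have hx7 : 1 ≤ x ^ 7 := one_le_pow₀ hx
  refine quad_bound h3 ?_ ?_
  · nlinarith
  · have h6 : (#(S ^ 8) : ℝ) * (2 * q) ≤ K ^ 9 * x ^ 8 * (2 * (3 * K ^ 10 * x ^ 6)) := by
      gcongr
    have h7 : K ^ 19 * x ^ 14 ≤ K ^ 20 * x ^ 14 := by
      gcongr
      norm_num
    have h8 : 0 ≤ K ^ 20 * x ^ 14 := by positivity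
    calc 2 * ((#(S ^ 8) : ℝ) * (2 * q)) ≤ 2 * (K ^ 9 * x ^ 8 * (2 * (3 * K ^ 10 * x ^ 6))) := by
          linarith
      _ = 12 * (K ^ 19 * x ^ 14) := by ring
      _ ≤ 16 * (K ^ 20 * x ^ 14) := by linarith
      _ = _ := by ring

theorem exists_x {N : ℕ} (hN : 1 ≤ N) : ∃ x : ℝ, 1 ≤ x ∧ x ^ 8 = N := by
  have h1 : (1 : ℝ) ≤ N := by exact_mod_cast hN
  refine ⟨(N : ℝ) ^ (1 / 8 : ℝ), Real.one_le_rpow h1 (by norm_num), ?_⟩
  rw [← Real.rpow_natCast, ← Real.rpow_mul (by linarith)]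
  norm_num

end CEN

open CEN in
theorem specCEN (hP : SpecPLN) (hQ : SpecQDR) : SpecCEN := by
  refine ⟨2 ^ 25, fun p _ hp G _ _ m S K hK hm h1 hS hND hg => ?_⟩
  have hN : 1 ≤ #S := card_pos.2 ⟨1, h1⟩
  obtain ⟨x, hx, hxS⟩ := exists_x hN
  have hKC : K ^ 80 ≤ K ^ 2 ^ 25 := pow_le_pow_right₀ hK (by norm_num)
  have hx0 : 0 < x := by linarith
  have hinv : ∀ s ∈ S, s⁻¹ ∈ S := fun s hs => by
    rw [← hS]
    exact Finset.inv_mem_inv hs
  refine ⟨fun g hg2 hg1 => ?_, fun hC => ?_⟩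
  · set M := #((S ^ 2).filter fun s => s * g = g * s) with hM
    set I := S.image fun s => s * g * s⁻¹ with hI
    have hI4 : I ⊆ S ^ 4 := by
      intro z hz
      obtain ⟨s, hs, rfl⟩ := mem_image.1 hz
      have h4 : S ^ 4 = S * S ^ 2 * S := by
        rw [← pow_succ', ← pow_succ]
      rw [h4]
      exact mul_mem_mul (mul_mem_mul hs hg2) (hinv s hs)
    have hIb := quadric_bound hP hQ hp hK hx hxS hm h1 hS hND hg
      ((m g).trace ^ 2 * ((m g).det)⁻¹) I hI4 (by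
        intro z hz
        obtain ⟨s, hs, rfl⟩ := mem_image.1 hz
        exact conj_quadric hm g s)
    have hfib : #S ≤ M * #I := by
      refine card_le_mul_card_image S M ?_
      intro z hz
      obtain ⟨s₀, hs₀, rfl⟩ := mem_image.1 hz
      refine card_le_card_of_injOn (fun s => s₀⁻¹ * s) ?_ ?_
      · intro s hs
        have hs' := (mem_filter.1 hs)
        rw [mem_coe, mem_filter]
        refine ⟨?_, ?_⟩
        · rw [sq]
          exact mul_mem_mul (hinv s₀ hs₀) hs'.1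
        · have h5 : s * g = s₀ * g * s₀⁻¹ * s := by
            rw [← hs'.2]
            group
          calc s₀⁻¹ * s * g = s₀⁻¹ * (s * g) := by group
            _ = s₀⁻¹ * (s₀ * g * s₀⁻¹ * s) := by rw [h5]
            _ = g * (s₀⁻¹ * s) := by group
      · intro s _ s' _ h
        exact mul_left_cancel h
    have h5 : x ^ 8 ≤ M * (4 * K ^ 10 * x ^ 7) := by
      rw [hxS]
      calc (#S : ℝ) ≤ (M : ℝ) * #I := by exact_mod_cast hfib
        _ ≤ _ := by gcongr
    have h6 : x ≤ 4 * K ^ 10 * M := by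
      have h7 : 0 < x ^ 7 := by positivity
      refine le_of_mul_le_mul_right ?_ h7
      calc x * x ^ 7 = x ^ 8 := by ring
        _ ≤ _ := h5
        _ = _ := by ring
    calc (#S : ℝ) = x ^ 8 := hxS.symm
      _ ≤ (4 * K ^ 10 * M) ^ 8 := by gcongr
      _ = 2 ^ 16 * K ^ 80 * (M : ℝ) ^ 8 := by ring
      _ ≤ ((2 ^ 25 : ℕ) : ℝ) * K ^ 2 ^ 25 * (M : ℝ) ^ 8 := by
          gcongr
          norm_num
  · by_contra hno
    push Not at hno
    have hsub : S ⊆ S ^ 4 := Finset.subset_pow h1 (by norm_num)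
    set T₀ := S.filter fun g => (m g).trace ^ 2 = 0 * (m g).det with hT₀
    set T₄ := S.filter fun g => (m g).trace ^ 2 = 4 * (m g).det with hT₄
    have hb0 := quadric_bound hP hQ hp hK hx hxS hm h1 hS hND hg 0 T₀
      ((filter_subset _ _).trans hsub) fun z hz => (mem_filter.1 hz).2
    have hb4 := quadric_bound hP hQ hp hK hx hxS hm h1 hS hND hg 4 T₄
      ((filter_subset _ _).trans hsub) fun z hz => (mem_filter.1 hz).2
    have hcov : S ⊆ T₀ ∪ T₄ := by
      intro g hgS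
      rw [mem_union, hT₀, hT₄, mem_filter, mem_filter]
      by_cases hg1 : g = 1
      · right
        refine ⟨hgS, ?_⟩
        obtain ⟨c, hc, h⟩ := hm.one
        rw [hg1, h]
        simp
        ring
      · by_cases ht : (m g).trace = 0
        · left
          refine ⟨hgS, ?_⟩
          rw [ht]
          ring
        · right
          exact ⟨hgS, hno g hgS hg1 ht⟩
    have h5 : x ^ 8 ≤ 8 * K ^ 10 * x ^ 7 := by
      rw [hxS]
      calc (#S : ℝ) ≤ #(T₀ ∪ T₄) := by exact_mod_cast card_le_card hcov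
        _ ≤ #T₀ + #T₄ := by exact_mod_cast card_union_le _ _
        _ ≤ _ := by linarith
    have h6 : x ≤ 8 * K ^ 10 := by
      have h7 : 0 < x ^ 7 := by positivity
      refine le_of_mul_le_mul_right ?_ h7
      calc x * x ^ 7 = x ^ 8 := by ring
        _ ≤ _ := h5
        _ = _ := by ring
    have h7 : (#S : ℝ) ≤ 2 ^ 24 * K ^ 80 := by
      calc (#S : ℝ) = x ^ 8 := hxS.symm
        _ ≤ (8 * K ^ 10) ^ 8 := by gcongr
        _ = _ := by ring
    have h8 : 0 < K ^ 80 := by positivity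
    have h9 : ((2 ^ 25 : ℕ) : ℝ) * K ^ 80 ≤ ((2 ^ 25 : ℕ) : ℝ) * K ^ 2 ^ 25 := by gcongr
    have h10 : ((2 ^ 25 : ℕ) : ℝ) = 2 ^ 25 := by norm_num
    rw [h10] at h9 hC
    have h11 : (2 : ℝ) ^ 25 * K ^ 80 ≤ 2 ^ 24 * K ^ 80 := h9.trans (hC.trans h7)
    nlinarith

end MPcb27.PG
end

section
/-!
# MP_cb27ba_nt, project PG: CLM (classification)
-/
set_option autoImplicit false

namespace MPcb27.PG

open Finset Matrix
open scoped Pointwise
open MPcb27.TU MPcb27.TW MPcb27.LN MPcb27.MB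

namespace CLM

/-- `ND` is inherited by larger sets -/
lemma nd_mono {G : Type} {p : ℕ} {m : G → M2 p} {S H : Finset G} (h : S ⊆ H) (hS : ND m S) :
    ND m H := by
  refine ⟨fun v hv => ?_, fun r h1 h2 => ?_⟩
  · obtain ⟨s, hs, h3⟩ := hS.1 v hv
    exact ⟨s, h hs, h3⟩
  · obtain ⟨s, hs, h3⟩ := hS.2 r h1 h2
    exact ⟨s, h hs, h3⟩

/-- no nonscalar matrix commutes with all of `S` -/
lemma nd_comm {G : Type} {p : ℕ} [Fact p.Prime] (hp2 : p ≠ 2) {m : G → M2 p} {S : Finset G}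
    (hS : ND m S) (y : M2 p) (hy : NonSc y) : ∃ s ∈ S, m s * y ≠ y * m s := by
  have h2 : (2 : ZMod p) ≠ 0 := by
    intro h
    have h3 : ((2 : ℕ) : ZMod p) = 0 := by exact_mod_cast h
    rw [ZMod.natCast_eq_zero_iff] at h3
    have h4 := Nat.le_of_dvd (by norm_num) h3
    have h5 := (Fact.out : p.Prime).two_le
    omega
  by_contra hcon
  push Not at hcon
  -- the traceless part
  obtain ⟨r, hr⟩ : ∃ r : M2 p, r = y - (y.trace / 2) • (1 : M2 p) := ⟨_, rfl⟩
  have hrc : ∀ s ∈ S, m s * r = r * m s := by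
    intro s hs
    rw [hr, mul_sub, sub_mul, hcon s hs]
    simp
  have htr : r.trace = 0 := by
    rw [hr, Matrix.trace_sub, Matrix.trace_smul, Matrix.trace_one, Fintype.card_fin]
    simp only [smul_eq_mul]
    push_cast
    field_simp
    ring
  have hr0 : r ≠ 0 := by
    intro h
    rw [hr, sub_eq_zero] at h
    exact hy _ h
  by_cases hd : r.det = 0
  · have t1 := htr
    rw [Matrix.trace_fin_two] at t1
    have d1 := hd
    rw [Matrix.det_fin_two] at d1
    have h11 : r 1 1 = -r 0 0 := by linear_combination t1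
    have hbc : r 0 0 ^ 2 + r 0 1 * r 1 0 = 0 := by
      rw [h11] at d1
      linear_combination -d1
    -- the kernel
    have hker : ∃ v : Fin 2 → ZMod p, v ≠ 0 ∧ r *ᵥ v = 0 ∧
        ∀ w : Fin 2 → ZMod p, r *ᵥ w = 0 → par w v := by
      by_cases hab : r 0 0 = 0 ∧ r 0 1 = 0
      · have hc : r 1 0 ≠ 0 := by
          intro hc
          apply hr0
          ext i j
          fin_cases i <;> fin_cases j <;> simp [hab.1, hab.2, hc, h11]
        refine ⟨![0, 1], ?_, ?_, ?_⟩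
        · intro h
          have := congrFun h 1
          simp at this
        · ext i
          fin_cases i <;> simp [Matrix.mulVec, dotProduct, Fin.sum_univ_two, hab.1, hab.2, h11]
        · intro w hw
          have e := congrFun hw 1
          simp only [Matrix.mulVec, dotProduct, Fin.sum_univ_two, h11, hab.1, Pi.zero_apply] at e
          have e2 : r 1 0 * w 0 = 0 := by linear_combination e
          have e3 : w 0 = 0 := (mul_eq_zero.1 e2).resolve_left hc
          simp [par, e3]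
      · refine ⟨![r 0 1, -r 0 0], ?_, ?_, ?_⟩
        · intro h
          apply hab
          have e0 := congrFun h 0
          have e1 := congrFun h 1
          simp at e0 e1
          exact ⟨e1, e0⟩
        · ext i
          fin_cases i
          · simp [Matrix.mulVec, dotProduct, Fin.sum_univ_two]
            ring
          · simp [Matrix.mulVec, dotProduct, Fin.sum_univ_two, h11]
            linear_combination hbc
        · intro w hw
          have e := congrFun hw 0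
          simp only [Matrix.mulVec, dotProduct, Fin.sum_univ_two, Pi.zero_apply] at e
          simp only [par, cons_val_zero, cons_val_one]
          linear_combination -e
    obtain ⟨v, hv0, hv, hpar⟩ := hker
    obtain ⟨s, hs, h3⟩ := hS.1 v hv0
    apply h3
    apply hpar
    rw [Matrix.mulVec_mulVec, ← hrc s hs, ← Matrix.mulVec_mulVec, hv, Matrix.mulVec_zero]
  · obtain ⟨s, hs, h3, -⟩ := hS.2 r htr hd
    exact h3 (hrc s hs)

/-- at least half of the commuting elements have commuting matrices -/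
lemma half {G : Type} [Group G] [DecidableEq G] {p : ℕ} [Fact p.Prime] {m : G → M2 p}
    (hm : IsPRep m) (H : Finset G) (hH : H * H = H) (g : G) :
    #(H.filter fun s => s * g = g * s) ≤ 2 * #(H.filter fun s => m s * m g = m g * m s) := by
  classical
  have hsub : (H.filter fun s => s * g = g * s) ⊆ (H.filter fun s => m s * m g = m g * m s) ∪
      (H.filter fun s => m s * m g = -(m g * m s)) := by
    intro s hs
    rw [mem_filter] at hs
    rw [mem_union, mem_filter, mem_filter]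
    rcases hm.comm_iff hs.2 with h | h
    · exact Or.inl ⟨hs.1, h⟩
    · exact Or.inr ⟨hs.1, h⟩
  have h1 : #(H.filter fun s => m s * m g = -(m g * m s)) ≤
      #(H.filter fun s => m s * m g = m g * m s) := by
    rcases (H.filter fun s => m s * m g = -(m g * m s)).eq_empty_or_nonempty with h | ⟨s₀, hs₀⟩
    · rw [h]
      simp
    · rw [mem_filter] at hs₀
      refine card_le_card_of_injOn (fun s => s₀ * s) ?_ ?_
      · intro s hs
        rw [mem_coe, mem_filter] at hs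
        rw [mem_coe, mem_filter]
        refine ⟨?_, ?_⟩
        · rw [← hH]
          exact mul_mem_mul hs₀.1 hs.1
        · obtain ⟨c, -, hc⟩ := hm.mul s₀ s
          rw [hc, smul_mul_assoc, mul_smul_comm]
          congr 1
          calc m s₀ * m s * m g = m s₀ * (m s * m g) := by rw [mul_assoc]
            _ = -(m s₀ * m g * m s) := by rw [hs.2, mul_neg, mul_assoc]
            _ = m g * (m s₀ * m s) := by rw [hs₀.2, neg_mul, neg_neg, mul_assoc]
      · intro a _ b _ hab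
        exact mul_left_cancel hab
  calc #(H.filter fun s => s * g = g * s) ≤ _ := card_le_card hsub
    _ ≤ _ := card_union_le _ _
    _ ≤ _ := by omega

end CLM

open CLM in
theorem specCLM (hCEN : SpecCEN) (hPVT : SpecPVT) (hORB : SpecORB) (hGEN : SpecGEN) :
    SpecCLM := by
  classical
  obtain ⟨C₁, hC₁⟩ := hCEN
  obtain ⟨C₂, hC₂⟩ := hPVT
  obtain ⟨C, hC⟩ : ∃ C : ℕ, C = C₂ * 16 ^ 8 + C₂ + 24 + C₁ * 6 ^ 8 + 1 := ⟨_, rfl⟩
  refine ⟨C, ?_⟩
  intro p _ hp2 G _ _ _ m S K hK hm h1S hSi hND hpow hbig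
  have hpr : p.Prime := Fact.out
  have hp3 : 3 ≤ p := by
    have := hpr.two_le
    omega
  have hK0 : 0 < K := by linarith
  have hS0 : (0 : ℝ) < #S := by exact_mod_cast card_pos.2 ⟨1, h1S⟩
  -- the group generated by `S`
  obtain ⟨H, hH⟩ : ∃ H : Finset G, H = univ.filter fun g => g ∈ Subgroup.closure (S : Set G) :=
    ⟨_, rfl⟩
  have hmem : ∀ g, g ∈ H ↔ g ∈ Subgroup.closure (S : Set G) := by
    intro g
    rw [hH, mem_filter]
    simp
  have hSH : S ⊆ H := fun s hs => (hmem s).2 (Subgroup.subset_closure hs)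
  have h1H : (1 : G) ∈ H := (hmem 1).2 (Subgroup.one_mem _)
  have hHi : H⁻¹ = H := by
    ext g
    rw [Finset.mem_inv', hmem, hmem]
    exact Subgroup.inv_mem_iff _
  have hHH : H * H = H := by
    ext g
    rw [mem_mul]
    constructor
    · rintro ⟨a, ha, b, hb, rfl⟩
      rw [hmem] at ha hb ⊢
      exact Subgroup.mul_mem _ ha hb
    · intro hg
      exact ⟨g, hg, 1, h1H, mul_one g⟩
  have hHn : ∀ n : ℕ, H ^ (n + 1) = H := by
    intro n
    induction n with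
    | zero => rw [zero_add, pow_one]
    | succ n ih => rw [pow_succ, ih, hHH]
  have hHpow : ∀ n : ℕ, (#(H ^ n) : ℝ) ≤ (1 : ℝ) ^ (n + 1) * #H := by
    intro n
    rw [one_pow, one_mul]
    rcases n with _ | n
    · rw [pow_zero]
      simp only [card_one, Nat.cast_one]
      exact_mod_cast card_pos.2 ⟨1, h1H⟩
    · rw [hHn]
  have hNDH : ND m H := nd_mono hSH hND
  have hSC : (C : ℝ) ≤ #S := by
    refine le_trans ?_ hbig
    have : (1 : ℝ) ≤ K ^ C := one_le_pow₀ hK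
    nlinarith [(Nat.cast_nonneg C : (0 : ℝ) ≤ C)]
  have hSC' : C ≤ #S := by exact_mod_cast hSC
  -- CEN for `H`
  have hcen := (hC₁ p hp2 G m H 1 le_rfl hm h1H hHi hNDH hHpow).1
  have ht4 : ∀ g ∈ H, g ≠ 1 → 4 ≤ #(H.filter fun s => m s * m g = m g * m s) := by
    intro g hg hg1
    by_contra hlt
    push Not at hlt
    have hg2 : g ∈ H ^ 2 := by
      rw [hHn 1]
      exact hg
    have h3 := hcen g hg2 hg1
    rw [hHn 1, one_pow, mul_one] at h3
    have h4 := half hm H hHH g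
    have h5 : #(H.filter fun s => s * g = g * s) ≤ 6 := by omega
    have h6 : (#(H.filter fun s => s * g = g * s) : ℝ) ^ 8 ≤ 6 ^ 8 :=
      pow_le_pow_left₀ (by positivity) (by exact_mod_cast h5) 8
    have h7 : (#H : ℝ) ≤ C₁ * 6 ^ 8 := h3.trans (mul_le_mul_of_nonneg_left h6 (by positivity))
    have h8 : #H ≤ C₁ * 6 ^ 8 := by exact_mod_cast h7
    have h9 := card_le_card hSH
    omega
  -- GEN
  have hgen := hGEN p hp2 G m H hm h1H hHi hHH (fun v hv => hNDH.1 v hv)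
    (fun y hy => nd_comm hp2 hNDH y hy) ht4
  -- PVT
  obtain ⟨r, hr1, hr2, hr3⟩ := hC₂ p hp2 G m S K hK hm h1S hSi hND hpow (by
    refine le_trans ?_ hbig
    have e1 : C₂ ≤ C := by rw [hC]; omega
    exact mul_le_mul (by exact_mod_cast e1) (pow_le_pow_right₀ hK e1) (by positivity)
      (by positivity))
  obtain ⟨f, hf⟩ : ∃ f : G → ℕ, f = fun h => #((S ^ 2).filter fun s =>
      m s * (m h * r * (m h).adjugate) = m h * r * (m h).adjugate * m s) := ⟨_, rfl⟩
  obtain ⟨h₀, hh₀, hmin⟩ := exists_min_image H f ⟨1, h1H⟩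
  have horb := hORB p hp2 G m (S ^ 2) H (f h₀) r hm hr1 hr2 (fun h hh => by
    have := hmin h hh
    rw [hf] at this ⊢
    exact this)
  have hSM : (#S : ℝ) ≤ C₂ * K ^ C₂ * (f h₀ : ℝ) ^ 8 := by
    have := hr3 h₀ ((hmem h₀).1 hh₀)
    rw [hf]
    exact this
  obtain ⟨M, hM⟩ : ∃ M : ℕ, M = f h₀ := ⟨_, rfl⟩
  rw [← hM] at horb hSM
  have hM2 : 2 ≤ M := by
    by_contra hlt
    push Not at hlt
    have h3 : (M : ℝ) ^ 8 ≤ 1 := pow_le_one₀ (by positivity) (by exact_mod_cast (by omega : M ≤ 1))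
    have h4 : (#S : ℝ) ≤ C₂ * K ^ C₂ := by
      refine hSM.trans ?_
      calc (C₂ : ℝ) * K ^ C₂ * (M : ℝ) ^ 8 ≤ C₂ * K ^ C₂ * 1 :=
            mul_le_mul_of_nonneg_left h3 (by positivity)
        _ = _ := mul_one _
    have h5 : (C₂ + 1 : ℝ) * K ^ C₂ ≤ #S := by
      refine le_trans ?_ hbig
      have e1 : C₂ + 1 ≤ C := by rw [hC]; omega
      exact mul_le_mul (by exact_mod_cast e1) (pow_le_pow_right₀ hK (by omega)) (by positivity)
        (by positivity)
    have h6 : 0 < K ^ C₂ := by positivity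
    nlinarith
  -- `p² M ≤ 16 K³ #S`
  have hU : (#(S ^ 2) : ℝ) ≤ K ^ 3 * #S := hpow 2
  have hmain : (p : ℝ) ^ 2 * M ≤ 16 * K ^ 3 * #S := by
    have h3 : (#H : ℝ) * (M - 1) ≤ 2 * (p + 1) * #(S ^ 2) := by
      have h4 : ((#H * (M - 1) : ℕ) : ℝ) ≤ ((2 * (p + 1) * #(S ^ 2) : ℕ) : ℝ) := by
        exact_mod_cast horb
      push_cast [Nat.cast_sub (by omega : 1 ≤ M)] at h4
      exact h4
    have h4 : (p : ℝ) ^ 2 * (p - 1) ≤ 2 * #H := by
      have h5 : ((p ^ 2 * (p - 1) : ℕ) : ℝ) ≤ ((2 * #H : ℕ) : ℝ) := by exact_mod_cast hgen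
      push_cast [Nat.cast_sub (by omega : 1 ≤ p)] at h5
      exact h5
    have hpR : (3 : ℝ) ≤ p := by exact_mod_cast hp3
    have hMR : (2 : ℝ) ≤ M := by exact_mod_cast hM2
    have h5 : (p : ℝ) ^ 2 * (p - 1) * (M - 1) ≤ 4 * (p + 1) * (K ^ 3 * #S) := by
      calc (p : ℝ) ^ 2 * (p - 1) * (M - 1) ≤ 2 * #H * (M - 1) :=
            mul_le_mul_of_nonneg_right h4 (by linarith)
        _ = 2 * (#H * (M - 1)) := by ring
        _ ≤ 2 * (2 * (p + 1) * #(S ^ 2)) := by linarith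
        _ = 4 * (p + 1) * #(S ^ 2) := by ring
        _ ≤ _ := mul_le_mul_of_nonneg_left hU (by positivity)
    have h6 : ((p : ℝ) - 1) * (p ^ 2 * M) ≤ (p - 1) * (16 * K ^ 3 * #S) := by
      have e1 : (M : ℝ) ≤ 2 * (M - 1) := by linarith
      have e2 : (p : ℝ) + 1 ≤ 2 * (p - 1) := by linarith
      have e3 : 0 ≤ K ^ 3 * #S := by positivity
      calc ((p : ℝ) - 1) * ((p : ℝ) ^ 2 * M) = (p : ℝ) ^ 2 * ((p : ℝ) - 1) * (M : ℝ) := by ring
        _ ≤ (p : ℝ) ^ 2 * ((p : ℝ) - 1) * (2 * ((M : ℝ) - 1)) :=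
            mul_le_mul_of_nonneg_left e1 (mul_nonneg (by positivity) (by linarith))
        _ = 2 * ((p : ℝ) ^ 2 * ((p : ℝ) - 1) * ((M : ℝ) - 1)) := by ring
        _ ≤ 2 * (4 * ((p : ℝ) + 1) * (K ^ 3 * #S)) := by linarith
        _ ≤ 2 * (4 * (2 * ((p : ℝ) - 1)) * (K ^ 3 * #S)) := by
            have := mul_le_mul_of_nonneg_right e2 e3
            nlinarith
        _ = _ := by ring
    exact le_of_mul_le_mul_left h6 (by linarith)
  -- the end
  have hfin : (p : ℝ) ^ 16 * #S ≤ C₂ * 16 ^ 8 * K ^ (C₂ + 24) * (#S : ℝ) ^ 7 * #S := by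
    calc (p : ℝ) ^ 16 * #S ≤ (p : ℝ) ^ 16 * (C₂ * K ^ C₂ * (M : ℝ) ^ 8) :=
          mul_le_mul_of_nonneg_left hSM (by positivity)
      _ = C₂ * K ^ C₂ * ((p : ℝ) ^ 2 * M) ^ 8 := by ring
      _ ≤ C₂ * K ^ C₂ * (16 * K ^ 3 * #S) ^ 8 :=
          mul_le_mul_of_nonneg_left (pow_le_pow_left₀ (by positivity) hmain 8) (by positivity)
      _ = _ := by rw [pow_add]; ring
  have hfin2 : (p : ℝ) ^ 16 ≤ C₂ * 16 ^ 8 * K ^ (C₂ + 24) * (#S : ℝ) ^ 7 :=
    le_of_mul_le_mul_right hfin hS0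
  refine hfin2.trans (mul_le_mul_of_nonneg_right ?_ (by positivity))
  have e1 : C₂ * 16 ^ 8 ≤ C := by rw [hC]; omega
  have e2 : C₂ + 24 ≤ C := by rw [hC]; omega
  exact mul_le_mul (by exact_mod_cast e1) (pow_le_pow_right₀ hK e2) (by positivity) (by positivity)

end MPcb27.PG
end

section
/-!
# MP_cb27ba_nt, project PG: CNM (the count for families of Moebius maps with no rich point coset)
-/
set_option autoImplicit false

namespace MPcb27.PG

open Finset Matrix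
open scoped Pointwise
open MPcb27.TU MPcb27.TW MPcb27.LN MPcb27.MB

namespace CNMM

section law

variable {α G : Type} [Group G] [Fintype G] [DecidableEq G]

/-- the law of `φ ψ⁻¹` -/
noncomputable def rho (cl : α → G) (Ψ : Finset α) : G → ℝ := fun g =>
  (∑ φ ∈ Ψ, ∑ ψ ∈ Ψ, if cl φ * (cl ψ)⁻¹ = g then (1 : ℝ) else 0) / (#Ψ : ℝ) ^ 2

lemma rho_sum (cl : α → G) (Ψ : Finset α) (F : G → ℝ) :
    ∑ g, rho cl Ψ g * F g = (∑ φ ∈ Ψ, ∑ ψ ∈ Ψ, F (cl φ * (cl ψ)⁻¹)) / (#Ψ : ℝ) ^ 2 := by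
  unfold rho
  have h1 : ∀ g : G, (∑ φ ∈ Ψ, ∑ ψ ∈ Ψ, if cl φ * (cl ψ)⁻¹ = g then (1 : ℝ) else 0) /
      (#Ψ : ℝ) ^ 2 * F g =
      (∑ φ ∈ Ψ, ∑ ψ ∈ Ψ, if cl φ * (cl ψ)⁻¹ = g then F g else 0) / (#Ψ : ℝ) ^ 2 := by
    intro g
    rw [div_mul_eq_mul_div, sum_mul]
    congr 1
    refine sum_congr rfl fun φ _ => ?_
    rw [sum_mul]
    refine sum_congr rfl fun ψ _ => ?_
    rw [ite_mul, one_mul, zero_mul]
  rw [sum_congr rfl fun g _ => h1 g, ← sum_div]
  congr 1
  rw [sum_comm]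
  refine sum_congr rfl fun φ _ => ?_
  rw [sum_comm]
  refine sum_congr rfl fun ψ _ => ?_
  rw [sum_ite_eq, if_pos (mem_univ _)]

omit [Fintype G] in
lemma rho_nonneg (cl : α → G) (Ψ : Finset α) (g : G) : 0 ≤ rho cl Ψ g := by
  unfold rho
  refine div_nonneg (sum_nonneg fun φ _ => sum_nonneg fun ψ _ => ?_) (by positivity)
  split_ifs
  · exact zero_le_one
  · exact le_rfl

lemma rho_prob (cl : α → G) (Ψ : Finset α) (hΨ : Ψ.Nonempty) : IsProb (rho cl Ψ) := by
  refine ⟨rho_nonneg cl Ψ, ?_⟩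
  have h := rho_sum cl Ψ (fun _ => 1)
  simp only [mul_one, sum_const, nsmul_eq_mul] at h
  rw [h]
  have : (#Ψ : ℝ) ≠ 0 := by exact_mod_cast hΨ.card_pos.ne'
  field_simp

omit [Fintype G] in
lemma rho_symm (cl : α → G) (Ψ : Finset α) : IsSymm (rho cl Ψ) := by
  intro g
  unfold rho
  congr 1
  rw [sum_comm]
  refine sum_congr rfl fun φ _ => sum_congr rfl fun ψ _ => ?_
  have h : (cl ψ * (cl φ)⁻¹ = g⁻¹) ↔ (cl φ * (cl ψ)⁻¹ = g) := by
    rw [← _root_.inv_inj, _root_.mul_inv_rev, inv_inv, inv_inv]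
  simp only [h]

/-- masses of classes -/
lemma rho_mass (cl : α → G) (Ψ : Finset α) (hΨ : Ψ.Nonempty) (P : G → Prop) [DecidablePred P]
    (ε : ℝ) (h : ∀ ψ ∈ Ψ, (#(Ψ.filter fun φ => P (cl φ * (cl ψ)⁻¹)) : ℝ) ≤ ε * #Ψ) :
    ∑ g ∈ univ.filter P, rho cl Ψ g ≤ ε := by
  have hΨ0 : (0 : ℝ) < #Ψ := by exact_mod_cast hΨ.card_pos
  have h1 := rho_sum cl Ψ (fun g => if P g then (1 : ℝ) else 0)
  have h2 : ∑ g ∈ univ.filter P, rho cl Ψ g =
      ∑ g, rho cl Ψ g * (if P g then (1 : ℝ) else 0) := by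
    rw [sum_filter]
    refine sum_congr rfl fun g _ => ?_
    rw [mul_ite, mul_one, mul_zero]
  rw [h2, h1, div_le_iff₀ (by positivity), sum_comm]
  calc ∑ ψ ∈ Ψ, ∑ φ ∈ Ψ, (if P (cl φ * (cl ψ)⁻¹) then (1 : ℝ) else 0) ≤
        ∑ _ψ ∈ Ψ, ε * (#Ψ : ℝ) := by
        refine sum_le_sum fun ψ hψ => ?_
        rw [← sum_filter, sum_const, nsmul_eq_mul, mul_one]
        exact h ψ hψ
    _ = ε * (#Ψ : ℝ) ^ 2 := by
        rw [sum_const, nsmul_eq_mul]
        ring

end law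

section form

variable {G X : Type} [Group G] [Fintype X] [DecidableEq X] [MulAction G X]

/-- the form at `1_B - #B / #X` -/
lemma form_eq (B : Finset X) (hX : (Fintype.card X : ℝ) ≠ 0) (g : G) :
    ∑ x, ((if g⁻¹ • x ∈ B then (1 : ℝ) else 0) - #B / Fintype.card X) *
      ((if x ∈ B then (1 : ℝ) else 0) - #B / Fintype.card X) =
      #(B.filter fun x => g⁻¹ • x ∈ B) - (#B : ℝ) ^ 2 / Fintype.card X := by
  have e1 : ∑ x : X, (if x ∈ B then (1 : ℝ) else 0) = #B := by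
    rw [sum_ite_mem, univ_inter, sum_const, nsmul_eq_mul, mul_one]
  have e2 : ∑ x : X, (if g⁻¹ • x ∈ B then (1 : ℝ) else 0) = #B := by
    rw [← e1]
    refine Fintype.sum_equiv (MulAction.toPerm g⁻¹) _ _ fun x => rfl
  have e3 : ∑ x : X, (if g⁻¹ • x ∈ B then (1 : ℝ) else 0) * (if x ∈ B then (1 : ℝ) else 0) =
      #(B.filter fun x => g⁻¹ • x ∈ B) := by
    have : ∀ x : X, (if g⁻¹ • x ∈ B then (1 : ℝ) else 0) * (if x ∈ B then (1 : ℝ) else 0) =
        if x ∈ B then (if g⁻¹ • x ∈ B then (1 : ℝ) else 0) else 0 := by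
      intro x
      by_cases h1 : x ∈ B <;> simp [h1]
    rw [sum_congr rfl fun x _ => this x, sum_ite_mem, univ_inter, ← sum_filter, sum_const,
      nsmul_eq_mul, mul_one]
  have e4 : ∑ _x : X, ((#B : ℝ) / Fintype.card X) * (#B / Fintype.card X) =
      (#B : ℝ) ^ 2 / Fintype.card X := by
    rw [sum_const, nsmul_eq_mul, card_univ]
    field_simp
  calc ∑ x, ((if g⁻¹ • x ∈ B then (1 : ℝ) else 0) - #B / Fintype.card X) *
        ((if x ∈ B then (1 : ℝ) else 0) - #B / Fintype.card X)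
      = ∑ x, ((if g⁻¹ • x ∈ B then (1 : ℝ) else 0) * (if x ∈ B then (1 : ℝ) else 0) -
          (if g⁻¹ • x ∈ B then (1 : ℝ) else 0) * (#B / Fintype.card X) -
          (if x ∈ B then (1 : ℝ) else 0) * (#B / Fintype.card X) +
          (#B / Fintype.card X) * (#B / Fintype.card X)) :=
        sum_congr rfl fun x _ => by ring
    _ = #(B.filter fun x => g⁻¹ • x ∈ B) - (#B : ℝ) * (#B / Fintype.card X) -
          (#B : ℝ) * (#B / Fintype.card X) + (#B : ℝ) ^ 2 / Fintype.card X := by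
        rw [sum_add_distrib, sum_sub_distrib, sum_sub_distrib, e3, ← sum_mul, ← sum_mul, e1, e2, e4]
    _ = _ := by ring

end form

variable {p : ℕ} [Fact p.Prime]

lemma vec_ne (z : ZMod p) : (![z, 1] : Fin 2 → ZMod p) ≠ 0 := by
  intro h
  have := congrFun h 1
  simp at this

/-- finite points of the projective line -/
noncomputable def pt (z : ZMod p) : P1 p := Projectivization.mk (ZMod p) ![z, 1] (vec_ne z)

lemma pt_inj {z y : ZMod p} (h : pt z = pt y) : z = y := by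
  unfold pt at h
  rw [Projectivization.mk_eq_mk_iff'] at h
  obtain ⟨a, ha⟩ := h
  have h1 := congrFun ha 1
  have h0 := congrFun ha 0
  simp at h1 h0
  rw [h1, one_mul] at h0
  exact h0.symm

lemma par_smul {v w : Fin 2 → ZMod p} {c : ZMod p} (hc : c ≠ 0) : par (c • v) w ↔ par v w := by
  unfold par
  simp only [Pi.smul_apply, smul_eq_mul, mul_assoc]
  exact mul_right_inj' hc

/-- conjugate of a nonscalar matrix -/
lemma nonSc_conj {r ψ : M2 p} (hr : NonSc r) (hψ : ψ.det ≠ 0) :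
    NonSc ((ψ.det)⁻¹ • (ψ.adjugate * r * ψ)) := by
  intro c h
  apply hr c
  have h1 : ψ * ((ψ.det)⁻¹ • (ψ.adjugate * r * ψ)) * ψ.adjugate = ψ.det • r := by
    rw [mul_smul_comm, smul_mul_assoc, mul_assoc, mul_assoc, mul_assoc, Matrix.mul_adjugate,
      mul_smul_comm, mul_one, mul_smul_comm, mul_smul_comm, ← mul_assoc, Matrix.mul_adjugate,
      smul_mul_assoc, one_mul, smul_smul, inv_mul_cancel₀ hψ, one_smul]
  rw [h, mul_smul_comm, mul_one, smul_mul_assoc, Matrix.mul_adjugate, smul_comm] at h1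
  exact (smul_right_injective (M2 p) hψ h1).symm

end CNMM

open CNMM in
/-- **CNM** -/
theorem specCNM (h1 : SpecFLM) (h2 : SpecOPM) (h3 : SpecITM) (h4 : SpecREP) : SpecCNM := by
  classical
  intro δ δ₁ hδ hδ₁
  obtain ⟨J, P₁, hJ⟩ := h1 δ δ₁ hδ hδ₁
  set κ₁ : ℝ := min (1 / (16 * 2 ^ J)) δ with hκ₁
  have hκ₁0 : 0 < κ₁ := lt_min (by positivity) hδ
  have hκ₁a : κ₁ ≤ 1 / (16 * 2 ^ J) := min_le_left _ _
  have hκ₁b : κ₁ ≤ δ := min_le_right _ _
  obtain ⟨P₂, hP₂⟩ : ∃ P₂ : ℕ, ∀ p : ℕ, P₂ ≤ p → (2 : ℝ) ≤ (p : ℝ) ^ (κ₁ / 2) := by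
    refine ⟨⌈(2 : ℝ) ^ (2 / κ₁)⌉₊, fun p hp => ?_⟩
    have h4 : (2 : ℝ) ^ (2 / κ₁) ≤ p := (Nat.le_ceil _).trans (by exact_mod_cast hp)
    calc (2 : ℝ) = ((2 : ℝ) ^ (2 / κ₁)) ^ (κ₁ / 2) := by
          rw [← Real.rpow_mul (by norm_num), show 2 / κ₁ * (κ₁ / 2) = 1 by field_simp,
            Real.rpow_one]
      _ ≤ _ := Real.rpow_le_rpow (by positivity) h4 (by positivity)
  refine ⟨κ₁ / 2, by positivity, max P₁ P₂, ?_⟩
  intro p _ hp Φ B hΦ hlines hpts hB
  have hpr : p.Prime := Fact.out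
  have hp1 : (1 : ℝ) ≤ p := by exact_mod_cast hpr.one_lt.le
  have hp0 : (0 : ℝ) < p := by linarith
  rcases Φ.eq_empty_or_nonempty with rfl | hΦn
  · have : NAM (∅ : Finset (M2 p)) B = 0 := by
      unfold NAM
      simp
    rw [this]
    push_cast
    positivity
  obtain ⟨hrep, hex, hmk, hcardX⟩ := h4 p
  choose! cl cc hcl using hex
  have hX : (Fintype.card (P1 p) : ℝ) = p + 1 := by
    rw [hcardX]
    push_cast
    rfl
  have hX0 : (Fintype.card (P1 p) : ℝ) ≠ 0 := by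
    rw [hX]
    positivity
  -- the representative of a quotient
  have hquo : ∀ φ ψ : M2 p, φ.det ≠ 0 → ψ.det ≠ 0 → ∃ c : ZMod p, c ≠ 0 ∧
      rep (cl φ * (cl ψ)⁻¹) = c • (φ * ψ.adjugate) := by
    intro φ ψ hφ hψ
    obtain ⟨a, ha, h5⟩ := hrep.mul (cl φ) (cl ψ)⁻¹
    obtain ⟨b, hb, h6⟩ := hrep.inv (cl ψ)
    obtain ⟨h7, h8⟩ := hcl φ hφ
    obtain ⟨h9, h10⟩ := hcl ψ hψ
    refine ⟨a * cc φ * b * cc ψ, mul_ne_zero (mul_ne_zero (mul_ne_zero ha h7) hb) h9, ?_⟩
    rw [h5, h6, h8, h10, Matrix.adjugate_smul]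
    simp only [Fintype.card_fin, smul_mul_assoc, mul_smul_comm, smul_smul]
    congr 1
    simp
    ring
  -- flattening
  have hfl := hJ p ((le_max_left _ _).trans hp) (PGL2 p) rep (rho cl Φ) hrep
    (rho_prob cl Φ hΦn)
    (fun r₀ r₁ hr => by
      convert rho_mass cl Φ hΦn (fun g => rep g * r₀ = r₁ * rep g) _ (fun ψ hψ => by
        have hψd := hΦ ψ hψ
        refine le_trans (le_of_eq ?_) (hlines _ r₁ (nonSc_conj hr hψd))
        congr 2
        refine filter_congr fun φ hφ => ?_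
        obtain ⟨c, hc, h5⟩ := hquo φ ψ (hΦ φ hφ) hψd
        rw [h5, smul_mul_assoc, mul_smul_comm]
        constructor
        · intro h6
          have h7 : φ * ψ.adjugate * r₀ = r₁ * (φ * ψ.adjugate) := by
            have := congrArg (fun M => c⁻¹ • M) h6
            simpa only [smul_smul, inv_mul_cancel₀ hc, one_smul] using this
          calc φ * ((ψ.det)⁻¹ • (ψ.adjugate * r₀ * ψ)) = (ψ.det)⁻¹ • ((φ * ψ.adjugate * r₀) * ψ) := by
                rw [mul_smul_comm]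
                simp only [mul_assoc]
            _ = (ψ.det)⁻¹ • (r₁ * φ * (ψ.adjugate * ψ)) := by
                rw [h7]
                simp only [mul_assoc]
            _ = r₁ * φ := by
                rw [Matrix.adjugate_mul, mul_smul_comm, mul_one, smul_smul, inv_mul_cancel₀ hψd,
                  one_smul]
        · intro h6
          congr 1
          calc φ * ψ.adjugate * r₀ = (ψ.det)⁻¹ • (φ * ψ.adjugate * r₀ * (ψ * ψ.adjugate)) := by
                rw [Matrix.mul_adjugate, mul_smul_comm, mul_one, smul_smul, inv_mul_cancel₀ hψd,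
                  one_smul]
            _ = (φ * ((ψ.det)⁻¹ • (ψ.adjugate * r₀ * ψ))) * ψ.adjugate := by
                rw [mul_smul_comm, smul_mul_assoc]
                simp only [mul_assoc]
            _ = r₁ * (φ * ψ.adjugate) := by
                rw [h6]
                simp only [mul_assoc]))
    (fun v w hv hw => by
      convert rho_mass cl Φ hΦn (fun g => par (rep g *ᵥ v) w) _ (fun ψ hψ => by
        have hψd := hΦ ψ hψ
        have hv' : ψ.adjugate *ᵥ v ≠ 0 := by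
          intro h5
          apply hv
          have h6 : ψ *ᵥ (ψ.adjugate *ᵥ v) = 0 := by rw [h5, Matrix.mulVec_zero]
          rw [Matrix.mulVec_mulVec, Matrix.mul_adjugate, Matrix.smul_mulVec,
            Matrix.one_mulVec] at h6
          exact (smul_eq_zero.1 h6).resolve_left hψd
        refine le_trans (le_of_eq ?_) (hpts _ w hv' hw)
        congr 2
        refine filter_congr fun φ hφ => ?_
        obtain ⟨c, hc, h5⟩ := hquo φ ψ (hΦ φ hφ) hψd
        rw [h5, Matrix.smul_mulVec, par_smul hc, Matrix.mulVec_mulVec]))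
  -- the function
  obtain ⟨B', hB'⟩ : ∃ B' : Finset (P1 p), B' = B.image pt := ⟨_, rfl⟩
  have hBc : #B' = #B := by
    rw [hB']
    exact card_image_of_injective _ fun _ _ h => pt_inj h
  obtain ⟨f, hf⟩ : ∃ f : P1 p → ℝ, f = fun x => (if x ∈ B' then (1 : ℝ) else 0) -
    #B' / Fintype.card (P1 p) := ⟨_, rfl⟩
  have hf0 : ∑ x, f x = 0 := by
    rw [hf, sum_sub_distrib, sum_ite_mem, univ_inter, sum_const, sum_const, nsmul_eq_mul,
      nsmul_eq_mul, mul_one, card_univ]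
    field_simp
    ring
  have hf2 : ∑ x, f x ^ 2 ≤ #B := by
    have h4 := form_eq B' hX0 (1 : PGL2 p)
    have h5 : ∑ x, f x ^ 2 = #(B'.filter fun x => (1 : PGL2 p)⁻¹ • x ∈ B') -
        (#B' : ℝ) ^ 2 / Fintype.card (P1 p) := by
      rw [← h4]
      refine sum_congr rfl fun x _ => ?_
      rw [hf]
      simp only [inv_one, one_smul]
      ring
    rw [h5]
    have h6 : (#(B'.filter fun x => (1 : PGL2 p)⁻¹ • x ∈ B') : ℝ) ≤ #B := by
      rw [← hBc]
      exact_mod_cast card_le_card (filter_subset _ _)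
    have h7 : (0 : ℝ) ≤ (#B' : ℝ) ^ 2 / Fintype.card (P1 p) := by positivity
    linarith
  have hf20 : 0 ≤ ∑ x, f x ^ 2 := sum_nonneg fun _ _ => by positivity
  -- the bound for the form
  have hQ : QX (rho cl Φ) f ≤ (p : ℝ) ^ (-κ₁) * #B := by
    rcases le_or_gt (QX (rho cl Φ) f) 0 with hneg | hpos
    · exact hneg.trans (by positivity)
    have h4 := h3 (PGL2 p) (P1 p) (rho cl Φ) f (rho_symm cl Φ) J
    have h5 := h2 p (dbl (rho cl Φ) J) f hf0
    have h6 : QX (dbl (rho cl Φ) J) f ≤ (p : ℝ) ^ (-(1 / 16 : ℝ)) * ∑ x, f x ^ 2 := by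
      have h7 : QX (dbl (rho cl Φ) J) f ^ 2 ≤ ((p : ℝ) ^ (-(1 / 16 : ℝ)) * ∑ x, f x ^ 2) ^ 2 := by
        refine h5.trans ?_
        rw [mul_pow]
        refine mul_le_mul_of_nonneg_right ?_ (by positivity)
        calc (p : ℝ) ^ 2 * l2 (dbl (rho cl Φ) J) ≤ (p : ℝ) ^ 2 * (p : ℝ) ^ (-(2 + 1 / 8 : ℝ)) :=
              mul_le_mul_of_nonneg_left hfl (by positivity)
          _ = (p : ℝ) ^ (2 : ℝ) * (p : ℝ) ^ (-(2 + 1 / 8 : ℝ)) := by
              rw [show (2 : ℝ) = ((2 : ℕ) : ℝ) by norm_num, Real.rpow_natCast]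
          _ = ((p : ℝ) ^ (-(1 / 16 : ℝ))) ^ 2 := by
              rw [← Real.rpow_add hp0, ← Real.rpow_natCast, ← Real.rpow_mul hp0.le]
              congr 1
              push_cast
              ring
      exact le_of_sq_le_sq h7 (by positivity)
    have hu : 1 ≤ 2 ^ J := Nat.one_le_two_pow
    have h8 : QX (rho cl Φ) f ^ 2 ^ J ≤ (p : ℝ) ^ (-(1 / 16 : ℝ)) * (#B : ℝ) ^ 2 ^ J := by
      refine h4.trans ?_
      calc QX (dbl (rho cl Φ) J) f * (∑ x, f x ^ 2) ^ (2 ^ J - 1) ≤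
            ((p : ℝ) ^ (-(1 / 16 : ℝ)) * ∑ x, f x ^ 2) * (∑ x, f x ^ 2) ^ (2 ^ J - 1) :=
            mul_le_mul_of_nonneg_right h6 (by positivity)
        _ = (p : ℝ) ^ (-(1 / 16 : ℝ)) * (∑ x, f x ^ 2) ^ 2 ^ J := by
            rw [mul_assoc, ← pow_succ', Nat.sub_add_cancel hu]
        _ ≤ _ := by
            refine mul_le_mul_of_nonneg_left ?_ (by positivity)
            exact pow_le_pow_left₀ hf20 hf2 _
    have h9 : QX (rho cl Φ) f ^ 2 ^ J ≤ ((p : ℝ) ^ (-(1 / (16 * 2 ^ J) : ℝ)) * #B) ^ 2 ^ J := by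
      refine h8.trans (le_of_eq ?_)
      rw [mul_pow, ← Real.rpow_natCast ((p : ℝ) ^ (-(1 / (16 * 2 ^ J) : ℝ))),
        ← Real.rpow_mul hp0.le]
      congr 2
      push_cast
      field_simp
    have h10 : QX (rho cl Φ) f ≤ (p : ℝ) ^ (-(1 / (16 * 2 ^ J) : ℝ)) * #B :=
      le_of_pow_le_pow_left₀ (by positivity) (by positivity) h9
    refine h10.trans (mul_le_mul_of_nonneg_right ?_ (by positivity))
    exact Real.rpow_le_rpow_of_exponent_le hp1 (by linarith)
  -- the form as a count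
  have hform : (∑ φ ∈ Φ, ∑ ψ ∈ Φ,
      (#(B'.filter fun x => (cl φ * (cl ψ)⁻¹)⁻¹ • x ∈ B') : ℝ)) =
      (#Φ : ℝ) ^ 2 * (QX (rho cl Φ) f + (#B : ℝ) ^ 2 / (p + 1)) := by
    have h4 : QX (rho cl Φ) f = (∑ φ ∈ Φ, ∑ ψ ∈ Φ,
        ((#(B'.filter fun x => (cl φ * (cl ψ)⁻¹)⁻¹ • x ∈ B') : ℝ) - (#B : ℝ) ^ 2 / (p + 1))) /
        (#Φ : ℝ) ^ 2 := by
      rw [← rho_sum cl Φ fun g => (#(B'.filter fun x => g⁻¹ • x ∈ B') : ℝ) -
        (#B : ℝ) ^ 2 / (p + 1)]
      unfold QX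
      refine sum_congr rfl fun g _ => ?_
      rw [← hX, ← hBc, ← form_eq B' hX0 g, hf]
    have hΦ0 : (#Φ : ℝ) ≠ 0 := by exact_mod_cast hΦn.card_pos.ne'
    rw [h4]
    simp only [sum_sub_distrib, sum_const, nsmul_eq_mul]
    field_simp
    ring
  have hact : ∀ φ : M2 p, φ.det ≠ 0 → ∀ z, den φ z ≠ 0 → cl φ • pt z = pt (mob φ z) := by
    intro φ hφ z hz
    obtain ⟨h5, h6⟩ := hcl φ hφ
    unfold pt
    rw [hmk, h6, Matrix.smul_mulVec, par_smul h5]
    have h7 : den φ z * mob φ z = φ 0 0 * z + φ 0 1 := by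
      unfold mob
      change den φ z * ((φ 0 0 * z + φ 0 1) * (den φ z)⁻¹) = _
      field_simp
    unfold par
    simp only [Matrix.mulVec, dotProduct, Fin.sum_univ_two, Matrix.cons_val_zero,
      Matrix.cons_val_one, mul_one]
    rw [← h7]
    rfl
  have hNA : (NAM Φ B : ℝ) ≤ #B * ((#Φ : ℝ) ^ 2 * (QX (rho cl Φ) f + (#B : ℝ) ^ 2 / (p + 1))) := by
    rw [← hform]
    unfold NAM
    push_cast
    rw [mul_sum]
    refine sum_le_sum fun φ hφ => ?_
    rw [mul_sum]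
    refine sum_le_sum fun ψ hψ => ?_
    rw [pow_two]
    refine mul_le_mul ?_ ?_ (by positivity) (by positivity)
    · have h4 : #((univ : Finset (ZMod p)).filter fun z =>
          den φ z ≠ 0 ∧ mob φ z ∈ B ∧ den ψ z ≠ 0 ∧ mob ψ z ∈ B) ≤ #B := by
        refine card_le_card_of_injOn (fun z => mob φ z) ?_ ?_
        · intro z hz
          rw [mem_coe, mem_filter] at hz
          exact hz.2.2.1
        · intro z hz z' hz' h
          rw [mem_coe, mem_filter] at hz hz'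
          exact mob_inj (hΦ φ hφ) hz.2.1 hz'.2.1 h
      exact_mod_cast h4
    · have h4 : #((univ : Finset (ZMod p)).filter fun z =>
          den φ z ≠ 0 ∧ mob φ z ∈ B ∧ den ψ z ≠ 0 ∧ mob ψ z ∈ B) ≤
          #(B'.filter fun x => (cl φ * (cl ψ)⁻¹)⁻¹ • x ∈ B') := by
        refine card_le_card_of_injOn (fun z => cl φ • pt z) ?_ ?_
        · intro z hz
          rw [mem_coe, mem_filter] at hz
          obtain ⟨-, h5, h6, h7, h8⟩ := hz
          rw [mem_coe, mem_filter]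
          refine ⟨?_, ?_⟩
          · change cl φ • pt z ∈ B'
            rw [hact φ (hΦ φ hφ) z h5, hB']
            exact mem_image_of_mem _ h6
          · change (cl φ * (cl ψ)⁻¹)⁻¹ • (cl φ • pt z) ∈ B'
            rw [_root_.mul_inv_rev, inv_inv, mul_smul, inv_smul_smul, hact ψ (hΦ ψ hψ) z h7, hB']
            exact mem_image_of_mem _ h8
        · intro z _ z' _ h
          exact pt_inj (MulAction.injective (cl φ) h)
      exact_mod_cast h4
  -- end
  have hBp : (#B : ℝ) ^ 2 / (p + 1) ≤ (p : ℝ) ^ (-κ₁) * #B := by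
    have h5 : (#B : ℝ) ^ 2 / (p + 1) ≤ (#B : ℝ) ^ 2 / p := by gcongr; linarith
    refine h5.trans ?_
    rw [div_le_iff₀ hp0]
    have h4 : (#B : ℝ) ≤ (p : ℝ) ^ (-κ₁) * p := by
      calc (#B : ℝ) ≤ (p : ℝ) ^ (1 - δ) := hB
        _ ≤ (p : ℝ) ^ (-κ₁ + 1) := Real.rpow_le_rpow_of_exponent_le hp1 (by linarith)
        _ = (p : ℝ) ^ (-κ₁) * p := by rw [Real.rpow_add hp0, Real.rpow_one]
    calc (#B : ℝ) ^ 2 = #B * #B := by ring
      _ ≤ ((p : ℝ) ^ (-κ₁) * p) * #B := mul_le_mul_of_nonneg_right h4 (by positivity)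
      _ = _ := by ring
  calc (NAM Φ B : ℝ) ≤ #B * ((#Φ : ℝ) ^ 2 * (QX (rho cl Φ) f + (#B : ℝ) ^ 2 / (p + 1))) := hNA
    _ ≤ #B * ((#Φ : ℝ) ^ 2 * (2 * (p : ℝ) ^ (-κ₁) * #B)) := by
        refine mul_le_mul_of_nonneg_left (mul_le_mul_of_nonneg_left ?_ (by positivity))
          (by positivity)
        linarith
    _ = (2 * (p : ℝ) ^ (-κ₁)) * ((#Φ : ℝ) ^ 2 * (#B : ℝ) ^ 2) := by ring
    _ ≤ (p : ℝ) ^ (-(κ₁ / 2)) * ((#Φ : ℝ) ^ 2 * (#B : ℝ) ^ 2) := by
        refine mul_le_mul_of_nonneg_right ?_ (by positivity)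
        calc 2 * (p : ℝ) ^ (-κ₁) ≤ (p : ℝ) ^ (κ₁ / 2) * (p : ℝ) ^ (-κ₁) :=
              mul_le_mul_of_nonneg_right (hP₂ p ((le_max_right _ _).trans hp)) (by positivity)
          _ = (p : ℝ) ^ (-(κ₁ / 2)) := by
              rw [← Real.rpow_add hp0]
              congr 1
              ring

end MPcb27.PG
end

section
/-!
# MP_cb27ba_nt, project PG: ORB, the orbit of a torus
-/
set_option autoImplicit false

namespace MPcb27.PG

open Finset Matrix
open scoped Pointwise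

namespace ORB

variable {G : Type} [Group G] {p : ℕ} [Fact p.Prime] {m : G → M2 p}

theorem two_ne (hp : p ≠ 2) : (2 : ZMod p) ≠ 0 := by
  intro h
  have h1 : ((2 : ℕ) : ZMod p) = 0 := by exact_mod_cast h
  rw [ZMod.natCast_eq_zero_iff] at h1
  have h2 := Nat.le_of_dvd (by norm_num) h1
  have h3 := (Fact.out : p.Prime).two_le
  omega

theorem nonSc_of (h2 : (2 : ZMod p) ≠ 0) {r : M2 p} (ht : r.trace = 0) (hd : r.det ≠ 0) :
    NonSc r := by
  rintro c rfl
  rw [Matrix.trace_fin_two] at ht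
  simp only [Matrix.smul_apply, Matrix.one_apply_eq, smul_eq_mul, mul_one] at ht
  have h3 : 2 * c = 0 := by linear_combination ht
  have h4 : c = 0 := (mul_eq_zero.1 h3).resolve_left h2
  apply hd
  rw [h4, zero_smul, Matrix.det_zero]

/-- traceless matrices commuting with a nonscalar matrix are proportional -/
theorem prop_of (h2 : (2 : ZMod p) ≠ 0) {s a b : M2 p} (hs : NonSc s) (ha : a * s = s * a)
    (hb : b * s = s * b) (hat : a.trace = 0) (hbt : b.trace = 0) (hbd : b.det ≠ 0) :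
    ∃ c : ZMod p, a = c • b := by
  obtain ⟨x, y, rfl⟩ := comm_span hs ha
  obtain ⟨z, w, rfl⟩ := comm_span hs hb
  rw [Matrix.trace_fin_two] at hat hbt
  simp only [Matrix.add_apply, Matrix.smul_apply, Matrix.one_apply_eq, smul_eq_mul, mul_one] at hat hbt
  have hw : w ≠ 0 := by
    rintro rfl
    have h3 : 2 * z = 0 := by linear_combination hbt
    have h4 : z = 0 := (mul_eq_zero.1 h3).resolve_left h2
    apply hbd
    rw [h4, zero_smul, zero_smul, add_zero, Matrix.det_zero]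
  refine ⟨y / w, ?_⟩
  rw [smul_add, smul_smul, smul_smul, div_mul_cancel₀ _ hw]
  congr 2
  have h3 : 2 * (x * w - y * z) = 0 := by linear_combination w * hat - y * hbt
  have h4 : x * w - y * z = 0 := (mul_eq_zero.1 h3).resolve_left h2
  field_simp
  linear_combination h4

theorem adj_smul' (c : ZMod p) (a : M2 p) : (c • a).adjugate = c • a.adjugate := by
  rw [Matrix.adjugate_fin_two, Matrix.adjugate_fin_two]
  ext i j
  fin_cases i <;> fin_cases j <;> simp

theorem adj_neg (a : M2 p) : (-a).adjugate = -a.adjugate := by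
  rw [Matrix.adjugate_fin_two, Matrix.adjugate_fin_two]
  ext i j
  fin_cases i <;> fin_cases j <;> simp

theorem adj_of_trace {r : M2 p} (ht : r.trace = 0) : r.adjugate = -r := by
  rw [Matrix.trace_fin_two] at ht
  rw [Matrix.adjugate_fin_two]
  ext i j
  fin_cases i <;> fin_cases j <;> simp
  · linear_combination ht
  · linear_combination ht

/-- `adj x * y` commutes with `r` up to the sign -/
theorem sign_of (h2 : (2 : ZMod p) ≠ 0) {s x y r : M2 p} (hs : NonSc s) (hx : x.det ≠ 0)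
    (hy : y.det ≠ 0) (ht : r.trace = 0) (hd : r.det ≠ 0)
    (h1 : s * (x * r * x.adjugate) = x * r * x.adjugate * s)
    (h3 : s * (y * r * y.adjugate) = y * r * y.adjugate * s) :
    x.adjugate * y * r = r * (x.adjugate * y) ∨ x.adjugate * y * r = -(r * (x.adjugate * y)) := by
  have htr : ∀ z : M2 p, (z * r * z.adjugate).trace = 0 := by
    intro z
    rw [Matrix.trace_mul_cycle, Matrix.adjugate_mul]
    simp [ht]
  have hdet : ∀ z : M2 p, z.det ≠ 0 → (z * r * z.adjugate).det ≠ 0 := by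
    intro z hz
    rw [Matrix.det_mul, Matrix.det_mul, Matrix.det_adjugate]
    simp only [Fintype.card_fin]
    exact mul_ne_zero (mul_ne_zero hz hd) (pow_ne_zero _ hz)
  obtain ⟨c, hc⟩ := prop_of h2 hs h3.symm h1.symm (htr y) (htr x) (hdet x hx)
  -- `y r adj y = c x r adj x`
  have h4 : x.adjugate * y * r * (y.adjugate * y) = c • (x.adjugate * x * r * (x.adjugate * y)) := by
    have e1 : x.adjugate * y * r * (y.adjugate * y) = x.adjugate * (y * r * y.adjugate) * y := by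
      simp only [mul_assoc]
    rw [e1, hc]
    simp only [mul_smul_comm, smul_mul_assoc, mul_assoc]
  rw [Matrix.adjugate_mul, Matrix.adjugate_mul] at h4
  simp only [mul_smul_comm, smul_mul_assoc, mul_one, one_mul] at h4
  obtain ⟨u, hu⟩ : ∃ u, u = x.adjugate * y := ⟨_, rfl⟩
  rw [← hu] at h4 ⊢
  have hud : u.det ≠ 0 := by
    rw [hu, Matrix.det_mul, Matrix.det_adjugate]
    exact mul_ne_zero (pow_ne_zero _ hx) hy
  obtain ⟨g, hg⟩ : ∃ g : ZMod p, u * r = g • (r * u) := by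
    refine ⟨y.det⁻¹ * (c * x.det), ?_⟩
    rw [mul_smul, mul_smul, ← h4, smul_smul, inv_mul_cancel₀ hy, one_smul]
  have h5 := congrArg Matrix.det hg
  rw [Matrix.det_smul, Matrix.det_mul, Matrix.det_mul, Fintype.card_fin] at h5
  have h6 : (g - 1) * (g + 1) = 0 := by
    have h7 : (g - 1) * (g + 1) * (u.det * r.det) = 0 := by linear_combination -h5
    exact (mul_eq_zero.1 h7).resolve_right (mul_ne_zero hud hd)
  rcases mul_eq_zero.1 h6 with h7 | h7
  · left
    rw [hg, sub_eq_zero.1 h7, one_smul]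
  · right
    rw [hg, eq_neg_of_add_eq_zero_left h7, neg_smul, one_smul]

/-- anticommuting with `r`: quotients commute -/
theorem anti_anti {x y z r : M2 p} (hx : x.det ≠ 0) (ht : r.trace = 0)
    (h1 : x.adjugate * y * r = -(r * (x.adjugate * y)))
    (h3 : x.adjugate * z * r = -(r * (x.adjugate * z))) :
    y.adjugate * z * r = r * (y.adjugate * z) := by
  have h4 : (x.adjugate * y).adjugate * r = -(r * (x.adjugate * y).adjugate) := by
    obtain ⟨u, hu⟩ : ∃ u, u = x.adjugate * y := ⟨_, rfl⟩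
    rw [← hu] at h1 ⊢
    have h5 := congrArg Matrix.adjugate h1
    rw [Matrix.adjugate_mul_distrib, adj_neg, Matrix.adjugate_mul_distrib, adj_of_trace ht] at h5
    rw [neg_mul, mul_neg, neg_neg] at h5
    exact h5.symm
  have h5 : (x.adjugate * y).adjugate * (x.adjugate * z) = x.det • (y.adjugate * z) := by
    rw [Matrix.adjugate_mul_distrib, Matrix.adjugate_adjugate _ (by simp)]
    simp only [Fintype.card_fin, Nat.sub_self, pow_zero, one_smul]
    rw [mul_assoc, ← mul_assoc x, Matrix.mul_adjugate]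
    simp
  have h6 : (x.adjugate * y).adjugate * (x.adjugate * z) * r =
      r * ((x.adjugate * y).adjugate * (x.adjugate * z)) := by
    rw [mul_assoc, h3, mul_neg, ← mul_assoc, h4, neg_mul, neg_neg, mul_assoc]
  rw [h5, smul_mul_assoc, mul_smul_comm] at h6
  exact smul_right_injective _ hx h6

theorem line_card (hL : SpecLCD) (hm : IsPRep m) {r : M2 p} (hr : NonSc r)
    (x : G) (T : Finset G) [DecidableEq G]
    (h : ∀ y ∈ T, (m x).adjugate * m y * r = r * ((m x).adjugate * m y)) : #T ≤ p + 1 := by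
  have h1 : #T = #(T.image fun y => x⁻¹ * y) :=
    (card_image_of_injective _ (mul_right_injective x⁻¹)).symm
  rw [h1]
  refine hL p G m _ (Submodule.span (ZMod p) {1, r}) hm ?_ ?_
  · have h2 := finrank_span_finset_le_card (R := ZMod p) ({1, r} : Finset (M2 p))
    have h3 : #({1, r} : Finset (M2 p)) ≤ 2 := card_le_two
    rw [Finset.coe_insert, Finset.coe_singleton] at h2
    exact h2.trans h3
  · intro z hz
    obtain ⟨y, hy, rfl⟩ := mem_image.1 hz
    obtain ⟨a, b, hab⟩ := comm_span hr (h y hy)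
    obtain ⟨c, _, hc⟩ := hm.mul x⁻¹ y
    obtain ⟨d, _, hd⟩ := hm.inv x
    rw [hc, hd, smul_mul_assoc, hab]
    refine Submodule.smul_mem _ _ (Submodule.smul_mem _ _ (Submodule.add_mem _ ?_ ?_))
    · exact Submodule.smul_mem _ _ (Submodule.subset_span (by simp))
    · exact Submodule.smul_mem _ _ (Submodule.subset_span (by simp))

end ORB

open ORB

theorem specORB (hL : SpecLCD) : SpecORB := by
  classical
  intro p _ hp G _ _ _ m U H M r hm ht hd hM
  have h2 := two_ne hp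
  have hr := nonSc_of h2 ht hd
  -- double counting
  obtain ⟨R, hR⟩ : ∃ R : G → G → Prop, ∀ h s, R h s ↔
      m s * (m h * r * (m h).adjugate) = m h * r * (m h).adjugate * m s :=
    ⟨_, fun _ _ => Iff.rfl⟩
  have h1 : ∑ h ∈ H, #((U.erase 1).filter fun s => R h s) =
      ∑ s ∈ U.erase 1, #(H.filter fun h => R h s) := by
    simp only [card_filter]
    exact sum_comm
  have hlow : ∀ h ∈ H, M - 1 ≤ #((U.erase 1).filter fun s => R h s) := by
    intro h hh
    have h3 := hM h hh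
    have h4 : #(U.filter fun s => R h s) ≤ #((U.erase 1).filter fun s => R h s) + 1 := by
      have hsub : (U.filter fun s => R h s) ⊆ insert 1 ((U.erase 1).filter fun s => R h s) := by
        intro s hs
        rw [mem_filter] at hs
        rw [mem_insert, mem_filter, mem_erase]
        by_cases h1 : s = 1
        · exact Or.inl h1
        · exact Or.inr ⟨⟨h1, hs.1⟩, hs.2⟩
      exact (card_le_card hsub).trans (card_insert_le _ _)
    have h5 : #(U.filter fun s => R h s) = #(U.filter fun s =>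
        m s * (m h * r * (m h).adjugate) = m h * r * (m h).adjugate * m s) := by
      congr 1
      refine filter_congr fun s _ => ?_
      exact hR h s
    omega
  have hup : ∀ s ∈ U.erase 1, #(H.filter fun h => R h s) ≤ 2 * (p + 1) := by
    intro s hs
    have hs1 : s ≠ 1 := (mem_erase.1 hs).1
    have hns := hm.nonSc hs1
    rcases (H.filter fun h => R h s).eq_empty_or_nonempty with h0 | ⟨x, hx⟩
    · rw [h0, card_empty]
      exact Nat.zero_le _
    · have hxR := (hR _ _).1 (mem_filter.1 hx).2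
      obtain ⟨A, hA⟩ : ∃ A, A = (H.filter fun h => R h s).filter fun y =>
        (m x).adjugate * m y * r = r * ((m x).adjugate * m y) := ⟨_, rfl⟩
      obtain ⟨B, hB⟩ : ∃ B, B = (H.filter fun h => R h s).filter fun y =>
        (m x).adjugate * m y * r = -(r * ((m x).adjugate * m y)) := ⟨_, rfl⟩
      have hsub : (H.filter fun h => R h s) ⊆ A ∪ B := by
        intro y hy
        have hyR := (hR _ _).1 (mem_filter.1 hy).2
        rcases sign_of h2 hns (hm.det_ne x) (hm.det_ne y) ht hd hxR hyR with h | h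
        · exact mem_union_left _ (by rw [hA]; exact mem_filter.2 ⟨hy, h⟩)
        · exact mem_union_right _ (by rw [hB]; exact mem_filter.2 ⟨hy, h⟩)
      have hAc : #A ≤ p + 1 := by
        refine line_card hL hm hr x A fun y hy => ?_
        rw [hA] at hy
        exact (mem_filter.1 hy).2
      have hBc : #B ≤ p + 1 := by
        rcases B.eq_empty_or_nonempty with h0 | ⟨y, hy⟩
        · rw [h0, card_empty]
          exact Nat.zero_le _
        · refine line_card hL hm hr y B fun z hz => ?_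
          rw [hB] at hy hz
          exact anti_anti (hm.det_ne x) ht (mem_filter.1 hy).2 (mem_filter.1 hz).2
      have := (card_le_card hsub).trans (card_union_le _ _)
      omega
  calc #H * (M - 1) = ∑ h ∈ H, (M - 1) := by rw [sum_const, smul_eq_mul]
    _ ≤ ∑ h ∈ H, #((U.erase 1).filter fun s => R h s) := sum_le_sum hlow
    _ = ∑ s ∈ U.erase 1, #(H.filter fun h => R h s) := h1
    _ ≤ ∑ s ∈ U.erase 1, 2 * (p + 1) := sum_le_sum hup
    _ = #(U.erase 1) * (2 * (p + 1)) := by rw [sum_const, smul_eq_mul]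
    _ ≤ #U * (2 * (p + 1)) := Nat.mul_le_mul_right _ (card_le_card (erase_subset _ _))
    _ = 2 * (p + 1) * #U := by ring

end MPcb27.PG
end

section
/-!
# MP_cb27ba_nt, project PG: PLN, approximate groups and planes (helper95)
-/
set_option autoImplicit false

namespace MPcb27.PG

open Finset Matrix
open scoped Pointwise

namespace PLN

variable {p : ℕ} [Fact p.Prime]

/-- the functional `y ↦ tr (a y)` -/
def phi (a : M2 p) : M2 p →ₗ[ZMod p] ZMod p where
  toFun y := (a * y).trace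
  map_add' y z := by rw [mul_add, Matrix.trace_add]
  map_smul' c y := by rw [mul_smul_comm, Matrix.trace_smul, RingHom.id_apply]

theorem phi_apply (a y : M2 p) : phi a y = (a * y).trace := rfl

theorem tr_single (b : M2 p) (i j : Fin 2) : (b * Matrix.single i j 1).trace = b j i := by
  rw [Matrix.trace_mul_single]
  simp

theorem eq_zero_of_tr {b : M2 p} (h : ∀ y : M2 p, (b * y).trace = 0) : b = 0 := by
  ext i j
  rw [← tr_single b j i, h]
  rfl

theorem exists_ne {a : M2 p} (ha : a ≠ 0) : ∃ y, phi a y ≠ 0 := by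
  by_contra hcon
  push Not at hcon
  exact ha (eq_zero_of_tr hcon)

/-- the kernel has dimension 3 -/
theorem finrank_ker {a : M2 p} (ha : a ≠ 0) : Module.finrank (ZMod p) (LinearMap.ker (phi a)) = 3 := by
  have h1 := LinearMap.finrank_range_add_finrank_ker (phi a)
  have h2 : Module.finrank (ZMod p) (M2 p) = 4 := by
    rw [Module.finrank_matrix]
    simp
  have h3 : LinearMap.range (phi a) = ⊤ := by
    obtain ⟨y, hy⟩ := exists_ne ha
    rw [LinearMap.range_eq_top]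
    intro c
    refine ⟨(c * (phi a y)⁻¹) • y, ?_⟩
    rw [map_smul, smul_eq_mul, mul_assoc, inv_mul_cancel₀ hy, mul_one]
  rw [h3, h2, finrank_top, Module.finrank_self] at h1
  omega

/-- two independent conditions: dimension at most 2 -/
theorem finrank_inf {a b : M2 p} (ha : a ≠ 0) (hb : ∀ c : ZMod p, b ≠ c • a) :
    Module.finrank (ZMod p) (LinearMap.ker (phi a) ⊓ LinearMap.ker (phi b) : Submodule _ (M2 p)) ≤ 2 := by
  have h1 := finrank_ker ha
  have h2 : (LinearMap.ker (phi a) ⊓ LinearMap.ker (phi b) : Submodule _ (M2 p)) <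
      LinearMap.ker (phi a) := by
    refine lt_of_le_of_ne inf_le_left ?_
    intro heq
    have hle : LinearMap.ker (phi a) ≤ LinearMap.ker (phi b) := by
      rw [← heq]; exact inf_le_right
    obtain ⟨y0, hy0⟩ := exists_ne ha
    apply hb (phi b y0 * (phi a y0)⁻¹)
    rw [← sub_eq_zero]
    refine eq_zero_of_tr fun y => ?_
    have h3 : y - (phi a y * (phi a y0)⁻¹) • y0 ∈ LinearMap.ker (phi b) := by
      apply hle
      rw [LinearMap.mem_ker, map_sub, map_smul, smul_eq_mul, mul_assoc, inv_mul_cancel₀ hy0, mul_one,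
        sub_self]
    rw [LinearMap.mem_ker, map_sub, map_smul, smul_eq_mul] at h3
    rw [sub_mul, smul_mul_assoc, Matrix.trace_sub, Matrix.trace_smul, smul_eq_mul, ← phi_apply,
      ← phi_apply]
    linear_combination h3
  have h3 := Submodule.finrank_lt_finrank_of_lt h2
  omega

theorem tr_adj (A : M2 p) : A.adjugate.trace = A.trace := by
  rw [Matrix.adjugate_fin_two, Matrix.trace_fin_two, Matrix.trace_fin_two]
  simp
  ring

omit [Fact p.Prime] in
theorem adj_adj (A : M2 p) : A.adjugate.adjugate = A := by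
  rw [Matrix.adjugate_fin_two, Matrix.adjugate_fin_two]
  ext i j
  fin_cases i <;> fin_cases j <;> simp

theorem adj_ne {A : M2 p} (h : A ≠ 0) : A.adjugate ≠ 0 := by
  intro h0
  apply h
  rw [← adj_adj A, h0]
  rw [Matrix.adjugate_fin_two]
  ext i j
  fin_cases i <;> fin_cases j <;> simp

theorem par_of_ker {r : M2 p} (hr : r ≠ 0) {v w : Fin 2 → ZMod p} (hv : r *ᵥ v = 0) (hw : r *ᵥ w = 0) :
    par v w := by
  have v0 := congrFun hv 0
  have v1 := congrFun hv 1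
  have w0 := congrFun hw 0
  have w1 := congrFun hw 1
  simp only [Matrix.mulVec, dotProduct, Fin.sum_univ_two, Pi.zero_apply] at v0 v1 w0 w1
  unfold par
  by_contra hcon
  have hne : v 0 * w 1 - v 1 * w 0 ≠ 0 := sub_ne_zero.2 hcon
  apply hr
  have key : ∀ a : ZMod p, a * (v 0 * w 1 - v 1 * w 0) = 0 → a = 0 := fun a ha =>
    (mul_eq_zero.1 ha).resolve_right hne
  ext i j
  fin_cases i <;> fin_cases j
  · exact key _ (by show r 0 0 * _ = 0; linear_combination w 1 * v0 - v 1 * w0)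
  · exact key _ (by show r 0 1 * _ = 0; linear_combination v 0 * w0 - w 0 * v0)
  · exact key _ (by show r 1 0 * _ = 0; linear_combination w 1 * v1 - v 1 * w1)
  · exact key _ (by show r 1 1 * _ = 0; linear_combination v 0 * w1 - w 0 * v1)

variable {G : Type} [Group G] {m : G → M2 p}

/-- singular `a`: a good `h` -/
theorem exists_h (hm : IsPRep m) {S : Finset G} (h1 : (1 : G) ∈ S) (hS : ND m S) {b : M2 p} (hb : b ≠ 0) :
    ∃ h ∈ S, b * m h * b ≠ 0 := by
  by_contra hcon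
  push Not at hcon
  obtain ⟨i, j, hij⟩ : ∃ i j, b i j ≠ 0 := by
    by_contra h
    push Not at h
    exact hb (by ext i j; simpa using h i j)
  set v : Fin 2 → ZMod p := b *ᵥ (Pi.single j 1) with hv
  have hv0 : v ≠ 0 := by
    intro h
    apply hij
    have := congrFun h i
    rwa [hv, Matrix.mulVec_single_one] at this
  have hbv : ∀ s ∈ S, b *ᵥ (m s *ᵥ v) = 0 := by
    intro s hs
    rw [hv, Matrix.mulVec_mulVec, Matrix.mulVec_mulVec, hcon s hs, Matrix.zero_mulVec]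
  obtain ⟨c, hc, e1⟩ := hm.one
  have hbv1 : b *ᵥ v = 0 := by
    have h2 := hbv 1 h1
    rw [e1, Matrix.smul_mulVec, Matrix.one_mulVec, Matrix.mulVec_smul] at h2
    have h3 : c⁻¹ • (c • (b *ᵥ v)) = 0 := by rw [h2, smul_zero]
    rwa [smul_smul, inv_mul_cancel₀ hc, one_smul] at h3
  obtain ⟨s, hs, hpar⟩ := hS.1 v hv0
  exact hpar (par_of_ker hb (hbv s hs) hbv1)

/-- the second condition for the elements of a fibre -/
theorem fib (hm : IsPRep m) {a : M2 p} {z h z' x : G} (hx : z * h * z' = x)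
    (hz' : (a * m z').trace = 0) : ((m h * a.adjugate * (m x).adjugate) * m z).trace = 0 := by
  have e : z' = h⁻¹ * (z⁻¹ * x) := by rw [← hx]; group
  obtain ⟨c1, hc1, e1⟩ := hm.mul h⁻¹ (z⁻¹ * x)
  obtain ⟨c2, hc2, e2⟩ := hm.mul z⁻¹ x
  obtain ⟨c3, hc3, e3⟩ := hm.inv h
  obtain ⟨c4, hc4, e4⟩ := hm.inv z
  have h5 : m z' = (c1 * c3 * (c2 * c4)) • ((m h).adjugate * ((m z).adjugate * m x)) := by
    rw [e, e1, e2, e3, e4, smul_mul_assoc, smul_mul_assoc, mul_smul_comm, mul_smul_comm, smul_smul,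
      smul_smul, smul_smul]
    ring_nf
  rw [h5, mul_smul_comm, Matrix.trace_smul, smul_eq_mul] at hz'
  have h6 : (a * ((m h).adjugate * ((m z).adjugate * m x))).trace = 0 :=
    (mul_eq_zero.1 hz').resolve_left (mul_ne_zero (mul_ne_zero hc1 hc3) (mul_ne_zero hc2 hc4))
  rw [← tr_adj, Matrix.adjugate_mul_distrib, Matrix.adjugate_mul_distrib, Matrix.adjugate_mul_distrib,
    adj_adj, adj_adj] at h6
  rw [← h6, Matrix.trace_mul_comm]
  have : m z * (m h * a.adjugate * (m x).adjugate) = (m z * m h * a.adjugate) * (m x).adjugate := by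
    simp only [mul_assoc]
  rw [this, Matrix.trace_mul_comm]
  simp only [mul_assoc]

end PLN

open PLN

open scoped Classical in
theorem specPLN (hLIN : SpecLIN) : SpecPLN := by
  intro p _ hp G _ _ m S T k l a hm h1S hSi hND hT ha hTa hl
  set b : M2 p := a.adjugate with hb
  have hb0 : b ≠ 0 := adj_ne ha
  -- the choice of h
  obtain ⟨h, hh, hB⟩ : ∃ h ∈ S, ∀ x y : G, (∃ c : ZMod p, m h * b * (m x).adjugate = c • a) →
      (∃ c : ZMod p, m h * b * (m y).adjugate = c • a) → x = y := by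
    by_cases hd : a.det = 0
    · obtain ⟨h, hh, hne⟩ := exists_h hm h1S hND hb0
      refine ⟨h, hh, ?_⟩
      rintro x y ⟨c, hc⟩ _
      exfalso
      apply hne
      have h1 : b * (m h * b * (m x).adjugate) = 0 := by
        rw [hc, mul_smul_comm, hb, Matrix.adjugate_mul, hd, zero_smul, smul_zero]
      have h2 : b * (m h * b * (m x).adjugate) * m x = (m x).det • (b * m h * b) := by
        rw [mul_assoc, mul_assoc (m h * b), Matrix.adjugate_mul, mul_smul_comm, mul_smul_comm, mul_one,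
          mul_assoc]
      rw [h1, zero_mul] at h2
      have h3 : (m x).det⁻¹ • ((m x).det • (b * m h * b)) = 0 := by rw [← h2, smul_zero]
      rwa [smul_smul, inv_mul_cancel₀ (hm.det_ne x), one_smul] at h3
    · refine ⟨1, h1S, ?_⟩
      obtain ⟨c0, hc0, e1⟩ := hm.one
      have key : ∀ x : G, (∃ c : ZMod p, m 1 * b * (m x).adjugate = c • a) →
          ∃ c : ZMod p, c ≠ 0 ∧ (m x).adjugate = c • (a * a) := by
        rintro x ⟨c, hc⟩
        rw [e1, smul_mul_assoc, one_mul, smul_mul_assoc] at hc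
        have h1 : a * (c0 • (b * (m x).adjugate)) = c0 • (a.det • (m x).adjugate) := by
          rw [mul_smul_comm, ← mul_assoc, hb, Matrix.mul_adjugate, smul_mul_assoc, one_mul]
        rw [hc, mul_smul_comm] at h1
        have h2 : (m x).adjugate = (a.det⁻¹ * c0⁻¹ * c) • (a * a) := by
          have h3 : (a.det⁻¹ * c0⁻¹) • (c • (a * a)) = (a.det⁻¹ * c0⁻¹) • (c0 • (a.det • (m x).adjugate)) := by
            rw [h1]
          rw [smul_smul, smul_smul, smul_smul] at h3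
          rw [h3]
          have : a.det⁻¹ * c0⁻¹ * c0 * a.det = 1 := by field_simp
          rw [this, one_smul]
        refine ⟨_, ?_, h2⟩
        intro h0
        rw [h0, zero_smul] at h2
        have h4 : m x = 0 := by
          by_contra h5
          exact adj_ne h5 h2
        apply hm.det_ne x
        rw [h4]
        simp
      intro x y hx hy
      obtain ⟨c, hc, ex⟩ := key x hx
      obtain ⟨d, hd', ey⟩ := key y hy
      refine hm.inj x y (c * d⁻¹) ?_
      have h1 : (m x).adjugate = (c * d⁻¹) • (m y).adjugate := by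
        rw [ey, smul_smul, mul_assoc, inv_mul_cancel₀ hd', mul_one, ex]
      rw [← adj_adj (m x), h1, ← adj_adj (m y), adj_adj]
      rw [Matrix.adjugate_fin_two, Matrix.adjugate_fin_two]
      ext i j
      fin_cases i <;> fin_cases j <;> simp
  set B : G → Prop := fun x => ∃ c : ZMod p, m h * b * (m x).adjugate = c • a with hBdef
  -- the map
  have hmaps : ∀ q ∈ T ×ˢ T, q.1 * h * q.2 ∈ S ^ (2 * k + 1) := by
    intro q hq
    rw [mem_product] at hq
    have : 2 * k + 1 = k + 1 + k := by ring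
    rw [this, pow_add, pow_add, pow_one]
    exact Finset.mul_mem_mul (Finset.mul_mem_mul (hT hq.1) hh) (hT hq.2)
  have hcount := Finset.card_eq_sum_card_fiberwise hmaps
  rw [card_product] at hcount
  have hinj : ∀ x : G, #((T ×ˢ T).filter fun q => q.1 * h * q.2 = x) =
      #(((T ×ˢ T).filter fun q => q.1 * h * q.2 = x).image Prod.fst) := by
    intro x
    rw [Finset.card_image_of_injOn]
    rintro ⟨z, z'⟩ hz ⟨w, w'⟩ hw hzw
    rw [mem_coe, mem_filter] at hz hw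
    have h1 : z = w := hzw
    subst h1
    have h2 : z * h * z' = z * h * w' := hz.2.trans hw.2.symm
    rw [mul_left_cancel h2]
  have hfib : ∀ x ∈ S ^ (2 * k + 1), #((T ×ˢ T).filter fun q => q.1 * h * q.2 = x) ≤
      l + (if B x then #T else 0) := by
    intro x _
    rw [hinj x]
    set T' := ((T ×ˢ T).filter fun q => q.1 * h * q.2 = x).image Prod.fst with hT'
    have hsub : T' ⊆ T := by
      intro z hz
      rw [hT', mem_image] at hz
      obtain ⟨q, hq, rfl⟩ := hz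
      rw [mem_filter, mem_product] at hq
      exact hq.1.1
    by_cases hBx : B x
    · rw [if_pos hBx]
      exact (card_le_card hsub).trans (Nat.le_add_left _ _)
    · rw [if_neg hBx, add_zero]
      have hW := finrank_inf (b := m h * b * (m x).adjugate) ha (fun c hc => hBx ⟨c, hc⟩)
      have h1 := hLIN p hp G m S T' k _ hm h1S hSi hND (hsub.trans hT) hW (by
        intro z hz
        rw [Submodule.mem_inf, LinearMap.mem_ker, LinearMap.mem_ker, phi_apply, phi_apply]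
        refine ⟨hTa z (hsub hz), ?_⟩
        rw [hT', mem_image] at hz
        obtain ⟨q, hq, rfl⟩ := hz
        rw [mem_filter, mem_product] at hq
        exact fib hm hq.2 (hTa _ hq.1.2))
      exact (Nat.pow_le_pow_iff_left (two_ne_zero)).1 (h1.trans hl)
  have hBcard : #((S ^ (2 * k + 1)).filter B) ≤ 1 := by
    rw [Finset.card_le_one]
    intro x hx y hy
    rw [mem_filter] at hx hy
    exact hB x y hx.2 hy.2
  calc #T ^ 2 = #T * #T := by ring
    _ = _ := hcount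
    _ ≤ ∑ x ∈ S ^ (2 * k + 1), (l + (if B x then #T else 0)) := Finset.sum_le_sum hfib
    _ = #(S ^ (2 * k + 1)) * l + #((S ^ (2 * k + 1)).filter B) * #T := by
        rw [Finset.sum_add_distrib, Finset.sum_const, smul_eq_mul, ← Finset.sum_filter,
          Finset.sum_const, smul_eq_mul]
    _ ≤ #(S ^ (2 * k + 1)) * l + 1 * #T := by gcongr
    _ = _ := by rw [one_mul]

end MPcb27.PG
end

section
/-!
# MP_cb27ba_nt, project PG: partition into a part without rich point cosets and few point cosets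
-/
set_option autoImplicit false

namespace MPcb27.PG

open Finset Matrix Filter

/-- greedy partition -/
theorem greedy {α ι : Type*} [DecidableEq α] (R : ι → α → Prop) [∀ i a, Decidable (R i a)]
    (good : ι → Prop) (ε : ℝ) (hε1 : ε ≤ 1) (N : ℕ) :
    ∀ Φ : Finset α, (1 - ε) ^ N * #Φ < 1 →
      ∃ (Φ₀ : Finset α) (Q : Finset (Finset α)), Φ₀ ⊆ Φ ∧ (∀ Ψ ∈ Q, Ψ ⊆ Φ) ∧
        (∀ φ ∈ Φ, φ ∈ Φ₀ ∨ ∃ Ψ ∈ Q, φ ∈ Ψ) ∧ #Q ≤ N ∧ (∑ Ψ ∈ Q, #Ψ ≤ #Φ) ∧
        (∀ i, good i → (#(Φ₀.filter (R i)) : ℝ) ≤ ε * #Φ₀) ∧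
        ∀ Ψ ∈ Q, ∃ i, good i ∧ ∀ φ ∈ Ψ, R i φ := by
  induction N with
  | zero =>
    intro Φ h
    have h0 : #Φ = 0 := by
      by_contra hne
      have : (1 : ℝ) ≤ #Φ := by exact_mod_cast Nat.one_le_iff_ne_zero.mpr hne
      simp only [pow_zero, one_mul] at h
      linarith
    have h1 : Φ = ∅ := Finset.card_eq_zero.mp h0
    subst h1
    exact ⟨∅, ∅, by simp, by simp, by simp, by simp, by simp, by simp, by simp⟩
  | succ N ih =>
    intro Φ h
    by_cases hr : ∀ i, good i → (#(Φ.filter (R i)) : ℝ) ≤ ε * #Φ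
    · refine ⟨Φ, ∅, Subset.rfl, by simp, fun φ hφ => Or.inl hφ, by simp, by simp, hr, by simp⟩
    · push Not at hr
      obtain ⟨i, hi, hc⟩ := hr
      have hcard : #(Φ.filter (R i)) + #(Φ.filter fun a => ¬ R i a) = #Φ :=
        Finset.card_filter_add_card_filter_not _
      have hcard' : (#(Φ.filter (R i)) : ℝ) + #(Φ.filter fun a => ¬ R i a) = #Φ := by
        exact_mod_cast hcard
      have hlt : (1 - ε) ^ N * #(Φ.filter fun a => ¬ R i a) < 1 := by
        have h1 : (#(Φ.filter fun a => ¬ R i a) : ℝ) ≤ (1 - ε) * #Φ := by linarith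
        have h2 : (0 : ℝ) ≤ (1 - ε) ^ N := pow_nonneg (by linarith) _
        calc (1 - ε) ^ N * (#(Φ.filter fun a => ¬ R i a) : ℝ)
            ≤ (1 - ε) ^ N * ((1 - ε) * #Φ) := mul_le_mul_of_nonneg_left h1 h2
          _ = (1 - ε) ^ (N + 1) * #Φ := by ring
          _ < 1 := h
      obtain ⟨Φ₀, Q, a1, a2, a3, a4, a5, a6, a7⟩ := ih _ hlt
      refine ⟨Φ₀, insert (Φ.filter (R i)) Q, a1.trans (filter_subset _ _), ?_, ?_, ?_, ?_, a6, ?_⟩
      · intro Ψ hΨ
        rcases mem_insert.mp hΨ with rfl | hΨ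
        · exact filter_subset _ _
        · exact (a2 Ψ hΨ).trans (filter_subset _ _)
      · intro φ hφ
        by_cases hR : R i φ
        · exact Or.inr ⟨_, mem_insert_self _ _, mem_filter.mpr ⟨hφ, hR⟩⟩
        · rcases a3 φ (mem_filter.mpr ⟨hφ, hR⟩) with h1 | ⟨Ψ, h1, h2⟩
          · exact Or.inl h1
          · exact Or.inr ⟨Ψ, mem_insert_of_mem h1, h2⟩
      · exact (card_insert_le _ _).trans (by omega)
      · by_cases hm : Φ.filter (R i) ∈ Q
        · rw [insert_eq_of_mem hm]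
          omega
        · rw [sum_insert hm]
          omega
      · intro Ψ hΨ
        rcases mem_insert.mp hΨ with rfl | hΨ
        · exact ⟨i, hi, fun φ hφ => (mem_filter.mp hφ).2⟩
        · exact a7 Ψ hΨ

theorem card_M2_le {p : ℕ} [Fact p.Prime] (Φ : Finset (M2 p)) : (#Φ : ℝ) ≤ (p : ℝ) ^ 4 := by
  have h1 : Fintype.card (M2 p) = p ^ 4 := by
    change Fintype.card (Fin 2 → Fin 2 → ZMod p) = p ^ 4
    simp only [Fintype.card_pi, ZMod.card, Finset.prod_const, Finset.card_univ, Fintype.card_fin]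
    ring
  have h2 := Finset.card_le_univ Φ
  rw [h1] at h2
  exact_mod_cast h2

theorem specPRT : SpecPRT := by
  intro δ₁ hδ
  -- the size of `p`
  have hev : ∀ᶠ x : ℝ in atTop, 4 * Real.log x + 1 < x ^ δ₁ := by
    have h1 := (isLittleO_log_rpow_atTop hδ).bound (show (0 : ℝ) < 1 / 8 by norm_num)
    have h2 := (tendsto_rpow_atTop hδ).eventually_gt_atTop 2
    filter_upwards [h1, h2, eventually_ge_atTop 1] with x hx hx2 hx1
    rw [Real.norm_eq_abs, Real.norm_eq_abs, abs_of_nonneg (Real.log_nonneg hx1),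
      abs_of_nonneg (Real.rpow_nonneg (by linarith) _)] at hx
    linarith
  obtain ⟨X, hX⟩ := eventually_atTop.mp hev
  refine ⟨Nat.ceil X + 2, ?_⟩
  intro p _ hp Φ
  have hpX : X ≤ (p : ℝ) := (Nat.le_ceil X).trans (by exact_mod_cast (by omega : ⌈X⌉₊ ≤ p))
  have hp2 : (2 : ℝ) ≤ p := by exact_mod_cast (by omega : 2 ≤ p)
  have hp0 : (0 : ℝ) < p := by linarith
  have hlog := hX p hpX
  set ε : ℝ := (p : ℝ) ^ (-δ₁) with hεdef
  have hε0 : 0 < ε := Real.rpow_pos_of_pos hp0 _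
  have hε1 : ε ≤ 1 := Real.rpow_le_one_of_one_le_of_nonpos (by linarith) (by linarith)
  set N : ℕ := ⌊(p : ℝ) ^ (2 * δ₁)⌋₊ with hN
  have hNle : (N : ℝ) ≤ (p : ℝ) ^ (2 * δ₁) := Nat.floor_le (Real.rpow_nonneg hp0.le _)
  have hNge : (p : ℝ) ^ (2 * δ₁) - 1 < N := by
    have := Nat.lt_floor_add_one ((p : ℝ) ^ (2 * δ₁))
    linarith
  have hεN : (p : ℝ) ^ δ₁ - 1 ≤ ε * N := by
    have h1 : ε * ((p : ℝ) ^ (2 * δ₁)) = (p : ℝ) ^ δ₁ := by
      rw [hεdef, ← Real.rpow_add hp0]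
      congr 1
      ring
    have h2 : ε * ((p : ℝ) ^ (2 * δ₁) - 1) ≤ ε * N := mul_le_mul_of_nonneg_left hNge.le hε0.le
    have h3 : ε * ((p : ℝ) ^ (2 * δ₁) - 1) = (p : ℝ) ^ δ₁ - ε := by rw [mul_sub, h1, mul_one]
    linarith
  have hsmall : (1 - ε) ^ N * #Φ < 1 := by
    have h1 : (1 - ε) ^ N ≤ Real.exp (-(ε * N)) := by
      have h2 : 1 - ε ≤ Real.exp (-ε) := by
        have := Real.add_one_le_exp (-ε)
        linarith
      calc (1 - ε) ^ N ≤ Real.exp (-ε) ^ N := pow_le_pow_left₀ (by linarith) h2 N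
        _ = Real.exp (-(ε * N)) := by
          rw [← Real.exp_nat_mul]
          congr 1
          ring
    have h3 : (#Φ : ℝ) ≤ Real.exp (4 * Real.log p) := by
      have h4 : Real.exp (4 * Real.log p) = (p : ℝ) ^ 4 := by
        rw [show (4 : ℝ) * Real.log p = ((4 : ℕ) : ℝ) * Real.log p by norm_num, Real.exp_nat_mul,
          Real.exp_log hp0]
      rw [h4]
      exact card_M2_le Φ
    calc (1 - ε) ^ N * (#Φ : ℝ) ≤ Real.exp (-(ε * N)) * Real.exp (4 * Real.log p) :=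
          mul_le_mul h1 h3 (by positivity) (Real.exp_pos _).le
      _ = Real.exp (-(ε * N) + 4 * Real.log p) := (Real.exp_add _ _).symm
      _ < 1 := by
        rw [Real.exp_lt_one_iff]
        linarith
  obtain ⟨Φ₀, Q, a1, a2, a3, a4, a5, a6, a7⟩ :=
    greedy (fun (i : (Fin 2 → ZMod p) × (Fin 2 → ZMod p)) (φ : M2 p) => par (φ *ᵥ i.1) i.2)
      (fun i => i.1 ≠ 0 ∧ i.2 ≠ 0) ε hε1 N Φ hsmall
  refine ⟨Φ₀, Q, a1, a2, a3, ?_, a5, fun v w hv hw => a6 (v, w) ⟨hv, hw⟩, ?_⟩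
  · exact (by exact_mod_cast a4 : ((#Q : ℕ) : ℝ) ≤ N).trans hNle
  · intro Ψ hΨ
    obtain ⟨i, ⟨hi1, hi2⟩, h⟩ := a7 Ψ hΨ
    exact ⟨i.1, i.2, hi1, hi2, h⟩

end MPcb27.PG
end

section
/-!
# MP_cb27ba_nt, project PG: the quadric `tr² = τ det` (module QDR)
-/
set_option autoImplicit false

namespace MPcb27.PG

open Finset Matrix
open scoped Pointwise

namespace QDR

variable {p : ℕ} [Fact p.Prime]

theorem tr_adj_comm (A X : M2 p) : (A.adjugate * X).trace = (X.adjugate * A).trace := by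
  rw [adj_eq, adj_eq, Matrix.trace_fin_two, Matrix.trace_fin_two]
  simp only [Matrix.mul_apply, Fin.sum_univ_two, Matrix.of_apply, Matrix.cons_val', Matrix.cons_val_zero,
    Matrix.cons_val_one, Matrix.cons_val_fin_one]
  ring

theorem key {G : Type} [Group G] {m : G → M2 p} (hm : IsPRep m) {τ : ZMod p} {v w : G}
    (hv : (m v).trace ^ 2 = τ * (m v).det) (hw : (m w).trace ^ 2 = τ * (m w).det) :
    ((m (v * w)).adjugate * m v).trace ^ 2 = (m (v * w)).det * (m v).trace ^ 2 := by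
  obtain ⟨c, hc, h1⟩ := hm.mul v⁻¹ (v * w)
  obtain ⟨d, hd, h2⟩ := hm.inv v
  rw [inv_mul_cancel_left, h2, smul_mul_assoc, smul_smul] at h1
  rw [h1, Matrix.trace_smul, Matrix.det_smul, Matrix.det_mul, Matrix.det_adjugate,
    Fintype.card_fin, smul_eq_mul] at hw
  have he : (c * d) ^ 2 ≠ 0 := pow_ne_zero 2 (mul_ne_zero hc hd)
  rw [← tr_adj_comm, hv]
  apply mul_left_cancel₀ he
  linear_combination hw

/-- the planes -/
theorem plane_ne {G : Type} [Group G] {m : G → M2 p} (hm : IsPRep m) {x : G} (hx : x ≠ 1)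
    (s : ZMod p) : (m x).adjugate - s • (1 : M2 p) ≠ 0 := by
  intro h
  apply hx
  apply hm.eq_one (c := s)
  have h1 : (m x).adjugate = s • (1 : M2 p) := sub_eq_zero.mp h
  rw [adj_eq] at h1
  have e00 := congrFun (congrFun h1 0) 0
  have e01 := congrFun (congrFun h1 0) 1
  have e10 := congrFun (congrFun h1 1) 0
  have e11 := congrFun (congrFun h1 1) 1
  simp at e00 e01 e10 e11
  ext i j
  fin_cases i <;> fin_cases j <;> simp [e00, e01, e10, e11]

end QDR

theorem specQDR : SpecQDR := by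
  intro p _ G _ _ m S T k q τ hm hT hq hpl
  have hmaps : ∀ y ∈ T ×ˢ T, y.1 * y.2 ∈ S ^ (2 * k) := by
    intro y hy
    rw [mem_product] at hy
    rw [two_mul, pow_add]
    exact mul_mem_mul (hT hy.1) (hT hy.2)
  have hfib : ∀ x : G, #((T ×ˢ T).filter fun y => y.1 * y.2 = x) ≤
      #(T.filter fun v => v⁻¹ * x ∈ T) := by
    intro x
    apply card_le_card_of_injOn Prod.fst
    · intro y hy
      simp only [coe_filter, mem_product, Set.mem_ofPred_eq] at hy ⊢
      refine ⟨hy.1.1, ?_⟩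
      rw [← hy.2, inv_mul_cancel_left]
      exact hy.1.2
    · intro y hy z hz hyz
      simp only [coe_filter, mem_product, Set.mem_ofPred_eq] at hy hz
      apply Prod.ext hyz
      have h1 : y.1 * y.2 = y.1 * z.2 := by rw [hy.2, hyz, hz.2]
      exact mul_left_cancel h1
  have hbd : ∀ x : G, x ≠ 1 → #(T.filter fun v => v⁻¹ * x ∈ T) ≤ 2 * q := by
    intro x hx
    have hkey : ∀ v ∈ T.filter (fun v => v⁻¹ * x ∈ T),
        ((m x).adjugate * m v).trace ^ 2 = (m x).det * (m v).trace ^ 2 := by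
      intro v hv
      rw [mem_filter] at hv
      have h1 := QDR.key hm (hq v hv.1) (hq _ hv.2)
      rwa [mul_inv_cancel_left] at h1
    by_cases hs : ∃ s : ZMod p, (m x).det = s ^ 2
    · obtain ⟨s, hs⟩ := hs
      have hsub : T.filter (fun v => v⁻¹ * x ∈ T) ⊆
          T.filter (fun v => (((m x).adjugate - s • (1 : M2 p)) * m v).trace = 0) ∪
          T.filter (fun v => (((m x).adjugate - (-s) • (1 : M2 p)) * m v).trace = 0) := by
        intro v hv
        have h1 := hkey v hv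
        rw [hs] at h1
        have hvT := (mem_filter.mp hv).1
        have h2 : ∀ t : ZMod p, (((m x).adjugate - t • (1 : M2 p)) * m v).trace =
            ((m x).adjugate * m v).trace - t * (m v).trace := by
          intro t
          rw [sub_mul, Matrix.trace_sub, smul_mul_assoc, one_mul, Matrix.trace_smul, smul_eq_mul]
        rw [mem_union, mem_filter, mem_filter, h2, h2]
        have h3 : (((m x).adjugate * m v).trace - s * (m v).trace) *
            (((m x).adjugate * m v).trace - -s * (m v).trace) = 0 := by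
          linear_combination h1
        rcases mul_eq_zero.mp h3 with h | h
        · exact Or.inl ⟨hvT, h⟩
        · exact Or.inr ⟨hvT, h⟩
      refine (card_le_card hsub).trans ((card_union_le _ _).trans ?_)
      have h1 := hpl _ (QDR.plane_ne hm hx s)
        (T.filter (fun v => (((m x).adjugate - s • (1 : M2 p)) * m v).trace = 0))
        ((filter_subset _ _).trans hT) (fun z hz => (mem_filter.mp hz).2)
      have h2 := hpl _ (QDR.plane_ne hm hx (-s))
        (T.filter (fun v => (((m x).adjugate - (-s) • (1 : M2 p)) * m v).trace = 0))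
        ((filter_subset _ _).trans hT) (fun z hz => (mem_filter.mp hz).2)
      omega
    · have h1 := hpl 1 one_ne_zero (T.filter (fun v => v⁻¹ * x ∈ T))
        ((filter_subset _ _).trans hT) (fun v hv => by
          rw [one_mul]
          by_contra h0
          apply hs
          refine ⟨((m x).adjugate * m v).trace / (m v).trace, ?_⟩
          rw [div_pow, hkey v hv, mul_div_assoc, div_self (pow_ne_zero 2 h0), mul_one])
      omega
  have hsum : #(T ×ˢ T) = ∑ x ∈ S ^ (2 * k), #((T ×ˢ T).filter fun y => y.1 * y.2 = x) :=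
    card_eq_sum_card_fiberwise hmaps
  rw [card_product, ← sq] at hsum
  rw [hsum]
  have hterm : ∀ x ∈ S ^ (2 * k), #((T ×ˢ T).filter fun y => y.1 * y.2 = x) ≤
      2 * q + if x = 1 then #T else 0 := by
    intro x _
    split_ifs with h1
    · exact ((hfib x).trans (card_le_card (filter_subset _ _))).trans (Nat.le_add_left _ _)
    · rw [add_zero]
      exact (hfib x).trans (hbd x h1)
  refine (sum_le_sum hterm).trans ?_
  rw [sum_add_distrib, sum_const, smul_eq_mul]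
  apply Nat.add_le_add_left
  rw [sum_ite_eq']
  split_ifs
  · exact le_rfl
  · exact Nat.zero_le _

end MPcb27.PG
end
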