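import Pool.Agent.Lib.MP_cb27ba_nt.PG.Spec
import Pool.Agent.Lib.MP_cb27ba_nt.TU.FINUK
import Pool.Agent.Lib.MP_cb27ba_nt.TU.P1a
import Pool.Agent.Lib.MP_cb27ba_nt.SP.FINSP
import Pool.Agent.Lib.MP_cb27ba_nt.MB.All
import Pool.Agent.Lib.MP_cb27ba_nt.LN.All
import Pool.Agent.Lib.MP_cb27ba_nt.PG.QDR
import Pool.Agent.Lib.MP_cb27ba_nt.PG.OPM
import Pool.Agent.Lib.MP_cb27ba_nt.PG.GEN
import Pool.Agent.Lib.MP_cb27ba_nt.PG.PVT
import Pool.Agent.Lib.MP_cb27ba_nt.PG.TAM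

section
/-!
# MP_cb27ba_nt, project PG: the final theorem
-/
set_option autoImplicit false

namespace MPcb27.PG

open Finset Matrix
open scoped Pointwise
open MPcb27.TU MPcb27.TW MPcb27.LN MPcb27.MB

namespace FINPG

variable {p : ℕ} [Fact p.Prime]

/-- the number of representations -/
def rp (Ψ : Finset (M2 p)) (C : Finset (ZMod p)) (a : ZMod p) : ℕ :=
  #((Ψ ×ˢ C).filter fun x => den x.1 x.2 ≠ 0 ∧ mob x.1 x.2 = a)

open scoped Classical in
/-- the elements with at least `x` representations -/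
noncomputable def XA (Ψ : Finset (M2 p)) (C : Finset (ZMod p)) (x : ℝ) : Finset (ZMod p) :=
  univ.filter fun a => x ≤ (rp Ψ C a : ℝ)

lemma sum_rp (Ψ : Finset (M2 p)) (C : Finset (ZMod p)) : ∑ a, rp Ψ C a ≤ #Ψ * #C := by
  classical
  rw [← card_product]
  have h := card_eq_sum_card_fiberwise (s := (Ψ ×ˢ C).filter fun x => den x.1 x.2 ≠ 0)
    (t := (univ : Finset (ZMod p))) (f := fun x => mob x.1 x.2) (fun _ _ => mem_coe.2 (mem_univ _))
  have h2 : ∑ a, rp Ψ C a = #((Ψ ×ˢ C).filter fun x => den x.1 x.2 ≠ 0) := by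
    rw [h]
    refine sum_congr rfl fun a _ => ?_
    rw [filter_filter, rp]
  rw [h2]
  exact card_le_card (filter_subset _ _)

lemma card_XA (Ψ : Finset (M2 p)) (C : Finset (ZMod p)) {x : ℝ} (hx : 0 < x) :
    (#(XA Ψ C x) : ℝ) ≤ #Ψ * #C / x := by
  classical
  rw [le_div_iff₀ hx]
  have h1 : (∑ a, rp Ψ C a : ℝ) ≤ #Ψ * #C := by exact_mod_cast sum_rp Ψ C
  refine le_trans ?_ h1
  calc (#(XA Ψ C x) : ℝ) * x = ∑ a ∈ XA Ψ C x, x := by rw [sum_const, nsmul_eq_mul]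
    _ ≤ ∑ a ∈ XA Ψ C x, (rp Ψ C a : ℝ) := by
        refine sum_le_sum fun a ha => ?_
        rw [XA, mem_filter] at ha
        exact ha.2
    _ ≤ _ := sum_le_sum_of_subset_of_nonneg (subset_univ _) fun _ _ _ => by positivity

/-- one `c` for every matrix -/
lemma rp_le (Φ : Finset (M2 p)) (hΦ : ∀ φ ∈ Φ, φ.det ≠ 0) (C : Finset (ZMod p)) (a : ZMod p) :
    rp Φ C a ≤ #Φ := by
  classical
  unfold rp
  refine card_le_card_of_injOn Prod.fst ?_ ?_
  · intro x hx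
    rw [mem_coe, mem_filter, mem_product] at hx
    exact hx.1.1
  · rintro ⟨φ, c⟩ hx ⟨ψ, d⟩ hy h
    rw [mem_coe, mem_filter, mem_product] at hx hy
    obtain rfl : φ = ψ := h
    have := mob_inj (hΦ φ hx.1.1) hx.2.1 hy.2.1 (hx.2.2.trans hy.2.2.symm)
    dsimp only at this
    rw [this]

/-- the statement of theorem A for one prime -/
def AM (p : ℕ) [Fact p.Prime] (δ τ : ℝ) : Prop :=
    ∀ (B : Finset (ZMod p)) (F : Finset (Finset (M2 p) × Finset (ZMod p) × ℕ)),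
      (p : ℝ) ^ δ ≤ #B →
      (∀ q ∈ F, (∀ φ ∈ q.1, φ.det ≠ 0) ∧ (p : ℝ) ^ δ ≤ #q.2.1 ∧ 1 ≤ q.2.2 ∧
        (p : ℝ) ^ (1 + δ) * NAM q.1 B ≤ (#q.1 : ℝ) ^ 2 * (#B : ℝ) ^ 4) →
      ∀ A : Finset (ZMod p),
        (∀ a ∈ A, ∃ q ∈ F, q.2.2 ≤ #((q.1 ×ˢ q.2.1).filter fun x =>
          den x.1 x.2 ≠ 0 ∧ mob x.1 x.2 = a)) →
        ∀ χ : MulChar (ZMod p) ℂ, χ ≠ 1 →
          NB χ A B ((p : ℝ) ^ (-τ) *
            Real.sqrt ((∑ q ∈ F, (#q.1 : ℝ) * #q.2.1 / q.2.2) * #B))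

lemma nam_ok {κ δ' τ : ℝ} (h1 : δ' ≤ κ / 2) (h2 : τ ≤ κ / 4) (Ψ : Finset (M2 p))
    (B : Finset (ZMod p)) (hB : (p : ℝ) ^ (1 / 2 - τ) ≤ #B)
    (hN : (NAM Ψ B : ℝ) ≤ (p : ℝ) ^ (-κ) * ((#Ψ : ℝ) ^ 2 * (#B : ℝ) ^ 2)) :
    (p : ℝ) ^ (1 + δ') * NAM Ψ B ≤ (#Ψ : ℝ) ^ 2 * (#B : ℝ) ^ 4 := by
  have hpr : p.Prime := Fact.out
  have hp1 : (1 : ℝ) ≤ p := by exact_mod_cast hpr.one_lt.le
  have hp0 : (0 : ℝ) < p := by linarith
  have h4 : (p : ℝ) ^ (1 + δ') * (p : ℝ) ^ (-κ) ≤ (#B : ℝ) ^ 2 := by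
    calc (p : ℝ) ^ (1 + δ') * (p : ℝ) ^ (-κ) = (p : ℝ) ^ (1 + δ' - κ) := by
          rw [← Real.rpow_add hp0]
          congr 1
      _ ≤ (p : ℝ) ^ ((1 / 2 - τ) * 2) :=
          Real.rpow_le_rpow_of_exponent_le hp1 (by linarith)
      _ = ((p : ℝ) ^ (1 / 2 - τ)) ^ 2 := by
          rw [Real.rpow_mul hp0.le, Real.rpow_two]
      _ ≤ _ := pow_le_pow_left₀ (by positivity) hB 2
  calc (p : ℝ) ^ (1 + δ') * NAM Ψ B
      ≤ (p : ℝ) ^ (1 + δ') * ((p : ℝ) ^ (-κ) * ((#Ψ : ℝ) ^ 2 * (#B : ℝ) ^ 2)) :=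
        mul_le_mul_of_nonneg_left hN (by positivity)
    _ = ((p : ℝ) ^ (1 + δ') * (p : ℝ) ^ (-κ)) *
          ((#Ψ : ℝ) ^ 2 * (#B : ℝ) ^ 2) := by ring
    _ ≤ (#B : ℝ) ^ 2 * ((#Ψ : ℝ) ^ 2 * (#B : ℝ) ^ 2) :=
        mul_le_mul_of_nonneg_right h4 (by positivity)
    _ = _ := by ring

/-- one part, by theorem A -/
lemma part_A {δ' τ' : ℝ} (hA : AM p δ' τ') (χ : MulChar (ZMod p) ℂ) (hχ : χ ≠ 1)
    (Ψ : Finset (M2 p)) (C B : Finset (ZMod p)) {x : ℝ} (hx : 0 < x)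
    (hdet : ∀ φ ∈ Ψ, φ.det ≠ 0) (hC : (p : ℝ) ^ δ' ≤ #C) (hB : (p : ℝ) ^ δ' ≤ #B)
    (hN : (p : ℝ) ^ (1 + δ') * NAM Ψ B ≤ (#Ψ : ℝ) ^ 2 * (#B : ℝ) ^ 4) :
    NB χ (XA Ψ C x) B (Real.sqrt ((p : ℝ) ^ (-(2 * τ')) * (#Ψ * #C / x) * #B)) := by
  classical
  have hp0 : (0 : ℝ) < p := by exact_mod_cast (Fact.out : p.Prime).pos
  have hn : 1 ≤ ⌈x⌉₊ := Nat.one_le_iff_ne_zero.2 (Nat.ceil_pos.2 hx).ne'
  have h := hA B {(Ψ, C, ⌈x⌉₊)} hB (by
    intro q hq
    rw [mem_singleton] at hq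
    subst hq
    exact ⟨hdet, hC, hn, hN⟩) (XA Ψ C x) (by
    intro a ha
    refine ⟨_, mem_singleton_self _, ?_⟩
    rw [XA, mem_filter] at ha
    exact Nat.ceil_le.2 ha.2) χ hχ
  rw [sum_singleton] at h
  refine SP.FINSP.nb_mono χ _ B ?_ h
  have h1 : (#Ψ : ℝ) * #C / (⌈x⌉₊ : ℕ) ≤ #Ψ * #C / x :=
    div_le_div_of_nonneg_left (by positivity) hx (Nat.le_ceil x)
  calc (p : ℝ) ^ (-τ') * Real.sqrt ((#Ψ : ℝ) * #C / (⌈x⌉₊ : ℕ) * #B)
      ≤ (p : ℝ) ^ (-τ') * Real.sqrt (#Ψ * #C / x * #B) :=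
        mul_le_mul_of_nonneg_left (Real.sqrt_le_sqrt
          (mul_le_mul_of_nonneg_right h1 (Nat.cast_nonneg _))) (by positivity)
    _ = _ := by
        rw [mul_assoc ((p : ℝ) ^ (-(2 * τ'))),
          Real.sqrt_mul (show (0 : ℝ) ≤ (p : ℝ) ^ (-(2 * τ')) by positivity)]
        congr 1
        rw [show (p : ℝ) ^ (-(2 * τ')) = ((p : ℝ) ^ (-τ')) ^ 2 by
          rw [← Real.rpow_natCast, ← Real.rpow_mul hp0.le]
          congr 1
          push_cast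
          ring]
        exact (Real.sqrt_sq (by positivity)).symm

/-- one part, trivially -/
lemma part_T (χ : MulChar (ZMod p) ℂ)
    (Ψ : Finset (M2 p)) (C B : Finset (ZMod p)) {x : ℝ} (hx : 0 < x) :
    NB χ (XA Ψ C x) B (Real.sqrt ((#Ψ * #C / x) * #B)) := by
  refine SP.FINSP.nb_mono χ _ B ?_ (P1.nb_triv χ _ B)
  refine Real.sqrt_le_sqrt (mul_le_mul_of_nonneg_right (card_XA Ψ C hx) (Nat.cast_nonneg _))

/-- the main step: one triple -/
lemma one_q {δ δ₁ τ τB τC : ℝ} (hδ₁ : 0 < δ₁) (h1 : 2 * δ₁ ≤ τB) (h2 : 16 * δ₁ ≤ δ)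
    (ht1 : 2 * τ ≤ τC) (ht2 : 4 * τ ≤ τB) (ht3 : 16 * τ ≤ δ) (hp8 : 8 ≤ (p : ℝ) ^ (2 * τ))
    (χ : MulChar (ZMod p) ℂ) (Φ : Finset (M2 p)) (C B : Finset (ZMod p)) {m : ℝ} (hm : 0 < m)
    (Φ₀ : Finset (M2 p)) (Q : Finset (Finset (M2 p))) (hΦ₀ : Φ₀ ⊆ Φ)
    (hcov : ∀ φ ∈ Φ, φ ∈ Φ₀ ∨ ∃ Ψ ∈ Q, φ ∈ Ψ) (hQ : ((#Q : ℕ) : ℝ) ≤ (p : ℝ) ^ (2 * δ₁))
    (hsum : ∑ Ψ ∈ Q, #Ψ ≤ #Φ)
    (hC0 : (p : ℝ) ^ (-(δ / 2)) * #Φ ≤ #Φ₀ → ∀ x : ℝ, 0 < x → NB χ (XA Φ₀ C x) B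
      (Real.sqrt ((p : ℝ) ^ (-(2 * τC)) * (#Φ₀ * #C / x) * #B)))
    (hB0 : ∀ Ψ ∈ Q, (p : ℝ) ^ (-(δ / 2)) * #Φ ≤ #Ψ → ∀ x : ℝ, 0 < x → NB χ (XA Ψ C x) B
      (Real.sqrt ((p : ℝ) ^ (-(2 * τB)) * (#Ψ * #C / x) * #B))) :
    NB χ (XA Φ C m) B ((p : ℝ) ^ (-τ) * Real.sqrt ((#Φ * #C / m) * #B)) := by
  classical
  have hpr : p.Prime := Fact.out
  have hp1 : (1 : ℝ) ≤ p := by exact_mod_cast hpr.one_lt.le
  have hp0 : (0 : ℝ) < p := by linarith
  set S : ℝ := #Φ * #C / m with hS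
  have hS0 : 0 ≤ S := by positivity
  set P2 : ℝ := (p : ℝ) ^ (-(δ / 2)) with hP2
  have hP20 : 0 < P2 := by positivity
  set PB : ℝ := (p : ℝ) ^ (-(2 * τB)) with hPB
  set PC : ℝ := (p : ℝ) ^ (-(2 * τC)) with hPC
  have hPB0 : 0 < PB := by positivity
  have hPC0 : 0 < PC := by positivity
  set n : ℝ := ((#Q : ℕ) : ℝ) with hn
  have hn0 : 0 ≤ n := by positivity
  set X : Option (Finset (M2 p)) → Finset (ZMod p) := fun o => match o with
    | none => XA Φ₀ C (m / 2)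
    | some Ψ => XA Ψ C (m / (2 * n)) with hX
  set w : Option (Finset (M2 p)) → ℝ := fun o => match o with
    | none => (PC + P2) * (2 * S)
    | some Ψ => (PB * #Ψ + P2 * #Φ) * (2 * n * (#C / m)) with hw
  have hCm : (0 : ℝ) ≤ #C / m := by positivity
  have hcover : ∀ a ∈ XA Φ C m, ∃ i ∈ insertNone Q, a ∈ X i := by
    intro a ha
    rw [XA, mem_filter] at ha
    have hrep : rp Φ C a ≤ rp Φ₀ C a + ∑ Ψ ∈ Q, rp Ψ C a := by
      unfold rp
      calc #((Φ ×ˢ C).filter fun x => den x.1 x.2 ≠ 0 ∧ mob x.1 x.2 = a) ≤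
            #(((Φ₀ ×ˢ C).filter fun x => den x.1 x.2 ≠ 0 ∧ mob x.1 x.2 = a) ∪
              Q.biUnion fun Ψ => (Ψ ×ˢ C).filter fun x => den x.1 x.2 ≠ 0 ∧ mob x.1 x.2 = a) := by
            refine card_le_card fun x hx => ?_
            rw [mem_filter, mem_product] at hx
            rw [mem_union, mem_filter, mem_product, mem_biUnion]
            rcases hcov _ hx.1.1 with h | ⟨Ψ, hΨ, h⟩
            · exact Or.inl ⟨⟨h, hx.1.2⟩, hx.2⟩
            · exact Or.inr ⟨Ψ, hΨ, by rw [mem_filter, mem_product]; exact ⟨⟨h, hx.1.2⟩, hx.2⟩⟩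
        _ ≤ _ := (card_union_le _ _).trans (Nat.add_le_add_left card_biUnion_le _)
    by_cases h0 : m / 2 ≤ (rp Φ₀ C a : ℝ)
    · refine ⟨none, ?_, ?_⟩
      · simp
      · show a ∈ XA Φ₀ C (m / 2)
        rw [XA, mem_filter]
        exact ⟨mem_univ _, h0⟩
    · by_contra hne
      push Not at hne
      have hlt : ∀ Ψ ∈ Q, (rp Ψ C a : ℝ) < m / (2 * n) := by
        intro Ψ hΨ
        have h3 := hne (some Ψ) (by simpa using hΨ)
        by_contra h4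
        apply h3
        show a ∈ XA Ψ C (m / (2 * n))
        rw [XA, mem_filter]
        exact ⟨mem_univ _, not_lt.1 h4⟩
      have h5 : (rp Φ C a : ℝ) ≤ rp Φ₀ C a + ∑ Ψ ∈ Q, (rp Ψ C a : ℝ) := by exact_mod_cast hrep
      rcases Q.eq_empty_or_nonempty with hQe | hQe
      · rw [hQe, sum_empty, add_zero] at h5
        have := ha.2
        linarith [not_le.1 h0]
      · have h6 : ∑ Ψ ∈ Q, (rp Ψ C a : ℝ) ≤ m / 2 := by
          have hnp : 0 < n := by rw [hn]; exact_mod_cast hQe.card_pos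
          calc ∑ Ψ ∈ Q, (rp Ψ C a : ℝ) ≤ ∑ _Ψ ∈ Q, m / (2 * n) :=
                sum_le_sum fun Ψ hΨ => (hlt Ψ hΨ).le
            _ = n * (m / (2 * n)) := by rw [sum_const, nsmul_eq_mul]
            _ = m / 2 := by field_simp
        have := ha.2
        linarith [not_le.1 h0]
  have hw0 : ∀ i ∈ insertNone Q, 0 ≤ w i := by
    intro i _
    rcases i with _ | Ψ
    · show 0 ≤ (PC + P2) * (2 * S)
      positivity
    · show 0 ≤ (PB * #Ψ + P2 * #Φ) * (2 * n * (#C / m))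
      positivity
  have hblock : ∀ i ∈ insertNone Q, ∀ j ∈ ({()} : Finset Unit),
      NB χ (X i) ((fun _ : Unit => B) j) (1 * Real.sqrt (w i * (fun _ : Unit => (#B : ℝ)) j)) := by
    intro i hi j _
    rw [one_mul]
    dsimp only
    rcases i with _ | Ψ
    · show NB χ (XA Φ₀ C (m / 2)) B (Real.sqrt ((PC + P2) * (2 * S) * #B))
      have hΦle : (#Φ₀ : ℝ) ≤ #Φ := by exact_mod_cast card_le_card hΦ₀
      by_cases hbig : P2 * #Φ ≤ #Φ₀
      · refine SP.FINSP.nb_mono χ _ B ?_ (hC0 hbig (m / 2) (by positivity))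
        refine Real.sqrt_le_sqrt (mul_le_mul_of_nonneg_right ?_ (Nat.cast_nonneg _))
        calc PC * (#Φ₀ * #C / (m / 2)) = PC * (2 * (#Φ₀ * (#C / m))) := by
              field_simp
          _ ≤ PC * (2 * (#Φ * (#C / m))) := by gcongr
          _ = PC * (2 * S) := by rw [hS]; ring
          _ ≤ _ := by
              have : 0 ≤ P2 * (2 * S) := by positivity
              linarith
      · refine SP.FINSP.nb_mono χ _ B ?_ (part_T χ Φ₀ C B (x := m / 2) (by positivity))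
        refine Real.sqrt_le_sqrt (mul_le_mul_of_nonneg_right ?_ (Nat.cast_nonneg _))
        calc (#Φ₀ : ℝ) * #C / (m / 2) = 2 * (#Φ₀ * (#C / m)) := by
              field_simp
          _ ≤ 2 * (P2 * #Φ * (#C / m)) := by
              have := (not_le.1 hbig).le
              gcongr
          _ = P2 * (2 * S) := by rw [hS]; ring
          _ ≤ _ := by
              have : 0 ≤ PC * (2 * S) := by positivity
              linarith
    · show NB χ (XA Ψ C (m / (2 * n))) B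
        (Real.sqrt ((PB * #Ψ + P2 * #Φ) * (2 * n * (#C / m)) * #B))
      have hΨ : Ψ ∈ Q := by simpa using hi
      have hnp : 0 < n := by rw [hn]; exact_mod_cast (Finset.card_pos.2 ⟨Ψ, hΨ⟩)
      by_cases hbig : P2 * #Φ ≤ #Ψ
      · refine SP.FINSP.nb_mono χ _ B ?_ (hB0 Ψ hΨ hbig (m / (2 * n)) (by positivity))
        refine Real.sqrt_le_sqrt (mul_le_mul_of_nonneg_right ?_ (Nat.cast_nonneg _))
        calc PB * (#Ψ * #C / (m / (2 * n))) = PB * #Ψ * (2 * n * (#C / m)) := by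
              field_simp
          _ ≤ _ := by
              refine mul_le_mul_of_nonneg_right ?_ (by positivity)
              have : 0 ≤ P2 * #Φ := by positivity
              linarith
      · refine SP.FINSP.nb_mono χ _ B ?_ (part_T χ Ψ C B (x := m / (2 * n)) (by positivity))
        refine Real.sqrt_le_sqrt (mul_le_mul_of_nonneg_right ?_ (Nat.cast_nonneg _))
        calc (#Ψ : ℝ) * #C / (m / (2 * n)) = #Ψ * (2 * n * (#C / m)) := by
              field_simp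
          _ ≤ _ := by
              refine mul_le_mul_of_nonneg_right ?_ (by positivity)
              have h4 := (not_le.1 hbig).le
              have : 0 ≤ PB * #Ψ := by positivity
              linarith
  have hU := specUNI p χ (Option (Finset (M2 p))) Unit (insertNone Q) {()} X (fun _ => B) w
    (fun _ => (#B : ℝ)) 1 zero_le_one hw0 (fun _ _ => Nat.cast_nonneg _) hblock (XA Φ C m) B
    hcover (fun b hb => ⟨(), mem_singleton_self _, hb⟩)
  refine SP.FINSP.nb_mono χ _ B ?_ hU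
  rw [one_mul, sum_singleton]
  have hsw : ∑ i ∈ insertNone Q, w i ≤ (p : ℝ) ^ (-(2 * τ)) * S := by
    rw [sum_insertNone]
    have e1 : ∑ Ψ ∈ Q, w (some Ψ) ≤ (PB * #Φ + P2 * #Φ * n) * (2 * n * (#C / m)) := by
      have : ∀ Ψ ∈ Q, w (some Ψ) = (PB * #Ψ + P2 * #Φ) * (2 * n * (#C / m)) := fun _ _ => rfl
      rw [sum_congr rfl this, ← sum_mul, sum_add_distrib, ← mul_sum, sum_const, nsmul_eq_mul]
      refine mul_le_mul_of_nonneg_right ?_ (by positivity)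
      have h7 : (∑ Ψ ∈ Q, (#Ψ : ℝ)) ≤ #Φ := by exact_mod_cast hsum
      have h8 := mul_le_mul_of_nonneg_left h7 hPB0.le
      have h9 : n * (P2 * #Φ) = P2 * #Φ * n := by ring
      rw [← hn, h9]
      linarith
    have e2 : w none = (PC + P2) * (2 * S) := rfl
    have e3 : (PB * #Φ + P2 * #Φ * n) * (2 * n * (#C / m)) = (PB * n + P2 * n ^ 2) * (2 * S) := by
      rw [hS]
      ring
    rw [e2]
    have q4 : (p : ℝ) ^ (-(2 * τ)) = (p : ℝ) ^ (2 * τ) * (p : ℝ) ^ (-(4 * τ)) := by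
      rw [← Real.rpow_add hp0]
      congr 1
      ring
    have q1 : PC ≤ (p : ℝ) ^ (-(4 * τ)) :=
      Real.rpow_le_rpow_of_exponent_le hp1 (by linarith)
    have q2 : P2 ≤ (p : ℝ) ^ (-(4 * τ)) :=
      Real.rpow_le_rpow_of_exponent_le hp1 (by linarith)
    have q3 : PB * n ≤ (p : ℝ) ^ (-(4 * τ)) := by
      calc PB * n ≤ PB * (p : ℝ) ^ (2 * δ₁) := mul_le_mul_of_nonneg_left hQ hPB0.le
        _ = (p : ℝ) ^ (-(2 * τB) + 2 * δ₁) := by rw [hPB, ← Real.rpow_add hp0]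
        _ ≤ _ := Real.rpow_le_rpow_of_exponent_le hp1 (by linarith)
    have q5 : P2 * n ^ 2 ≤ (p : ℝ) ^ (-(4 * τ)) := by
      calc P2 * n ^ 2 ≤ P2 * ((p : ℝ) ^ (2 * δ₁)) ^ 2 :=
            mul_le_mul_of_nonneg_left (pow_le_pow_left₀ hn0 hQ 2) hP20.le
        _ = (p : ℝ) ^ (-(δ / 2) + 2 * δ₁ * 2) := by
            rw [hP2, ← Real.rpow_natCast ((p : ℝ) ^ (2 * δ₁)) 2, ← Real.rpow_mul hp0.le,
              ← Real.rpow_add hp0]
            norm_num
        _ ≤ _ := Real.rpow_le_rpow_of_exponent_le hp1 (by linarith)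
    calc (PC + P2) * (2 * S) + ∑ Ψ ∈ Q, w (some Ψ) ≤
          (PC + P2) * (2 * S) + (PB * n + P2 * n ^ 2) * (2 * S) := by
          rw [← e3]
          linarith
      _ = (PC + P2 + PB * n + P2 * n ^ 2) * (2 * S) := by ring
      _ ≤ (4 * (p : ℝ) ^ (-(4 * τ))) * (2 * S) :=
          mul_le_mul_of_nonneg_right (by linarith) (by positivity)
      _ = 8 * (p : ℝ) ^ (-(4 * τ)) * S := by ring
      _ ≤ (p : ℝ) ^ (2 * τ) * (p : ℝ) ^ (-(4 * τ)) * S :=
          mul_le_mul_of_nonneg_right (mul_le_mul_of_nonneg_right hp8 (by positivity)) hS0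
      _ = _ := by rw [q4]
  calc Real.sqrt ((∑ i ∈ insertNone Q, w i) * #B) ≤
        Real.sqrt ((p : ℝ) ^ (-(2 * τ)) * S * #B) :=
        Real.sqrt_le_sqrt (mul_le_mul_of_nonneg_right hsw (Nat.cast_nonneg _))
    _ = (p : ℝ) ^ (-τ) * Real.sqrt (S * #B) := by
        rw [mul_assoc ((p : ℝ) ^ (-(2 * τ))),
          Real.sqrt_mul (show (0 : ℝ) ≤ (p : ℝ) ^ (-(2 * τ)) by positivity)]
        congr 1
        rw [show (p : ℝ) ^ (-(2 * τ)) = ((p : ℝ) ^ (-τ)) ^ 2 by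
          rw [← Real.rpow_natCast, ← Real.rpow_mul hp0.le]
          congr 1
          push_cast
          ring]
        exact Real.sqrt_sq (by positivity)

end FINPG

open FINPG in
/-- **THEOREM PG** -/
theorem finalPG (hA : FinalAM) (hCNM : SpecCNM) (hBOR : SpecBOR) (hPRT : SpecPRT)
    (hLNM : SpecLNM) : FinalPG := by
  classical
  intro δ hδ
  have hδ2 : 0 < min (δ / 2) (1 / 4) := lt_min (by positivity) (by norm_num)
  obtain ⟨κB, hκB, PB, hPB⟩ := hBOR (min (δ / 2) (1 / 4)) hδ2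
  set δB : ℝ := min δ (min (κB / 2) (1 / 4)) with hδB
  have hδB0 : 0 < δB := lt_min hδ (lt_min (by positivity) (by norm_num))
  obtain ⟨τB, hτB, PAB, hPAB⟩ := hA δB hδB0
  set δ₁ : ℝ := min (τB / 2) (δ / 16) with hδ₁
  have hδ₁0 : 0 < δ₁ := lt_min (by positivity) (by positivity)
  obtain ⟨κC, hκC, PC, hPC⟩ := hCNM (δ / 2) δ₁ (by positivity) hδ₁0
  set δC : ℝ := min δ (min (κC / 2) (1 / 4)) with hδC
  have hδC0 : 0 < δC := lt_min hδ (lt_min (by positivity) (by norm_num))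
  obtain ⟨τC, hτC, PAC, hPAC⟩ := hA δC hδC0
  obtain ⟨PQ, hPQ⟩ := hPRT δ₁ hδ₁0
  set τ : ℝ := min (min (τC / 2) (τB / 4)) (min (δ / 16) (min (1 / 4) (min (κB / 4) (κC / 4))))
    with hτ
  have hτ0 : 0 < τ := by
    rw [hτ]
    positivity
  have t1 : τ ≤ τC / 2 := (min_le_left _ _).trans (min_le_left _ _)
  have t2 : τ ≤ τB / 4 := (min_le_left _ _).trans (min_le_right _ _)
  have t3 : τ ≤ δ / 16 := (min_le_right _ _).trans (min_le_left _ _)
  have t4 : τ ≤ 1 / 4 := (min_le_right _ _).trans ((min_le_right _ _).trans (min_le_left _ _))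
  have t5 : τ ≤ κB / 4 := (min_le_right _ _).trans
    ((min_le_right _ _).trans ((min_le_right _ _).trans (min_le_left _ _)))
  have t6 : τ ≤ κC / 4 := (min_le_right _ _).trans
    ((min_le_right _ _).trans ((min_le_right _ _).trans (min_le_right _ _)))
  have d1 : δB ≤ δ := min_le_left _ _
  have d2 : δB ≤ κB / 2 := (min_le_right _ _).trans (min_le_left _ _)
  have d3 : δB ≤ 1 / 4 := (min_le_right _ _).trans (min_le_right _ _)
  have d4 : δC ≤ δ := min_le_left _ _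
  have d5 : δC ≤ κC / 2 := (min_le_right _ _).trans (min_le_left _ _)
  have d6 : δC ≤ 1 / 4 := (min_le_right _ _).trans (min_le_right _ _)
  have d7 : δ₁ ≤ τB / 2 := min_le_left _ _
  have d8 : δ₁ ≤ δ / 16 := min_le_right _ _
  obtain ⟨P8, hP8⟩ := MB.big 8 (2 * τ) (by positivity)
  refine ⟨τ, hτ0, max (max (max PB PAB) (max PC PAC)) (max PQ P8), ?_⟩
  intro p _ hp B F hB hF A hAF χ hχ
  have hpr : p.Prime := Fact.out
  have hp1 : (1 : ℝ) ≤ p := by exact_mod_cast hpr.one_lt.le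
  have hp0 : (0 : ℝ) < p := by linarith
  have g1 : PB ≤ p :=
    ((le_max_left _ _).trans (le_max_left _ _)).trans ((le_max_left _ _).trans hp)
  have g2 : PAB ≤ p :=
    ((le_max_right _ _).trans (le_max_left _ _)).trans ((le_max_left _ _).trans hp)
  have g3 : PC ≤ p :=
    ((le_max_left _ _).trans (le_max_right _ _)).trans ((le_max_left _ _).trans hp)
  have g4 : PAC ≤ p :=
    ((le_max_right _ _).trans (le_max_right _ _)).trans ((le_max_left _ _).trans hp)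
  have g5 : PQ ≤ p := (le_max_left _ _).trans ((le_max_right _ _).trans hp)
  have g6 : P8 ≤ p := (le_max_right _ _).trans ((le_max_right _ _).trans hp)
  rcases A.eq_empty_or_nonempty with rfl | hAne
  · intro α β
    simp only [sum_empty, norm_zero, Real.sqrt_zero, zero_mul, mul_zero, le_refl]
  rcases le_or_gt (#B : ℝ) ((p : ℝ) ^ (1 - δ / 2)) with hBs | hBl
  · -- the union over the triples
    have hS0 : ∀ q ∈ F, (0 : ℝ) ≤ (#q.1 : ℝ) * #q.2.1 / q.2.2 := fun _ _ => by positivity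
    have hU := specUNI p χ (Finset (M2 p) × Finset (ZMod p) × ℕ) Unit F {()}
      (fun q => XA q.1 q.2.1 (q.2.2 : ℝ)) (fun _ => B) (fun q => (#q.1 : ℝ) * #q.2.1 / q.2.2)
      (fun _ => (#B : ℝ)) ((p : ℝ) ^ (-τ)) (by positivity) hS0 (fun _ _ => Nat.cast_nonneg _) ?_
      A B ?_ (fun b hb => ⟨(), mem_singleton_self _, hb⟩)
    · rw [sum_singleton] at hU
      exact hU
    · intro q hq j _
      obtain ⟨hdet, hinj, hoff, hC, hm⟩ := hF q hq
      have hm0 : (0 : ℝ) < (q.2.2 : ℝ) := by exact_mod_cast hm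
      obtain ⟨Φ₀, Q, hΦ₀, hQsub, hcov, hQ, hsum, hcos, hQc⟩ := hPQ p g5 q.1
      have hline := hLNM p δ q.1 hoff
      have hBq : (p : ℝ) ^ (1 / 4 : ℝ) ≤ #B :=
        (Real.rpow_le_rpow_of_exponent_le hp1 (by linarith)).trans hB
      have hlineΨ : ∀ Ψ : Finset (M2 p), Ψ ⊆ q.1 → (p : ℝ) ^ (-(δ / 2)) * #q.1 ≤ #Ψ →
          ∀ r₀ r₁ : M2 p, NonSc r₀ →
            (#(Ψ.filter fun φ => φ * r₀ = r₁ * φ) : ℝ) ≤ (p : ℝ) ^ (-(δ / 2)) * #Ψ := by
        intro Ψ hΨ hbig r₀ r₁ hr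
        calc (#(Ψ.filter fun φ => φ * r₀ = r₁ * φ) : ℝ) ≤
              #(q.1.filter fun φ => φ * r₀ = r₁ * φ) := by
              exact_mod_cast card_le_card (filter_subset_filter _ hΨ)
          _ ≤ (p : ℝ) ^ (-δ) * #q.1 := hline r₀ r₁ hr
          _ = (p : ℝ) ^ (-(δ / 2)) * ((p : ℝ) ^ (-(δ / 2)) * #q.1) := by
              rw [← mul_assoc, ← Real.rpow_add hp0]
              congr 2
              ring
          _ ≤ _ := mul_le_mul_of_nonneg_left hbig (by positivity)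
      refine one_q (δ := δ) (δ₁ := δ₁) (τ := τ) (τB := τB) (τC := τC) hδ₁0 (by linarith)
        (by linarith) (by linarith) (by linarith) (by linarith) (hP8 p g6) χ q.1 q.2.1 B hm0
        Φ₀ Q hΦ₀ hcov hQ hsum ?_ ?_
      · intro hbig x hx
        refine part_A (hPAC p g4) χ hχ Φ₀ q.2.1 B hx (fun φ hφ => hdet φ (hΦ₀ hφ)) ?_ ?_ ?_
        · exact (Real.rpow_le_rpow_of_exponent_le hp1 d4).trans hC
        · exact (Real.rpow_le_rpow_of_exponent_le hp1 d6).trans hBq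
        · exact nam_ok d5 t6 Φ₀ B hB (hPC p g3 Φ₀ B (fun φ hφ => hdet φ (hΦ₀ hφ))
            (hlineΨ Φ₀ hΦ₀ hbig) hcos hBs)
      · intro Ψ hΨ hbig x hx
        have hsub := hQsub Ψ hΨ
        obtain ⟨v, w, hv, hw, hpar⟩ := hQc Ψ hΨ
        have e1 : min (δ / 2) (1 / 4) ≤ δ / 2 := min_le_left _ _
        have e2 : min (δ / 2) (1 / 4) ≤ (1 / 4 : ℝ) := min_le_right _ _
        refine part_A (hPAB p g2) χ hχ Ψ q.2.1 B hx (fun φ hφ => hdet φ (hsub hφ)) ?_ ?_ ?_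
        · exact (Real.rpow_le_rpow_of_exponent_le hp1 d1).trans hC
        · exact (Real.rpow_le_rpow_of_exponent_le hp1 d3).trans hBq
        · refine nam_ok d2 t5 Ψ B hB (hPB p g1 Ψ B v w (fun φ hφ => hdet φ (hsub hφ))
            (fun φ hφ ψ hψ => hinj φ (hsub hφ) ψ (hsub hψ)) hv hw hpar ?_ ?_ ?_)
          · intro r₀ r₁ hr
            refine (hlineΨ Ψ hsub hbig r₀ r₁ hr).trans ?_
            exact mul_le_mul_of_nonneg_right
              (Real.rpow_le_rpow_of_exponent_le hp1 (by linarith)) (Nat.cast_nonneg _)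
          · exact hBs.trans (Real.rpow_le_rpow_of_exponent_le hp1 (by linarith))
          · exact (Real.rpow_le_rpow_of_exponent_le hp1 e2).trans hBq
    · intro a ha
      obtain ⟨q, hq, hqa⟩ := hAF a ha
      refine ⟨q, hq, ?_⟩
      rw [XA, mem_filter]
      exact ⟨mem_univ _, by exact_mod_cast hqa⟩
  · -- the trivial bound
    obtain ⟨S₀, hS₀⟩ : ∃ S₀ : ℝ, S₀ = ∑ q ∈ F, (#q.1 : ℝ) * #q.2.1 / q.2.2 := ⟨_, rfl⟩
    rw [← hS₀]
    refine SP.FINSP.nb_mono χ A B ?_ (SP.FINSP.nb_sqrt χ hχ A B)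
    obtain ⟨a, ha⟩ := hAne
    obtain ⟨q, hq, hqa⟩ := hAF a ha
    obtain ⟨hdet, hinj, hoff, hC, hm⟩ := hF q hq
    have h1 : (q.2.2 : ℝ) ≤ #q.1 := by exact_mod_cast hqa.trans (rp_le q.1 hdet q.2.1 a)
    have hm0 : (0 : ℝ) < q.2.2 := by exact_mod_cast hm
    have h2 : (p : ℝ) ^ δ ≤ (#q.1 : ℝ) * #q.2.1 / q.2.2 := by
      rw [le_div_iff₀ hm0]
      calc (p : ℝ) ^ δ * q.2.2 ≤ #q.2.1 * #q.1 :=
            mul_le_mul hC h1 hm0.le (Nat.cast_nonneg _)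
        _ = _ := mul_comm _ _
    have h3 : (p : ℝ) ^ δ ≤ S₀ := by
      rw [hS₀]
      refine h2.trans ?_
      exact single_le_sum (f := fun q : Finset (M2 p) × Finset (ZMod p) × ℕ =>
        (#q.1 : ℝ) * #q.2.1 / q.2.2) (fun _ _ => by positivity) hq
    have h4 : (p : ℝ) ≤ (p : ℝ) ^ (-(2 * τ)) * (S₀ * #B) := by
      calc (p : ℝ) = (p : ℝ) ^ (1 : ℝ) := (Real.rpow_one _).symm
        _ ≤ (p : ℝ) ^ (-(2 * τ) + (δ + (1 - δ / 2))) :=
            Real.rpow_le_rpow_of_exponent_le hp1 (by linarith)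
        _ = (p : ℝ) ^ (-(2 * τ)) * ((p : ℝ) ^ δ * (p : ℝ) ^ (1 - δ / 2)) := by
            rw [Real.rpow_add hp0, Real.rpow_add hp0 δ]
        _ ≤ _ := by
            refine mul_le_mul_of_nonneg_left ?_ (by positivity)
            exact mul_le_mul h3 hBl.le (by positivity) (le_trans (by positivity) h3)
    calc Real.sqrt p ≤ Real.sqrt ((p : ℝ) ^ (-(2 * τ)) * (S₀ * #B)) := Real.sqrt_le_sqrt h4
      _ = (p : ℝ) ^ (-τ) * Real.sqrt (S₀ * #B) := by
          rw [Real.sqrt_mul (show (0 : ℝ) ≤ (p : ℝ) ^ (-(2 * τ)) by positivity)]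
          congr 1
          rw [show (p : ℝ) ^ (-(2 * τ)) = ((p : ℝ) ^ (-τ)) ^ 2 by
            rw [← Real.rpow_natCast, ← Real.rpow_mul hp0.le]
            congr 1
            push_cast
            ring]
          exact Real.sqrt_sq (by positivity)

end MPcb27.PG
end

section
/-!
# MP_cb27ba_nt, project PG: assembly

Families of Moebius maps not concentrated on a projective line, against an arbitrary set.
-/
set_option autoImplicit false

namespace MPcb27.PG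

/-- the centralizers of an approximate group in `PGL(2, p)` -/
theorem cen : SpecCEN := specCEN (specPLN specLIN) specQDR

/-- the product theorem -/
theorem clm : SpecCLM := specCLM cen (specPVT cen) (specORB specLCD) specGEN

/-- flattening -/
theorem flm : SpecFLM := specFLM LN.specTRG LN.specBSGG LN.specAPX clm

/-- the count without rich point cosets -/
theorem cnm : SpecCNM := specCNM flm specOPM specITM specREP

/-- THEOREM PG -/
theorem theoremPG : FinalPG :=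
  finalPG (finalAM TW.mom2) cnm (specBOR LN.nal) specPRT specLNM

end MPcb27.PG
end
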