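import Pool.Agent.Lib.MP_cb27ba_nt.LN.Spec

/-!
# MP_cb27ba_nt, project PG (families of Moebius maps): basic definitions and lemmas

`G` a group with an injective projective representation `m : G → M2 p` by invertible 2x2 matrices.
-/

set_option autoImplicit false

namespace MPcb27.PG

open Finset Matrix
open scoped Pointwise

/-- 2x2 matrices over `ZMod p` -/
abbrev M2 (p : ℕ) := Matrix (Fin 2) (Fin 2) (ZMod p)

/-- injective projective representation -/
structure IsPRep {G : Type} [Group G] {p : ℕ} (m : G → M2 p) : Prop where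
  det_ne : ∀ g, (m g).det ≠ 0
  mul : ∀ g h, ∃ c : ZMod p, c ≠ 0 ∧ m (g * h) = c • (m g * m h)
  inj : ∀ g h, ∀ c : ZMod p, m g = c • m h → g = h

/-- not a scalar matrix -/
def NonSc {p : ℕ} (r : M2 p) : Prop := ∀ c : ZMod p, r ≠ c • (1 : M2 p)

/-- parallel vectors -/
def par {p : ℕ} (v w : Fin 2 → ZMod p) : Prop := v 0 * w 1 = v 1 * w 0

/-- `S` is contained neither in the stabilizer of a point of the projective line nor in the
normalizer of a torus -/
def ND {G : Type} {p : ℕ} (m : G → M2 p) (S : Finset G) : Prop :=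
  (∀ v : Fin 2 → ZMod p, v ≠ 0 → ∃ s ∈ S, ¬ par (m s *ᵥ v) v) ∧
    ∀ r : M2 p, r.trace = 0 → r.det ≠ 0 → ∃ s ∈ S, m s * r ≠ r * m s ∧ m s * r ≠ -(r * m s)

section mat

variable {p : ℕ} [Fact p.Prime]

theorem adj_eq (r : M2 p) : r.adjugate = !![r 1 1, -r 0 1; -r 1 0, r 0 0] :=
  Matrix.adjugate_fin_two r

/-- the centralizer of a nonscalar matrix -/
theorem comm_span {r t : M2 p} (hr : NonSc r) (h : t * r = r * t) :
    ∃ x y : ZMod p, t = x • (1 : M2 p) + y • r := by
  have e00 := congrFun (congrFun h 0) 0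
  have e01 := congrFun (congrFun h 0) 1
  have e10 := congrFun (congrFun h 1) 0
  simp only [Matrix.mul_apply, Fin.sum_univ_two] at e00 e01 e10
  have key : ∀ x y : ZMod p, t 0 0 = x + y * r 0 0 → t 0 1 = y * r 0 1 → t 1 0 = y * r 1 0 →
      t 1 1 = x + y * r 1 1 → ∃ x y : ZMod p, t = x • (1 : M2 p) + y • r := by
    intro x y h1 h2 h3 h4
    refine ⟨x, y, ?_⟩
    ext i j
    fin_cases i <;> fin_cases j <;> simp [h1, h2, h3, h4]
  by_cases hb : r 0 1 = 0
  · by_cases hc : r 1 0 = 0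
    · have had : r 0 0 - r 1 1 ≠ 0 := by
        intro h0
        apply hr (r 0 0)
        ext i j
        fin_cases i <;> fin_cases j <;> simp [hb, hc]
        exact (sub_eq_zero.mp h0).symm
      have t01 : t 0 1 = 0 := by
        rcases mul_eq_zero.mp (show (r 0 0 - r 1 1) * t 0 1 = 0 by
          rw [hb] at e01; linear_combination -e01) with h | h
        · exact absurd h had
        · exact h
      have t10 : t 1 0 = 0 := by
        rcases mul_eq_zero.mp (show (r 0 0 - r 1 1) * t 1 0 = 0 by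
          rw [hc] at e10; linear_combination e10) with h | h
        · exact absurd h had
        · exact h
      refine key (t 0 0 - (t 0 0 - t 1 1) / (r 0 0 - r 1 1) * r 0 0)
        ((t 0 0 - t 1 1) / (r 0 0 - r 1 1)) (by ring) (by rw [t01, hb]; ring)
        (by rw [t10, hc]; ring) ?_
      field_simp
      ring
    · refine key (t 0 0 - t 1 0 / r 1 0 * r 0 0) (t 1 0 / r 1 0) (by ring) ?_ (by field_simp) ?_
      · have : t 0 1 * r 1 0 = t 1 0 * r 0 1 := by linear_combination e00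
        field_simp
        linear_combination this
      · field_simp
        linear_combination e10
  · refine key (t 0 0 - t 0 1 / r 0 1 * r 0 0) (t 0 1 / r 0 1) (by ring) (by field_simp) ?_ ?_
    · have : t 0 1 * r 1 0 = t 1 0 * r 0 1 := by linear_combination e00
      field_simp
      linear_combination -this
    · field_simp
      linear_combination -e01

theorem comm_comm {r t u : M2 p} (hr : NonSc r) (ht : t * r = r * t) (hu : u * r = r * u) :
    t * u = u * t := by
  obtain ⟨x, y, rfl⟩ := comm_span hr ht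
  obtain ⟨z, w, rfl⟩ := comm_span hr hu
  simp only [add_mul, mul_add, smul_mul_assoc, mul_smul_comm, one_mul, mul_one]
  module

theorem nonSc_smul {r : M2 p} (hr : NonSc r) {c : ZMod p} (hc : c ≠ 0) : NonSc (c • r) := by
  intro d h
  apply hr (c⁻¹ * d)
  rw [mul_smul, ← h, smul_smul, inv_mul_cancel₀ hc, one_smul]

/-- square zero for a nilpotent matrix -/
theorem sq_eq_zero {r : M2 p} (ht : r.trace = 0) (hd : r.det = 0) : r * r = 0 := by
  rw [Matrix.trace_fin_two] at ht
  rw [Matrix.det_fin_two] at hd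
  have h1 : r 1 1 = -r 0 0 := by linear_combination ht
  rw [h1] at hd
  ext i j
  fin_cases i <;> fin_cases j <;> simp [Matrix.mul_apply, Fin.sum_univ_two, h1]
  · linear_combination -hd
  · ring
  · ring
  · linear_combination -hd

end mat

namespace IsPRep

variable {G : Type} [Group G] {p : ℕ} [Fact p.Prime] {m : G → M2 p}

theorem one (hm : IsPRep m) : ∃ c : ZMod p, c ≠ 0 ∧ m 1 = c • (1 : M2 p) := by
  obtain ⟨c, hc, h⟩ := hm.mul 1 1
  rw [mul_one] at h
  refine ⟨c⁻¹, inv_ne_zero hc, ?_⟩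
  have hu : IsUnit (m 1).det := (hm.det_ne 1).isUnit
  have h2 : m 1 * (m 1)⁻¹ = c • (m 1 * m 1) * (m 1)⁻¹ := by rw [← h]
  rw [Matrix.mul_nonsing_inv _ hu, smul_mul_assoc, mul_assoc, Matrix.mul_nonsing_inv _ hu,
    mul_one] at h2
  rw [h2, smul_smul, inv_mul_cancel₀ hc, one_smul]

theorem inv (hm : IsPRep m) (g : G) : ∃ c : ZMod p, c ≠ 0 ∧ m g⁻¹ = c • (m g).adjugate := by
  obtain ⟨c, hc, h⟩ := hm.mul g⁻¹ g
  obtain ⟨d, hd, h1⟩ := hm.one
  rw [inv_mul_cancel, h1] at h
  refine ⟨c⁻¹ * d * (m g).det⁻¹, mul_ne_zero (mul_ne_zero (inv_ne_zero hc) hd)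
    (inv_ne_zero (hm.det_ne g)), ?_⟩
  have h2 : d • (1 : M2 p) * (m g).adjugate = c • (m g⁻¹ * m g) * (m g).adjugate := by rw [h]
  rw [smul_mul_assoc, one_mul, smul_mul_assoc, mul_assoc, Matrix.mul_adjugate, mul_smul_comm,
    mul_one, smul_smul] at h2
  have h3 : m g⁻¹ = (c * (m g).det)⁻¹ • (d • (m g).adjugate) := by
    rw [h2, smul_smul, inv_mul_cancel₀ (mul_ne_zero hc (hm.det_ne g)), one_smul]
  rw [h3, smul_smul]
  congr 1
  rw [mul_inv]
  ring

theorem eq_one (hm : IsPRep m) {g : G} {c : ZMod p} (h : m g = c • (1 : M2 p)) : g = 1 := by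
  obtain ⟨d, hd, h1⟩ := hm.one
  refine hm.inj g 1 (c * d⁻¹) ?_
  rw [h, h1, smul_smul, mul_assoc, inv_mul_cancel₀ hd, mul_one]

theorem nonSc (hm : IsPRep m) {g : G} (hg : g ≠ 1) : NonSc (m g) :=
  fun _ h => hg (hm.eq_one h)

/-- commuting matrices give commuting elements -/
theorem comm (hm : IsPRep m) {g h : G} (he : m g * m h = m h * m g) : g * h = h * g := by
  obtain ⟨c, hc, h1⟩ := hm.mul g h
  obtain ⟨d, hd, h2⟩ := hm.mul h g
  refine hm.inj _ _ (c * d⁻¹) ?_
  rw [h1, h2, smul_smul, mul_assoc, inv_mul_cancel₀ hd, mul_one, he]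

/-- conjugation -/
theorem conj (hm : IsPRep m) (g h : G) :
    ∃ c : ZMod p, c ≠ 0 ∧ m (g * h * g⁻¹) = c • (m g * m h * (m g).adjugate) := by
  obtain ⟨c, hc, h1⟩ := hm.mul (g * h) g⁻¹
  obtain ⟨d, hd, h2⟩ := hm.mul g h
  obtain ⟨e, he, h3⟩ := hm.inv g
  refine ⟨c * d * e, mul_ne_zero (mul_ne_zero hc hd) he, ?_⟩
  rw [h1, h2, h3, smul_mul_assoc, mul_smul_comm, smul_smul, smul_smul]

/-- commuting elements: the matrices commute up to the sign -/
theorem comm_iff (hm : IsPRep m) {g h : G} (he : g * h = h * g) :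
    m g * m h = m h * m g ∨ m g * m h = -(m h * m g) := by
  obtain ⟨c, hc, h1⟩ := hm.mul g h
  obtain ⟨d, hd, h2⟩ := hm.mul h g
  rw [he, h2] at h1
  have h3 : m g * m h = (c⁻¹ * d) • (m h * m g) := by
    rw [mul_smul, h1, smul_smul, inv_mul_cancel₀ hc, one_smul]
  have h4 : (m g * m h).det = ((c⁻¹ * d) • (m h * m g)).det := by rw [← h3]
  rw [Matrix.det_smul, Matrix.det_mul, Matrix.det_mul, Fintype.card_fin] at h4
  have h5 : (c⁻¹ * d) ^ 2 = 1 := by
    have h6 : (m g).det * (m h).det ≠ 0 := mul_ne_zero (hm.det_ne g) (hm.det_ne h)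
    have h7 : ((c⁻¹ * d) ^ 2 - 1) * ((m g).det * (m h).det) = 0 := by
      linear_combination -h4
    rcases mul_eq_zero.mp h7 with h8 | h8
    · exact sub_eq_zero.mp h8
    · exact absurd h8 h6
  rcases (show c⁻¹ * d = 1 ∨ c⁻¹ * d = -1 from by
      rcases mul_eq_zero.mp (show (c⁻¹ * d - 1) * (c⁻¹ * d + 1) = 0 by linear_combination h5) with h | h
      · exact Or.inl (sub_eq_zero.mp h)
      · exact Or.inr (eq_neg_of_add_eq_zero_left h)) with h6 | h6
  · left
    rw [h3, h6, one_smul]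
  · right
    rw [h3, h6, neg_smul, one_smul]

end IsPRep

end MPcb27.PG
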