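import Pool.Agent.Lib.MP_cb27ba_nt.PG.Spec
import Pool.Agent.Lib.MP_cb27ba_nt.TW.TA

/-!
# MP_cb27ba_nt, project PG: THEOREM A for families of Möbius maps
-/

set_option autoImplicit false

namespace MPcb27.PG

open Finset
open scoped Pointwise
open MPcb27.TU MPcb27.TW MPcb27.MB

namespace TAM

variable {p : ℕ} [Fact p.Prime]

/-- the preimage of a point -/
def iv (θ : M2 p) (b : ZMod p) : ZMod p :=
  (b * θ 1 1 - θ 0 1) * (θ 0 0 - θ 1 0 * b)⁻¹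

lemma iv_spec {θ : M2 p} (hθ : θ.det ≠ 0) {b : ZMod p} (hb : θ 1 0 * b ≠ θ 0 0) :
    den θ (iv θ b) ≠ 0 ∧ mob θ (iv θ b) = b := by
  have h1 : θ 0 0 - θ 1 0 * b ≠ 0 := fun h => hb (sub_eq_zero.1 h).symm
  have h2 : den θ (iv θ b) = θ.det * (θ 0 0 - θ 1 0 * b)⁻¹ := by
    unfold den iv
    rw [Matrix.det_fin_two]
    field_simp
    ring
  have h3 : den θ (iv θ b) ≠ 0 := by
    rw [h2]
    exact mul_ne_zero hθ (inv_ne_zero h1)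
  refine ⟨h3, ?_⟩
  have h4 : mob θ (iv θ b) = (θ 0 0 * (iv θ b) + θ 0 1) * (den θ (iv θ b))⁻¹ := rfl
  rw [h4, h2, mul_inv_eq_iff_eq_mul₀ (mul_ne_zero hθ (inv_ne_zero h1)), Matrix.det_fin_two]
  have e1 : (θ 0 0 - θ 1 0 * b) * (θ 0 0 - θ 1 0 * b)⁻¹ = 1 := mul_inv_cancel₀ h1
  unfold iv
  linear_combination (-(θ 0 1)) * e1

omit [Fact p.Prime] in
lemma norm_chi (χ : MulChar (ZMod p) ℂ) (x : ZMod p) : ‖χ x‖ ≤ 1 :=
  DirichletCharacter.norm_le_one (n := p) χ x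

lemma chi_conj (χ : MulChar (ZMod p) ℂ) {x : ZMod p} (hx : x ≠ 0) :
    χ x * (starRingEnd ℂ) (χ x) = 1 := by
  have h := DirichletCharacter.unit_norm_eq_one (n := p) χ (Units.mk0 x hx)
  rw [Units.val_mk0] at h
  rw [Complex.mul_conj, Complex.normSq_eq_norm_sq, h]
  norm_num

/-- the inner sum for one map and two points which are not the image of infinity -/
lemma inner (χ : MulChar (ZMod p) ℂ) {θ : M2 p} (hθ : θ.det ≠ 0) (C : Finset (ZMod p))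
    {b b' : ZMod p} (hb : θ 1 0 * b ≠ θ 0 0) (hb' : θ 1 0 * b' ≠ θ 0 0) :
    ‖∑ c ∈ C.filter (fun c => den θ c ≠ 0),
        χ (mob θ c - b) * (starRingEnd ℂ) (χ (mob θ c - b'))‖ ≤
      KK χ C (-iv θ b, -iv θ b') + 1 := by
  classical
  obtain ⟨h1, h2⟩ := iv_spec hθ hb
  obtain ⟨h3, h4⟩ := iv_spec hθ hb'
  set x := iv θ b with hx
  set y := iv θ b' with hy
  have e1 : ∑ c ∈ C.filter (fun c => den θ c ≠ 0),
      χ (mob θ c - b) * (starRingEnd ℂ) (χ (mob θ c - b')) =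
      (χ (den θ x)⁻¹ * (starRingEnd ℂ) (χ (den θ y)⁻¹)) *
        ∑ c ∈ C.filter (fun c => den θ c ≠ 0), χ (-x + c) * (starRingEnd ℂ) (χ (-y + c)) := by
    rw [mul_sum]
    refine sum_congr rfl fun c hc => ?_
    have hc' := (mem_filter.1 hc).2
    have e2 : mob θ c - b = θ.det * (c - x) * ((den θ c)⁻¹ * (den θ x)⁻¹) := by
      rw [← mob_sub hc' h1, h2]
    have e3 : mob θ c - b' = θ.det * (c - y) * ((den θ c)⁻¹ * (den θ y)⁻¹) := by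
      rw [← mob_sub hc' h3, h4]
    have e4 := chi_conj χ hθ
    have e5 := chi_conj χ (inv_ne_zero hc')
    rw [e2, e3]
    simp only [map_mul]
    have e6 : c - x = -x + c := by ring
    have e7 : c - y = -y + c := by ring
    rw [e6, e7]
    calc χ θ.det * χ (-x + c) * (χ (den θ c)⁻¹ * χ (den θ x)⁻¹) *
          ((starRingEnd ℂ) (χ θ.det) * (starRingEnd ℂ) (χ (-y + c)) *
            ((starRingEnd ℂ) (χ (den θ c)⁻¹) * (starRingEnd ℂ) (χ (den θ y)⁻¹))) =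
          (χ θ.det * (starRingEnd ℂ) (χ θ.det)) * (χ (den θ c)⁻¹ *
            (starRingEnd ℂ) (χ (den θ c)⁻¹)) * ((χ (den θ x)⁻¹ *
            (starRingEnd ℂ) (χ (den θ y)⁻¹)) * (χ (-x + c) * (starRingEnd ℂ) (χ (-y + c)))) := by
          ring
      _ = _ := by rw [e4, e5]; ring
  have e8 : ∑ c ∈ C.filter (fun c => den θ c ≠ 0), χ (-x + c) * (starRingEnd ℂ) (χ (-y + c)) =
      ∑ c ∈ C, χ (-x + c) * (starRingEnd ℂ) (χ (-y + c)) -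
        ∑ c ∈ C.filter (fun c => ¬ den θ c ≠ 0), χ (-x + c) * (starRingEnd ℂ) (χ (-y + c)) := by
    rw [← sum_filter_add_sum_filter_not C (fun c => den θ c ≠ 0)]
    ring
  have e9 : ‖∑ c ∈ C.filter (fun c => ¬ den θ c ≠ 0),
      χ (-x + c) * (starRingEnd ℂ) (χ (-y + c))‖ ≤ 1 := by
    have hcard : #(C.filter (fun c => ¬ den θ c ≠ 0)) ≤ 1 := by
      rw [card_le_one]
      intro c hc c' hc'
      have a1 := (mem_filter.1 hc).2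
      have a2 := (mem_filter.1 hc').2
      rw [not_not] at a1 a2
      unfold den at a1 a2
      by_cases h10 : θ 1 0 = 0
      · exfalso
        rw [h10, zero_mul, zero_add] at a1
        rw [Matrix.det_fin_two, h10, a1] at hθ
        apply hθ
        ring
      · have : θ 1 0 * c = θ 1 0 * c' := by linear_combination a1 - a2
        exact mul_left_cancel₀ h10 this
    calc ‖∑ c ∈ C.filter (fun c => ¬ den θ c ≠ 0),
          χ (-x + c) * (starRingEnd ℂ) (χ (-y + c))‖ ≤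
          ∑ _c ∈ C.filter (fun c => ¬ den θ c ≠ 0), (1 : ℝ) := by
          refine (norm_sum_le _ _).trans (sum_le_sum fun c _ => ?_)
          rw [norm_mul, Complex.norm_conj]
          exact mul_le_one₀ (norm_chi χ _) (norm_nonneg _) (norm_chi χ _)
      _ = #(C.filter (fun c => ¬ den θ c ≠ 0)) := by rw [sum_const, nsmul_eq_mul, mul_one]
      _ ≤ 1 := by exact_mod_cast hcard
  have e10 : ‖χ (den θ x)⁻¹ * (starRingEnd ℂ) (χ (den θ y)⁻¹)‖ ≤ 1 := by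
    rw [norm_mul, Complex.norm_conj]
    exact mul_le_one₀ (norm_chi χ _) (norm_nonneg _) (norm_chi χ _)
  rw [e1, norm_mul, e8]
  calc ‖χ (den θ x)⁻¹ * (starRingEnd ℂ) (χ (den θ y)⁻¹)‖ *
        ‖∑ c ∈ C, χ (-x + c) * (starRingEnd ℂ) (χ (-y + c)) -
        ∑ c ∈ C.filter (fun c => ¬ den θ c ≠ 0), χ (-x + c) * (starRingEnd ℂ) (χ (-y + c))‖ ≤
        1 * (‖∑ c ∈ C, χ (-x + c) * (starRingEnd ℂ) (χ (-y + c))‖ + 1) := by
        refine mul_le_mul e10 ?_ (norm_nonneg _) zero_le_one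
        exact (norm_sub_le _ _).trans (by linarith)
    _ = _ := by rw [one_mul]; rfl

/-- the number of coincidences -/
lemma coinc (Φ : Finset (M2 p)) (hΦ : ∀ φ ∈ Φ, φ.det ≠ 0) (B : Finset (ZMod p))
    (S : Finset (M2 p × ZMod p × ZMod p))
    (hS : S = (Φ ×ˢ B ×ˢ B).filter fun q => q.1 1 0 * q.2.1 ≠ q.1 0 0 ∧
      q.1 1 0 * q.2.2 ≠ q.1 0 0) :
    #((S ×ˢ S).filter fun q => ((-iv q.1.1 q.1.2.1, -iv q.1.1 q.1.2.2) : ZMod p × ZMod p) =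
      (-iv q.2.1 q.2.2.1, -iv q.2.1 q.2.2.2)) ≤ NAM Φ B := by
  classical
  have h1 : NAM Φ B = #((Φ ×ˢ Φ).sigma fun q => (pre q.1 B ∩ pre q.2 B) ×ˢ
      (pre q.1 B ∩ pre q.2 B)) := by
    rw [card_sigma, sum_product]
    unfold NAM
    refine sum_congr rfl fun φ _ => sum_congr rfl fun ψ _ => ?_
    have e0 : (univ.filter fun z : ZMod p =>
        den φ z ≠ 0 ∧ mob φ z ∈ B ∧ den ψ z ≠ 0 ∧ mob ψ z ∈ B) = pre φ B ∩ pre ψ B := by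
      ext z
      rw [pre, pre, mem_inter, mem_filter, mem_filter, mem_filter]
      tauto
    rw [e0, card_product, pow_two]
  rw [h1]
  have hpm : ∀ (θ : M2 p) (z : ZMod p), z ∈ pre θ B ↔ den θ z ≠ 0 ∧ mob θ z ∈ B := by
    intro θ z
    rw [pre, mem_filter]
    simp
  refine card_le_card_of_injOn (fun q => ⟨(q.1.1, q.2.1),
    (iv q.1.1 q.1.2.1, iv q.1.1 q.1.2.2)⟩) ?_ ?_
  · intro q hq
    rw [mem_coe, mem_filter, mem_product, hS, mem_filter, mem_filter, mem_product, mem_product,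
      mem_product, mem_product] at hq
    obtain ⟨⟨⟨⟨q1, q2, q3⟩, q4, q5⟩, ⟨q6, q7, q8⟩, q9, q10⟩, hE⟩ := hq
    rw [Prod.mk.injEq, neg_inj, neg_inj] at hE
    obtain ⟨a1, a2⟩ := iv_spec (hΦ _ q1) q4
    obtain ⟨a3, a4⟩ := iv_spec (hΦ _ q1) q5
    obtain ⟨a5, a6⟩ := iv_spec (hΦ _ q6) q9
    obtain ⟨a7, a8⟩ := iv_spec (hΦ _ q6) q10
    rw [mem_coe, mem_sigma]
    refine ⟨mem_product.2 ⟨q1, q6⟩, mem_product.2 ⟨mem_inter.2 ⟨?_, ?_⟩, mem_inter.2 ⟨?_, ?_⟩⟩⟩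
    · exact (hpm _ _).2 ⟨a1, a2.symm ▸ q2⟩
    · rw [hpm]
      dsimp only
      rw [hE.1]
      exact ⟨a5, a6.symm ▸ q7⟩
    · exact (hpm _ _).2 ⟨a3, a4.symm ▸ q3⟩
    · rw [hpm]
      dsimp only
      rw [hE.2]
      exact ⟨a7, a8.symm ▸ q8⟩
  · rintro ⟨⟨φ, b, b'⟩, ψ, b₁, b₁'⟩ hq ⟨⟨φ2, b2, b2'⟩, ψ2, b3, b3'⟩ hq' h
    rw [mem_coe, mem_filter, mem_product, hS, mem_filter, mem_filter, mem_product, mem_product,
      mem_product, mem_product] at hq hq'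
    obtain ⟨⟨⟨⟨q1, q2, q3⟩, q4, q5⟩, ⟨q6, q7, q8⟩, q9, q10⟩, hE⟩ := hq
    obtain ⟨⟨⟨⟨r1, r2, r3⟩, r4, r5⟩, ⟨r6, r7, r8⟩, r9, r10⟩, hE'⟩ := hq'
    dsimp only at q1 q2 q3 q4 q5 q6 q7 q8 q9 q10 r1 r2 r3 r4 r5 r6 r7 r8 r9 r10
    rw [Prod.mk.injEq, neg_inj, neg_inj] at hE hE'
    dsimp only at hE hE'
    simp only [Sigma.mk.injEq, Prod.mk.injEq, heq_eq_eq] at h
    obtain ⟨⟨rfl, rfl⟩, h3, h4⟩ := h
    have k1 : b = b2 := by rw [← (iv_spec (hΦ _ q1) q4).2, h3, (iv_spec (hΦ _ q1) r4).2]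
    have k2 : b' = b2' := by rw [← (iv_spec (hΦ _ q1) q5).2, h4, (iv_spec (hΦ _ q1) r5).2]
    have k3 : b₁ = b3 := by
      rw [← (iv_spec (hΦ _ q6) q9).2, ← hE.1, h3, hE'.1, (iv_spec (hΦ _ q6) r9).2]
    have k4 : b₁' = b3' := by
      rw [← (iv_spec (hΦ _ q6) q10).2, ← hE.2, h4, hE'.2, (iv_spec (hΦ _ q6) r10).2]
    rw [k1, k2, k3, k4]

/-- HOA for Möbius maps -/
theorem hoam (hM : SpecMOM2) : ∀ k : ℕ, 1 ≤ k → ∃ C₀ : ℝ, 0 ≤ C₀ ∧ ∀ (p : ℕ) [Fact p.Prime]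
    (χ : MulChar (ZMod p) ℂ), χ ≠ 1 →
    ∀ (Φ : Finset (M2 p)) (C B : Finset (ZMod p)) (ρ : ℝ), (∀ φ ∈ Φ, φ.det ≠ 0) →
      (p : ℝ) ≤ (#C : ℝ) ^ k → 0 ≤ ρ →
      C₀ * NAM Φ B * p ≤ ρ ^ (2 * k) * ((#Φ : ℝ) * (#B : ℝ) ^ 2) ^ 2 →
      ∑ b ∈ B, ∑ b' ∈ B, ‖∑ t ∈ (Φ ×ˢ C).filter (fun x => den x.1 x.2 ≠ 0),
          χ (mob t.1 t.2 - b) * (starRingEnd ℂ) (χ (mob t.1 t.2 - b'))‖ ≤
        (#B : ℝ) ^ 2 * (#Φ * #C * ρ) + #Φ * (#B : ℝ) ^ 2 + 2 * #Φ * #B * #C := by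
  classical
  intro k hk
  obtain ⟨C₀, hC₀, hmom⟩ := hM k hk
  refine ⟨2 * C₀, by positivity, ?_⟩
  intro p _ χ hχ Φ C B ρ hΦ hC hρ hE
  have hp : (0 : ℝ) < p := by exact_mod_cast (Fact.out : p.Prime).pos
  obtain ⟨S, hS⟩ : ∃ S : Finset (M2 p × ZMod p × ZMod p), S = (Φ ×ˢ B ×ˢ B).filter fun q =>
    q.1 1 0 * q.2.1 ≠ q.1 0 0 ∧ q.1 1 0 * q.2.2 ≠ q.1 0 0 := ⟨_, rfl⟩
  set g : M2 p × ZMod p × ZMod p → ZMod p × ZMod p :=
    fun q => (-iv q.1 q.2.1, -iv q.1 q.2.2) with hg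
  have hKK : ∀ q, 0 ≤ KK χ C q := fun q => norm_nonneg _
  -- the bad points
  have hbad : ∀ φ ∈ Φ, #(B.filter fun b => ¬ φ 1 0 * b ≠ φ 0 0) ≤ 1 := by
    intro φ hφ
    have hd := hΦ φ hφ
    rw [card_le_one]
    intro b hb b' hb'
    rw [mem_filter, not_not] at hb hb'
    by_cases hc : φ 1 0 = 0
    · exfalso
      rw [Matrix.det_fin_two] at hd
      have h3 := hb.2
      rw [hc, zero_mul] at h3
      apply hd
      rw [← h3, hc]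
      ring
    · exact mul_left_cancel₀ hc (hb.2.trans hb'.2.symm)
  -- the sum is at most the sum of the inner sums
  have h1 : ∑ b ∈ B, ∑ b' ∈ B, ‖∑ t ∈ (Φ ×ˢ C).filter (fun x => den x.1 x.2 ≠ 0),
      χ (mob t.1 t.2 - b) * (starRingEnd ℂ) (χ (mob t.1 t.2 - b'))‖ ≤
        ∑ q ∈ S, KK χ C (g q) + #Φ * (#B : ℝ) ^ 2 + 2 * #Φ * #B * #C := by
    have e0 : ∀ b b' : ZMod p, ∑ t ∈ (Φ ×ˢ C).filter (fun x => den x.1 x.2 ≠ 0),
        χ (mob t.1 t.2 - b) * (starRingEnd ℂ) (χ (mob t.1 t.2 - b')) =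
        ∑ φ ∈ Φ, ∑ c ∈ C.filter (fun c => den φ c ≠ 0),
          χ (mob φ c - b) * (starRingEnd ℂ) (χ (mob φ c - b')) := by
      intro b b'
      rw [sum_filter, sum_product]
      refine sum_congr rfl fun φ _ => ?_
      rw [sum_filter]
    have e1 : ∀ b b' : ZMod p, ∀ φ ∈ Φ, ‖∑ c ∈ C.filter (fun c => den φ c ≠ 0),
          χ (mob φ c - b) * (starRingEnd ℂ) (χ (mob φ c - b'))‖ ≤
          (if φ 1 0 * b ≠ φ 0 0 ∧ φ 1 0 * b' ≠ φ 0 0 then KK χ C (g (φ, b, b')) else 0) + 1 +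
          (#C * (if ¬ φ 1 0 * b ≠ φ 0 0 then (1 : ℝ) else 0) +
            #C * (if ¬ φ 1 0 * b' ≠ φ 0 0 then (1 : ℝ) else 0)) := by
      intro b b' φ hφ
      by_cases h2 : φ 1 0 * b ≠ φ 0 0 ∧ φ 1 0 * b' ≠ φ 0 0
      · rw [if_pos h2, if_neg (not_not.2 h2.1), if_neg (not_not.2 h2.2), mul_zero, add_zero,
          add_zero]
        exact inner χ (hΦ φ hφ) C h2.1 h2.2
      · rw [if_neg h2, zero_add]
        have h3 : ‖∑ c ∈ C.filter (fun c => den φ c ≠ 0),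
            χ (mob φ c - b) * (starRingEnd ℂ) (χ (mob φ c - b'))‖ ≤ #C := by
          calc ‖∑ c ∈ C.filter (fun c => den φ c ≠ 0),
                χ (mob φ c - b) * (starRingEnd ℂ) (χ (mob φ c - b'))‖ ≤
                ∑ _c ∈ C.filter (fun c => den φ c ≠ 0), (1 : ℝ) := by
                refine (norm_sum_le _ _).trans (sum_le_sum fun c _ => ?_)
                rw [norm_mul, Complex.norm_conj]
                exact mul_le_one₀ (norm_chi χ _) (norm_nonneg _) (norm_chi χ _)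
            _ = #(C.filter (fun c => den φ c ≠ 0)) := by rw [sum_const, nsmul_eq_mul, mul_one]
            _ ≤ #C := by exact_mod_cast card_le_card (filter_subset _ _)
        have hC0 : (0 : ℝ) ≤ #C := by positivity
        by_cases h4 : φ 1 0 * b ≠ φ 0 0
        · have h5 : ¬ φ 1 0 * b' ≠ φ 0 0 := fun h => h2 ⟨h4, h⟩
          rw [if_pos h5]
          split_ifs
          linarith
        · rw [if_pos h4]
          split_ifs <;> linarith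
    have e2 : ∑ b ∈ B, ∑ b' ∈ B, ‖∑ t ∈ (Φ ×ˢ C).filter (fun x => den x.1 x.2 ≠ 0),
        χ (mob t.1 t.2 - b) * (starRingEnd ℂ) (χ (mob t.1 t.2 - b'))‖ ≤
        ∑ b ∈ B, ∑ b' ∈ B, ∑ φ ∈ Φ,
          ((if φ 1 0 * b ≠ φ 0 0 ∧ φ 1 0 * b' ≠ φ 0 0 then KK χ C (g (φ, b, b')) else 0) + 1 +
          (#C * (if ¬ φ 1 0 * b ≠ φ 0 0 then (1 : ℝ) else 0) +
            #C * (if ¬ φ 1 0 * b' ≠ φ 0 0 then (1 : ℝ) else 0))) := by
      refine sum_le_sum fun b _ => sum_le_sum fun b' _ => ?_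
      rw [e0]
      exact (norm_sum_le _ _).trans (sum_le_sum fun φ hφ => e1 b b' φ hφ)
    refine e2.trans ?_
    have e3 : ∑ b ∈ B, ∑ b' ∈ B, ∑ φ ∈ Φ,
          ((if φ 1 0 * b ≠ φ 0 0 ∧ φ 1 0 * b' ≠ φ 0 0 then KK χ C (g (φ, b, b')) else 0) + 1 +
          (#C * (if ¬ φ 1 0 * b ≠ φ 0 0 then (1 : ℝ) else 0) +
            #C * (if ¬ φ 1 0 * b' ≠ φ 0 0 then (1 : ℝ) else 0))) =
        ∑ φ ∈ Φ, (∑ b ∈ B, ∑ b' ∈ B,
          (if φ 1 0 * b ≠ φ 0 0 ∧ φ 1 0 * b' ≠ φ 0 0 then KK χ C (g (φ, b, b')) else 0) +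
          (#B : ℝ) ^ 2 + (#C * (#B * #(B.filter fun b => ¬ φ 1 0 * b ≠ φ 0 0)) +
          #C * (#B * #(B.filter fun b => ¬ φ 1 0 * b ≠ φ 0 0)))) := by
      have e4 : ∑ b ∈ B, ∑ b' ∈ B, ∑ φ ∈ Φ,
          ((if φ 1 0 * b ≠ φ 0 0 ∧ φ 1 0 * b' ≠ φ 0 0 then KK χ C (g (φ, b, b')) else 0) + 1 +
          (#C * (if ¬ φ 1 0 * b ≠ φ 0 0 then (1 : ℝ) else 0) +
            #C * (if ¬ φ 1 0 * b' ≠ φ 0 0 then (1 : ℝ) else 0))) =
          ∑ φ ∈ Φ, ∑ b ∈ B, ∑ b' ∈ B,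
          ((if φ 1 0 * b ≠ φ 0 0 ∧ φ 1 0 * b' ≠ φ 0 0 then KK χ C (g (φ, b, b')) else 0) + 1 +
          (#C * (if ¬ φ 1 0 * b ≠ φ 0 0 then (1 : ℝ) else 0) +
            #C * (if ¬ φ 1 0 * b' ≠ φ 0 0 then (1 : ℝ) else 0))) := by
        rw [sum_congr rfl fun b (_ : b ∈ B) => sum_comm (s := B) (t := Φ)]
        exact sum_comm
      rw [e4]
      refine sum_congr rfl fun φ _ => ?_
      have e5 : ∑ b' ∈ B, (if ¬ φ 1 0 * b' ≠ φ 0 0 then (1 : ℝ) else 0) =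
          #(B.filter fun b => ¬ φ 1 0 * b ≠ φ 0 0) := by
        rw [← sum_filter, sum_const, nsmul_eq_mul, mul_one]
      simp only [sum_add_distrib, ← mul_sum, sum_const, nsmul_eq_mul, e5, mul_one]
      ring
    rw [e3, sum_add_distrib, sum_add_distrib, sum_const, nsmul_eq_mul]
    have e6 : ∑ φ ∈ Φ, ∑ b ∈ B, ∑ b' ∈ B,
        (if φ 1 0 * b ≠ φ 0 0 ∧ φ 1 0 * b' ≠ φ 0 0 then KK χ C (g (φ, b, b')) else 0) =
        ∑ q ∈ S, KK χ C (g q) := by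
      rw [hS, sum_filter, sum_product]
      refine sum_congr rfl fun φ _ => ?_
      rw [sum_product]
    rw [e6]
    have e7 : ∑ φ ∈ Φ, ((#C : ℝ) * (#B * #(B.filter fun b => ¬ φ 1 0 * b ≠ φ 0 0)) +
          #C * (#B * #(B.filter fun b => ¬ φ 1 0 * b ≠ φ 0 0))) ≤
        ∑ _φ ∈ Φ, (2 * #B * #C : ℝ) := by
      refine sum_le_sum fun φ hφ => ?_
      have h2 : (#(B.filter fun b => ¬ φ 1 0 * b ≠ φ 0 0) : ℝ) ≤ 1 := by
        exact_mod_cast hbad φ hφ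
      have h3 : (0 : ℝ) ≤ #C * #B := by positivity
      nlinarith [mul_le_mul_of_nonneg_left h2 h3]
    rw [sum_const, nsmul_eq_mul] at e7
    linarith
  -- Hoelder
  have h2 := Burg.holder S univ g (fun _ _ => mem_univ _) (KK χ C) hKK k hk
  have h3 : (#((S ×ˢ S).filter fun q => g q.1 = g q.2) : ℝ) ≤ NAM Φ B := by
    exact_mod_cast coinc Φ hΦ B S hS
  have h4 : (#S : ℝ) ≤ (#Φ : ℝ) * (#B : ℝ) ^ 2 := by
    have h5 : #S ≤ #(Φ ×ˢ B ×ˢ B) := by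
      rw [hS]
      exact card_le_card (filter_subset _ _)
    rw [card_product, card_product] at h5
    calc (#S : ℝ) ≤ ((#Φ * (#B * #B) : ℕ) : ℝ) := by exact_mod_cast h5
      _ = _ := by push_cast; ring
  have h5 := hmom p χ hχ C
  have h6 : C₀ * ((#C : ℝ) ^ k * (p : ℝ) ^ 2 + (#C : ℝ) ^ (2 * k) * p) ≤
      2 * C₀ * p * (#C : ℝ) ^ (2 * k) := by
    have : (#C : ℝ) ^ k * (p : ℝ) ^ 2 ≤ (#C : ℝ) ^ (2 * k) * p := by
      have e : (#C : ℝ) ^ (2 * k) * p = (#C : ℝ) ^ k * p * (#C : ℝ) ^ k := by ring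
      rw [e, sq, ← mul_assoc]
      exact mul_le_mul_of_nonneg_left hC (by positivity)
    nlinarith [mul_le_mul_of_nonneg_left this hC₀]
  set V : ℝ := (#Φ : ℝ) * (#B : ℝ) ^ 2 with hV
  have hV0 : 0 ≤ V := by positivity
  have hmom0 : 0 ≤ ∑ t : ZMod p × ZMod p, KK χ C t ^ (2 * k) :=
    sum_nonneg fun t _ => pow_nonneg (hKK t) _
  have h7 : (∑ q ∈ S, KK χ C (g q)) ^ (2 * k) ≤ (V * #C * ρ) ^ (2 * k) := by
    refine h2.trans ?_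
    calc (#S : ℝ) ^ (2 * (k - 1)) * (#((S ×ˢ S).filter fun q => g q.1 = g q.2) : ℝ) *
          ∑ t : ZMod p × ZMod p, KK χ C t ^ (2 * k)
        ≤ V ^ (2 * (k - 1)) * (NAM Φ B : ℝ) * ∑ t : ZMod p × ZMod p, KK χ C t ^ (2 * k) := by
          refine mul_le_mul_of_nonneg_right ?_ hmom0
          exact mul_le_mul (pow_le_pow_left₀ (by positivity) h4 _) h3 (by positivity)
            (by positivity)
      _ ≤ V ^ (2 * (k - 1)) * (NAM Φ B : ℝ) * (2 * C₀ * p * (#C : ℝ) ^ (2 * k)) :=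
          mul_le_mul_of_nonneg_left (h5.trans h6) (by positivity)
      _ = V ^ (2 * (k - 1)) * (#C : ℝ) ^ (2 * k) * (2 * C₀ * NAM Φ B * p) := by ring
      _ ≤ V ^ (2 * (k - 1)) * (#C : ℝ) ^ (2 * k) * (ρ ^ (2 * k) * V ^ 2) :=
          mul_le_mul_of_nonneg_left hE (by positivity)
      _ = (V * #C * ρ) ^ (2 * k) := by
          obtain ⟨n, rfl⟩ : ∃ n, k = n + 1 := ⟨k - 1, by omega⟩
          rw [Nat.add_sub_cancel]
          ring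
  have h8 : ∑ q ∈ S, KK χ C (g q) ≤ V * #C * ρ :=
    le_of_pow_le_pow_left₀ (by omega) (by positivity) h7
  have h9 : V * #C * ρ = (#B : ℝ) ^ 2 * (#Φ * #C * ρ) := by
    rw [hV]
    ring
  linarith

/-- GRAMA for Möbius maps, on the level of square sums -/
theorem gramAM_sq (χ : MulChar (ZMod p) ℂ) (Φ : Finset (M2 p))
    (C B : Finset (ZMod p)) (m : ℕ) (ρ : ℝ) (hm : 1 ≤ m)
    (hG : ∑ b ∈ B, ∑ b' ∈ B, ‖∑ t ∈ (Φ ×ˢ C).filter (fun x => den x.1 x.2 ≠ 0),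
        χ (mob t.1 t.2 - b) * (starRingEnd ℂ) (χ (mob t.1 t.2 - b'))‖ ≤
      ρ ^ 4 * (#Φ * #C) * (#B : ℝ) ^ 2) (A : Finset (ZMod p))
    (hA : ∀ a ∈ A, m ≤ #((Φ ×ˢ C).filter fun x => den x.1 x.2 ≠ 0 ∧ mob x.1 x.2 = a))
    (β : ZMod p → ℂ) :
    ∑ a ∈ A, ‖∑ b ∈ B, β b * χ (a - b)‖ ^ 2 ≤
      ρ ^ 2 * ((#Φ : ℝ) * #C / m) * #B * ∑ b ∈ B, ‖β b‖ ^ 2 := by
  classical
  have hm0 : (0 : ℝ) < m := by exact_mod_cast hm
  obtain ⟨T, hT⟩ : ∃ T : Finset (M2 p × ZMod p),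
    T = (Φ ×ˢ C).filter (fun x => den x.1 x.2 ≠ 0) := ⟨_, rfl⟩
  have h1 : (m : ℝ) * ∑ a ∈ A, ‖∑ b ∈ B, β b * χ (a - b)‖ ^ 2 ≤
      ∑ q ∈ T, ‖∑ b ∈ B, β b * χ (mob q.1 q.2 - b)‖ ^ 2 := by
    have h2 : ∑ a ∈ A, ∑ q ∈ T.filter (fun q => mob q.1 q.2 = a),
        ‖∑ b ∈ B, β b * χ (mob q.1 q.2 - b)‖ ^ 2 ≤
        ∑ q ∈ T, ‖∑ b ∈ B, β b * χ (mob q.1 q.2 - b)‖ ^ 2 := by
      rw [← sum_fiberwise (s := T) (g := fun q => mob q.1 q.2)]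
      exact sum_le_sum_of_subset_of_nonneg (subset_univ _)
        (fun a _ _ => sum_nonneg fun q _ => sq_nonneg _)
    refine le_trans ?_ h2
    rw [mul_sum]
    refine sum_le_sum fun a ha => ?_
    have h3 : ∑ q ∈ T.filter (fun q => mob q.1 q.2 = a),
        ‖∑ b ∈ B, β b * χ (mob q.1 q.2 - b)‖ ^ 2 =
        #(T.filter fun q => mob q.1 q.2 = a) * ‖∑ b ∈ B, β b * χ (a - b)‖ ^ 2 := by
      rw [sum_congr rfl (fun q hq => by rw [(mem_filter.mp hq).2]), sum_const, nsmul_eq_mul]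
    rw [h3]
    refine mul_le_mul_of_nonneg_right ?_ (sq_nonneg _)
    have h4 := hA a ha
    rw [hT, filter_filter]
    exact_mod_cast h4
  have hTc : (#T : ℝ) ≤ (#Φ : ℝ) * #C := by
    rw [hT, ← Nat.cast_mul, ← card_product]
    exact_mod_cast card_le_card (filter_subset _ _)
  have h2 := GRAMM.core χ T (fun q => mob q.1 q.2) B ρ ((#Φ : ℝ) * #C) hTc (by rw [hT]; exact hG) β
  have h3 : (m : ℝ) * ∑ a ∈ A, ‖∑ b ∈ B, β b * χ (a - b)‖ ^ 2 ≤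
      ρ ^ 2 * ((#Φ : ℝ) * #C) * #B * ∑ b ∈ B, ‖β b‖ ^ 2 := h1.trans h2
  have h4 : ρ ^ 2 * ((#Φ : ℝ) * #C / m) * #B * ∑ b ∈ B, ‖β b‖ ^ 2 =
      (ρ ^ 2 * ((#Φ : ℝ) * #C) * #B * ∑ b ∈ B, ‖β b‖ ^ 2) / m := by ring
  rw [h4, le_div_iff₀ hm0, mul_comm]
  exact h3

end TAM

open TAM in
/-- **THEOREM A** for Möbius maps -/
theorem finalAM (hM : SpecMOM2) : FinalAM := by
  classical
  intro δ hδ
  obtain ⟨k, hk⟩ := exists_nat_ge (1 / δ)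
  have hk0 : (0 : ℝ) < k := lt_of_lt_of_le (by positivity) hk
  have hk1 : 1 ≤ k := by
    have : 0 < k := by exact_mod_cast hk0
    omega
  obtain ⟨C₀, hC₀, hH⟩ := hoam hM k hk1
  refine ⟨δ / (32 * k), by positivity, ?_⟩
  have ev : ∀ᶠ x : ℝ in Filter.atTop, C₀ ≤ x ^ (δ / 2) ∧ 4 ≤ x ^ (δ / (8 * k)) :=
    ((tendsto_rpow_atTop (by positivity)).eventually_ge_atTop C₀).and
      ((tendsto_rpow_atTop (by positivity)).eventually_ge_atTop 4)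
  obtain ⟨P, hP⟩ := Filter.eventually_atTop.1 (tendsto_natCast_atTop_atTop.eventually ev)
  refine ⟨P, fun p _ hp B F hB hF A hA χ hχ => ?_⟩
  have hp1 : (1 : ℝ) < p := by exact_mod_cast (Fact.out : p.Prime).one_lt
  have hp0 : (0 : ℝ) < p := by linarith
  obtain ⟨hPp, hP4⟩ := hP p hp
  set ρ : ℝ := (p : ℝ) ^ (-(δ / (4 * k))) with hρ
  have hρ0 : 0 < ρ := Real.rpow_pos_of_pos hp0 _
  have h2 : ρ ^ (2 * k) = (p : ℝ) ^ (-(δ / 2)) := by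
    rw [hρ, ← Real.rpow_natCast, ← Real.rpow_mul hp0.le]
    congr 1
    push_cast
    field_simp
    ring
  have h5 : 4 * ρ ≤ ((p : ℝ) ^ (-(δ / (32 * k)))) ^ 4 := by
    have e1 : ((p : ℝ) ^ (-(δ / (32 * k)))) ^ 4 = (p : ℝ) ^ (-(δ / (8 * k))) := by
      rw [← Real.rpow_natCast, ← Real.rpow_mul hp0.le]
      congr 1
      push_cast
      field_simp
      ring
    rw [e1]
    calc 4 * ρ ≤ (p : ℝ) ^ (δ / (8 * k)) * ρ := mul_le_mul_of_nonneg_right hP4 hρ0.le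
      _ = (p : ℝ) ^ (-(δ / (8 * k))) := by
          rw [hρ, ← Real.rpow_add hp0]
          congr 1
          field_simp
          ring
  have hδρ : (p : ℝ) ^ (-δ) ≤ ρ := by
    rw [hρ]
    refine Real.rpow_le_rpow_of_exponent_le hp1.le ?_
    have : δ / (4 * k) ≤ δ := by
      rw [div_le_iff₀ (by positivity)]
      have : (1 : ℝ) ≤ k := by exact_mod_cast hk1
      nlinarith
    linarith
  have hinv : ∀ x : ℝ, (p : ℝ) ^ δ ≤ x → 1 ≤ ρ * x := by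
    intro x hx
    have e1 : (p : ℝ) ^ (-δ) * (p : ℝ) ^ δ = 1 := by
      rw [← Real.rpow_add hp0]
      simp
    calc (1 : ℝ) = (p : ℝ) ^ (-δ) * (p : ℝ) ^ δ := e1.symm
      _ ≤ ρ * x := mul_le_mul hδρ hx (by positivity) hρ0.le
  -- one member of the family
  have hone : ∀ q ∈ F, ∀ β : ZMod p → ℂ,
      ∑ a ∈ A.filter (fun a => q.2.2 ≤ #((q.1 ×ˢ q.2.1).filter fun x =>
          den x.1 x.2 ≠ 0 ∧ mob x.1 x.2 = a)),
        ‖∑ b ∈ B, β b * χ (a - b)‖ ^ 2 ≤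
      ((p : ℝ) ^ (-(δ / (32 * k)))) ^ 2 * ((#q.1 : ℝ) * #q.2.1 / q.2.2) * #B *
        ∑ b ∈ B, ‖β b‖ ^ 2 := by
    rintro ⟨Φ, C, m⟩ hq β
    obtain ⟨hΦ, hC, hm, hE⟩ := hF _ hq
    simp only at hΦ hC hm hE ⊢
    have h1 : (p : ℝ) ≤ (#C : ℝ) ^ k := by
      calc (p : ℝ) = (p : ℝ) ^ (1 : ℝ) := (Real.rpow_one _).symm
        _ ≤ (p : ℝ) ^ (δ * k) := by
          apply Real.rpow_le_rpow_of_exponent_le hp1.le
          rw [div_le_iff₀ hδ] at hk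
          linarith
        _ = ((p : ℝ) ^ δ) ^ k := by rw [Real.rpow_mul hp0.le, Real.rpow_natCast]
        _ ≤ (#C : ℝ) ^ k := pow_le_pow_left₀ (by positivity) hC k
    have h3 : C₀ * NAM Φ B * p ≤ ρ ^ (2 * k) * ((#Φ : ℝ) * (#B : ℝ) ^ 2) ^ 2 := by
      have e1 : (p : ℝ) ^ (1 + δ) = p * ((p : ℝ) ^ (δ / 2) * (p : ℝ) ^ (δ / 2)) := by
        rw [Real.rpow_add hp0, Real.rpow_one, ← Real.rpow_add hp0]
        congr 2
        ring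
      have e2 : (p : ℝ) ^ (-(δ / 2)) * (p : ℝ) ^ (δ / 2) = 1 := by
        rw [← Real.rpow_add hp0]
        simp
      have e3 : 0 < (p : ℝ) ^ (-(δ / 2)) := Real.rpow_pos_of_pos hp0 _
      have e4 : 0 ≤ (NAM Φ B : ℝ) := by positivity
      rw [h2]
      calc C₀ * NAM Φ B * p = C₀ * (NAM Φ B * p) := by ring
        _ ≤ (p : ℝ) ^ (δ / 2) * (NAM Φ B * p) := mul_le_mul_of_nonneg_right hPp (by positivity)
        _ = ((p : ℝ) ^ (-(δ / 2)) * (p : ℝ) ^ (δ / 2)) *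
              ((p : ℝ) ^ (δ / 2) * (NAM Φ B * p)) := by
            rw [e2, one_mul]
        _ = (p : ℝ) ^ (-(δ / 2)) * ((p : ℝ) ^ (1 + δ) * NAM Φ B) := by rw [e1]; ring
        _ ≤ (p : ℝ) ^ (-(δ / 2)) * ((#Φ : ℝ) ^ 2 * (#B : ℝ) ^ 4) :=
            mul_le_mul_of_nonneg_left hE e3.le
        _ = (p : ℝ) ^ (-(δ / 2)) * ((#Φ : ℝ) * (#B : ℝ) ^ 2) ^ 2 := by ring
    have h4 := hH p χ hχ Φ C B ρ hΦ h1 hρ0.le h3
    refine gramAM_sq χ Φ C B m _ hm ?_ _ (fun a ha => (mem_filter.mp ha).2) β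
    refine h4.trans ?_
    have hV : (0 : ℝ) ≤ #Φ * #C * (#B : ℝ) ^ 2 := by positivity
    have a1 : (#Φ : ℝ) * (#B : ℝ) ^ 2 ≤ ρ * (#Φ * #C * (#B : ℝ) ^ 2) := by
      have := mul_le_mul_of_nonneg_left (hinv #C hC) (by positivity : (0 : ℝ) ≤ #Φ * (#B : ℝ) ^ 2)
      calc (#Φ : ℝ) * (#B : ℝ) ^ 2 = #Φ * (#B : ℝ) ^ 2 * 1 := (mul_one _).symm
        _ ≤ #Φ * (#B : ℝ) ^ 2 * (ρ * #C) := this
        _ = _ := by ring
    have a2 : 2 * (#Φ : ℝ) * #B * #C ≤ 2 * (ρ * (#Φ * #C * (#B : ℝ) ^ 2)) := by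
      have := mul_le_mul_of_nonneg_left (hinv #B hB) (by positivity : (0 : ℝ) ≤ 2 * #Φ * #B * #C)
      calc 2 * (#Φ : ℝ) * #B * #C = 2 * #Φ * #B * #C * 1 := (mul_one _).symm
        _ ≤ 2 * #Φ * #B * #C * (ρ * #B) := this
        _ = _ := by ring
    calc (#B : ℝ) ^ 2 * (#Φ * #C * ρ) + #Φ * (#B : ℝ) ^ 2 + 2 * #Φ * #B * #C ≤
          (4 * ρ) * (#Φ * #C * (#B : ℝ) ^ 2) := by linarith
      _ ≤ ((p : ℝ) ^ (-(δ / (32 * k)))) ^ 4 * (#Φ * #C * (#B : ℝ) ^ 2) :=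
          mul_le_mul_of_nonneg_right h5 hV
      _ = _ := by ring
  refine GRAMM.fin χ A B _ (∑ q ∈ F, (#q.1 : ℝ) * #q.2.1 / q.2.2)
    (Real.rpow_pos_of_pos hp0 _).le fun β => ?_
  have h6 : ∑ a ∈ A, ‖∑ b ∈ B, β b * χ (a - b)‖ ^ 2 ≤
      ∑ q ∈ F, ∑ a ∈ A.filter
        (fun a => q.2.2 ≤ #((q.1 ×ˢ q.2.1).filter fun x =>
          den x.1 x.2 ≠ 0 ∧ mob x.1 x.2 = a)),
        ‖∑ b ∈ B, β b * χ (a - b)‖ ^ 2 := by
    simp only [sum_filter]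
    rw [sum_comm]
    refine sum_le_sum fun a ha => ?_
    obtain ⟨q, hq, hqa⟩ := hA a ha
    have h7 := single_le_sum (s := F)
      (f := fun q => if q.2.2 ≤ #((q.1 ×ˢ q.2.1).filter fun x =>
          den x.1 x.2 ≠ 0 ∧ mob x.1 x.2 = a) then
        ‖∑ b ∈ B, β b * χ (a - b)‖ ^ 2 else 0)
      (fun j _ => by split_ifs <;> first | exact sq_nonneg _ | exact le_rfl) hq
    simp only [if_pos hqa] at h7
    exact h7
  refine h6.trans ((sum_le_sum fun q hq => hone q hq β).trans (le_of_eq ?_))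
  rw [← sum_mul, ← sum_mul, ← mul_sum]

end MPcb27.PG
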